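import Pool.Agent.Lib.LF.BBlue
import Pool.Agent.Lib.PN.Kit

/-! Project lf, analytic half: vanishing of a Chern number. Definitions and statements of the
blocks. -/

open scoped Classical Topology ContDiff ComplexOrder Matrix Manifold
open Set Complex Filter MvPolynomial MeasureTheory

noncomputable section

namespace Pool.Agent.Lib.LF

open Pool.Agent.Lib.SV (E nsq Cells)
open Pool.Agent.Lib.HS32 Pool.Agent.Lib.MP_7fcda1_ag
open Pool.Agent.Lib.PN (Prj PMap fs Pol)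

section chart

variable {m : ℕ}

/-- The substitution that sends `lin T` to `lin (U * T * V)`. -/
def sub (U V : Mat m) : Frm m →ₐ[ℂ] Frm m :=
  aeval fun p => ∑ b, ∑ a, C (U b p.1 * V p.2 a) * X (b, a)

/-- The matrix of forms attached to a family of matrices. -/
def cu (R : Fin m → Fin m → Mat m) : Matrix (Fin m) (Fin m) (Frm m) :=
  Matrix.of fun p q => lin (Matrix.of fun b a => R a b p q)

/-- The part of type `(1,1)` of the curvature of a connection. -/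
def kur (A : E m → Fin m → Mat m) (z : E m) (a b : Fin m) : Mat m := -dMb b (fun w => A w a) z

/-- The total Chern form. -/
def chf (A : E m → Fin m → Mat m) (z : E m) : Frm m := (1 + cu (kur A z)).det

/-- Smooth connection matrices. -/
def SmC (A : E m → Fin m → Mat m) (z : E m) : Prop := ∀ a, SmM (fun w => A w a) z

/-- Closed for the conjugate derivative. -/
def ClB (T : E m → Mat m) (z : E m) : Prop := ∀ i j k, dMb k T z i j = dMb i T z k j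

/-- The conjugate derivative of a form of type `(1,0)`. -/
def dbr (β : E m → E m) (z : E m) : Mat m := Matrix.of fun b a => dzb b (fun w => β w a) z

/-- A smooth closed form. -/
def Cls (Φ : E m → Frm m) (z : E m) : Prop :=
  (∀ μ, ContDiffAt ℝ ∞ (fun w => coeff μ (Φ w)) z) ∧ ∃ Φ' : Fin m → Frm m,
    (∀ μ l, dzb l (fun w => coeff μ (Φ w)) z = coeff μ (Φ' l)) ∧
    ∀ (a : Fin m) (Γ : Frm m), top (Γ * ∑ l, X (l, a) * Φ' l) = 0

/-- The value of a connection on a vector. -/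
def av (a : Fin m → Mat m) (u : E m) : Mat m := ∑ k, u k • a k

/-- The covariant derivative of a vector field. -/
def pa (a : Fin m → Mat m) (V : E m → E m) (z : E m) : Mat m :=
  jm V z + Matrix.of fun p k => (a k *ᵥ V z) p

/-- The difference of the covariant derivative along `V` and the derivative of Lie. -/
def bo (a : Fin m → Mat m) (V : E m → E m) (z : E m) : Mat m := av a (V z) + jm V z

/-- The covariant derivative of a covector field. -/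
def cp (a : Fin m → Mat m) (φ : E m → E m) (z : E m) : Mat m :=
  jm φ z - Matrix.of fun q k => (φ z ᵥ* a k) q

/-- Change of coordinates for the value of a connection. -/
def trn (ψ : E m → E m) (z : E m) (a : Fin m → Mat m) (k : Fin m) : Mat m :=
  (jm ψ z)⁻¹ * (∑ c, jm ψ z c k • a c) * jm ψ z + (jm ψ z)⁻¹ * dM k (jm ψ) z

/-- The integrand vanishes. -/
def Nul {j : ℕ} (R : Fin m → Fin m → Mat m) (η : Fin j → Mat m) : Prop :=
  ∀ w : Mat m, top ((1 + cu R).det * (∏ i, lin (η i)) * lin w ^ j) = 0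

end chart

section mfd

variable {m n : ℕ} {ι τ : Type} (M : Mf m)

/-- A smooth connection of type `(1,0)` on the tangent bundle. -/
structure Con (A : M.Fam (Fin m → Mat m)) : Prop where
  sm : M.All fun e z => SmC (A e) z
  cmp : M.Ov fun e e' x => A e' (e' x) = trn (e ∘ e'.symm) (e' x) (A e (e x))

/-- A smooth closed form on the manifold. -/
structure FInv (Φ : M.Fam (Frm m)) : Prop where
  cls : M.All fun e z => Cls (Φ e) z
  cmp : M.Ov fun e e' x => Φ e' (e' x) = sub (M.J e e' x)ᴴ (M.J e e' x) (Φ e (e x))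

/-- The integral of the component of top degree. -/
def itg (H : M.Fam (Mat m)) (Φ : M.Fam (Frm m)) : ℂ :=
  ∫ x, M.ev (fun e z => top (Φ e z) / (H e z).det) x ∂M.mu H

/-- The connection of Chern. -/
def chc (H : M.Fam (Mat m)) : M.Fam (Fin m → Mat m) := fun e z a => gam (H e) a z

/-- A holomorphic symplectic form. -/
structure Syf (S : M.Fam (Mat m)) : Prop where
  hol : M.All fun e z => ∀ a b, HolN (fun w => S e w a b) z
  cmp : M.Ov fun e e' x => S e' (e' x) = (M.J e e' x)ᵀ * S e (e x) * M.J e e' x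
  skew : M.All fun e z => (S e z)ᵀ = -S e z
  det : M.All fun e z => (S e z).det ≠ 0
  cl : M.All fun e z => ∀ a b c, dM a (S e) z b c + dM b (S e) z c a + dM c (S e) z a b = 0

variable {M}

/-- The Jacobian matrix of the affine coordinates. -/
def jb [Fintype ι] (p : M.X → ι → ℂ) (c : ι) (e : M.Ch) (z : E m) : Matrix ι (Fin m) ℂ :=
  Matrix.of fun l q => fderiv ℂ (aff p c ∘ e.symm) z (Pi.single q 1) l

/-- The functions on the base commute. -/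
def Lg [Fintype ι] (S : M.Fam (Mat m)) (p : M.X → ι → ℂ) : Prop :=
  M.All fun e z => ∀ c, p (e.symm z) c ≠ 0 → jb p c e z * (S e z)⁻¹ * (jb p c e z)ᵀ = 0

/-- The brackets of the affine coordinates are polynomials. -/
def Pal [Fintype ι] (S : M.Fam (Mat m)) (f : M.X → ι → ℂ) : Prop :=
  ∀ c a b, ∃ P : Po ι, M.All fun e z => f (e.symm z) c ≠ 0 →
    (jb f c e z * (S e z)⁻¹ * (jb f c e z)ᵀ) a b = eval (aff f c (e.symm z)) P

/-- The covectors on the base whose pull-back vanishes at `x`. -/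
def Kx [Fintype ι] (p : M.X → ι → ℂ) (x : M.X) : Submodule ℂ (ι → ℂ) where
  carrier := {ξ | ξ ⬝ᵥ p x = 0 ∧ ∀ e ∈ M.C, x ∈ e.source → ∀ c, p x c ≠ 0 →
    ξ ᵥ* jb p c e (e x) = 0}
  zero_mem' := ⟨zero_dotProduct _, fun _ _ _ _ _ => Matrix.zero_vecMul _⟩
  add_mem' := fun h h' => ⟨by rw [add_dotProduct, h.1, h'.1, add_zero], fun e he hx c hc => by
    rw [Matrix.add_vecMul, h.2 e he hx c hc, h'.2 e he hx c hc, add_zero]⟩
  smul_mem' := fun a _ h => ⟨by rw [smul_dotProduct, h.1, smul_zero], fun e he hx c hc => by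
    rw [Matrix.smul_vecMul, h.2 e he hx c hc, smul_zero]⟩

/-- The pull-back of the twisted form attached to the matrix `N`. -/
def cov (p : M.X → E (n + 1)) (N : Mat (n + 1)) (c : Fin (n + 1)) (e : M.Ch) (z : E m) : E m :=
  (N *ᵥ aff p c (e.symm z)) ᵥ* jb p c e z

/-- The vector field dual to that form. -/
def ham (S : M.Fam (Mat m)) (p : M.X → E (n + 1)) (N : Mat (n + 1)) (c : Fin (n + 1)) (e : M.Ch)
    (z : E m) : E m := (S e z)⁻¹ *ᵥ cov p N c e z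

/-- The forms are independent at `x`. -/
def Indp [Fintype τ] (p : M.X → E (n + 1)) (N : τ → Mat (n + 1)) (x : M.X) : Prop :=
  ∀ a : τ → ℂ, (∑ r, a r • N r) *ᵥ p x ∈ Kx p x → a = 0

/-- Skew matrices. -/
def Skw (N : τ → Mat n) : Prop := ∀ r, (N r)ᵀ = -N r

/-- The standing hypotheses. -/
structure Fib (S : M.Fam (Mat m)) (p : M.X → E (n + 1)) : Prop where
  sy : Syf M S
  pm : PMap M p
  lg : Lg S p

variable (S : M.Fam (Mat m)) (p : M.X → E (n + 1))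

/-- The strict condition of Bott. -/
def BW (N : τ → Mat (n + 1)) (c : Fin (n + 1)) (e : M.Ch) (z : E m) (a : Fin m → Mat m) : Prop :=
  ∀ r, bo a (ham S p (N r) c e) z = 0

/-- Parallel fields and parallel forms. -/
def RK {j : ℕ} (N : Fin (j + 1) → Mat (n + 1)) (c : Fin (n + 1)) (e : M.Ch) (z : E m)
    (a : Fin m → Mat m) : Prop :=
  (∀ r, pa a (ham S p (N r) c e) z = 0) ∧ ∀ r : Fin j, cp a (cov p (N r.castSucc) c e) z = 0

/-- The twisted condition of Bott. -/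
def BS (N : τ → Mat (n + 1)) (e : M.Ch) (z : E m) (a : Fin m → Mat m) : Prop :=
  ∀ c, p (e.symm z) c ≠ 0 → ∀ r,
    (∀ u, pa a (ham S p (N r) c e) z *ᵥ u ∈
      Submodule.span ℂ (range fun s => ham S p (N s) c e z)) ∧
    (∀ u, bo a (ham S p (N r) c e) z *ᵥ u ∈
      Submodule.span ℂ (range fun s => ham S p (N s) c e z)) ∧
    ∀ s, bo a (ham S p (N r) c e) z *ᵥ ham S p (N s) c e z = 0

/-- The matrix `T` kills the values of the vertical holomorphic fields. -/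
def Vert (e : M.Ch) (z : E m) (T : Mat m) : Prop :=
  ∀ (c : Fin (n + 1)) (V : E m → E m), p (e.symm z) c ≠ 0 → HolN V z →
    (∀ᶠ w in 𝓝 z, jb p c e w *ᵥ V w = 0) → T *ᵥ V z = 0

/-- The squared norm of a linear form. -/
def uu {X : Type} (p : X → E (n + 1)) (l : E (n + 1)) (x : X) : ℝ := normSq (l ⬝ᵥ p x) / nsq (p x)

/-- The orthogonal projection on a line. -/
def kap [Fintype ι] (b : ι → ℂ) (i j : ι) : ℂ := b i * star (b j) / nsq b

/-- The morphism is given by the forms `Q`. -/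
structure Mq {X κ σ : Type} (y : X → ι → ℂ) (p : X → κ → ℂ) (d : σ → ℕ) (Q : σ → κ → Po ι) :
    Prop where
  ne : ∀ x, p x ≠ 0
  hom : ∀ s l, (Q s l).IsHomogeneous (d s)
  cov : ∀ x, ∃ s l, eval (y x) (Q s l) ≠ 0
  par : ∀ s x, ∃ a : ℂ, (fun l => eval (y x) (Q s l)) = a • p x

end mfd

/-! ### Algebra at a point -/

/-- The component of top degree. -/
def St_TOP : Prop := ∀ m : ℕ,
  (∃ t : Frm m →ₗ[ℂ] ℂ, ∀ P, t P = top P) ∧
  (∃ t : Mat m →ₗ[ℂ] Frm m, ∀ T, t T = lin T) ∧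
  (∀ U V T : Mat m, sub U V (lin T) = lin (U * T * V)) ∧
  (∀ (U V : Mat m) (P : Frm m), top (sub U V P) = U.det * V.det * top P) ∧
  (∀ (Γ : Frm m) (l a b c : Fin m),
    top (Γ * (X (l, a) * X (b, c))) = -top (Γ * (X (b, a) * X (l, c)))) ∧
  (∀ P : Frm m, P.totalDegree < m → top P = 0) ∧
  (∀ T : Mat m, (lin T).totalDegree ≤ 1) ∧
  ∀ (R : Fin m → Fin m → Mat m) (U V g g' : Mat m),
    cu (fun k l => g * (∑ a, ∑ b, (V a k * U l b) • R a b) * g') =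
      g.map C * (cu R).map (sub U V) * g'.map C

/-- Vanishing for reasons of rank. -/
def St_VANR : Prop := ∀ (m j : ℕ) (R : Fin m → Fin m → Mat m) (Z : Fin (j + 1) → E m)
  (φ : Fin j → E m) (η : Fin j → Mat m), LinearIndependent ℂ Z → LinearIndependent ℂ φ →
  (∀ t s, φ t ⬝ᵥ Z s = 0) → (∀ a b s, R a b *ᵥ Z s = 0) → (∀ a b t, φ t ᵥ* R a b = 0) → Nul R η

/-- Vanishing of the type of Bott. -/
def St_VANB : Prop := ∀ (m j : ℕ) (R : Fin m → Fin m → Mat m) (Y : Fin (j + 1) → E m)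
  (F : Submodule ℂ (E m)) (η : Fin j → Mat m), LinearIndependent ℂ Y →
  (∀ a b, ∀ v ∈ F, R a b *ᵥ v ∈ F) → (∀ r b v, av (fun a => R a b) (Y r) *ᵥ v ∈ F) →
  (∀ r b, ∀ v ∈ F, av (fun a => R a b) (Y r) *ᵥ v = 0) → (∀ i r, η i *ᵥ Y r = 0) → Nul R η

/-- Isotropy. -/
def St_ISO : Prop := ∀ (k : Subfield ℂ) (n : ℕ) (b ξ : E (n + 1)) (c : Fin (n + 1)), b c = 1 →
  ξ ⬝ᵥ b = 0 → (∀ δ : Derivation k ℂ ℂ, ∑ l, ξ l * δ (b l) = 0) →
    rk k (range b ∪ range ξ) ≤ n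

/-- The generic choice. -/
def St_GEN : Prop := ∀ (k : Subfield ℂ) (j n : ℕ), (k : Set ℂ).Countable →
  ∃ (l : Fin j → E (n + 1)) (N : Fin (j + 1) → Mat (n + 1)) (B : Set (E (n + 1))), Skw N ∧
    B.Countable ∧ ∀ (b : E (n + 1)) (c : Fin (n + 1)), b c = 1 → (∀ i, l i ⬝ᵥ b = 0) →
      (j : ℕ∞) ≤ rk k (range b) ∧ ∀ a : Fin (j + 1) → ℂ, a ≠ 0 →
        (∀ t : ℂ, rk k (range b ∪ range (t • (∑ r, a r • N r) *ᵥ b)) ≤ n) →
        a (Fin.last j) ≠ 0 ∧ b ∈ B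

/-- Locally constant choice near a compact set with countable image; one more form. -/
def St_ZON : Prop := (∀ (X Y τ : Type) [TopologicalSpace X] [CompactSpace X] [T2Space X]
    [MetricSpace Y] [Nonempty τ] (κ : X → Y) (D : Set X) (O : τ → Set X), Continuous κ →
    IsClosed D → (κ '' D).Countable → (∀ t, IsOpen (O t)) →
    (∀ x ∈ D, ∃ t, ∀ x', κ x' = κ x → x' ∈ O t) → ∃ (t : X → τ) (r : X → ℝ), Continuous r ∧
      (∀ x ∈ D, r x = 0) ∧ ∀ x, r x < 1 → x ∈ O (t x) ∧ ∀ᶠ x' in 𝓝 x, t x' = t x) ∧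
  ∀ (j k : ℕ) (N : Fin j → Mat (j + k + 1)) (b : E (j + k + 1)) (K : Set (E (j + k + 1))),
    b ≠ 0 → (∀ ξ : Fin k → E (j + k + 1), (∀ r, ξ r ∈ K) → ¬LinearIndependent ℂ ξ) →
      ∃ N' : Mat (j + k + 1), N'ᵀ = -N' ∧ ∀ (a : Fin j → ℂ) (a' : ℂ),
        (∑ r, a r • N r + a' • N') *ᵥ b ∈ K → a' = 0

/-! ### Calculus in a chart -/

/-- Closed forms and the identity of Piola. -/
def St_CLS : Prop := ∀ (m : ℕ) (z : E m),
  (∃ A : Subalgebra ℂ (E m → Frm m), ∀ Φ, Φ ∈ A ↔ Cls Φ z) ∧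
  (∀ Γ : Frm m, Cls (fun _ => Γ) z) ∧
  (∀ Φ Φ' : E m → Frm m, Cls Φ z → Φ' =ᶠ[𝓝 z] Φ → Cls Φ' z) ∧
  (∀ T : E m → Mat m, SmM T z → ClB T z → Cls (fun w => lin (T w)) z) ∧
  (∀ T : E m → Mat m, SmM T z → (∀ᶠ w in 𝓝 z, (T w).IsHermitian) → ClM T z → ClB T z) ∧
  (∀ β : E m → E m, ContDiffAt ℝ ∞ β z → SmM (dbr β) z ∧ ClB (dbr β) z) ∧
  (∀ R : E m → Matrix (Fin m) (Fin m) (Frm m), (∀ p q, Cls (fun w => R w p q) z) →
    Cls (fun w => (R w).det) z ∧ ∀ p q, Cls (fun w => (R w).adjugate p q) z) ∧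
  (∀ Φ : E m → Frm m, Cls Φ z → ContDiffAt ℝ ∞ (fun w => top (Φ w)) z) ∧
  ∀ (I : Type) [Fintype I] (β : I → E m → E m) (Φ : I → E m → Frm m),
    (∀ i, ContDiffAt ℝ ∞ (β i) z) → (∀ i, Cls (Φ i) z) →
    ContDiffAt ℝ ∞ (fun w l => top (∑ a, X (l, a) * ∑ i, C (β i w a) * Φ i w)) z ∧
    dvb (fun w l => top (∑ a, X (l, a) * ∑ i, C (β i w a) * Φ i w)) z =
      top (∑ i, lin (dbr (β i) z) * Φ i z)

/-- Change of coordinates. -/
def St_TRS : Prop := ∀ (m : ℕ) (ψ : E m → E m) (z : E m), HolN ψ z → (jm ψ z).det ≠ 0 →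
  (∀ (a : Fin m → Mat m) (V V' : E m → E m), HolN V (ψ z) →
    ((∀ᶠ w in 𝓝 z, jm ψ w *ᵥ V' w = V (ψ w)) →
      jm ψ z * pa (trn ψ z a) V' z = pa a V (ψ z) * jm ψ z ∧
      jm ψ z * bo (trn ψ z a) V' z = bo a V (ψ z) * jm ψ z) ∧
    ((∀ᶠ w in 𝓝 z, V' w = V (ψ w) ᵥ* jm ψ w) →
      cp (trn ψ z a) V' z = (jm ψ z)ᵀ * cp a V (ψ z) * jm ψ z)) ∧
  (∀ φ : E m → E m, HolN φ (ψ z) → (jm φ (ψ z)).det ≠ 0 → ∀ a,
    trn (φ ∘ ψ) z a = trn ψ z (trn φ (ψ z) a)) ∧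
  ∀ A A' : E m → Fin m → Mat m, SmC A (ψ z) → (∀ᶠ w in 𝓝 z, A' w = trn ψ w (A (ψ w))) →
    SmC A' z ∧ ∀ k l, kur A' z k l =
      (jm ψ z)⁻¹ * (∑ a, ∑ b, (jm ψ z a k * (jm ψ z)ᴴ l b) • kur A (ψ z) a b) * jm ψ z

/-- Local solutions. -/
def St_LOC : Prop := ∀ (m : ℕ) (τ σ κ : Type) [Fintype τ] [Fintype σ] [Fintype κ]
  (Y : τ → E m → E m) (Z : σ → E m → E m) (φ : κ → E m → E m) (z : E m), (∀ r, HolN (Y r) z) →
  (∀ s, HolN (Z s) z) → (∀ t, HolN (φ t) z) → (LinearIndependent ℂ fun r => Y r z) →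
  (LinearIndependent ℂ fun s => Z s z) → (LinearIndependent ℂ fun t => φ t z) →
  (∀ᶠ w in 𝓝 z, (∀ t s, φ t w ⬝ᵥ Z s w = 0) ∧
    (∀ r s, jm (Z s) w *ᵥ Y r w = jm (Y r) w *ᵥ Z s w) ∧
    ∀ r t, jm (φ t) w *ᵥ Y r w + φ t w ᵥ* jm (Y r) w = 0) →
    ∃ A : E m → Fin m → Mat m, ∀ᶠ w in 𝓝 z, SmC A w ∧ (∀ r, bo (A w) (Y r) w = 0) ∧
      (∀ s, pa (A w) (Z s) w = 0) ∧ ∀ t, cp (A w) (φ t) w = 0

/-- Consequences for the curvature. -/
def St_KUR : Prop := ∀ (m : ℕ) (A : E m → Fin m → Mat m) (z : E m) (V : E m → E m), SmC A z →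
  HolN V z →
  ((∀ᶠ w in 𝓝 z, pa (A w) V w = 0) → ∀ a b, kur A z a b *ᵥ V z = 0) ∧
  ((∀ᶠ w in 𝓝 z, cp (A w) V w = 0) → ∀ a b, V z ᵥ* kur A z a b = 0) ∧
  (∀ V' : E m → E m, HolN V' z → (∀ᶠ w in 𝓝 z, bo (A w) V w *ᵥ V' w = 0) →
    ∀ b, av (fun a => kur A z a b) (V z) *ᵥ V' z = 0) ∧
  ∀ (τ : Type) [Fintype τ] (Z : τ → E m → E m), (∀ s, HolN (Z s) z) →
    (LinearIndependent ℂ fun s => Z s z) →
    ((∀ᶠ w in 𝓝 z, ∀ u, pa (A w) V w *ᵥ u ∈ Submodule.span ℂ (range fun s => Z s w)) →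
      ∀ a b, kur A z a b *ᵥ V z ∈ Submodule.span ℂ (range fun s => Z s z)) ∧
    ((∀ᶠ w in 𝓝 z, ∀ u, bo (A w) V w *ᵥ u ∈ Submodule.span ℂ (range fun s => Z s w)) →
      ∀ b u, av (fun a => kur A z a b) (V z) *ᵥ u ∈ Submodule.span ℂ (range fun s => Z s z))

/-! ### Manifolds -/

/-- The theorem of Stokes. -/
def St_STK : Prop := ∀ (m : ℕ) (M : Mf m) [M.Cpt] (H : M.Fam (Mat m)), M.Met H →
  (∀ Φ, FInv M Φ → M.Inv (fun e z => top (Φ e z) / (H e z).det) ∧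
    Continuous (M.ev fun e z => top (Φ e z) / (H e z).det)) ∧
  ∀ (I : Type) [Fintype I] (β : I → M.Fam (E m)) (Φ : I → M.Fam (Frm m)),
    (∀ i, M.All fun e z => ContDiffAt ℝ ∞ (β i e) z ∧ Cls (Φ i e) z) →
    (M.Ov fun e e' x => ∀ a, ∑ i, C (β i e' (e' x) a) * Φ i e' (e' x) =
      ∑ c, C (M.J e e' x c a) *
        sub (M.J e e' x)ᴴ (M.J e e' x) (∑ i, C (β i e (e x) c) * Φ i e (e x))) →
    Continuous (M.ev fun e z => top (∑ i, lin (dbr (β i e) z) * Φ i e z) / (H e z).det) ∧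
    itg M H (fun e z => ∑ i, lin (dbr (β i e) z) * Φ i e z) = 0

/-- Invariant forms. -/
def St_INV : Prop := ∀ (m : ℕ) (M : Mf m),
  (∀ H, M.Met H → Con M (chc M H)) ∧
  (∀ A, Con M A → FInv M (fun e => chf (A e)) ∧
    (M.All fun e z => ∀ p q, Cls (fun w => cu (kur (A e) w) p q) z) ∧
    M.Ov fun e e' x => cu (kur (A e') (e' x)) = (M.J e e' x)⁻¹.map C *
      (cu (kur (A e) (e x))).map (sub (M.J e e' x)ᴴ (M.J e e' x)) * (M.J e e' x).map C) ∧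
  (∀ T, M.Clo T → FInv M fun e z => lin (T e z)) ∧
  ∃ A : Subalgebra ℂ (M.Fam (Frm m)), ∀ Φ, Φ ∈ A ↔ FInv M Φ

/-- The integral does not depend on the connection. -/
def St_TRA : Prop := ∀ (m : ℕ) (M : Mf m) [M.Cpt] (H : M.Fam (Mat m)) (A A' : M.Fam (Fin m → Mat m))
  (Ψ : M.Fam (Frm m)), M.Met H → Con M A → Con M A' → FInv M Ψ →
    itg M H (fun e z => chf (A e) z * Ψ e z) = itg M H fun e z => chf (A' e) z * Ψ e z

/-- The integral depends only on the classes. -/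
def St_TRH : Prop := ∀ (m j : ℕ) (M : Mf m) [M.Cpt] (H T : M.Fam (Mat m)) (u : Fin j → M.X → ℝ)
  (Φ : M.Fam (Frm m)), M.Met H → M.Clo T → (∀ i, M.Sm (u i)) → FInv M Φ →
    itg M H (fun e z => Φ e z * ∏ i, lin (T e z + M.hs (u i) e z)) =
      itg M H fun e z => Φ e z * lin (T e z) ^ j

/-- A representative of the hyperplane class with small support. -/
def St_ETA : Prop := ∀ (m n : ℕ) (M : Mf m) (p : M.X → E (n + 1)) (l : E (n + 1)), PMap M p →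
  Continuous (uu p l) ∧ ∀ ε : ℝ, 0 < ε → ∃ u : M.X → ℝ, M.Sm u ∧ M.All fun e z =>
    (ε < uu p l (e.symm z) → fs M p e z + M.hs u e z = 0) ∧ Vert p e z (fs M p e z + M.hs u e z)

/-- The affine coordinates and the kernel. -/
def St_KX : Prop := ∀ (m : ℕ) (M : Mf m) (ι : Type) [Fintype ι] (p : M.X → ι → ℂ), PMap M p →
  (∀ c, IsOpen {x | p x c ≠ 0}) ∧
  (Continuous (fun x => kap (p x)) ∧
    ∀ x x', kap (p x') = kap (p x) ↔ ∃ a : ℂ, p x' = a • p x) ∧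
  (∀ (b : ι → ℂ) (a : ℂ), a ≠ 0 → kap (a • b) = kap b) ∧
  (M.All fun e z => ∀ c, p (e.symm z) c ≠ 0 → (∀ᶠ w in 𝓝 z, p (e.symm w) c ≠ 0) ∧
    HolN (aff p c ∘ e.symm) z ∧ (∀ l q, HolN (fun w => jb p c e w l q) z) ∧
    (∀ v, fderiv ℂ (aff p c ∘ e.symm) z v = jb p c e z *ᵥ v) ∧ jb p c e z c = 0 ∧
    PN.Lift M p e z (aff p c ∘ e.symm) ∧
    (∀ c', p (e.symm z) c' ≠ 0 → jb p c' e z = (aff p c (e.symm z) c')⁻¹ • jb p c e z -
      (aff p c (e.symm z) c')⁻¹ ^ 2 • Matrix.vecMulVec (aff p c (e.symm z)) (jb p c e z c')) ∧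
    ∀ ξ, ξ ⬝ᵥ p (e.symm z) = 0 → ξ ᵥ* jb p c e z = 0 → ξ ∈ Kx p (e.symm z)) ∧
  M.Ov fun e e' x => ∀ c, p x c ≠ 0 → jb p c e' (e' x) = jb p c e (e x) * M.J e e' x

/-- The vector fields dual to the pull-backs of forms. -/
def St_HAM : Prop := ∀ (m n : ℕ) (M : Mf m) (S : M.Fam (Mat m)) (p : M.X → E (n + 1))
  (N N' : Mat (n + 1)) (c : Fin (n + 1)), Fib S p →
  (M.All fun e z => p (e.symm z) c ≠ 0 → HolN (ham S p N c e) z ∧ HolN (cov p N c e) z ∧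
    jb p c e z *ᵥ ham S p N c e z = 0 ∧ cov p N' c e z ⬝ᵥ ham S p N c e z = 0 ∧
    jm (ham S p N' c e) z *ᵥ ham S p N c e z = jm (ham S p N c e) z *ᵥ ham S p N' c e z ∧
    jm (cov p N' c e) z *ᵥ ham S p N c e z + cov p N' c e z ᵥ* jm (ham S p N c e) z = 0 ∧
    ∀ c', Nᵀ = -N → p (e.symm z) c' ≠ 0 →
      ham S p N c' e z = (aff p c (e.symm z) c')⁻¹ ^ 2 • ham S p N c e z) ∧
  M.Ov fun e e' x => p x c ≠ 0 →
    M.J e e' x *ᵥ ham S p N c e' (e' x) = ham S p N c e (e x) ∧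
    cov p N c e' (e' x) = cov p N c e (e x) ᵥ* M.J e e' x

/-- Independence of the fields. -/
def St_IDP : Prop := ∀ (m n : ℕ) (M : Mf m) (S : M.Fam (Mat m)) (p : M.X → E (n + 1)) (τ : Type)
  [Fintype τ] (N : τ → Mat (n + 1)), Fib S p → Skw N → IsOpen {x | Indp p N x} ∧
    M.All fun e z => ∀ c, p (e.symm z) c ≠ 0 →
      (Indp p N (e.symm z) ↔ LinearIndependent ℂ fun r => cov p (N r) c e z) ∧
      (Indp p N (e.symm z) ↔ LinearIndependent ℂ fun r => ham S p (N r) c e z)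

/-- Gluing of local solutions of convex conditions. -/
def St_GLU : Prop := ∀ (m : ℕ) (M : Mf m) [M.Cpt] (H : M.Fam (Mat m))
  (K : M.Ch → E m → Set (Fin m → Mat m)), M.Met H → (∀ e z, Convex ℝ (K e z)) →
  (M.Ov fun e e' x => ∀ a ∈ K e (e x), trn (e ∘ e'.symm) (e' x) a ∈ K e' (e' x)) →
  (∀ x, ∃ e ∈ M.C, x ∈ e.source ∧ ∃ A : E m → Fin m → Mat m,
    ∀ᶠ w in 𝓝 (e x), SmC A w ∧ A w ∈ K e w) → ∃ A, Con M A ∧ M.All fun e z => A e z ∈ K e z

/-- The three conditions are convex and do not depend on the chart. -/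
def St_CND : Prop := ∀ (m n j : ℕ) (M : Mf m) (S : M.Fam (Mat m)) (p : M.X → E (n + 1))
  (N : Fin (j + 1) → Mat (n + 1)) (c : Fin (n + 1)), Fib S p → Skw N →
  (∀ e z, Convex ℝ {a | BW S p N c e z a} ∧ Convex ℝ {a | RK S p N c e z a} ∧
    Convex ℝ {a | BS S p N e z a}) ∧
  (M.Ov fun e e' x => ∀ a,
    (p x c ≠ 0 → BW S p N c e (e x) a → BW S p N c e' (e' x) (trn (e ∘ e'.symm) (e' x) a)) ∧
    (p x c ≠ 0 → RK S p N c e (e x) a → RK S p N c e' (e' x) (trn (e ∘ e'.symm) (e' x) a)) ∧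
    (BS S p N e (e x) a → BS S p N e' (e' x) (trn (e ∘ e'.symm) (e' x) a))) ∧
  M.All fun e z => ∀ a, p (e.symm z) c ≠ 0 → BW S p N c e z a → RK S p N c e z a → BS S p N e z a

/-- Local solutions on the manifold, and the vanishing of the integrand. -/
def St_SOL : Prop := ∀ (m n j : ℕ) (M : Mf m) (S : M.Fam (Mat m)) (p : M.X → E (n + 1))
  (N : Fin (j + 1) → Mat (n + 1)) (c : Fin (n + 1)), Fib S p → Skw N →
  M.All fun e z => p (e.symm z) c ≠ 0 → Indp p N (e.symm z) →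
    (∃ A : E m → Fin m → Mat m, ∀ᶠ w in 𝓝 z, SmC A w ∧ BW S p N c e w (A w)) ∧
    (∀ N' : Fin (j + 1) → Mat (n + 1), Skw N' → Indp p N' (e.symm z) →
      ∃ A : E m → Fin m → Mat m, ∀ᶠ w in 𝓝 z,
        SmC A w ∧ BW S p N' c e w (A w) ∧ RK S p N c e w (A w)) ∧
    ∀ (A : E m → Fin m → Mat m) (η : Fin j → Mat m), SmC A z → (∀ i, Vert p e z (η i)) →
      (∀ᶠ w in 𝓝 z, BW S p N c e w (A w)) ∨ (∀ᶠ w in 𝓝 z, RK S p N c e w (A w)) ∨
        (∀ᶠ w in 𝓝 z, BS S p N e w (A w)) → Nul (kur A z) η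

/-- A connection whose integrand vanishes near the closed set `P`. -/
def St_CON : Prop := ∀ (m n j : ℕ) (M : Mf m) [M.Cpt] (H S : M.Fam (Mat m)) (p : M.X → E (n + 1))
  (N : Fin (j + 1) → Mat (n + 1)) (t : M.X → Fin (n + 1) × Mat (n + 1)) (r : M.X → ℝ)
  (P : Set M.X), M.Met H → Fib S p → Skw N → Continuous r → IsClosed P →
  (∀ x ∈ P, ¬Indp p N x → r x = 0) →
  (∀ x, r x < 1 → (p x (t x).1 ≠ 0 ∧ (t x).2ᵀ = -(t x).2 ∧
    Indp p (Function.update N (Fin.last j) (t x).2) x) ∧ ∀ᶠ x' in 𝓝 x, t x' = t x) →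
    ∃ (A : M.Fam (Fin m → Mat m)) (U : Set M.X), Con M A ∧ IsOpen U ∧ P ⊆ U ∧
      M.All fun e z => e.symm z ∈ U → ∀ η : Fin j → Mat m, (∀ i, Vert p e z (η i)) →
        Nul (kur (A e) z) η

/-- Derivations of the field of complex numbers give tangent vectors. -/
def St_TGT : Prop := ∀ (ρ m e : ℕ) (M : Mf m) (Λ κ σ : Type) [Fintype κ] (G : Λ → Pol (ρ + m))
  (f : M.X → Fin (ρ + m + 1) → ℂ) (p : M.X → κ → ℂ) (d : σ → ℕ) (Q : σ → κ → Pol (ρ + m))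
  (k : Subfield ℂ), Prj M e G f → Mq f p d Q → PMap M p → (∀ l, Cf k (G l)) →
  (∀ s l, Cf k (Q s l)) → ∀ x c, p x c ≠ 0 → ∀ ξ ∈ Kx p x, ∀ δ : Derivation k ℂ ℂ,
    ∑ l, ξ l * δ (aff p c x l) = 0

/-- The analytic half. -/
def St_ANA : Prop := ∀ (j k m : ℕ) (M : Mf m) [M.Cpt] (H S : M.Fam (Mat m))
  (p : M.X → E (j + k + 1)) (k₀ : Subfield ℂ), M.Kae H → Fib S p → (k₀ : Set ℂ).Countable →
  (∀ x c, p x c ≠ 0 → ∀ ξ ∈ Kx p x, rk k₀ (range (aff p c x) ∪ range ξ) ≤ (j + k : ℕ)) →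
  itg M H (fun e z => chf (chc M H e) z * lin (fs M p e z) ^ j * lin (H e z) ^ j) ≠ 0 →
    ∃ (x : M.X) (c : Fin (j + k + 1)) (ξ : Fin k → E (j + k + 1)), p x c ≠ 0 ∧
      (j : ℕ∞) ≤ rk k₀ (range (aff p c x)) ∧ LinearIndependent ℂ ξ ∧
      ∀ r, ∃ (x' : M.X) (a : ℂ), p x' = a • p x ∧ ξ r ∈ Kx p x'

/-- The Hamiltonian fields in homogeneous coordinates. -/
def St_VF : Prop := ∀ (ρ m n e : ℕ) (M : Mf m) (Λ σ : Type) (G : Λ → Pol (ρ + m))
  (f : M.X → Fin (ρ + m + 1) → ℂ) (S : M.Fam (Mat m)) (p : M.X → E (n + 1)) (d : σ → ℕ)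
  (Q : σ → Fin (n + 1) → Pol (ρ + m)) (c : Fin (n + 1)), Prj M e G f → Mq f p d Q → Fib S p →
  Pal S f → ∃ v : E (n + 1) →ₗ[ℂ] M.X → Fin (ρ + m + 1) → ℂ, ∀ ξ,
    (∀ x, p x c ≠ 0 → ∃ e h H, Rep f univ (v ξ) e h H ∧ eval (f x) h ≠ 0 ∧
      ∀ x', eval (f x') h ≠ 0 → p x' c ≠ 0) ∧
    (∀ (g : Pol (ρ + m)) (e : ℕ), g.IsHomogeneous e → Van f univ g → ∀ x, p x c ≠ 0 →
      dir g (f x) (v ξ x) = 0) ∧
    (∀ x s l, p x c ≠ 0 → dir (Q s l) (f x) (v ξ x) * eval (f x) (Q s c) =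
      dir (Q s c) (f x) (v ξ x) * eval (f x) (Q s l)) ∧
    ∀ x, p x c ≠ 0 → ξ ⬝ᵥ p x = 0 → (Zer f (v ξ) x ↔ ξ ∈ Kx p x)

/-- The theorem on the manifold layer. -/
def St_MAIN : Prop := ∀ (j k ρ m e r r' : ℕ) (M : Mf m) [M.Cpt] (G : Fin r → Pol (ρ + m))
  (f : M.X → Fin (ρ + m + 1) → ℂ) (H S : M.Fam (Mat m)) (p : M.X → E (j + k + 1))
  (d : Fin r' → ℕ) (Q : Fin r' → Fin (j + k + 1) → Pol (ρ + m)), Prj M e G f → Mq f p d Q →
  Fib S p → Pal S f → M.Kae H → (∀ x, IsPreconnected {x' | ∃ a : ℂ, p x' = a • p x}) →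
  itg M H (fun e z => chf (chc M H e) z * lin (fs M p e z) ^ j * lin (H e z) ^ j) ≠ 0 →
  DimLt id {b | ∀ z (a : ℂ), b = a • p z → Kx p z ≠ ⊥} j → Concl f (j * 2) (j * 2 + k)

/-! ### From the statement to the manifold layer -/

section bridge

open Pool.Agent.Lib.HS.BBR (mf)

variable {m : ℕ} {X : Type} [TopologicalSpace X] [ChartedSpace (E m) X]
  [IsManifold 𝓘(ℂ, E m) ω X]

/-- A Hermitian tensor in all charts. -/
def famH (h : X → Mat m) : (mf m X).Fam (Mat m) := fun e z =>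
  (jm (chartAt (M := X) (E m) (e.symm z) ∘ e.symm) z)ᴴ * h (e.symm z) *
    jm (chartAt (M := X) (E m) (e.symm z) ∘ e.symm) z

/-- A `2`-form in all charts. -/
def famS (S : X → Mat m) : (mf m X).Fam (Mat m) := fun e z =>
  (jm (chartAt (M := X) (E m) (e.symm z) ∘ e.symm) z)ᵀ * S (e.symm z) *
    jm (chartAt (M := X) (E m) (e.symm z) ∘ e.symm) z

end bridge

/-- The embedding and the morphism. -/
def St_BR1 : Prop := ∀ (m ρ n : ℕ) (X : Type) [TopologicalSpace X] [ChartedSpace (E m) X]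
  [IsManifold 𝓘(ℂ, E m) ω X] (y : X → E (ρ + m + 1)) (p : X → E (n + 1)), Emb m ρ y → Mor y p →
  (∃ (r e : ℕ) (G : Fin r → Pol (ρ + m)), Prj (HS.BBR.mf m X) e G y) ∧
    PMap (HS.BBR.mf m X) p ∧ ∀ x, Subm m p x → Kx (M := HS.BBR.mf m X) p x = ⊥

/-- The symplectic form. -/
def St_BR2 : Prop := ∀ (m n : ℕ) (X ι : Type) [Fintype ι] [TopologicalSpace X]
  [ChartedSpace (E m) X] [IsManifold 𝓘(ℂ, E m) ω X] (y : X → ι → ℂ) (p : X → E (n + 1))
  (S : X → Mat m), PMap (HS.BBR.mf m X) y → PMap (HS.BBR.mf m X) p → Sympl y S → Lagr S p →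
    Fib (famS S) p ∧ Pal (famS S) y

/-- The metric and the integral. -/
def St_BR3 : Prop := ∀ (m n j r : ℕ) (X : Type) [TopologicalSpace X] [ChartedSpace (E m) X]
  [IsManifold 𝓘(ℂ, E m) ω X] [(HS.BBR.mf m X).Cpt] (p : X → E (n + 1)) (g : X → Mat m)
  (x : Fin r → X) (B : Fin r → Set (E m)), PMap (HS.BBR.mf m X) p → GH.Kaehler g → Cells x B →
    (HS.BBR.mf m X).Kae (famH g) ∧ chern j g (fsm m p) x B = itg (HS.BBR.mf m X) (famH g)
      fun e z => chf (chc _ (famH g) e) z * lin (fs (HS.BBR.mf m X) p e z) ^ j *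
        lin (famH g e z) ^ j

end Pool.Agent.Lib.LF
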