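import Pool.Agent.Lib.LF.ABlue
import Pool.Agent.Lib.PN.B_FS
import Pool.Agent.Lib.PN.B_LG
import Pool.Agent.Lib.PN.B_LG2
import Pool.Agent.Lib.PN.B_CMP

/-! Project lf: assembly of the analytic half. -/

open scoped Classical Topology Matrix
open Set Filter

noncomputable section

namespace Pool.Agent.Lib.LF

open Pool.Agent.Lib.SV (E nsq)
open Pool.Agent.Lib.HS32 Pool.Agent.Lib.MP_7fcda1_ag
open Pool.Agent.Lib.PN (PMap fs)

namespace ANA

theorem skw {n j : ℕ} {N : Fin j → Mat n} (h : Skw N) {T : Mat n} (hT : Tᵀ = -T) (i : Fin j) :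
    Skw (Function.update N i T) := fun r => by
  by_cases hr : r = i
  · rw [hr, Function.update_self, hT]
  · rw [Function.update_of_ne hr, h r]

theorem sum_upd {n j : ℕ} (N : Fin (j + 1) → Mat n) (T : Mat n) (a : Fin (j + 1) → ℂ) :
    ∑ r, a r • Function.update N (Fin.last j) T r =
      ∑ r : Fin j, a r.castSucc • N r.castSucc + a (Fin.last j) • T := by
  rw [Fin.sum_univ_castSucc, Function.update_self]
  exact congrArg (· + _) (Finset.sum_congr rfl fun r _ => by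
    rw [Function.update_of_ne (Fin.castSucc_lt_last r).ne])

theorem small {X : Type} [TopologicalSpace X] [CompactSpace X] {j : ℕ} {u : Fin j → X → ℝ}
    (hu : ∀ i, Continuous (u i)) (h0 : ∀ i x, 0 ≤ u i x) {U : Set X} (hU : IsOpen U)
    (h : ∀ x, (∀ i, u i x = 0) → x ∈ U) : ∃ ε : ℝ, 0 < ε ∧ ∀ x, x ∉ U → ∃ i, ε < u i x := by
  obtain ⟨ε, h1, h2⟩ := hU.isClosed_compl.isCompact.exists_forall_le'
    (f := fun x => ‖fun i => u i x‖) (continuous_pi hu).norm.continuousOn (a := 0)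
    fun x hx => norm_pos_iff.2 fun h' => hx (h x fun i => congrFun h' i)
  refine ⟨ε / 2, half_pos h1, fun x hx => ?_⟩
  by_contra! hn
  refine absurd (h2 x hx) (not_le.2 ((pi_norm_lt_iff h1).2 fun i => ?_))
  rw [Real.norm_of_nonneg (h0 i x)]
  exact (hn i).trans_lt (half_lt_self h1)

end ANA

open ANA

theorem bANA (hGEN : St_GEN) (hZON : St_ZON) (hIDP : St_IDP) (hCON : St_CON) (hETA : St_ETA)
    (hTRA : St_TRA) (hTRH : St_TRH) (hINV : St_INV) (hKX : St_KX) : St_ANA := by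
  intro j k m M _ H S p k₀ hH hF hk hiso hI
  by_contra hn
  obtain ⟨l, N, B, hN, hB, hG⟩ := hGEN k₀ j (j + k) hk
  obtain ⟨ho, ⟨hκ, hκ'⟩, hks, -, -⟩ := hKX m M _ p hF.pm
  have hc1 : ∀ x c, p x c ≠ 0 → aff p c x c = 1 := fun x c h => inv_mul_cancel₀ h
  let P : Set M.X := {x | ∀ i, l i ⬝ᵥ p x = 0}
  have hu0 : ∀ i x, uu p (l i) x = 0 ↔ l i ⬝ᵥ p x = 0 := fun i x => by
    simp [uu, (PN.nsq_pos (hF.pm.ne x)).ne']
  have hP : IsClosed P := by
    simp only [P, ofPred_forall, ← hu0]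
    exact isClosed_iInter fun i => isClosed_eq (hETA m _ M p (l i) hF.pm).1 continuous_const
  have hl : ∀ x ∈ P, ∀ c i, l i ⬝ᵥ aff p c x = 0 := fun x hx c i => by
    rw [aff, dotProduct_smul, hx i, smul_zero]
  have key : ∀ x ∈ P, ∀ c, p x c ≠ 0 → ∀ a : Fin (j + 1) → ℂ, a ≠ 0 →
      (∑ r, a r • N r) *ᵥ p x ∈ Kx p x → a (Fin.last j) ≠ 0 ∧ aff p c x ∈ B :=
    fun x hx c hc a ha h => (hG _ c (hc1 x c hc) (hl x hx c)).2 a ha fun t =>
      hiso x c hc _ (Submodule.smul_mem _ _ (by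
        rw [aff, Matrix.mulVec_smul]
        exact Submodule.smul_mem _ _ h))
  obtain ⟨t, r, hr, hr0, ht⟩ := hZON.1 M.X _ (Fin (j + k + 1) × Mat (j + k + 1))
    (fun x => kap (p x)) (P ∩ {x | Indp p N x}ᶜ)
    (fun t => {x | p x t.1 ≠ 0 ∧ t.2ᵀ = -t.2 ∧ Indp p (Function.update N (Fin.last j) t.2) x}) hκ
    (hP.inter (hIDP m _ M S p _ N hF hN).1.isClosed_compl)
    ((hB.image kap).mono (by
      rintro _ ⟨x, ⟨hx, hx'⟩, rfl⟩
      obtain ⟨c, hc⟩ := Function.ne_iff.1 (hF.pm.ne x)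
      obtain ⟨a, h1, h2⟩ : ∃ a : Fin (j + 1) → ℂ, (∑ r, a r • N r) *ᵥ p x ∈ Kx p x ∧ a ≠ 0 := by
        by_contra! h
        exact hx' h
      exact ⟨_, (key x hx c hc a h2 h1).2, hks _ _ (inv_ne_zero hc)⟩))
    (fun t => by
      by_cases h : t.2ᵀ = -t.2
      · simp only [h, true_and]
        exact (ho t.1).inter (hIDP m _ M S p _ _ hF (skw hN h _)).1
      · simp [h])
    (fun x hx => by
      obtain ⟨c, hc⟩ := Function.ne_iff.1 (hF.pm.ne x)
      obtain ⟨T, hT, hT'⟩ := hZON.2 j k (fun r => N r.castSucc) (p x)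
        {ξ | ∃ (x' : M.X) (a : ℂ), p x' = a • p x ∧ ξ ∈ Kx p x'} (hF.pm.ne x)
        fun ξ h1 h2 => hn ⟨x, c, ξ, hc, (hG _ c (hc1 x c hc) (hl x hx.1 c)).1, h2, h1⟩
      refine ⟨(c, T), fun x' hx' => ?_⟩
      obtain ⟨s, hs⟩ := (hκ' x x').1 hx'
      have s0 : s ≠ 0 := fun h => hF.pm.ne x' (by rw [hs, h, zero_smul])
      have hc' : p x' c ≠ 0 := by
        rw [hs]
        exact mul_ne_zero s0 hc
      refine ⟨hc', hT, fun a ha => ?_⟩
      rw [sum_upd] at ha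
      have h1 : a (Fin.last j) = 0 := hT' (fun r => a r.castSucc) _ ⟨x', s, hs, by
        have := Submodule.smul_mem _ s⁻¹ ha
        rwa [← Matrix.mulVec_smul, hs, inv_smul_smul₀ s0] at this⟩
      by_contra h2
      refine (key x' (fun i => by rw [hs, dotProduct_smul, hx.1 i, smul_zero]) c hc' a h2 ?_).1 h1
      rw [Fin.sum_univ_castSucc]
      rwa [h1, zero_smul] at ha ⊢)
  obtain ⟨A, U, hA, hU, hPU, hz⟩ := hCON m _ j M H S p N t r P hH.toMet hF hN hr hP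
    (fun x hx h => hr0 x ⟨hx, h⟩) ht
  obtain ⟨ε, hε, hε'⟩ := small (fun i => (hETA m _ M p (l i) hF.pm).1)
    (fun i x => div_nonneg (Complex.normSq_nonneg _) (PN.nsq_nn _)) hU
    fun x h => hPU fun i => (hu0 i x).1 (h i)
  choose u hu hu' using fun i => (hETA m _ M p (l i) hF.pm).2 ε hε
  obtain ⟨i1, i2, i3, 𝒜, i4⟩ := hINV m M
  have hf := (PN.st_FS PN.st_LG (PN.st_LG2 PN.st_LG) PN.st_CMP m M _ p hF.pm).1
  have a1 := 𝒜.pow_mem ((i4 _).2 (i3 _ hf)) j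
  have a2 := 𝒜.pow_mem ((i4 _).2 (i3 _ hH.toClo)) j
  have e1 := hTRA m M H _ A _ hH.toMet (i1 H hH.toMet) hA ((i4 _).1 (𝒜.mul_mem a1 a2))
  have e2 := hTRH m j M H _ u _ hH.toMet hf hu
    ((i4 _).1 (𝒜.mul_mem ((i4 _).2 (i2 A hA).1) a2))
  simp only [Pi.mul_apply, Pi.pow_apply] at e1 e2
  refine hI ?_
  simp only [mul_assoc]
  rw [e1]
  simp only [← mul_assoc, mul_right_comm _ (lin (fs M p _ _) ^ j)]
  rw [← e2, itg]
  refine MeasureTheory.integral_eq_zero_of_ae (Eventually.of_forall fun x => ?_)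
  refine div_eq_zero_iff.2 (Or.inl ?_)
  have he := Mf.ch_mem x
  have hx := Mf.ch_tgt x
  by_cases h : x ∈ U
  · rw [mul_right_comm]
    exact hz _ he _ hx (by rwa [Mf.ch_symm]) _ (fun i => (hu' i _ he _ hx).2) _
  · obtain ⟨i, hi⟩ := hε' x h
    rw [Finset.prod_eq_zero (Finset.mem_univ i) (by
      rw [(hu' i _ he _ hx).1 (by rwa [Mf.ch_symm])]
      simp [lin]), mul_zero]
    simp [top]

end Pool.Agent.Lib.LF
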