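import Pool.Agent.Lib.LF.BBlue

/-! Rational curves through the generic point. -/

open scoped Classical Polynomial PowerSeries
open Set MvPolynomial

noncomputable section

namespace Pool.Agent.Lib.LF

namespace ARC

theorem scale {ι R : Type} [CommRing R] [Algebra ℂ R] {g : Po ι} {k : ℕ} (hg : g.IsHomogeneous k)
    (s : R) (x : ι → R) : aeval (fun l => s * x l) g = s ^ k * aeval x g := by
  rw [aeval_def, aeval_def, eval₂_eq, eval₂_eq, Finset.mul_sum]
  refine Finset.sum_congr rfl fun d hd => ?_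
  have h1 : ∑ i ∈ d.support, d i = k := by
    have := hg (mem_support_iff.1 hd)
    rw [← this, Finsupp.weight_apply, Finsupp.sum]
    simp
  simp only [mul_pow, Finset.prod_mul_distrib, Finset.prod_pow_eq_pow_sum, h1]
  ring

theorem cong {σ R : Type} [CommRing R] [Algebra ℂ R] (m : R) (s t : σ → R)
    (h : ∀ o, m ∣ s o - t o) (W : Po σ) : m ∣ aeval s W - aeval t W := by
  induction W using MvPolynomial.induction_on with
  | C c => simp
  | add p q hp hq =>
    rw [map_add, map_add, add_sub_add_comm]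
    exact dvd_add hp hq
  | mul_X p i hp =>
    rw [map_mul, map_mul, aeval_X, aeval_X, show aeval s p * s i - aeval t p * t i =
      (aeval s p - aeval t p) * s i + aeval t p * (s i - t i) by ring]
    exact dvd_add (hp.mul_right _) ((h i).mul_left _)

/-- Truncation of the series. -/
def tr {r : ℕ} (μ : Fin r → ℂ) (M : ℕ) : Option (Fin r) → ℂ[X] :=
  fun o => o.elim Polynomial.X fun i => PowerSeries.trunc M (ex ℂ (μ i))

theorem coeff_tr {r : ℕ} (μ : Fin r → ℂ) (M : ℕ) (W : Po (Option (Fin r))) (n : ℕ) (hn : n < M) :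
    (aeval (tr μ M) W).coeff n = PowerSeries.coeff n (aeval (tu ℂ μ) W) := by
  let φ : ℂ[X] →ₐ[ℂ] ℂ⟦X⟧ := Polynomial.coeToPowerSeries.algHom ℂ
  have hφ : ∀ p, φ p = (p : ℂ⟦X⟧) := fun p => by
    simp [φ]
  have h1 : ((aeval (tr μ M) W : ℂ[X]) : ℂ⟦X⟧) = aeval (fun o => ((tr μ M o : ℂ[X]) : ℂ⟦X⟧)) W := by
    rw [← hφ, comp_aeval_apply]
    simp only [hφ]
  have h2 := cong (PowerSeries.X ^ M) (fun o => ((tr μ M o : ℂ[X]) : ℂ⟦X⟧)) (tu ℂ μ) (fun o => by
    cases o with
    | none => simp [tr, tu]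
    | some i =>
      refine PowerSeries.X_pow_dvd_iff.2 fun m hm => ?_
      simp [tr, tu, PowerSeries.coeff_trunc, hm]) W
  have h3 := PowerSeries.X_pow_dvd_iff.1 h2 n hn
  rw [← h1, map_sub, Polynomial.coeff_coe] at h3
  exact sub_eq_zero.1 h3

variable {F : Type} [Field F] [Algebra ℂ F]

theorem map_ex (ν : ℂ) : PowerSeries.map (algebraMap ℂ F) (ex ℂ ν) = ex F ν := by
  ext n
  simp [ex]

theorem map_tu {r : ℕ} (μ : Fin r → ℂ) (W : Po (Option (Fin r))) :
    aeval (tu F μ) (map (algebraMap ℂ F) W) =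
      PowerSeries.map (algebraMap ℂ F) (aeval (tu ℂ μ) W) := by
  induction W using MvPolynomial.induction_on with
  | C c => simp
  | add p q hp hq => simp only [map_add, hp, hq]
  | mul_X p i hp =>
    simp only [map_mul, hp, map_X, aeval_X]
    congr 1
    cases i with
    | none => simp [tu]
    | some i => exact (map_ex _).symm

theorem map_tr {σ : Type} (t : σ → ℂ[X]) (W : Po σ) :
    aeval (fun o => (t o).map (algebraMap ℂ F)) (map (algebraMap ℂ F) W) =
      (aeval t W).map (algebraMap ℂ F) := by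
  induction W using MvPolynomial.induction_on with
  | C c => simp
  | add p q hp hq => simp only [map_add, hp, hq, Polynomial.map_add]
  | mul_X p i hp => simp only [map_mul, hp, map_X, aeval_X, Polynomial.map_mul]

theorem ex_ne (ν : ℂ) : ex F ν ≠ 0 := fun h => by
  have := congrArg (PowerSeries.coeff 0) h
  simp [ex] at this

end ARC

open ARC in
theorem bARC (hJ : St_JET) (hX : St_EXP) (hE : St_ET) : St_ARC := by
  intro ι F _ _ _ Y D P i hH hD hZ hi
  obtain ⟨d, r, e, c, hjet, hne⟩ := hJ ι F F Y D P i (nrm Y i) hD hZ hi fun g hg => hg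
  obtain ⟨r', μ, ν, W, hW, hind⟩ := hX (ι × Fin r) (fun z => c z.1 z.2) fun z => hjet.lam _ _
  obtain ⟨⟨φ, hφ⟩, het⟩ := hE.1 F D
  have hY : Y = fun l => Y i * nrm Y i l := funext fun l => by
    rw [nrm, mul_div_cancel₀ _ hi]
  have hsc : ∀ {g : Po ι} {k : ℕ}, g.IsHomogeneous k →
      aeval Y g = Y i ^ k * aeval (nrm Y i) g := fun hg => by
    rw [← scale hg, ← hY]
  set p : ι → F⟦X⟧ := fun l => ex F ν * cmb e (c l) Y with hp
  have hp1 : ∀ l, p l = ∑ a, PowerSeries.map (algebraMap ℂ F) (aeval (tu ℂ μ) (W (l, a))) *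
      PowerSeries.C (aeval Y (e a)) := fun l => by
    simp only [hp, cmb, hW, map_mul, map_ex, Finset.mul_sum, mul_assoc]
  have hp2 : ∀ l, p l = p i * et D (nrm Y i l) := fun l => by
    simp only [hp]
    rw [hjet.eq i l hi]
    ring
  have hp0 : p i ≠ 0 := by
    have : cmb e (c i) Y = PowerSeries.C (Y i ^ d) * cmb e (c i) (nrm Y i) := by
      simp only [cmb, Finset.mul_sum, hsc (hjet.hom _), map_mul]
      exact Finset.sum_congr rfl fun a _ => by ring
    refine mul_ne_zero (ex_ne ν) (this ▸ mul_ne_zero (fun h => pow_ne_zero d hi ?_) hne)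
    simpa using congrArg PowerSeries.constantCoeff h
  obtain ⟨N, u, hu0, hu⟩ : ∃ (N : ℕ) (u : F⟦X⟧), PowerSeries.constantCoeff u ≠ 0 ∧
      p i = PowerSeries.X ^ N * u :=
    ⟨_, _, PowerSeries.constantCoeff_divXPowOrder_eq_zero_iff.not.2 hp0,
      PowerSeries.X_pow_order_mul_divXPowOrder.symm⟩
  have hco : ∀ l n, n < N + 2 → PowerSeries.coeff n (p l) =
      ∑ a, (aeval (tr μ (N + 2)) (W (l, a))).coeff n • aeval Y (e a) := fun l n hn => by
    rw [hp1, map_sum]
    refine Finset.sum_congr rfl fun a _ => ?_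
    rw [PowerSeries.coeff_mul_C, PowerSeries.coeff_map, coeff_tr μ _ _ n hn, Algebra.smul_def]
  have hdv : ∀ l a, ∃ q : ℂ[X], aeval (tr μ (N + 2)) (W (l, a)) = Polynomial.X ^ N * q := by
    intro l a
    refine Polynomial.X_pow_dvd_iff.2 fun n hn => ?_
    refine Fintype.linearIndependent_iff.1 hjet.ind
      (fun a => (aeval (tr μ (N + 2)) (W (l, a))).coeff n) ?_ a
    rw [← hco l n (by omega), hp2, hu, mul_assoc]
    exact PowerSeries.X_pow_dvd_iff.1 (dvd_mul_right _ _) n hn
  choose q hq using hdv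
  have hcf : ∀ l n, (∑ a, (q l a).map (C : ℂ →+* Po ι) * Polynomial.C (e a)).coeff n =
      ∑ a, C ((q l a).coeff n) * e a := fun l n => by
    simp only [Polynomial.finsetSum_coeff, Polynomial.coeff_mul_C, Polynomial.coeff_map]
  have hcv : ∀ l n, n < 2 →
      aeval Y ((∑ a, (q l a).map (C : ℂ →+* Po ι) * Polynomial.C (e a)).coeff n) =
        PowerSeries.coeff n (u * et D (nrm Y i l)) := fun l n hn => by
    rw [← PowerSeries.coeff_X_pow_mul _ N, ← mul_assoc, ← hu, ← hp2, hco l _ (by omega), hcf,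
      map_sum]
    refine Finset.sum_congr rfl fun a _ => ?_
    rw [hq, Polynomial.coeff_X_pow_mul, map_mul, aeval_C, Algebra.smul_def]
  refine ⟨d, fun l => ∑ a, (q l a).map (C : ℂ →+* Po ι) * Polynomial.C (e a), fun l n => ?_,
    fun g hg => ?_, PowerSeries.constantCoeff u / Y i, div_ne_zero hu0 hi, fun l => ⟨?_, ?_⟩⟩
  · rw [hcf]
    exact IsHomogeneous.sum _ _ _ fun a _ => (hjet.hom a).C_mul _
  · rw [← sum_homogeneousComponent g, map_sum]
    refine Finset.sum_eq_zero fun k _ => ?_
    have hk := homogeneousComponent_isHomogeneous k g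
    have h0 := hH g k hg
    generalize homogeneousComponent k g = g' at hk h0
    have h1 : aeval (nrm Y i) g' = 0 := by
      rw [hsc hk] at h0
      exact (mul_eq_zero.1 h0).resolve_left (pow_ne_zero _ hi)
    have h2 : aeval p g' = 0 := by
      have h3 := comp_aeval_apply (nrm Y i) φ g'
      rw [h1, map_zero] at h3
      rw [funext hp2, scale hk]
      simp only [hφ] at h3
      rw [← h3, mul_zero]
    set WW : ι → MvPolynomial (Option (Fin r')) F := fun l =>
      ∑ a, map (algebraMap ℂ F) (W (l, a)) * C (aeval Y (e a)) with hWW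
    have h4 : aeval WW g' = 0 := by
      refine algebraicIndependent_iff.1 (hind F) _ ?_
      have h5 := comp_aeval_apply WW ((aeval (tu F μ) :
        MvPolynomial (Option (Fin r')) F →ₐ[F] F⟦X⟧).restrictScalars ℂ) g'
      refine h5.trans (Eq.trans ?_ h2)
      congr 2
      funext l
      simp only [hWW, hp1, AlgHom.restrictScalars_apply, map_sum, map_mul, map_tu, aeval_C]
      rfl
    have h6 := comp_aeval_apply WW ((aeval (fun o => (tr μ (N + 2) o).map (algebraMap ℂ F)) :
      MvPolynomial (Option (Fin r')) F →ₐ[F] F[X]).restrictScalars ℂ) g'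
    rw [h4, map_zero] at h6
    have h7 : (fun l => ((aeval (fun o => (tr μ (N + 2) o).map (algebraMap ℂ F)) :
        MvPolynomial (Option (Fin r')) F →ₐ[F] F[X]).restrictScalars ℂ) (WW l)) =
        fun l => Polynomial.X ^ N * (∑ a, (q l a).map (C : ℂ →+* Po ι) * Polynomial.C (e a)).map
          (aeval Y : Po ι →ₐ[ℂ] F).toRingHom := by
      funext l
      have h8 : (aeval Y : Po ι →ₐ[ℂ] F).toRingHom.comp C = algebraMap ℂ F := by
        ext x
        simp
      simp only [hWW, AlgHom.restrictScalars_apply, map_sum, map_mul, map_tr, aeval_C, hq,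
        Polynomial.map_sum, Polynomial.map_mul, Polynomial.map_map, h8, Polynomial.map_C,
        Polynomial.map_pow, Polynomial.map_X, Finset.mul_sum, mul_assoc]
      rfl
    rw [h7, scale hk] at h6
    exact (mul_eq_zero.1 h6.symm).resolve_left (pow_ne_zero _ (pow_ne_zero _ Polynomial.X_ne_zero))
  · rw [hcv l 0 (by norm_num), PowerSeries.coeff_zero_eq_constantCoeff_apply, map_mul, (het _).1,
      nrm]
    ring
  · have h1 : nrm Y i i = 1 := div_self hi
    rw [hcv l 1 (by norm_num), hcv i 1 (by norm_num), PowerSeries.coeff_one_mul,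
      PowerSeries.coeff_one_mul, (het _).1, (het _).1, (het _).2.1, (het _).2.1, h1,
      D.map_one_eq_zero]
    generalize D (nrm Y i l) = w
    rw [nrm]
    field_simp
    ring

end Pool.Agent.Lib.LF
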