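import Pool.Agent.Lib.LF.B_KX
import Pool.Agent.Lib.PN.B_BR

/-! Project lf, block BR1: the embedding and the morphism on the manifold layer. -/

open scoped Classical Topology ContDiff ComplexOrder Matrix Manifold
open Set Complex Filter MvPolynomial MeasureTheory

noncomputable section

namespace Pool.Agent.Lib.LF

open Pool.Agent.Lib.SV (E nsq Cells)
open Pool.Agent.Lib.HS32 Pool.Agent.Lib.MP_7fcda1_ag Pool.Agent.Lib.UR.M
open Pool.Agent.Lib.PN (Prj PMap fs Pol)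

namespace BR1

variable {m : ℕ} {M : Mf m} {ι κ : Type} [Fintype ι] [Fintype κ] {y : M.X → ι → ℂ} {e : M.Ch}
  {z : E m} {F : E m → ι → ℂ}

theorem rad (h : PN.Lift M y e z F) {i : ι} (hi : y (e.symm z) i ≠ 0) {t : ℂ} {v : E m}
    (hv : fderiv ℂ F z v = t • F z) : jb y i e z *ᵥ v = 0 := by
  have h0 : F z i ≠ 0 := by
    obtain ⟨a, ha, h1⟩ := h.ev.self_of_nhds
    rw [h1]
    exact mul_ne_zero ha hi
  have h3 : (aff y i ∘ e.symm) =ᶠ[𝓝 z] fun w => (F w i)⁻¹ • F w := by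
    filter_upwards [h.ev] with w ⟨a, ha, h⟩ using (KX.aff_of_smul ha h).symm
  have h4 := h.hol.self_of_nhds.hasFDerivAt
  have h6 := ((hasDerivAt_inv h0).comp_hasFDerivAt z (hasFDerivAt_pi'.1 h4 i)).smul h4
  have h7 : fderiv ℂ (aff y i ∘ e.symm) z = _ := h3.fderiv_eq.trans h6.fderiv
  rw [← KX.fd, h7]
  funext l
  simp [hv]
  field_simp
  ring

theorem mor {p : M.X → κ → ℂ} (hy : PMap M y) (h : Mor y p) : PMap M p := by
  obtain ⟨h0, r, d, Q, hQ, h1, h2⟩ := h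
  refine ⟨h0, fun e he z hz => ?_⟩
  obtain ⟨F, hF⟩ := hy.ex e he z hz
  obtain ⟨s, l, h3⟩ := h1 (e.symm z)
  have h4 : eval (F z) (Q s l) ≠ 0 := by
    obtain ⟨a, ha, h5⟩ := hF.ev.self_of_nhds
    rw [h5, PN.eval_smul_hom (hQ s l)]
    exact mul_ne_zero (pow_ne_zero _ ha) h3
  refine ⟨fun w l => eval (F w) (Q s l), he, hz, PN.holN_pi fun l => PN.holN_eval hF.hol _, ?_⟩
  filter_upwards [hF.ev, (PN.holN_eval hF.hol (Q s l)).self_of_nhds.continuousAt.eventually_ne h4]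
    with w ⟨a, _, h5⟩ h6
  obtain ⟨b, hb⟩ := h2 s (e.symm w)
  have h7 : ∀ l, eval (F w) (Q s l) = a ^ d s * b * p (e.symm w) l := fun l => by
    rw [h5, PN.eval_smul_hom (hQ s l), congrFun hb l, Pi.smul_apply, smul_eq_mul, mul_assoc]
  exact ⟨a ^ d s * b, left_ne_zero_of_mul (h7 l ▸ h6), funext h7⟩

theorem bot {n : ℕ} {p : M.X → E (n + 1)} (hp : PMap M p) (he : e ∈ M.C) {x : M.X}
    (hx : x ∈ e.source) {c : Fin (n + 1)} (hc : p x c ≠ 0)
    (h : Module.finrank ℂ (fderiv ℂ (aff p c ∘ e.symm) (e x)).range = n) : Kx p x = ⊥ := by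
  refine (Submodule.eq_bot_iff _).2 fun ξ ⟨h1, h2⟩ => ?_
  have h3 := h2 e he hx c hc
  have h4 := KX.row hp he (e.map_source hx) (c := c) (by rwa [e.left_inv hx])
  have h5 : (fderiv ℂ (aff p c ∘ e.symm) (e x)).range =
      LinearMap.ker (LinearMap.proj c : E (n + 1) →ₗ[ℂ] ℂ) := by
    refine Submodule.eq_of_le_of_finrank_eq ?_ ?_
    · rintro _ ⟨v, rfl⟩
      change fderiv ℂ (aff p c ∘ e.symm) (e x) v c = 0
      rw [KX.fd, Matrix.mulVec, h4, zero_dotProduct]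
    · have h6 := Module.Dual.finrank_ker_add_one_of_ne_zero
        (f := (LinearMap.proj c : E (n + 1) →ₗ[ℂ] ℂ))
        fun h0 => by simpa using LinearMap.congr_fun h0 (Pi.single c 1)
      rw [Module.finrank_fin_fun] at h6
      omega
  have h6 : ∀ l, l ≠ c → ξ l = 0 := fun l hl => by
    obtain ⟨v, hv⟩ : Pi.single l (1 : ℂ) ∈ (fderiv ℂ (aff p c ∘ e.symm) (e x)).range := by
      rw [h5]
      exact Pi.single_eq_of_ne hl.symm _
    have h7 : jb p c e (e x) *ᵥ v = Pi.single l 1 := (KX.fd p c e _ v).symm.trans hv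
    have h8 := Matrix.dotProduct_mulVec ξ (jb p c e (e x)) v
    rwa [h7, h3, zero_dotProduct, dotProduct_single, mul_one] at h8
  rw [dotProduct, Finset.sum_eq_single c (fun l _ hl => by rw [h6 l hl, zero_mul]) (by simp)] at h1
  funext l
  by_cases hl : l = c
  · exact hl ▸ (mul_eq_zero.1 h1).resolve_right hc
  · exact h6 l hl

end BR1

open BR1 in
theorem bBR1 : St_BR1 := by
  rintro m ρ n X _ _ _ y p ⟨hf, hh, hi, hj, r, e, G, he, hG, hy⟩ hp
  let M : Mf m := HS.BBR.mf m X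
  let c : M.X → M.Ch := chartAt (M := X) (E m)
  have hc : ∀ x, c x ∈ M.C := fun x y =>
    ⟨HS.BBR.cp_chart (X := X) x y, HS.BBR.cp_chart (X := X) y x⟩
  have hs : ∀ x, x ∈ (c x).source := mem_chart_source (M := X) (E m)
  have hm : PMap M y := ⟨hf, fun c' hc' z hz => by
    obtain ⟨i, h⟩ := Function.ne_iff.1 (hf (c'.symm z))
    exact ⟨_, PN.BR1.move hc' hz (hs _) ⟨hc _, (c _).map_source (hs _),
      (hh _ i h).mono fun _ a => a.2, (hh _ i h).mono fun _ a => ⟨_, inv_ne_zero a.1, rfl⟩⟩⟩⟩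
  have hz : ∀ x l, eval (y x) (G l) = 0 := fun x =>
    (hy _ (hf x)).1.1 ⟨x, 1, (one_smul _ _).symm⟩
  refine ⟨⟨r, e, G, he, hG, hm, fun c' z F h t v hv => ?_, hj, hz,
    fun w h0 h => (hy w h0).1.2 h, fun x => ?_⟩, mor hm hp,
    fun x ⟨i, h1, h2⟩ => bot (mor hm hp) (hc x) (hs x) h1 h2⟩
  · obtain ⟨i, h1⟩ := Function.ne_iff.1 (hf (c'.symm z))
    have h2 := rad h h1 hv
    have h3 := c'.map_target h.tgt
    have h4 := KX.ov hm (hc _) h.mem (hs _) h3 h1
    rw [c'.right_inv h.tgt] at h4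
    rw [h4, ← Matrix.mulVec_mulVec] at h2
    have h5 := (injective_iff_map_eq_zero _).1 (hi _ i h1) _
      ((KX.fd (M := M) y i (c _) _ _).trans h2)
    exact Matrix.eq_zero_of_mulVec_eq_zero ((mTR m M).2.1 _ (hc _) _ h.mem _ (hs _) h3).2.1 h5
  · have h1 := (hy _ (hf x)).2 (hz x)
    rw [Matrix.rank_eq_finrank_span_row] at h1
    obtain ⟨g, h2, -, h3⟩ := Submodule.exists_fun_fin_finrank_span_eq ℂ
      (range (Matrix.of fun l j => eval (y x) (pderiv j (G l))).row)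
    choose I hI using h2
    have h4 : LinearIndependent ℂ fun r j => eval (y x) (pderiv j (G (I (Fin.cast h1.symm r)))) :=
      (funext hI ▸ h3 : LinearIndependent ℂ fun r j => eval (y x) (pderiv j (G (I r)))).comp _
        (Fin.cast_injective _)
    obtain ⟨S, hS⟩ := Function.ne_iff.1 (pl_ne_zero_iff.2 h4)
    refine ⟨fun r => I (Fin.cast h1.symm r), S, fun h0 => hS ?_⟩
    rw [PN.amin_eq] at h0
    exact (congrFun (pl_map (eval (y x)) _) S).trans h0

end Pool.Agent.Lib.LF
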