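import Pool.Agent.Lib.LF.B_KX

/-! Project lf, block BR2: the symplectic form in all charts. -/

open scoped Classical Topology ContDiff ComplexOrder Matrix Manifold
open Set Complex Filter MvPolynomial MeasureTheory

noncomputable section

namespace Pool.Agent.Lib.LF

open Pool.Agent.Lib.SV (E nsq Cells)
open Pool.Agent.Lib.HS32 Pool.Agent.Lib.MP_7fcda1_ag
open Pool.Agent.Lib.PN (Prj PMap fs Pol)
open Pool.Agent.Lib.HS.BBR (mf cp_chart)

namespace BR2

variable {m : ℕ}

theorem rot (f : Fin m → Fin m → Fin m → ℂ) :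
    ∑ r, ∑ p, ∑ q, f r p q = ∑ q, ∑ r, ∑ p, f r p q := by
  rw [Finset.sum_comm (f := fun q r => ∑ p, f r p q)]
  exact Finset.sum_congr rfl fun r _ => Finset.sum_comm

theorem mid (J : Mat m) (R : Fin m → Mat m) (a b c : Fin m) :
    (Jᵀ * (∑ r, J r a • R r) * J) b c = ∑ r, ∑ p, ∑ q, J r a * J p b * J q c * R r p q := by
  simp only [Matrix.mul_apply, Matrix.transpose_apply, Matrix.sum_apply, Matrix.smul_apply,
    smul_eq_mul, Finset.mul_sum, Finset.sum_mul]
  rw [rot fun r p q => J r a * J p b * J q c * R r p q]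
  refine Finset.sum_congr rfl fun q _ => ?_
  exact Finset.sum_congr rfl fun r _ => Finset.sum_congr rfl fun p _ => by ring

theorem cyc (J T : Mat m) (D R : Fin m → Mat m) (hT : Tᵀ = -T) (hD : ∀ i j k, D k i j = D j i k)
    (hR : ∀ a b c, R a b c + R b c a + R c a b = 0) (U : Fin m → Mat m)
    (hU : ∀ a, U a = ((D a)ᵀ * T + Jᵀ * ∑ r, J r a • R r) * J + Jᵀ * T * D a) (a b c : Fin m) :
    U a b c + U b c a + U c a b = 0 := by
  have h1 : ∀ a b c, ((D a)ᵀ * T * J) b c = ((D b)ᵀ * T * J) a c := fun a b c => by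
    simp only [Matrix.mul_apply, Matrix.transpose_apply, hD _ a b]
  have h2 : ∀ a b c, (Jᵀ * T * D a) b c = -((D a)ᵀ * T * J) c b := fun a b c => by
    rw [← Matrix.transpose_apply (Jᵀ * T * D a), Matrix.transpose_mul, Matrix.transpose_mul, hT,
      Matrix.transpose_transpose, Matrix.neg_mul, Matrix.mul_neg, Matrix.mul_assoc,
      Matrix.neg_apply]
  have h3 : (Jᵀ * (∑ r, J r a • R r) * J) b c + (Jᵀ * (∑ r, J r b • R r) * J) c a +
      (Jᵀ * (∑ r, J r c • R r) * J) a b = 0 := by
    rw [mid, mid, mid, rot fun r p q => J r b * J p c * J q a * R r p q,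
      ← rot fun p q r => J r c * J p a * J q b * R r p q]
    simp only [← Finset.sum_add_distrib]
    refine Finset.sum_eq_zero fun r _ => Finset.sum_eq_zero fun p _ =>
      Finset.sum_eq_zero fun q _ => ?_
    linear_combination J r a * J p b * J q c * hR r p q
  simp only [hU, Matrix.add_mul, Matrix.add_apply, h2]
  linear_combination h3 + h1 a b c + h1 b c a + h1 c a b

/-- Pull-back of a closed holomorphic form. -/
theorem pull {ψ : E m → E m} {z : E m} {T T' : E m → Mat m} (hψ : HolN ψ z)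
    (hT : ∀ a b, DifferentiableAt ℂ (fun w => T w a b) (ψ z))
    (h : T' =ᶠ[𝓝 z] fun w => (jm ψ w)ᵀ * T (ψ w) * jm ψ w) :
    (∀ a b, DifferentiableAt ℂ (fun w => T' w a b) z) ∧ ((T (ψ z))ᵀ = -T (ψ z) →
      (∀ a b c, dM a T (ψ z) b c + dM b T (ψ z) c a + dM c T (ψ z) a b = 0) →
      ∀ a b c, dM a T' z b c + dM b T' z c a + dM c T' z a b = 0) := by
  have hJ : ∀ a b, DifferentiableAt ℂ (fun w => jm ψ w a b) z := fun a b =>
    (PN.holN_apply (PN.holN_fderiv hψ b) a).self_of_nhds
  have hT' : ∀ a b, DifferentiableAt ℂ (fun w => T (ψ w) a b) z := fun a b =>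
    (hT a b).comp z hψ.self_of_nhds
  have hm : ∀ {A B : E m → Mat m}, (∀ a b, DifferentiableAt ℂ (fun w => A w a b) z) →
      (∀ a b, DifferentiableAt ℂ (fun w => B w a b) z) →
      ∀ a b, DifferentiableAt ℂ (fun w => (A w * B w) a b) z := fun hA hB a b => by
    simp only [Matrix.mul_apply]
    exact DifferentiableAt.fun_sum fun q _ => (hA a q).mul (hB q b)
  have hJ' : ∀ a b, DifferentiableAt ℂ (fun w => (jm ψ w)ᵀ a b) z := fun a b => hJ b a
  refine ⟨fun a b => (hm (hm hJ' hT') hJ a b).congr_of_eventuallyEq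
    (h.mono fun w hw => congrFun (congrFun hw a) b), fun hs hc => ?_⟩
  obtain ⟨-, -, h1, -, -, -, -, -, -, h2, -⟩ := mCHN m ψ z hψ
  refine cyc (jm ψ z) (T (ψ z)) (fun k => dM k (jm ψ) z) (fun k => dM k T (ψ z)) hs h1 hc
    (fun k => dM k T' z) fun k => ?_
  have h3 : dM k (fun w => T (ψ w)) z = ∑ r, jm ψ z r k • dM r T (ψ z) := by
    ext i j
    have := (h2 (fun w => T w i j) ((hT i j).restrictScalars ℝ) k).1
    simp only [dM_apply, Matrix.sum_apply, Matrix.smul_apply, smul_eq_mul]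
    exact this.trans (Finset.sum_congr rfl fun r _ => mul_comm _ _)
  show dM k T' z = _
  rw [dM_congr h, dM_mul' (fun a b => (hm hJ' hT' a b).restrictScalars ℝ)
    (fun a b => (hJ a b).restrictScalars ℝ), dM_mul' (fun a b => (hJ' a b).restrictScalars ℝ)
    (fun a b => (hT' a b).restrictScalars ℝ), h3]
  rfl

theorem conj {ι : Type} (B : Matrix ι (Fin m) ℂ) (J S : Mat m) (hJ : J.det ≠ 0) :
    B * J * (Jᵀ * S * J)⁻¹ * (B * J)ᵀ = B * S⁻¹ * Bᵀ := by
  have h1 : IsUnit J.det := isUnit_iff_ne_zero.2 hJ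
  have h2 : IsUnit Jᵀ.det := by rwa [Matrix.det_transpose]
  rw [Matrix.mul_inv_rev, Matrix.mul_inv_rev, Matrix.transpose_mul]
  simp only [Matrix.mul_assoc]
  rw [Matrix.mul_nonsing_inv_cancel_left _ _ h1, Matrix.nonsing_inv_mul_cancel_left _ _ h2]

variable {X : Type} [TopologicalSpace X] [ChartedSpace (E m) X] [IsManifold 𝓘(ℂ, E m) ω X]

theorem mem (x : X) : chartAt (E m) x ∈ (mf m X).C := fun y => ⟨cp_chart x y, cp_chart y x⟩

theorem val (S : X → Mat m) (e : (mf m X).Ch) (x : X) (hx : x ∈ e.source) :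
    famS S e (e x) = ((mf m X).J (chartAt (M := X) (E m) x) e x)ᵀ * S x *
      (mf m X).J (chartAt (M := X) (E m) x) e x := by
  simp only [famS, e.left_inv hx, Mf.J]
  rfl

theorem cmp (S : X → Mat m) : (mf m X).Ov fun e e' x =>
    famS S e' (e' x) = ((mf m X).J e e' x)ᵀ * famS S e (e x) * (mf m X).J e e' x := by
  intro e he e' he' x hx hx'
  show famS S e' (e' x) = ((mf m X).J e e' x)ᵀ * famS S e (e x) * (mf m X).J e e' x
  rw [val S e x hx, val S e' x hx', ((mTR m (mf m X)).2.1 _ (mem (X := X) x) e he x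
    (mem_chart_source (M := X) (E m) x) hx).2.2.2.2 e' he' hx']
  simp only [Matrix.transpose_mul, Matrix.mul_assoc]

theorem det {e : (mf m X).Ch} (he : e ∈ (mf m X).C) {x : X} (hx : x ∈ e.source) :
    ((mf m X).J (chartAt (M := X) (E m) x) e x).det ≠ 0 :=
  ((mTR m (mf m X)).2.1 _ (mem x) e he x (mem_chart_source (E m) x) hx).2.1

/-- The brackets of the affine coordinates. -/
theorem brk {ι : Type} [Fintype ι] {y : X → ι → ℂ} (hy : PMap (mf m X) y) (S : X → Mat m)
    {e : (mf m X).Ch} (he : e ∈ (mf m X).C) {x : X} (hx : x ∈ e.source) {c : ι} (hc : y x c ≠ 0)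
    (a b : ι) : (jb (M := mf m X) y c e (e x) * (famS S e (e x))⁻¹ *
      (jb (M := mf m X) y c e (e x))ᵀ) a b =
      pb S (fun x => aff y c x a) (fun x => aff y c x b) x := by
  have hs := mem_chart_source (E m) x
  rw [KX.ov hy (mem x) he hs hx hc, val S e x hx, conj _ _ _ (det he hx)]
  have h1 := (KX.loc hy (mem x) ((chartAt (E m) x).map_source hs)
    (c := c) (((chartAt (E m) x).left_inv hs).symm ▸ hc : y ((chartAt (E m) x).symm _) c ≠ 0)).2.hol.self_of_nhds
  have h2 : ∀ l, (fun q => dif m (fun x => aff y c x l) x (Pi.single q 1)) =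
      jb (M := mf m X) y c (chartAt (M := X) (E m) x) (chartAt (E m) x x) l := fun l => by
    funext q
    have h3 := fderiv_apply h1 l
    exact congrArg (fun L => L (Pi.single q 1)) h3
  rw [pb, h2, h2, Matrix.mul_assoc]
  rfl

theorem syf {ι : Type} {y : X → ι → ℂ} {S : X → Mat m} (hS : Sympl y S) :
    Syf (mf m X) (famS S) := by
  have skew : (mf m X).All fun e z => (famS S e z)ᵀ = -famS S e z := fun e _ z _ => by
    show (famS S e z)ᵀ = -famS S e z
    simp only [famS, Matrix.transpose_mul, Matrix.transpose_transpose, hS.skew, Matrix.neg_mul,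
      Matrix.mul_neg, Matrix.mul_assoc]
  have key : (mf m X).All fun e z => (∀ a b, DifferentiableAt ℂ (fun w => famS S e w a b) z) ∧
      ∀ a b c, dM a (famS S e) z b c + dM b (famS S e) z c a + dM c (famS S e) z a b = 0 := by
    intro e he z hz
    have hs := mem_chart_source (E m) (M := X) (e.symm z)
    obtain ⟨h1, -, -, h3, -⟩ := (mTR m (mf m X)).2.1 _ (mem (X := X) (e.symm z)) e he _ hs
      (e.map_target hz)
    rw [e.right_inv hz] at h1 h3
    obtain ⟨h5, h6⟩ := pull (T := famS S (chartAt (E m) (M := X) (e.symm z))) (T' := famS S e) h1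
      (hS.hol (e.symm z)) (by
        filter_upwards [h3] with w hw
        have h8 : famS S e (e (e.symm w)) = _ :=
          cmp S _ (mem (X := X) (e.symm z)) e he _ hw.2.1 hw.2.2.1
        rw [hw.2.2.2.2.2.1, hw.2.2.2.2.2.2] at h8
        exact h8)
    exact ⟨h5, h6 (skew _ (mem _) _ ((chartAt (E m) (M := X) (e.symm z)).map_source hs))
      (hS.closed (e.symm z))⟩
  refine ⟨fun e he z hz a b => ?_, cmp S, skew, fun e he z hz => ?_,
    fun e he z hz => (key e he z hz).2⟩
  · filter_upwards [e.open_target.mem_nhds hz] with w hw using (key e he w hw).1 a b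
  · have h1 := val S e _ (e.map_target hz)
    have h2 := det he (e.map_target hz)
    rw [e.right_inv hz] at h1
    show (famS S e z).det ≠ 0
    rw [h1, Matrix.det_mul, Matrix.det_mul, Matrix.det_transpose]
    exact mul_ne_zero (mul_ne_zero h2 (hS.nondeg _)) h2

end BR2

theorem bBR2 : St_BR2 := by
  intro m n X ι _ _ _ _ y p S hy hp hS hL
  refine ⟨⟨BR2.syf hS, hp, fun e he z hz c hc => ?_⟩, fun c a b => ?_⟩
  · ext a b
    have h1 := BR2.brk hp S he (e.map_target hz) hc a b
    rw [e.right_inv hz] at h1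
    exact h1.trans (hL.comm _ c a b hc)
  · obtain ⟨P, hP⟩ := hS.alg c a b
    refine ⟨P, fun e he z hz hc => ?_⟩
    have h1 := BR2.brk hy S he (e.map_target hz) hc a b
    rw [e.right_inv hz] at h1
    exact h1.trans (hP _ hc)

end Pool.Agent.Lib.LF
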