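import Pool.Agent.Lib.LF.ABlue
import Pool.Agent.Lib.PN.B_FS
import Pool.Agent.Lib.PN.B_LG
import Pool.Agent.Lib.PN.B_LG2
import Pool.Agent.Lib.PN.B_CMP

/-! The metric and the integral, from the statement to the manifold layer. -/

open scoped Classical Topology ContDiff ComplexOrder Matrix Manifold
open Set Complex Filter MvPolynomial MeasureTheory

noncomputable section

namespace Pool.Agent.Lib.LF

open Pool.Agent.Lib.SV (E nsq Cells)
open Pool.Agent.Lib.HS32 Pool.Agent.Lib.HS.BBR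
open Pool.Agent.Lib.PN (PMap fs)

namespace BR3

variable {m : ℕ} {X : Type} [TopologicalSpace X] [ChartedSpace (E m) X]
  [IsManifold 𝓘(ℂ, E m) ω X]

variable (m) in
/-- The preferred chart. -/
def cc (x : (mf m X).X) : (mf m X).Ch := chartAt (M := X) (E m) x

theorem cc_mem (x : (mf m X).X) : cc m x ∈ (mf m X).C :=
  fun y => ⟨cp_chart (X := X) x y, cp_chart (X := X) y x⟩

theorem cc_src (x : (mf m X).X) : x ∈ (cc m x).source := mem_chart_source (M := X) (E m) x

theorem cc_tgt (x : (mf m X).X) : cc m x x ∈ (cc m x).target := (cc m x).map_source (cc_src x)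

theorem fam_eq (h : X → Mat m) {e : (mf m X).Ch} {x : (mf m X).X} (hx : x ∈ e.source) :
    famH h e (e x) = ((mf m X).J (cc m x) e x)ᴴ * h x * (mf m X).J (cc m x) e x := by
  simp only [famH, e.left_inv hx, Mf.J]
  rfl

theorem kae {h : X → Mat m} (hh : GH.Kaehler h) : (mf m X).Kae (famH h) := by
  obtain ⟨-, hov, -⟩ := mTR m (mf m X)
  have cmp : (mf m X).Ov fun e e' x =>
      famH h e' (e' x) = ((mf m X).J e e' x)ᴴ * famH h e (e x) * (mf m X).J e e' x := by
    intro e he e' he' x hx hx'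
    rw [fam_eq h hx, fam_eq h hx', (hov _ (cc_mem x) e he x (cc_src x) hx).2.2.2.2 e' he' hx']
    simp only [Matrix.conjTranspose_mul, Matrix.mul_assoc]
  have key : (mf m X).All fun e z => SmM (famH h e) z ∧ ClM (famH h e) z ∧
      (famH h e z).PosDef := by
    intro e he z hz
    obtain ⟨k1, k2, -, k3, -⟩ := hov _ (cc_mem (e.symm z)) e he _ (cc_src _) (e.map_target hz)
    rw [Mf.J] at k2
    rw [e.right_inv hz] at k1 k2 k3
    obtain ⟨h5, h6, -⟩ := mPB m (cc m (e.symm z) ∘ e.symm) z (famH h (cc m (e.symm z)))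
      (famH h e) k1 k2 (hh.smooth (e.symm z)) (by
        filter_upwards [k3] with w hw
        have h8 : famH h e (e (e.symm w)) = _ :=
          cmp _ (cc_mem (e.symm z)) e he _ hw.2.1 hw.2.2.1
        rw [hw.2.2.2.2.2.1, hw.2.2.2.2.2.2] at h8
        exact h8)
    exact ⟨h5, h6 (clM_of (hh.closed (e.symm z))), (hh.pos _).conjTranspose_mul_mul_same
      (Matrix.mulVec_injective_iff_isUnit.2 ((Matrix.isUnit_iff_isUnit_det _).2 k2.isUnit))⟩
  exact ⟨⟨⟨⟨fun e he z hz => (key e he z hz).1, cmp⟩, fun e he z hz => (key e he z hz).2.2.1⟩,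
    fun e he z hz => (key e he z hz).2.1⟩, fun e he z hz => (key e he z hz).2.2⟩

theorem aFS : PN.St_FS := PN.st_FS PN.st_LG (PN.st_LG2 PN.st_LG) PN.st_CMP

theorem fs_eq (hK : St_KX) {n : ℕ} {p : X → E (n + 1)} (hp : PMap (mf m X) p) (x : X) {z : E m}
    (hz : z ∈ (cc m x).target) : HS.inChart (fsm m p) x z = fs (mf m X) p (cc m x) z := by
  obtain ⟨h1, h2⟩ := aFS m (mf m X) _ p hp
  obtain ⟨-, -, -, h3, -⟩ := hK m (mf m X) _ p hp
  have h4 : ∀ y : X, fsm m p y = fs (mf m X) p (cc m y) (cc m y y) := by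
    intro y
    have h5 : p y (Classical.epsilon fun c => p y c ≠ 0) ≠ 0 :=
      Classical.epsilon_spec (p := fun c => p y c ≠ 0) (Function.ne_iff.1 (hp.ne y))
    have h6 := h3 _ (cc_mem y) _ (cc_tgt y) (Classical.epsilon fun c => p y c ≠ 0)
      (by rwa [(cc m y).left_inv (cc_src y)])
    rw [h2 _ _ _ h6.2.2.2.2.2.1]
    rfl
  have h7 := h1.cmp _ (cc_mem ((cc m x).symm z)) _ (cc_mem x) _ (cc_src _)
    ((cc m x).map_target hz)
  simp only [Mf.J, (cc m x).right_inv hz] at h7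
  rw [h7, ← h4]
  rfl

end BR3

open BR3 in
theorem bBR3 (hS : St_STK) (hI : St_INV) (hK : St_KX) : St_BR3 := by
  intro m n j r X _ _ _ _ p g x B hp hg hB
  have hk := kae hg
  refine ⟨hk, ?_⟩
  obtain ⟨i1, i2, i3, A, i4⟩ := hI m (mf m X)
  have hΦ : FInv (mf m X) fun e z => chf (chc _ (famH g) e) z * lin (fs (mf m X) p e z) ^ j *
      lin (famH g e z) ^ j :=
    (i4 _).1 (A.mul_mem (A.mul_mem ((i4 _).2 (i2 _ (i1 _ hk.toMet)).1)
      (A.pow_mem ((i4 _).2 (i3 _ (aFS m (mf m X) _ p hp).1)) j))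
      (A.pow_mem ((i4 _).2 (i3 _ hk.toClo)) j))
  obtain ⟨s1, s2⟩ := (hS m (mf m X) (famH g) hk.toMet).1 _ hΦ
  obtain ⟨-, -, -, -, m1, m2, -⟩ := mMU m (mf m X) (famH g) hk.toMet
  have hrep := (mTR m (mf m X)).2.2.2.2.1 _ _ s1
  have hU : (⋃ k, (cc m (x k)).symm '' B k) = univ :=
    eq_univ_of_forall fun y => mem_iUnion.2 (hB.part y).exists
  have hd : Pairwise (Function.onFun Disjoint fun k => (cc m (x k)).symm '' B k) :=
    fun k l hkl => disjoint_left.2 fun y h1 h2 => hkl ((hB.part y).unique h1 h2)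
  rw [itg, ← setIntegral_univ, ← hU, integral_iUnion_fintype
    (fun k => (m2 _ (cc_mem (x k)) _ (hB.meas k) (hB.sub k)).1) hd
    (fun k => (m1 _ _ s2).integrableOn), chern]
  refine Finset.sum_congr rfl fun k _ => ?_
  rw [(m2 _ (cc_mem (x k)) _ (hB.meas k) (hB.sub k)).2.2.2.1]
  refine setIntegral_congr_fun (hB.meas k) fun z hz => ?_
  have h1 := hrep _ (cc_mem (x k)) z (hB.sub k hz)
  have h2 := (hk.pos _ (cc_mem (x k)) z (hB.sub k hz)).det_pos.ne'
  simp only at h1 ⊢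
  rw [h1, mul_div_cancel₀ _ h2, fs_eq hK hp (x k) (hB.sub k hz)]
  rfl

end Pool.Agent.Lib.LF
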