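import Pool.Agent.Lib.LF.BBlue

/-! Project lf: the zero of a vector field is carried along the chain of the components. -/

open Set

namespace Pool.Agent.Lib.LF

namespace CHN

theorem reg_mono {X ι : Type} [Fintype ι] {y : X → ι → ℂ} {T V : Set X} {v : X → ι → ℂ}
    (h : Reg y T v) (hs : V ⊆ T) : Reg y V v := fun x hx => by
  obtain ⟨e, h, H, a, b⟩ := h x (hs hx)
  exact ⟨e, h, H, ⟨a.hh, a.hH, fun z hz => a.eq z (hs hz)⟩, b⟩

end CHN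

theorem bCHN (hC : St_CPT) (hF : St_FIX) : St_CHN := by
  intro X ι Λ _ _ y G T x₁ hV hcl hT hc hx
  obtain ⟨h1, h2⟩ := hC X ι Λ y G hV
  obtain ⟨r, V, hv, rfl, ht⟩ := h1 T hT
  obtain ⟨a₁, ha₁⟩ := mem_iUnion.1 hx
  refine ⟨V a₁, (hv a₁).1, (hv a₁).2, ha₁, subset_iUnion V a₁, fun v hR hT => ⟨CHN.reg_mono hR
    (subset_iUnion V a₁), ht v hR hT a₁, fun ⟨x, hx, hz⟩ => ?_⟩⟩
  have step : ∀ a b, (∃ x ∈ V a, Zer y v x) → (V a ∩ V b).Nonempty → ∃ x ∈ V b, Zer y v x :=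
    fun a b ha hab => by
      obtain ⟨c, t⟩ := h2 (V a) (V b) v (hv a).1 (hv b).1
        (CHN.reg_mono hR (union_subset (subset_iUnion V a) (subset_iUnion V b))) (ht v hR hT a)
        (ht v hR hT b)
      obtain ⟨z, hz, e⟩ := hF X ι Λ y G (V a) _ v hV (hv a).1 (hv a).2
        (CHN.reg_mono hR (subset_iUnion V a)) (ht v hR hT a) ha inter_subset_left c hab t
      exact ⟨z, hz.2, e⟩
  have cl : ∀ A : Set (Fin r), IsClosed (⋃ a ∈ A, V a) := fun A =>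
    A.toFinite.isClosed_biUnion fun a _ => hcl _ (hv a).1
  have dj : ∀ z, z ∈ ⋃ a ∈ {a | ∃ x ∈ V a, Zer y v x}, V a →
      z ∉ ⋃ a ∈ {a | ∃ x ∈ V a, Zer y v x}ᶜ, V a := fun z h h' => by
    obtain ⟨a, ha, hz⟩ := mem_iUnion₂.1 h
    obtain ⟨b, hb, hz'⟩ := mem_iUnion₂.1 h'
    exact hb (step a b ha ⟨z, hz, hz'⟩)
  rcases isPreconnected_iff_subset_of_disjoint_closed.1 hc _ _ (cl {a | ∃ x ∈ V a, Zer y v x})
    (cl {a | ∃ x ∈ V a, Zer y v x}ᶜ) (fun z hz => by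
      obtain ⟨a, ha⟩ := mem_iUnion.1 hz
      by_cases c : a ∈ {a | ∃ x ∈ V a, Zer y v x}
      · exact Or.inl (mem_biUnion c ha)
      · exact Or.inr (mem_biUnion c ha))
    (eq_empty_of_forall_notMem fun z hz => dj z hz.2.1 hz.2.2) with h | h
  · obtain ⟨a, ha, hz⟩ := mem_iUnion₂.1 (h (mem_iUnion.2 ⟨a₁, ha₁⟩))
    exact step a a₁ ha ⟨x₁, hz, ha₁⟩
  · obtain ⟨a, ha⟩ := mem_iUnion.1 hx
    exact (dj x (mem_biUnion (show a ∈ {a | ∃ x ∈ V a, Zer y v x} from ⟨x, ha, hz⟩) ha)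
      (h hx)).elim

end Pool.Agent.Lib.LF
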