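import Pool.Agent.Lib.LF.BBlue

/-! The theorem of Chevalley, for complex points. -/

open scoped Classical
open Set MvPolynomial

noncomputable section

namespace Pool.Agent.Lib.LF

namespace CHV

/-- A prime ideal that avoids `g` has a complex point at which `g` does not vanish. -/
theorem exists_pt {σ : Type} [Finite σ] (Q : Ideal (Po σ)) [Q.IsPrime] {g : Po σ} (hg : g ∉ Q) :
    ∃ u : σ → ℂ, (∀ a ∈ Q, eval u a = 0) ∧ eval u g ≠ 0 := by
  by_contra h
  push Not at h
  apply hg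
  rw [← IsPrime.vanishingIdeal_zeroLocus (K := ℂ) Q, mem_vanishingIdeal_iff]
  intro u hu
  exact h u fun a ha => (mem_zeroLocus_iff.1 hu) a ha

theorem finPres {σ ι : Type} [Finite σ] [Finite ι] (π : ι → Po σ) :
    ((aeval π : Po ι →ₐ[ℂ] Po σ) : Po ι →+* Po σ).FinitePresentation := by
  rw [← RingHom.FinitePresentation.of_finiteType]
  refine RingHom.FiniteType.of_comp_finiteType (f := algebraMap ℂ (Po ι)) ?_
  rw [AlgHom.comp_algebraMap]
  exact RingHom.finiteType_algebraMap.2 inferInstance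

end CHV

open PrimeSpectrum in
theorem bCHV : St_CHV := by
  intro σ ι Ω _ _ _ _ ω π g hg
  let φ : Po ι →+* Po σ := ((aeval π : Po ι →ₐ[ℂ] Po σ) : Po ι →+* Po σ)
  have hφ : ∀ a, aeval ω (φ a) = aeval (fun l => aeval ω (π l)) a := fun a => by
    change ((aeval ω).comp (aeval π)) a = _
    rw [comp_aeval]
  let P : PrimeSpectrum (Po σ) :=
    ⟨RingHom.ker (aeval ω : Po σ →ₐ[ℂ] Ω), RingHom.ker_isPrime _⟩
  obtain ⟨n, t, ht⟩ := Submodule.fg_iff_exists_fin_generating_family.1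
    (IsNoetherian.noetherian P.asIdeal)
  let B : BasicConstructibleSetData (Po σ) := ⟨g, n, t⟩
  have hB : ∀ Q : PrimeSpectrum (Po σ), Q ∈ ConstructibleSetData.toSet {B} ↔
      P.asIdeal ≤ Q.asIdeal ∧ g ∉ Q.asIdeal := fun Q => by
    rw [← ht, Submodule.span_le]
    simp [ConstructibleSetData.toSet, BasicConstructibleSetData.toSet, B]
  obtain ⟨S, hS⟩ := exists_constructibleSetData_iff.2
    (isConstructible_comap_image (CHV.finPres π) (ConstructibleSetData.isConstructible_toSet {B}))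
  have hP : comap φ P ∈ S.toSet := by
    rw [hS]
    exact ⟨P, (hB P).2 ⟨le_rfl, hg⟩, rfl⟩
  obtain ⟨C, hC, hC1, hC2⟩ : ∃ C ∈ S, (∀ i, aeval (fun l => aeval ω (π l)) (C.g i) = 0) ∧
      aeval (fun l => aeval ω (π l)) C.f ≠ 0 := by
    simp only [ConstructibleSetData.toSet, mem_iUnion₂] at hP
    obtain ⟨C, hC, h1, h2⟩ := hP
    refine ⟨C, hC, fun i => ?_, fun h => h2 ?_⟩
    · rw [← hφ]
      exact h1 (mem_range_self i)
    · rw [← hφ] at h
      rw [PrimeSpectrum.mem_zeroLocus, singleton_subset_iff]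
      exact h
  refine ⟨C.f, hC2, fun w hw hf => ?_⟩
  let m : PrimeSpectrum (Po ι) := ⟨RingHom.ker (eval w), RingHom.ker_isPrime _⟩
  have hm : m ∈ S.toSet := by
    simp only [ConstructibleSetData.toSet, mem_iUnion₂]
    refine ⟨C, hC, ?_, fun h => hf ?_⟩
    · rintro _ ⟨i, rfl⟩
      exact hw _ (hC1 i)
    · rw [PrimeSpectrum.mem_zeroLocus, singleton_subset_iff] at h
      exact h
  rw [hS] at hm
  obtain ⟨Q, hQ, hQm⟩ := hm
  obtain ⟨hQ1, hQ2⟩ := (hB Q).1 hQ
  obtain ⟨u, hu, hug⟩ := CHV.exists_pt Q.asIdeal hQ2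
  refine ⟨u, fun a ha => ?_, hug, fun l => ?_⟩
  · exact hu a (hQ1 ha)
  · have h1 : (X l - MvPolynomial.C (w l) : Po ι) ∈ (comap φ Q).asIdeal := by
      rw [hQm]
      change eval w _ = 0
      simp
    have h2 := hu _ h1
    simpa [φ, sub_eq_zero] using h2

end Pool.Agent.Lib.LF
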