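import Pool.Agent.Lib.LF.ABlue

/-! Project lf: closed forms and the identity of Piola. -/

open scoped Classical Topology ContDiff Matrix
open Set Complex Filter MvPolynomial

noncomputable section

namespace Pool.Agent.Lib.LF

open Pool.Agent.Lib.SV (E)
open Pool.Agent.Lib.HS32

namespace CLS

variable {m : ℕ} {z : E m} {Φ Ψ : E m → Frm m} {Φ' Ψ' : Fin m → Frm m}

/-- `Φ` is smooth and `Φ'` is its conjugate derivative. -/
structure Der (Φ : E m → Frm m) (Φ' : Fin m → Frm m) (z : E m) : Prop where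
  sm : ∀ μ, ContDiffAt ℝ ∞ (fun w => coeff μ (Φ w)) z
  eq : ∀ μ l, dzb l (fun w => coeff μ (Φ w)) z = coeff μ (Φ' l)

theorem Der.const (Γ : Frm m) : Der (fun _ => Γ) (fun _ => 0) z :=
  ⟨fun _ => contDiffAt_const, fun _ _ => by simp⟩

theorem Der.add (h : Der Φ Φ' z) (h' : Der Ψ Ψ' z) :
    Der (fun w => Φ w + Ψ w) (fun l => Φ' l + Ψ' l) z := by
  refine ⟨fun μ => ?_, fun μ l => ?_⟩ <;> simp only [coeff_add]
  · exact (h.sm μ).add (h'.sm μ)
  · rw [dzb_add (cd_diff (h.sm μ)) (cd_diff (h'.sm μ)), h.eq, h'.eq]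

theorem Der.mul (h : Der Φ Φ' z) (h' : Der Ψ Ψ' z) :
    Der (fun w => Φ w * Ψ w) (fun l => Φ' l * Ψ z + Φ z * Ψ' l) z := by
  refine ⟨fun μ => ?_, fun μ l => ?_⟩ <;> simp only [coeff_add, coeff_mul]
  · exact ContDiffAt.sum fun p _ => (h.sm _).mul (h'.sm _)
  · rw [dzb_sum fun p _ => cd_diff ((h.sm _).mul (h'.sm _)), ← Finset.sum_add_distrib]
    refine Finset.sum_congr rfl fun p _ => ?_
    rw [dzb_mul (cd_diff (h.sm _)) (cd_diff (h'.sm _)), h.eq, h'.eq]

theorem Der.sum {I : Type} {s : Finset I} {Φ : I → E m → Frm m} {Φ' : I → Fin m → Frm m}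
    (h : ∀ i ∈ s, Der (Φ i) (Φ' i) z) :
    Der (fun w => ∑ i ∈ s, Φ i w) (fun l => ∑ i ∈ s, Φ' i l) z := by
  refine ⟨fun μ => ?_, fun μ l => ?_⟩ <;> simp only [coeff_sum]
  · exact ContDiffAt.sum fun i hi => (h i hi).sm μ
  · rw [dzb_sum fun i hi => cd_diff ((h i hi).sm μ)]
    exact Finset.sum_congr rfl fun i hi => (h i hi).eq μ l

theorem Der.C {f : E m → ℂ} (h : ContDiffAt ℝ ∞ f z) :
    Der (fun w => C (f w)) (fun l => C (dzb l f z)) z := by
  refine ⟨fun μ => ?_, fun μ l => ?_⟩ <;> simp only [coeff_C] <;> split_ifs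
  · exact h
  · exact contDiffAt_const
  · rfl
  · simp

theorem Der.congr (h : Der Φ Φ' z) (e : Ψ =ᶠ[𝓝 z] Φ) : Der Ψ Φ' z :=
  ⟨fun μ => (h.sm μ).congr_of_eventuallyEq (e.mono fun w hw => by simp only [hw]), fun μ l => by
    rw [← h.eq]
    exact dzb_congr (e.mono fun w hw => by simp only [hw])⟩

theorem Der.of_eq (h : Der Φ Φ' z) (e : ∀ l, Ψ' l = Φ' l) : Der Φ Ψ' z := by
  rwa [funext e]

theorem Der.top (h : Der Φ Φ' z) : ContDiffAt ℝ ∞ (fun w => top (Φ w)) z ∧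
    ∀ l, dzb l (fun w => top (Φ w)) z = top (Φ' l) := by
  simp only [LF.top]
  refine ⟨ContDiffAt.sum fun ρ _ => contDiffAt_const.mul (h.sm _), fun l => ?_⟩
  rw [dzb_sum fun ρ _ => cd_diff (contDiffAt_const.mul (h.sm _))]
  exact Finset.sum_congr rfl fun ρ _ => by rw [dzb_const_mul _ (cd_diff (h.sm _)), h.eq]

theorem Der.lin {T : E m → Mat m} (h : SmM T z) :
    Der (fun w => lin (T w)) (fun l => lin (dMb l T z)) z :=
  (Der.sum fun b _ => Der.sum fun a _ => (Der.C (h b a)).mul (Der.const (X (b, a)))).of_eq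
    fun l => by simp [LF.lin]

theorem cls_iff : Cls Φ z ↔ ∃ Φ', Der Φ Φ' z ∧
    ∀ (a : Fin m) (Γ : Frm m), top (Γ * ∑ l, X (l, a) * Φ' l) = 0 :=
  ⟨fun ⟨h1, Φ', h2, h3⟩ => ⟨Φ', ⟨h1, h2⟩, h3⟩, fun ⟨Φ', h1, h3⟩ => ⟨h1.sm, Φ', h1.eq, h3⟩⟩

theorem cls_const (Γ : Frm m) : Cls (fun _ => Γ) z :=
  cls_iff.2 ⟨_, Der.const Γ, fun a Γ => by simp [top]⟩

theorem top_add (P Q : Frm m) : top (P + Q) = top P + top Q := by
  simp [top, mul_add, Finset.sum_add_distrib]

theorem top_sum {I : Type} (s : Finset I) (P : I → Frm m) :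
    top (∑ i ∈ s, P i) = ∑ i ∈ s, top (P i) := by
  simp only [top, coeff_sum, Finset.mul_sum]
  exact Finset.sum_comm

theorem top_C (c : ℂ) (P : Frm m) : top (C c * P) = c * top P := by
  simp only [top, coeff_C_mul, Finset.mul_sum]
  exact Finset.sum_congr rfl fun _ _ => by ring

/-- The algebra of closed forms. -/
def alg (z : E m) : Subalgebra ℂ (E m → Frm m) where
  carrier := {Φ | Cls Φ z}
  mul_mem' := fun {Φ Ψ} h h' => by
    obtain ⟨Φ', h1, h2⟩ := cls_iff.1 h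
    obtain ⟨Ψ', h3, h4⟩ := cls_iff.1 h'
    refine cls_iff.2 ⟨_, h1.mul h3, fun a Γ => ?_⟩
    have e : Γ * ∑ l, X (l, a) * (Φ' l * Ψ z + Φ z * Ψ' l) =
        Γ * Ψ z * ∑ l, X (l, a) * Φ' l + Γ * Φ z * ∑ l, X (l, a) * Ψ' l := by
      simp only [Finset.mul_sum, ← Finset.sum_add_distrib]
      exact Finset.sum_congr rfl fun _ _ => by ring
    rw [e, top_add, h2, h4, add_zero]
  add_mem' := fun {Φ Ψ} h h' => by
    obtain ⟨Φ', h1, h2⟩ := cls_iff.1 h
    obtain ⟨Ψ', h3, h4⟩ := cls_iff.1 h'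
    refine cls_iff.2 ⟨_, h1.add h3, fun a Γ => ?_⟩
    simp only [mul_add, Finset.sum_add_distrib]
    rw [top_add, h2, h4, add_zero]
  algebraMap_mem' := fun c => cls_const _

theorem cls_lin (hT : St_TOP) {T : E m → Mat m} (h : SmM T z) (h' : ClB T z) :
    Cls (fun w => lin (T w)) z := by
  refine cls_iff.2 ⟨_, Der.lin h, fun a Γ => ?_⟩
  have e : top (Γ * ∑ l, X (l, a) * lin (dMb l T z)) =
      ∑ l, ∑ b, ∑ c, dMb l T z b c * top (Γ * (X (l, a) * X (b, c))) := by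
    simp only [lin, Finset.mul_sum, top_sum, ← top_C]
    refine Finset.sum_congr rfl fun _ _ => Finset.sum_congr rfl fun _ _ =>
      Finset.sum_congr rfl fun _ _ => ?_
    congr 1
    ring
  have e2 : ∑ l, ∑ b, ∑ c, dMb l T z b c * top (Γ * (X (l, a) * X (b, c))) =
      -∑ l, ∑ b, ∑ c, dMb l T z b c * top (Γ * (X (l, a) * X (b, c))) := by
    conv_lhs => rw [Finset.sum_comm]
    simp only [← Finset.sum_neg_distrib]
    refine Finset.sum_congr rfl fun l _ => Finset.sum_congr rfl fun b _ =>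
      Finset.sum_congr rfl fun c _ => ?_
    rw [(hT m).2.2.2.2.1, h' l c b, mul_neg]
  rw [e]
  linear_combination (1 / 2 : ℂ) * e2

end CLS

open CLS in
theorem bCLS (hT : St_TOP) : St_CLS := by
  intro m z
  refine ⟨⟨alg z, fun _ => Iff.rfl⟩, cls_const, fun Φ Φ' h e => ?_, fun T => cls_lin hT,
    fun T h1 h2 h3 i j k => ?_, fun β h => ⟨fun b a => cd_dzb (contDiffAt_pi.1 h a) b,
      fun i j k => dzb_dzb (contDiffAt_pi.1 h j) k i⟩, fun R h => ?_, fun Φ h => ?_,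
    fun I _ β Φ hβ hΦ => ?_⟩
  · obtain ⟨Ψ, h1, h2⟩ := cls_iff.1 h
    exact cls_iff.2 ⟨Ψ, h1.congr e, h2⟩
  · rw [dMb_herm h1 h2, dMb_herm h1 h2, Matrix.conjTranspose_apply, Matrix.conjTranspose_apply,
      h3 j i k]
  · let R' : Matrix (Fin m) (Fin m) (alg z) := Matrix.of fun p q => ⟨fun w => R w p q, h p q⟩
    let φ : E m → (alg z →+* Frm m) := fun w =>
      (Pi.evalRingHom (fun _ => Frm m) w).comp (alg z).val.toRingHom
    refine ⟨?_, fun p q => ?_⟩
    · have e : (fun w => (R w).det) = R'.det.1 := funext fun w => ((φ w).map_det R').symm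
      rw [e]
      exact R'.det.2
    · have e : (fun w => (R w).adjugate p q) = (R'.adjugate p q).1 := funext fun w =>
        (congrFun (congrFun ((φ w).map_adjugate R') p) q).symm
      rw [e]
      exact (R'.adjugate p q).2
  · obtain ⟨Ψ, h1, -⟩ := cls_iff.1 h
    exact h1.top.1
  · choose Φ' h1 h2 using fun i => cls_iff.1 (hΦ i)
    have h3 := fun l => (Der.sum (s := Finset.univ) fun a _ => (Der.const (X (l, a))).mul
      (Der.sum (s := Finset.univ) fun i _ => (Der.C (contDiffAt_pi.1 (hβ i) a)).mul (h1 i))).top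
    refine ⟨contDiffAt_pi.2 fun l => (h3 l).1, ?_⟩
    have e : ∑ l, ∑ a, (0 * ∑ i, C (β i z a) * Φ i z + X (l, a) *
        ∑ i, (C (dzb l (fun w => β i w a) z) * Φ i z + C (β i z a) * Φ' i l)) =
        ∑ i, lin (dbr (β i) z) * Φ i z + ∑ i, ∑ a, C (β i z a) * ∑ l, X (l, a) * Φ' i l := by
      simp only [zero_mul, zero_add]
      simp only [lin, dbr, Matrix.of_apply, Finset.mul_sum, Finset.sum_mul, mul_add,
        Finset.sum_add_distrib]
      congr 1
      · conv_rhs => rw [Finset.sum_comm]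
        refine Finset.sum_congr rfl fun l _ => ?_
        conv_rhs => rw [Finset.sum_comm]
        exact Finset.sum_congr rfl fun a _ => Finset.sum_congr rfl fun i _ => by ring
      · conv_lhs => rw [Finset.sum_comm]
        conv_rhs => rw [Finset.sum_comm]
        refine Finset.sum_congr rfl fun a _ => ?_
        conv_rhs => rw [Finset.sum_comm]
        exact Finset.sum_congr rfl fun l _ => Finset.sum_congr rfl fun i _ => by ring
    rw [dvb, Finset.sum_congr rfl fun l _ => (h3 l).2 l, ← top_sum, e, CLS.top_add]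
    simp only [top_sum, h2, Finset.sum_const_zero, add_zero]

end Pool.Agent.Lib.LF
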