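import Pool.Agent.Lib.LF.BBlue

/-! Project lf: composition of the families of rational curves. -/

open scoped Classical Polynomial
open Set MvPolynomial

noncomputable section

namespace Pool.Agent.Lib.LF

open Pool.Agent.Lib.MP_7fcda1_ag

namespace CMP

variable {ι Λ : Type}

theorem aeval_hom {R S : Type} [CommRing R] [CommRing S] [Algebra ℂ R] [Algebra ℂ S]
    (f : R →ₐ[ℂ] S) (w : ι → R) (g : Po ι) : aeval (fun l => f (w l)) g = f (aeval w g) := by
  rw [← comp_aeval]
  rfl

theorem hom_scale {R : Type} [CommRing R] [Algebra ℂ R] {g : Po ι} {d : ℕ}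
    (hg : g.IsHomogeneous d) (c : R) (w : ι → R) :
    aeval (fun l => c * w l) g = c ^ d * aeval w g := by
  rw [aeval_def, aeval_def, eval₂_eq, eval₂_eq, Finset.mul_sum]
  refine Finset.sum_congr rfl fun m hm => ?_
  have h : ∑ i ∈ m.support, m i = d := by
    have := hg (mem_support_iff.1 hm)
    simpa [Finsupp.weight_apply, Finsupp.sum] using this
  simp only [mul_pow, Finset.prod_mul_distrib, Finset.prod_pow_eq_pow_sum, h]
  ring

variable {F : Type} [Field F] [Algebra ℂ F] {Y : ι → F}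

/-- The family passes through every specialisation. -/
theorem on_spec {R : Type} [CommRing R] [Algebra ℂ R] {Φ : ι → (Po ι)[X]} {Ψ : ι → R}
    (hΨ : Spec Y Ψ) {g : Po ι}
    (h : aeval (fun l => (Φ l).map (aeval Y : Po ι →ₐ[ℂ] F).toRingHom) g = 0) :
    aeval (fun l => (Φ l).map (aeval Ψ : Po ι →ₐ[ℂ] R).toRingHom) g = 0 := by
  have h1 := aeval_hom (Polynomial.mapAlgHom (aeval Y : Po ι →ₐ[ℂ] F)) Φ g
  have h2 := aeval_hom (Polynomial.mapAlgHom (aeval Ψ : Po ι →ₐ[ℂ] R)) Φ g
  refine h2.trans (Polynomial.ext fun n => ?_)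
  have h3 := congrArg (fun P => Polynomial.coeff P n) (h1.symm.trans h)
  simp only [Polynomial.coe_mapAlgHom, Polynomial.coeff_map, Polynomial.coeff_zero] at h3 ⊢
  exact hΨ _ h3

theorem eval_split {B : Type} [CommRing B] (P : B[X]) (t : B) :
    P.eval t = t * P.divX.eval t + P.coeff 0 := by
  have h := congrArg (Polynomial.eval t) (Polynomial.X_mul_divX_add P)
  rw [Polynomial.eval_add, Polynomial.eval_mul, Polynomial.eval_X, Polynomial.eval_C] at h
  exact h.symm

omit [Algebra ℂ F] in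
theorem eps_eval {B : Type} [CommRing B] [Algebra F B] (ε : B →ₐ[F] F) (P : B[X]) {t : B}
    (ht : ε t = 0) : ε (P.eval t) = ε (P.coeff 0) := by
  rw [eval_split, map_add, map_mul, ht, zero_mul, zero_add]

omit [Algebra ℂ F] in
theorem eps_der {B : Type} [CommRing B] [Algebra F B] (ε : B →ₐ[F] F) (δ : Derivation F B B)
    (P : B[X]) {t : B} (ht : ε t = 0) :
    ε (δ (P.eval t)) = ε (δ t) * ε (P.coeff 1) + ε (δ (P.coeff 0)) := by
  rw [eval_split, map_add, Derivation.leibniz, map_add, map_add, smul_eq_mul, smul_eq_mul,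
    map_mul, map_mul, ht, zero_mul, zero_add, eps_eval ε _ ht, Polynomial.coeff_divX, mul_comm]

/-- One rational curve, with normalised ends. -/
theorem link {E : Type} [Field E] [Algebra ℂ E] {G : Λ → Po ι}
    (hG : ∀ l, ∃ e, (G l).IsHomogeneous e) (Q : ι → E[X]) (hQ : ∀ l, aeval Q (G l) = 0) (t : E)
    (i : ι) (u : ι → E) (hu : u i ≠ 0) (h0 : (Q i).coeff 0 ≠ 0) (h1 : (Q i).eval t ≠ 0)
    (hp : ∀ l, (Q l).coeff 0 * u i = (Q i).coeff 0 * u l) :
    Lnk (fun l => map (algebraMap ℂ E) (G l)) (nrm u i) (nrm (fun l => (Q l).eval t) i) := by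
  refine ⟨fun h => ?_, fun l => (Polynomial.C ((Q i).coeff 0)⁻¹ + Polynomial.C (((Q i).eval t)⁻¹ -
    ((Q i).coeff 0)⁻¹) * Polynomial.X) * (Q l).comp (Polynomial.C t * Polynomial.X),
    fun l => ?_, fun l => ⟨?_, ?_⟩⟩
  · have := congrFun h i
    simp [nrm, h1] at this
  · obtain ⟨e, he⟩ := hG l
    rw [aeval_map_algebraMap, hom_scale he]
    have := aeval_hom ((Polynomial.aeval (Polynomial.C t * Polynomial.X : E[X]) :
      E[X] →ₐ[E] E[X]).restrictScalars ℂ) Q (G l)
    rw [hQ, map_zero] at this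
    have h2 : (fun l => (Q l).comp (Polynomial.C t * Polynomial.X)) = fun l =>
        ((Polynomial.aeval (Polynomial.C t * Polynomial.X : E[X]) :
          E[X] →ₐ[E] E[X]).restrictScalars ℂ) (Q l) := by
      funext l
      exact Polynomial.comp_eq_aeval
    rw [h2, this, mul_zero]
  · have := hp l
    simp only [Polynomial.eval_mul, Polynomial.eval_add, Polynomial.eval_C, Polynomial.eval_X,
      Polynomial.eval_comp, mul_zero, add_zero, nrm, ← Polynomial.coeff_zero_eq_eval_zero]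
    field_simp
    linear_combination this
  · simp only [Polynomial.eval_mul, Polynomial.eval_add, Polynomial.eval_C, Polynomial.eval_X,
      Polynomial.eval_comp, mul_one, nrm]
    field_simp
    ring

variable {B E : Type} [CommRing B] [Algebra ℂ B] [Algebra F B] [IsScalarTower ℂ F B]
  [Field E] [Algebra ℂ E]

/-- The data after `r` steps. -/
def St (G : Λ → Po ι) (Y : ι → F) (i : ι) {k : ℕ} (D : Fin k → Derivation ℂ F F)
    (φ : B →ₐ[ℂ] E) (ε : B →ₐ[F] F) (δ : Fin k → Derivation F B B) (r : ℕ) : Prop :=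
  ∃ (Ψ : ι → B) (κ : F), κ ≠ 0 ∧ Spec Y Ψ ∧ (∀ l, ε (Ψ l) = κ * Y l) ∧
    Chn E G (nrm (fun l => φ (algebraMap F B (Y l))) i) (nrm (fun l => φ (Ψ l)) i) ∧
    ∀ s l, ε (δ s (Ψ l)) * Y i - ε (δ s (Ψ i)) * Y l =
      if (s : ℕ) < r then κ * Y i ^ 2 * D s (nrm Y i l) else 0

theorem st_zero (G : Λ → Po ι) (Y : ι → F) (i : ι) {k : ℕ} (D : Fin k → Derivation ℂ F F)
    (φ : B →ₐ[ℂ] E) (ε : B →ₐ[F] F) (δ : Fin k → Derivation F B B) : St G Y i D φ ε δ 0 := by
  refine ⟨fun l => algebraMap F B (Y l), 1, one_ne_zero, fun g hg => ?_, fun l => by simp,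
    Relation.ReflTransGen.refl, fun s l => by simp⟩
  have := aeval_hom (IsScalarTower.toAlgHom ℂ F B) Y g
  rw [hg, map_zero] at this
  exact this

theorem st_succ {G : Λ → Po ι} {i : ι} {k : ℕ} {D : Fin k → Derivation ℂ F F}
    {φ : B →ₐ[ℂ] E} {ε : B →ₐ[F] F} {δ : Fin k → Derivation F B B} {r : Fin k} {t : B} {d : ℕ}
    {Φ : ι → (Po ι)[X]} (hG : ∀ l, ∃ e, (G l).IsHomogeneous e) (hG0 : ∀ l, aeval Y (G l) = 0)
    (hY : Y i ≠ 0) (hφ : Function.Injective φ) (ht : ε t = 0)
    (hδ : ∀ s, ε (δ s t) = if s = r then 1 else 0) (hA : Arc Y (D r) i d Φ)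
    (h : St G Y i D φ ε δ r) : St G Y i D φ ε δ (r + 1) := by
  obtain ⟨Ψ, κ, hκ, hS, hε, hC, hd⟩ := h
  obtain ⟨a, ha, hj⟩ := hA.jet
  set P : ι → B[X] := fun l => (Φ l).map (aeval Ψ : Po ι →ₐ[ℂ] B).toRingHom with hP
  have hc : ∀ l n, (P l).coeff n = aeval Ψ ((Φ l).coeff n) := fun l n => by
    simp [hP, Polynomial.coeff_map]
  have he : ∀ l n, ε ((P l).coeff n) = κ ^ d * aeval Y ((Φ l).coeff n) := fun l n => by
    have := aeval_hom (ε.restrictScalars ℂ) Ψ ((Φ l).coeff n)
    simp only [AlgHom.coe_restrictScalars', hε] at this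
    rw [hc, ← this, hom_scale (hA.hom l n)]
  have he0 : ∀ l, ε ((P l).coeff 0) = κ ^ d * a * Y l := fun l => by
    rw [he, (hj l).1, mul_assoc]
  have hκ' : κ ^ d * a ≠ 0 := mul_ne_zero (pow_ne_zero _ hκ) ha
  have hp : ∀ l, (P l).coeff 0 * Ψ i = (P i).coeff 0 * Ψ l := fun l => by
    have := hS ((Φ l).coeff 0 * X i - (Φ i).coeff 0 * X l) (by
      simp only [map_sub, map_mul, aeval_X, (hj _).1]
      ring)
    simp only [map_sub, map_mul, aeval_X] at this
    rw [hc, hc]
    exact sub_eq_zero.1 this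
  have hne : ∀ b : B, ε b ≠ 0 → φ b ≠ 0 := fun b hb h0 =>
    hb (by rw [hφ (h0.trans (map_zero φ).symm), map_zero])
  refine ⟨fun l => (P l).eval t, κ ^ d * a, hκ', fun g hg => ?_, fun l => ?_, ?_, fun s l => ?_⟩
  · have := aeval_hom ((Polynomial.aeval t : B[X] →ₐ[B] B).restrictScalars ℂ) P g
    rw [on_spec hS (hA.on g hg), map_zero] at this
    simpa [Polynomial.coe_aeval_eq_eval] using this
  · rw [eps_eval ε _ ht, he0]
  · have hS' : Spec Y fun l => φ (Ψ l) := fun g hg => by rw [aeval_hom, hS g hg, map_zero]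
    set Q : ι → E[X] := fun l => (Φ l).map (aeval fun l => φ (Ψ l) : Po ι →ₐ[ℂ] E).toRingHom
      with hQ
    have hQP : ∀ l, Q l = (P l).map φ.toRingHom := fun l => by
      refine Polynomial.ext fun n => ?_
      simp only [hQ, Polynomial.coeff_map, hc]
      exact aeval_hom φ Ψ _
    have hQc : ∀ l n, (Q l).coeff n = φ ((P l).coeff n) := fun l n => by
      rw [hQP, Polynomial.coeff_map]
      rfl
    have hQe : ∀ l, (Q l).eval (φ t) = φ ((P l).eval t) := fun l => by
      rw [hQP]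
      exact Polynomial.eval_map_apply φ.toRingHom t
    have hl := link hG Q (fun l => on_spec hS' (hA.on _ (hG0 l))) (φ t) i (fun l => φ (Ψ l))
      (hne _ (by rw [hε]; exact mul_ne_zero hκ hY))
      (by rw [hQc]; exact hne _ (by rw [he0]; exact mul_ne_zero hκ' hY))
      (by rw [hQe]; exact hne _ (by rw [eps_eval ε _ ht, he0]; exact mul_ne_zero hκ' hY))
      (fun l => by rw [hQc, hQc, ← map_mul, ← map_mul, hp])
    simp only [hQe] at hl
    exact hC.tail hl
  · have h1 := congrArg (fun b => ε (δ s b)) (hp l)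
    simp only [Derivation.leibniz, smul_eq_mul, map_add, map_mul, he0, hε] at h1
    have h2 := hd s l
    have h3 := (hj l).2
    rw [eps_der ε _ _ ht, eps_der ε _ _ ht, hδ, he l 1, he i 1]
    refine mul_left_cancel₀ hκ ?_
    by_cases hs : s = r
    · subst hs
      rw [if_neg (lt_irrefl _)] at h2
      rw [if_pos rfl, if_pos (Nat.lt_succ_self _)]
      linear_combination h1 + κ ^ d * a * h2 + κ * κ ^ d * h3
    · have hs' : (s : ℕ) ≠ r := fun h => hs (Fin.ext h)
      rw [if_neg hs]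
      by_cases hlt : (s : ℕ) < r
      · rw [if_pos hlt] at h2
        rw [if_pos (by omega)]
        linear_combination h1 + κ ^ d * a * h2
      · rw [if_neg hlt] at h2
        rw [if_neg (by omega)]
        linear_combination h1 + κ ^ d * a * h2

theorem spec_back {i : ι} {φ : B →ₐ[ℂ] E} {ε : B →ₐ[F] F} {Ψ : ι → B} {κ : F}
    (hφ : Function.Injective φ) (hκ : κ ≠ 0) (hY : Y i ≠ 0) (hε : ∀ l, ε (Ψ l) = κ * Y l)
    (h0 : φ (Ψ i) ≠ 0) : Spec (nrm (fun l => φ (Ψ l)) i) (nrm Y i) := by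
  have key : ∀ g : Po ι, ∃ (N : ℕ) (b : B),
      φ b = aeval (nrm (fun l => φ (Ψ l)) i) g * φ (Ψ i) ^ N ∧
      ε b = aeval (nrm Y i) g * (κ * Y i) ^ N := fun g => by
    induction g using MvPolynomial.induction_on with
    | C c =>
      refine ⟨0, algebraMap ℂ B c, by simp, ?_⟩
      simp
    | add p q hp hq =>
      obtain ⟨N, b, h1, h2⟩ := hp
      obtain ⟨N', b', h1', h2'⟩ := hq
      refine ⟨N + N', b * Ψ i ^ N' + b' * Ψ i ^ N, ?_, ?_⟩
      · simp only [map_add, map_mul, map_pow, h1, h1']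
        ring
      · simp only [map_add, map_mul, map_pow, h2, h2', hε]
        ring
    | mul_X p l hp =>
      obtain ⟨N, b, h1, h2⟩ := hp
      refine ⟨N + 1, b * Ψ l, ?_, ?_⟩
      · simp only [map_mul, aeval_X, h1, nrm]
        field_simp
        ring
      · simp only [map_mul, aeval_X, h2, hε, nrm]
        field_simp
        ring
  intro g hg
  obtain ⟨N, b, h1, h2⟩ := key g
  rw [hg, zero_mul] at h1
  rw [hφ (h1.trans (map_zero φ).symm), map_zero] at h2
  exact (mul_eq_zero.1 h2.symm).resolve_right (pow_ne_zero _ (mul_ne_zero hκ hY))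

end CMP

theorem bCMP (hDIM : St_DIM) (hIND : St_IND) : St_CMP := by
  intro ι Λ F _ _ _ G Y i k D d Φ hG hG0 hY hA hli
  let B := MvPolynomial (Fin k) F
  let E := FractionRing B
  let φ : B →ₐ[ℂ] E := IsScalarTower.toAlgHom ℂ B E
  have hφ : Function.Injective φ := IsFractionRing.injective B E
  let ε : B →ₐ[F] F := aeval fun _ => 0
  let δ : Fin k → Derivation F B B := fun s => pderiv s
  have hst : ∀ r, r ≤ k → CMP.St G Y i D φ ε δ r := fun r => by
    induction r with
    | zero => exact fun _ => CMP.st_zero G Y i D φ ε δ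
    | succ r ih =>
      intro hr
      refine CMP.st_succ (r := ⟨r, hr⟩) (t := X ⟨r, hr⟩) hG hG0 hY hφ (aeval_X _ _) (fun s => ?_)
        (hA ⟨r, hr⟩) (ih (by omega))
      by_cases hs : s = ⟨r, hr⟩
      · subst hs
        rw [if_pos rfl, show δ ⟨r, hr⟩ (X ⟨r, hr⟩) = 1 from pderiv_X_self _, map_one]
      · rw [if_neg hs, show δ s (X ⟨r, hr⟩) = 0 from pderiv_X_of_ne (Ne.symm hs), map_zero]
  obtain ⟨Ψ, κ, hκ, -, hε, hC, hd⟩ := hst k le_rfl
  have h0 : φ (Ψ i) ≠ 0 := fun h => mul_ne_zero hκ hY (by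
    rw [← hε, hφ (h.trans (map_zero φ).symm), map_zero])
  have hch : CharZero F := charZero_of_injective_algebraMap (algebraMap ℂ F).injective
  refine ⟨E, inferInstance, inferInstance, inferInstance, inferInstance,
    nrm (fun l => φ (Ψ l)) i, div_self h0, ?_, ?_, CMP.spec_back hφ hκ hY hε h0⟩
  · have : (fun l => algebraMap F E (nrm Y i l)) =
        nrm (fun l => φ (algebraMap F B (Y l))) i := by
      funext l
      simp only [nrm, map_div₀]
      rfl
    rw [this]
    exact hC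
  · obtain ⟨h1, -, h3⟩ := hDIM F E ι
    have hex : ∀ s, ∃ D' : Derivation F E E, ∀ a, D' (φ a) = φ (δ s a) := fun s =>
      h3 B (IsScalarTower.toAlgHom F B E)
        ((IsScalarTower.toAlgHom F B E).toLinearMap.comp (δ s).toLinearMap)
        (fun a b => by simp [Derivation.leibniz])
        (fun a ha => by
          have : a = 0 := hφ (ha.trans (map_zero φ).symm)
          simp [this])
    choose D' hD' using hex
    refine h1 _ k D' ?_
    have h4 : LinearIndependent F fun s l => ε.toRingHom (δ s (Ψ l) * Ψ i - δ s (Ψ i) * Ψ l) := by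
      have h5 := hli.units_smul fun _ =>
        Units.mk0 (κ ^ 2 * Y i ^ 2) (mul_ne_zero (pow_ne_zero _ hκ) (pow_ne_zero _ hY))
      have e : (fun s l => ε.toRingHom (δ s (Ψ l) * Ψ i - δ s (Ψ i) * Ψ l)) =
          (fun _ : Fin k => Units.mk0 (κ ^ 2 * Y i ^ 2)
            (mul_ne_zero (pow_ne_zero _ hκ) (pow_ne_zero _ hY))) •
            fun s l => D s (nrm Y i l) := by
        funext s l
        have h6 := hd s l
        rw [if_pos s.2] at h6
        change ε _ = (κ ^ 2 * Y i ^ 2) * D s (nrm Y i l)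
        simp only [map_sub, map_mul, hε]
        linear_combination κ * h6
      rw [e]
      exact h5
    have h7 := hIND.1 B E F (Fin k) ι φ.toRingHom ε.toRingHom _ (fun a ha => by
      have : a = 0 := hφ (ha.trans (map_zero φ).symm)
      simp [this]) h4
    have h8 := h7.units_smul fun _ => Units.mk0 ((φ (Ψ i) ^ 2)⁻¹) (inv_ne_zero (pow_ne_zero _ h0))
    have e : (fun s l => D' s (nrm (fun l => φ (Ψ l)) i l)) =
        (fun _ : Fin k => Units.mk0 ((φ (Ψ i) ^ 2)⁻¹) (inv_ne_zero (pow_ne_zero _ h0))) •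
          fun s l => φ.toRingHom (δ s (Ψ l) * Ψ i - δ s (Ψ i) * Ψ l) := by
      funext s l
      change D' s (φ (Ψ l) / φ (Ψ i)) = (φ (Ψ i) ^ 2)⁻¹ * φ _
      rw [Derivation.leibniz_div, hD', hD']
      simp only [map_sub, map_mul, smul_eq_mul, inv_pow]
      ring
    rw [e]
    exact h8

end Pool.Agent.Lib.LF
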