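import Pool.Agent.Lib.LF.ABlue

/-! Project lf, block CND: the three conditions are convex and do not depend on the chart. -/

open scoped Classical Topology Matrix
open Set Filter

noncomputable section

namespace Pool.Agent.Lib.LF

open Pool.Agent.Lib.SV (E)
open Pool.Agent.Lib.HS32

namespace CND

variable {m : ℕ}

theorem split (T : Mat m) {s t : ℝ} (h : s + t = 1) : T = s • T + t • T := by
  rw [← add_smul, h, one_smul]

theorem bo_cvx (a b : Fin m → Mat m) (V : E m → E m) (z : E m) {s t : ℝ} (h : s + t = 1) :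
    bo (s • a + t • b) V z = s • bo a V z + t • bo b V z := by
  have e : av (s • a + t • b) (V z) = s • av a (V z) + t • av b (V z) := by
    simp only [av, Pi.add_apply, Pi.smul_apply, smul_add, Finset.sum_add_distrib,
      Finset.smul_sum, smul_comm (V z _)]
  rw [bo, bo, bo, e, smul_add, smul_add, add_add_add_comm, ← split _ h]

theorem pa_cvx (a b : Fin m → Mat m) (V : E m → E m) (z : E m) {s t : ℝ} (h : s + t = 1) :
    pa (s • a + t • b) V z = s • pa a V z + t • pa b V z := by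
  have e : (Matrix.of fun p k => ((s • a + t • b) k *ᵥ V z) p : Mat m) =
      s • (Matrix.of fun p k => (a k *ᵥ V z) p) + t • Matrix.of fun p k => (b k *ᵥ V z) p := by
    ext p k
    simp only [Pi.add_apply, Pi.smul_apply, Matrix.add_mulVec, Matrix.smul_mulVec,
      Matrix.of_apply, Matrix.add_apply, Matrix.smul_apply]
  rw [pa, pa, pa, e, smul_add, smul_add, add_add_add_comm, ← split _ h]

theorem cp_cvx (a b : Fin m → Mat m) (V : E m → E m) (z : E m) {s t : ℝ} (h : s + t = 1) :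
    cp (s • a + t • b) V z = s • cp a V z + t • cp b V z := by
  have e : (Matrix.of fun q k => (V z ᵥ* (s • a + t • b) k) q : Mat m) =
      s • (Matrix.of fun q k => (V z ᵥ* a k) q) + t • Matrix.of fun q k => (V z ᵥ* b k) q := by
    ext p k
    simp only [Pi.add_apply, Pi.smul_apply, Matrix.vecMul_add, Matrix.vecMul_smul,
      Matrix.of_apply, Matrix.add_apply, Matrix.smul_apply]
  rw [cp, cp, cp, e, smul_sub, smul_sub, sub_add_sub_comm, ← split _ h]

theorem mem_cvx {W : Submodule ℂ (E m)} {A B : Mat m} {u : E m} (s t : ℝ) (hA : A *ᵥ u ∈ W)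
    (hB : B *ᵥ u ∈ W) : (s • A + t • B) *ᵥ u ∈ W := by
  rw [Matrix.add_mulVec, Matrix.smul_mulVec, Matrix.smul_mulVec]
  exact W.add_mem (W.smul_of_tower_mem s hA) (W.smul_of_tower_mem t hB)

theorem inj {J : Mat m} (h : J.det ≠ 0) {u v : E m} (e : J *ᵥ u = J *ᵥ v) : u = v :=
  Matrix.mulVec_injective_of_isUnit ((Matrix.isUnit_iff_isUnit_det J).2 (Ne.isUnit h)) e

theorem zero_of {J T : Mat m} (h : J.det ≠ 0) (e : J * T = 0 * J) : T = 0 := by
  rw [zero_mul] at e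
  rw [← Matrix.one_mul T, ← Matrix.nonsing_inv_mul J (Ne.isUnit h), Matrix.mul_assoc, e,
    Matrix.mul_zero]

theorem mem_of {τ : Type} [Fintype τ] {J T T' : Mat m} (h : J.det ≠ 0) (e : J * T' = T * J)
    {Z Z' : τ → E m} (hZ : ∀ s, J *ᵥ Z' s = Z s)
    (hm : ∀ u, T *ᵥ u ∈ Submodule.span ℂ (range Z)) (u : E m) :
    T' *ᵥ u ∈ Submodule.span ℂ (range Z') := by
  obtain ⟨c, hc⟩ := (Submodule.mem_span_range_iff_exists_fun ℂ).1 (hm (J *ᵥ u))
  refine (Submodule.mem_span_range_iff_exists_fun ℂ).2 ⟨c, inj h ?_⟩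
  rw [Matrix.mulVec_mulVec, e, ← Matrix.mulVec_mulVec, ← hc, Matrix.mulVec_sum]
  exact Finset.sum_congr rfl fun s _ => by rw [Matrix.mulVec_smul, hZ]

theorem jm_mul (V : E m → E m) (z u : E m) : jm V z *ᵥ u = fderiv ℂ V z u := by
  conv_rhs => rw [pi_eq_sum_univ' u, map_sum]
  ext i
  simp only [jm, Matrix.mulVec, dotProduct, Matrix.of_apply, map_smul, Finset.sum_apply,
    Pi.smul_apply, smul_eq_mul, mul_comm]

theorem jm_twist {g : E m → ℂ} {Z Z' : E m → E m} {z : E m} (hg : DifferentiableAt ℂ g z)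
    (hZ : DifferentiableAt ℂ Z z) (e : Z' =ᶠ[𝓝 z] fun w => g w • Z w) (u : E m) :
    jm Z' z *ᵥ u = g z • jm Z z *ᵥ u + fderiv ℂ g z u • Z z := by
  rw [jm_mul, jm_mul, e.fderiv_eq, fderiv_fun_smul hg hZ]
  simp

theorem pa_twist {g : E m → ℂ} {Z Z' : E m → E m} {z : E m} (hg : DifferentiableAt ℂ g z)
    (hZ : DifferentiableAt ℂ Z z) (e : Z' =ᶠ[𝓝 z] fun w => g w • Z w) (a : Fin m → Mat m)
    (u : E m) : pa a Z' z *ᵥ u = g z • pa a Z z *ᵥ u + fderiv ℂ g z u • Z z := by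
  have e1 : (Matrix.of fun p k => (a k *ᵥ Z' z) p : Mat m) =
      g z • Matrix.of fun p k => (a k *ᵥ Z z) p := by
    ext p k
    simp only [e.self_of_nhds, Matrix.mulVec_smul, Matrix.of_apply, Matrix.smul_apply,
      Pi.smul_apply]
  rw [pa, pa, Matrix.add_mulVec, Matrix.add_mulVec, jm_twist hg hZ e, e1, Matrix.smul_mulVec,
    smul_add, add_right_comm]

theorem bo_twist {g : E m → ℂ} {Z Z' : E m → E m} {z : E m} (hg : DifferentiableAt ℂ g z)
    (hZ : DifferentiableAt ℂ Z z) (e : Z' =ᶠ[𝓝 z] fun w => g w • Z w) (a : Fin m → Mat m)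
    (u : E m) : bo a Z' z *ᵥ u = g z • bo a Z z *ᵥ u + fderiv ℂ g z u • Z z := by
  have e1 : av a (Z' z) = g z • av a (Z z) := by
    simp only [av, e.self_of_nhds, Pi.smul_apply, Finset.smul_sum, smul_smul, smul_eq_mul]
  rw [bo, bo, Matrix.add_mulVec, Matrix.add_mulVec, jm_twist hg hZ e, e1, Matrix.smul_mulVec,
    smul_add, add_assoc]

variable {n : ℕ} {M : Mf m} {S : M.Fam (Mat m)} {p : M.X → E (n + 1)}

theorem chg (hT : St_TRS) (hH : St_HAM) (hK : St_KX) (hF : Fib S p) (N : Mat (n + 1))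
    (c : Fin (n + 1)) {e e' : M.Ch} (he : e ∈ M.C) (he' : e' ∈ M.C) {x : M.X}
    (hx : x ∈ e.source) (hx' : x ∈ e'.source) (hc : p x c ≠ 0) (a : Fin m → Mat m) :
    M.J e e' x * pa (trn (e ∘ e'.symm) (e' x) a) (ham S p N c e') (e' x) =
      pa a (ham S p N c e) (e x) * M.J e e' x ∧
    M.J e e' x * bo (trn (e ∘ e'.symm) (e' x) a) (ham S p N c e') (e' x) =
      bo a (ham S p N c e) (e x) * M.J e e' x ∧
    cp (trn (e ∘ e'.symm) (e' x) a) (cov p N c e') (e' x) =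
      (M.J e e' x)ᵀ * cp a (cov p N c e) (e x) * M.J e e' x := by
  obtain ⟨h1, h2, -, h3, -⟩ := (mTR m M).2.1 e he e' he' x hx hx'
  have hψ : (e ∘ e'.symm) (e' x) = e x := by simp [e'.left_inv hx']
  obtain ⟨k1, k2⟩ := hH m n M S p N N c hF
  have k3 := k1 e he (e x) (e.map_source hx) (by rwa [e.left_inv hx])
  have k4 := ((hK m M _ p hF.pm).2.2.2.1 e' he' (e' x) (e'.map_source hx') c
    (by rwa [e'.left_inv hx'])).1
  have t := (hT m (e ∘ e'.symm) (e' x) h1 h2).1 a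
  rw [hψ] at t
  have k5 : ∀ᶠ w in 𝓝 (e' x),
      jm (e ∘ e'.symm) w *ᵥ ham S p N c e' w = ham S p N c e ((e ∘ e'.symm) w) ∧
      cov p N c e' w = cov p N c e ((e ∘ e'.symm) w) ᵥ* jm (e ∘ e'.symm) w := by
    filter_upwards [h3, k4] with w ⟨_, w2, w3, _, _, w6, w7⟩ w8
    have := k2 e he e' he' _ w2 w3 w8
    rw [w6, w7] at this
    exact this
  have t1 := (t (ham S p N c e) (ham S p N c e') k3.1).1 (k5.mono fun _ h => h.1)
  exact ⟨t1.1, t1.2, (t (cov p N c e) (cov p N c e') k3.2.1).2 (k5.mono fun _ h => h.2)⟩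

theorem twist (hH : St_HAM) (hK : St_KX) (hF : Fib S p) {c c' : Fin (n + 1)} {e : M.Ch}
    (he : e ∈ M.C) {z : E m} (hz : z ∈ e.target) (hc : p (e.symm z) c ≠ 0)
    (hc' : p (e.symm z) c' ≠ 0) : ∃ g : E m → ℂ, DifferentiableAt ℂ g z ∧ g z ≠ 0 ∧
      ∀ N : Mat (n + 1), Nᵀ = -N → DifferentiableAt ℂ (ham S p N c e) z ∧
        (ham S p N c' e =ᶠ[𝓝 z] fun w => g w • ham S p N c e w) ∧
        fderiv ℂ g z (ham S p N c e z) = 0 := by
  obtain ⟨a1, a2, -, a3, -⟩ := (hK m M _ p hF.pm).2.2.2.1 e he z hz c hc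
  have a4 := ((hK m M _ p hF.pm).2.2.2.1 e he z hz c' hc').1
  have h0 : (aff p c ∘ e.symm) z c' ≠ 0 := by
    simpa [aff] using ⟨hc, hc'⟩
  have hφ : DifferentiableAt ℂ (fun b : E (n + 1) => (b c')⁻¹ ^ 2) ((aff p c ∘ e.symm) z) :=
    ((differentiableAt_apply (𝕜 := ℂ) c' ((aff p c ∘ e.symm) z)).fun_inv h0).fun_pow 2
  refine ⟨(fun b : E (n + 1) => (b c')⁻¹ ^ 2) ∘ aff p c ∘ e.symm, hφ.comp z a2.self_of_nhds,
    pow_ne_zero 2 (inv_ne_zero h0), fun N hN => ?_⟩
  obtain ⟨k1, -⟩ := hH m n M S p N N c hF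
  have k3 := k1 e he z hz hc
  refine ⟨k3.1.self_of_nhds, ?_, ?_⟩
  · filter_upwards [e.open_target.mem_nhds hz, a1, a4] with w w1 w2 w3
    exact (k1 e he w w1 w2).2.2.2.2.2.2 c' hN w3
  · rw [fderiv_comp z hφ a2.self_of_nhds, ContinuousLinearMap.comp_apply, a3, k3.2.2.1, map_zero]

end CND

open CND in
theorem bCND (hT : St_TRS) (hH : St_HAM) (hK : St_KX) : St_CND := by
  intro m n j M S p N c hF hN
  refine ⟨fun e z => ⟨?_, ?_, ?_⟩, fun e he e' he' x hx hx' a => ?_, ?_⟩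
  · intro a ha b hb s t _ _ h r
    rw [bo_cvx a b _ z h, ha r, hb r, smul_zero, smul_zero, add_zero]
  · intro a ha b hb s t _ _ h
    refine ⟨fun r => ?_, fun r => ?_⟩
    · rw [pa_cvx a b _ z h, ha.1 r, hb.1 r, smul_zero, smul_zero, add_zero]
    · rw [cp_cvx a b _ z h, ha.2 r, hb.2 r, smul_zero, smul_zero, add_zero]
  · intro a ha b hb s t _ _ h c hc r
    obtain ⟨a1, a2, a3⟩ := ha c hc r
    obtain ⟨b1, b2, b3⟩ := hb c hc r
    rw [pa_cvx a b _ z h, bo_cvx a b _ z h]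
    refine ⟨fun u => mem_cvx s t (a1 u) (b1 u), fun u => mem_cvx s t (a2 u) (b2 u), fun q => ?_⟩
    rw [Matrix.add_mulVec, Matrix.smul_mulVec, Matrix.smul_mulVec, a3, b3, smul_zero, smul_zero,
      add_zero]
  · have hJ := ((mTR m M).2.1 e he e' he' x hx hx').2.1
    refine ⟨fun hc h r => ?_, fun hc h => ⟨fun r => ?_, fun r => ?_⟩, fun h c hc r => ?_⟩
    · have := (chg hT hH hK hF (N r) c he he' hx hx' hc a).2.1
      rw [h r] at this
      exact zero_of hJ this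
    · have := (chg hT hH hK hF (N r) c he he' hx hx' hc a).1
      rw [h.1 r] at this
      exact zero_of hJ this
    · rw [(chg hT hH hK hF (N r.castSucc) c he he' hx hx' hc a).2.2, h.2 r, Matrix.mul_zero,
        Matrix.zero_mul]
    · rw [e'.left_inv hx'] at hc
      obtain ⟨a1, a2, a3⟩ := h c (by rwa [e.left_inv hx]) r
      obtain ⟨t1, t2, -⟩ := chg hT hH hK hF (N r) c he he' hx hx' hc a
      have hZ : ∀ s, M.J e e' x *ᵥ ham S p (N s) c e' (e' x) = ham S p (N s) c e (e x) :=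
        fun s => ((hH m n M S p (N s) (N s) c hF).2 e he e' he' x hx hx' hc).1
      refine ⟨mem_of hJ t1 hZ a1, mem_of hJ t2 hZ a2, fun s => inj hJ ?_⟩
      rw [Matrix.mulVec_mulVec, t2, ← Matrix.mulVec_mulVec, hZ, a3, Matrix.mulVec_zero]
  · intro e he z hz a hc hW hR c' hc' r
    obtain ⟨g, hg, g0, hZ⟩ := twist hH hK hF he hz hc hc'
    obtain ⟨d, ev, -⟩ := hZ (N r) (hN r)
    have hm : ∀ t : ℂ, t • ham S p (N r) c e z ∈
        Submodule.span ℂ (range fun s => ham S p (N s) c' e z) := fun t => by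
      have : t • ham S p (N r) c e z = (t * (g z)⁻¹) • ham S p (N r) c' e z := by
        rw [ev.self_of_nhds, smul_smul, inv_mul_cancel_right₀ g0]
      rw [this]
      exact Submodule.smul_mem _ _ (Submodule.subset_span ⟨r, rfl⟩)
    refine ⟨fun u => ?_, fun u => ?_, fun s => ?_⟩
    · rw [pa_twist hg d ev, hR.1 r, Matrix.zero_mulVec, smul_zero, zero_add]
      exact hm _
    · rw [bo_twist hg d ev, hW r, Matrix.zero_mulVec, smul_zero, zero_add]
      exact hm _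
    · obtain ⟨-, ev', h0⟩ := hZ (N s) (hN s)
      rw [bo_twist hg d ev, hW r, Matrix.zero_mulVec, smul_zero, zero_add, ev'.self_of_nhds,
        map_smul, h0, smul_zero, zero_smul]

end Pool.Agent.Lib.LF
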