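import Pool.Agent.Lib.LF.ABlue

/-! Project lf: the connection with the three zones. -/

open scoped Classical Topology Matrix
open Set Filter

noncomputable section

namespace Pool.Agent.Lib.LF

open Pool.Agent.Lib.SV (E)
open Pool.Agent.Lib.HS32

namespace CON

theorem ev_symm {m : ℕ} {M : Mf m} {e : M.Ch} {z : E m} (hz : z ∈ e.target) {q : M.X → Prop}
    (h : ∀ᶠ x in 𝓝 (e.symm z), q x) : ∀ᶠ w in 𝓝 z, q (e.symm w) :=
  (e.continuousAt_symm hz).eventually h

theorem cvx {V : Type} [AddCommGroup V] [Module ℝ V] {q : Prop} {s : V → Prop}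
    (h : q → Convex ℝ {a | s a}) : Convex ℝ {a | q → s a} := by
  by_cases hq : q
  · simpa [hq] using h hq
  · simpa [hq] using convex_univ

theorem skw {n j : ℕ} {N : Fin j → Mat n} (h : Skw N) {T : Mat n} (hT : Tᵀ = -T) (i : Fin j) :
    Skw (Function.update N i T) := fun r => by
  by_cases hr : r = i
  · rw [hr, Function.update_self, hT]
  · rw [Function.update_of_ne hr, h r]

end CON

open CON

theorem bCON (hGLU : St_GLU) (hCND : St_CND) (hSOL : St_SOL) (hIDP : St_IDP) (hKX : St_KX) :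
    St_CON := by
  intro m n j M _ H S p N t r P hH hF hN hr hP h0 ht
  obtain ⟨U, U1, U2, U3⟩ := normal_exists_closure_subset hP
    ((hIDP m n M S p _ N hF hN).1.union (isOpen_lt hr (continuous_const (y := 1 / 10))))
    fun x hx => (em _).imp id fun h => by
      show r x < 1 / 10
      rw [h0 x hx h]
      norm_num
  have hI : ∀ x ∈ closure U, 1 / 5 ≤ r x → Indp p N x := fun x hx h =>
    (U3 hx).resolve_right fun h' => absurd (h.trans_lt h') (by norm_num)
  let N' : M.X → Fin (j + 1) → Mat (n + 1) := fun x => Function.update N (Fin.last j) (t x).2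
  have hN' : ∀ x, r x < 1 → Skw (N' x) := fun x h => skw hN (ht x h).1.2.1 _
  have lt : ∀ (x : M.X) (a : ℝ), r x < a → ∀ᶠ x' in 𝓝 x, r x' < a := fun x a h =>
    hr.continuousAt.eventually_lt continuousAt_const h
  have gt : ∀ (x : M.X) (a : ℝ), a < r x → ∀ᶠ x' in 𝓝 x, a < r x' := fun x a h =>
    continuousAt_const.eventually_lt hr.continuousAt h
  obtain ⟨A, hA, hK⟩ := hGLU m M H (fun e z => {a | e.symm z ∈ U →
      (r (e.symm z) < 2 / 5 → BW S p (N' (e.symm z)) (t (e.symm z)).1 e z a) ∧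
      (1 / 5 < r (e.symm z) ∧ r (e.symm z) < 4 / 5 → RK S p N (t (e.symm z)).1 e z a) ∧
      (3 / 5 < r (e.symm z) → BS S p N e z a)}) hH
    (fun e z => cvx fun _ => Convex.inter
      (cvx fun h => ((hCND m n j M S p _ _ hF (hN' _ (by linarith))).1 e z).1) (Convex.inter
        (cvx fun _ => ((hCND m n j M S p _ _ hF hN).1 e z).2.1)
        (cvx fun _ => ((hCND m n j M S p _ 0 hF hN).1 e z).2.2)))
    (fun e he e' he' x hx hx' a ha => by
      simp only [mem_setOf_eq, e.left_inv hx, e'.left_inv hx'] at ha ⊢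
      exact fun hU => ⟨fun h => ((hCND m n j M S p _ _ hF (hN' _ (by linarith))).2.1 e he e' he' x
        hx hx' a).1 (ht x (by linarith)).1.1 ((ha hU).1 h),
        fun h => ((hCND m n j M S p _ _ hF hN).2.1 e he e' he' x hx hx' a).2.1
          (ht x (by linarith [h.2])).1.1 ((ha hU).2.1 h),
        fun h => ((hCND m n j M S p _ 0 hF hN).2.1 e he e' he' x hx hx' a).2.2 ((ha hU).2.2 h)⟩)
    (fun x => by
      refine ⟨M.ch x, Mf.ch_mem x, Mf.mem_ch x, ?_⟩
      have he := Mf.ch_mem x
      have hz := Mf.ch_tgt x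
      have hx := Mf.ch_symm x
      generalize M.ch x x = z at hz hx
      generalize M.ch x = e at he hz hx
      subst hx
      by_cases hU : e.symm z ∈ closure U
      swap
      · refine ⟨fun _ _ => 0, ?_⟩
        filter_upwards [ev_symm hz (isClosed_closure.isOpen_compl.mem_nhds hU)] with w hw
        exact ⟨fun _ => smM_const 0, fun h => absurd (subset_closure h) hw⟩
      rcases lt_or_ge (r (e.symm z)) (1 / 5) with h1 | h1
      · have h := ht (e.symm z) (by linarith)
        obtain ⟨A, hA⟩ := (hSOL m n j M S p _ _ hF (hN' _ (by linarith)) e he z hz h.1.1 h.1.2.2).1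
        refine ⟨A, ?_⟩
        filter_upwards [hA, ev_symm hz h.2, ev_symm hz (lt _ _ h1)] with w a b c
        refine ⟨a.1, fun _ => ⟨fun _ => ?_, fun h => absurd h.1 c.not_gt,
          fun h => absurd h (by linarith)⟩⟩
        simp only [N', b]
        exact a.2
      rcases le_or_gt (r (e.symm z)) (1 / 2) with h2 | h2
      · have h := ht (e.symm z) (by linarith)
        obtain ⟨A, hA⟩ := (hSOL m n j M S p _ _ hF hN e he z hz h.1.1 (hI _ hU h1)).2.1 _
          (hN' _ (by linarith)) h.1.2.2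
        refine ⟨A, ?_⟩
        filter_upwards [hA, ev_symm hz h.2, ev_symm hz (lt _ (3 / 5) (by linarith))] with w a b c
        refine ⟨a.1, fun _ => ⟨fun _ => ?_, fun _ => ?_, fun h => absurd h c.not_gt⟩⟩
        · simp only [N', b]
          exact a.2.1
        · rw [b]
          exact a.2.2
      obtain ⟨c, hc, hc'⟩ : ∃ c, p (e.symm z) c ≠ 0 ∧
          ∀ᶠ x' in 𝓝 (e.symm z), r x' < 4 / 5 → (t x').1 = c := by
        rcases lt_or_ge (r (e.symm z)) 1 with h3 | h3
        · exact ⟨_, (ht _ h3).1.1, (ht _ h3).2.mono fun _ h _ => by rw [h]⟩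
        · obtain ⟨c, hc⟩ := Function.ne_iff.1 (hF.pm.ne (e.symm z))
          exact ⟨c, hc, (gt _ (4 / 5) (by linarith)).mono fun _ h h' => absurd h h'.not_gt⟩
      obtain ⟨A, hA⟩ := (hSOL m n j M S p _ _ hF hN e he z hz hc (hI _ hU h1)).2.1 _ hN
        (hI _ hU h1)
      refine ⟨A, ?_⟩
      filter_upwards [hA, ev_symm hz hc', ev_symm hz (gt _ (2 / 5) (by linarith)),
        ev_symm hz (((hKX m M _ p hF.pm).1 c).mem_nhds hc), e.open_target.mem_nhds hz]
        with w a b d f g
      exact ⟨a.1, fun _ => ⟨fun h => absurd d h.not_gt, fun h => by rw [b h.2]; exact a.2.2,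
        fun _ => (hCND m n j M S p _ c hF hN).2.2 e he w g _ f a.2.1 a.2.2⟩⟩)
  refine ⟨A, U, hA, U1, U2, fun e he z hz hU η hη => ?_⟩
  have h5 := (hK.ev he hz).and (ev_symm hz (U1.mem_nhds hU))
  rcases lt_or_ge (r (e.symm z)) (2 / 5) with h1 | h1
  · have h := ht (e.symm z) (by linarith)
    refine (hSOL m n j M S p _ _ hF (hN' _ (by linarith)) e he z hz h.1.1 h.1.2.2).2.2 _ η
      (hA.sm e he z hz) hη (Or.inl ?_)
    filter_upwards [h5, ev_symm hz h.2, ev_symm hz (lt _ _ h1)] with w a b c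
    have := (a.1 a.2).1 c
    simp only [N', b] at this
    exact this
  have hi := hI _ (subset_closure hU) (by linarith)
  rcases lt_or_ge (r (e.symm z)) (4 / 5) with h2 | h2
  · have h := ht (e.symm z) (by linarith)
    refine (hSOL m n j M S p _ _ hF hN e he z hz h.1.1 hi).2.2 _ η (hA.sm e he z hz) hη
      (Or.inr (Or.inl ?_))
    filter_upwards [h5, ev_symm hz h.2, ev_symm hz (lt _ _ h2),
      ev_symm hz (gt _ (1 / 5) (by linarith))] with w a b c d
    exact b ▸ (a.1 a.2).2.1 ⟨d, c⟩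
  · obtain ⟨c, hc⟩ := Function.ne_iff.1 (hF.pm.ne (e.symm z))
    refine (hSOL m n j M S p _ _ hF hN e he z hz hc hi).2.2 _ η (hA.sm e he z hz) hη
      (Or.inr (Or.inr ?_))
    filter_upwards [h5, ev_symm hz (gt _ (3 / 5) (by linarith))] with w a d
    exact (a.1 a.2).2.2 d

end Pool.Agent.Lib.LF
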