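import Pool.Agent.Lib.LF.K23

/-! Row CPT: irreducible components and intersections of invariant sets. -/

open scoped Classical
open Set MvPolynomial

noncomputable section

namespace Pool.Agent.Lib.LF

open K23

theorem bCPT (hS : St_SEI) : St_CPT := by
  intro X ι Λ _ y G hV
  refine ⟨fun T hT => ?_, fun T T' v hT hT' hR h1 h2 => ⟨closed_inter hT hT', ?_⟩⟩
  · have hfin : {P ∈ (idl y T).minimalPrimes | (pts y P).Nonempty}.Finite :=
      (Ideal.finite_minimalPrimes_of_isNoetherianRing _ _).subset fun _ h => h.1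
    obtain ⟨r, P, hP⟩ := hfin.fin_param
    have hm : ∀ a, P a ∈ (idl y T).minimalPrimes ∧ (pts y (P a)).Nonempty := fun a => by
      have : P a ∈ range P := mem_range_self a
      rwa [hP.2] at this
    have hpr : ∀ a, (P a).IsPrime := fun a => (hm a).1.1.1
    have hle : ∀ a, idl y T ≤ P a := fun a => (hm a).1.1.2
    have key : ∀ a (g : Po ι) d, g.IsHomogeneous d → Van y (pts y (P a)) g → g ∈ P a :=
      fun a g d hg h => (hpr a).radical.le (nss hV (fun l => hle a (G_mem hV T l)) (hm a).2 hg h)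
    refine ⟨r, fun a => pts y (P a), fun a => ⟨closed_pts _, (hm a).2, fun g h d e hg hh hv => ?_⟩,
      ?_, fun v hR hT' a g d hg hv x hx => ?_⟩
    · exact ((hpr a).mem_or_mem (key a _ _ (hg.mul hh) hv)).imp
        (fun h1 x hx => hx g ⟨h1, d, hg⟩) fun h1 x hx => hx h ⟨h1, e, hh⟩
    · refine Subset.antisymm (fun x hx => ?_) (iUnion_subset fun a => pts_sub hT (hle a))
      have := RingHom.ker_isPrime (eval (y x) : Po ι →+* ℂ)
      obtain ⟨Q, hQ, hQ'⟩ := Ideal.exists_minimalPrimes_le (idl_le (y := y) hx)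
      have : Q ∈ range P := by
        rw [hP.2]
        exact ⟨hQ, x, mem_pts hQ'⟩
      obtain ⟨a, rfl⟩ := this
      exact mem_iUnion.2 ⟨a, mem_pts hQ'⟩
    · have hxT := pts_sub hT (hle a) hx
      obtain ⟨e, h, H, hr, h0⟩ := hR x hxT
      have h3 := hx _ ⟨(hS _ (der H) _ (der_idl hr hT')).1 _ (hm a).1 g (key a g d hg hv), _,
        der_hom hr.hH hg⟩
      rw [eval_der_rep hr hg hxT (hv x hx)] at h3
      exact (mul_eq_zero.1 h3).resolve_left h0
  · intro g d hg hv x hx
    obtain ⟨e, h, H, hr, h0⟩ := hR x (.inl hx.1)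
    have hst : ∀ a ∈ idl y T ⊔ idl y T', der H a ∈ idl y T ⊔ idl y T' := by
      intro a ha
      obtain ⟨b, hb, c, hc, rfl⟩ := Submodule.mem_sup.1 ha
      rw [map_add]
      exact Submodule.add_mem_sup (der_idl (rep_mono hr subset_union_left) h1 b hb)
        (der_idl (rep_mono hr subset_union_right) h2 c hc)
    have hk : idl y T ⊔ idl y T' ≤ RingHom.ker (eval (y x)) := sup_le (idl_le hx.1) (idl_le hx.2)
    have hg' : g ∈ (idl y T ⊔ idl y T').radical :=
      nss hV (fun l => Ideal.mem_sup_left (G_mem hV T l)) ⟨x, mem_pts hk⟩ hg fun x' hx' =>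
        hv x' ⟨pts_sub hT le_sup_left hx', pts_sub hT' le_sup_right hx'⟩
    have := RingHom.ker_isPrime (eval (y x) : Po ι →+* ℂ)
    have h3 : eval (y x) (der H g) = 0 :=
      (Ideal.IsPrime.radical_le_iff inferInstance).2 hk ((hS _ (der H) _ hst).2 g hg')
    rw [eval_der_rep hr hg (.inl hx.1) (hv x hx)] at h3
    exact (mul_eq_zero.1 h3).resolve_left h0

end Pool.Agent.Lib.LF
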