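import Pool.Agent.Lib.LF.BBlue
import Pool.Agent.Lib.MP_7fcda1_ag.CT1

/-! Project lf, block CTR: centres of the places of a function field on a projective variety. -/

open scoped Classical Polynomial
open Set MvPolynomial

noncomputable section

namespace Pool.Agent.Lib.LF

open Pool.Agent.Lib.MP_7fcda1_ag

namespace CTR

variable {ι K : Type} [Field K] [Algebra ℂ K]

theorem aeval_smul {R : Type} [CommRing R] [Algebra ℂ R] {G : Po ι} {d : ℕ}
    (hG : G.IsHomogeneous d) (c : R) (z : ι → R) : aeval (c • z) G = c ^ d * aeval z G := by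
  rw [aeval_def, aeval_def, eval₂_eq, eval₂_eq, Finset.mul_sum]
  refine Finset.sum_congr rfl fun s hs => ?_
  rw [hG.degree_eq_sum_deg_support hs, ← Finset.prod_pow_eq_pow_sum]
  simp only [Pi.smul_apply, smul_eq_mul, mul_pow, Finset.prod_mul_distrib]
  ring

theorem val_const_le (v : Place ℂ K) (c : ℂ) : v.O.valuation (algebraMap ℂ K c) ≤ 1 :=
  (v.O.valuation_le_one_iff _).2 (v.const c)

theorem const_eq_zero (v : Place ℂ K) {c : ℂ} (h : v.O.valuation (algebraMap ℂ K c) < 1) :
    c = 0 := by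
  by_contra hc
  rw [v.CT1_val_const hc] at h
  exact lt_irrefl _ h

theorem le_of_near (v : Place ℂ K) {a : K} {c : ℂ}
    (h : v.O.valuation (a - algebraMap ℂ K c) < 1) : v.O.valuation a ≤ 1 := by
  have e : a = (a - algebraMap ℂ K c) + algebraMap ℂ K c := by ring
  rw [e]
  exact Valuation.map_add_le _ h.le (val_const_le v c)

theorem eq_one_of_near (v : Place ℂ K) {a : K} {c : ℂ} (hc : c ≠ 0)
    (h : v.O.valuation (a - algebraMap ℂ K c) < 1) : v.O.valuation a = 1 := by
  have e : a = algebraMap ℂ K c + (a - algebraMap ℂ K c) := by ring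
  rw [e, Valuation.map_add_eq_of_lt_left _ (by rwa [v.CT1_val_const hc]), v.CT1_val_const hc]

theorem near_add (v : Place ℂ K) {a b : K} {c e : ℂ}
    (h : v.O.valuation (a - algebraMap ℂ K c) < 1)
    (h' : v.O.valuation (b - algebraMap ℂ K e) < 1) :
    v.O.valuation (a + b - algebraMap ℂ K (c + e)) < 1 := by
  have e1 : a + b - algebraMap ℂ K (c + e) = (a - algebraMap ℂ K c) + (b - algebraMap ℂ K e) := by
    rw [map_add]; ring
  rw [e1]
  exact Valuation.map_add_lt _ h h'

theorem near_mul (v : Place ℂ K) {a b : K} {c e : ℂ}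
    (h : v.O.valuation (a - algebraMap ℂ K c) < 1)
    (h' : v.O.valuation (b - algebraMap ℂ K e) < 1) :
    v.O.valuation (a * b - algebraMap ℂ K (c * e)) < 1 := by
  have e1 : a * b - algebraMap ℂ K (c * e) =
      (a - algebraMap ℂ K c) * b + algebraMap ℂ K c * (b - algebraMap ℂ K e) := by
    rw [map_mul]; ring
  rw [e1]
  refine Valuation.map_add_lt _ ?_ ?_
  · rw [map_mul]
    exact lt_of_le_of_lt (mul_le_of_le_one_right' (le_of_near v h')) h
  · rw [map_mul]
    exact lt_of_le_of_lt (mul_le_of_le_one_left' (val_const_le v c)) h'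

/-- Reduction at a place commutes with polynomials. -/
theorem near_aeval (v : Place ℂ K) {u : ι → K} {w : ι → ℂ}
    (h : ∀ l, v.O.valuation (u l - algebraMap ℂ K (w l)) < 1) (g : Po ι) :
    v.O.valuation (aeval u g - algebraMap ℂ K (eval w g)) < 1 := by
  induction g using MvPolynomial.induction_on with
  | C c => simp
  | add f g hf hg => rw [map_add, map_add]; exact near_add v hf hg
  | mul_X f i hf => rw [map_mul, map_mul, aeval_X, eval_X]; exact near_mul v hf (h i)

theorem near_hom (v : Place ℂ K) {γ : ι → K} {s : K} {w : ι → ℂ}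
    (h : ∀ l, v.O.valuation (s * γ l - algebraMap ℂ K (w l)) < 1) {g : Po ι} {d : ℕ}
    (hg : g.IsHomogeneous d) :
    v.O.valuation (s ^ d * aeval γ g - algebraMap ℂ K (eval w g)) < 1 := by
  rw [← aeval_smul hg]
  exact near_aeval v (u := s • γ) h g

theorem zero_of_near (v : Place ℂ K) {γ : ι → K} {s : K} {w : ι → ℂ}
    (h : ∀ l, v.O.valuation (s * γ l - algebraMap ℂ K (w l)) < 1) {g : Po ι} {d : ℕ}
    (hg : g.IsHomogeneous d) (h0 : aeval γ g = 0) : eval w g = 0 := by
  have h1 := near_hom v h hg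
  rw [h0, mul_zero, zero_sub, Valuation.map_neg] at h1
  exact const_eq_zero v h1

/-- Two reductions of the same point are proportional. -/
theorem cross (v : Place ℂ K) {γ : ι → K} {s s' : K} {w w' : ι → ℂ}
    (h : ∀ l, v.O.valuation (s * γ l - algebraMap ℂ K (w l)) < 1)
    (h' : ∀ l, v.O.valuation (s' * γ l - algebraMap ℂ K (w' l)) < 1) (l m : ι) :
    w l * w' m = w m * w' l := by
  have h1 := near_mul v (h l) (h' m)
  have h2 := near_mul v (h m) (h' l)
  have h3 := Valuation.map_sub_lt _ h2 h1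
  have e : s * γ m * (s' * γ l) - algebraMap ℂ K (w m * w' l) -
      (s * γ l * (s' * γ m) - algebraMap ℂ K (w l * w' m)) =
      algebraMap ℂ K (w l * w' m - w m * w' l) := by
    rw [map_sub]; ring
  rw [e] at h3
  exact sub_eq_zero.1 (const_eq_zero v h3)

theorem uniq {X Λ : Type} [Fintype ι] {y : X → ι → ℂ} {G : Λ → Po ι} (hV : Var y G)
    (v : Place ℂ K) {γ : ι → K} {s s' : K} {x x' : X}
    (h : ∀ l, v.O.valuation (s * γ l - algebraMap ℂ K (y x l)) < 1)
    (h' : ∀ l, v.O.valuation (s' * γ l - algebraMap ℂ K (y x' l)) < 1) : x = x' := by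
  obtain ⟨m, hm⟩ := Function.ne_iff.1 (hV.ne x')
  have hm' : y x' m ≠ 0 := hm
  refine hV.inj x x' (y x m / y x' m) (funext fun l => ?_)
  have := cross v h h' l m
  rw [Pi.smul_apply, smul_eq_mul]
  field_simp
  exact this

theorem exi {X Λ : Type} [Fintype ι] [IsFF ℂ K] {y : X → ι → ℂ} {G : Λ → Po ι} (hV : Var y G)
    {γ : ι → K} (hγ : γ ≠ 0) (hG : ∀ l, aeval γ (G l) = 0) (v : Place ℂ K) :
    ∃ (x : X) (s : K), ∀ l, v.O.valuation (s * γ l - algebraMap ℂ K (y x l)) < 1 := by
  obtain ⟨j, hj, hO⟩ := exists_min_coord v.O hγ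
  choose w hw using fun l => v.exists_res (hO l)
  have hw' : ∀ l, v.O.valuation ((γ j)⁻¹ * γ l - algebraMap ℂ K (w l)) < 1 := fun l => by
    rw [← div_eq_inv_mul]
    exact (val_lt_one_iff (Or.inl v.disc)).2 (hw l)
  have hw0 : w ≠ 0 := by
    intro h0
    have := hw' j
    rw [h0, inv_mul_cancel₀ hj] at this
    simp at this
  obtain ⟨x, a, hxa⟩ := hV.onto w hw0 fun l => by
    obtain ⟨d, hd⟩ := hV.hom l
    exact zero_of_near v hw' hd (hG l)
  have ha : a ≠ 0 := by
    rintro rfl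
    exact hw0 (by rw [hxa, zero_smul])
  refine ⟨x, algebraMap ℂ K a⁻¹ * (γ j)⁻¹, fun l => ?_⟩
  have h1 := near_mul v (a := algebraMap ℂ K a⁻¹) (c := a⁻¹) (by simp) (hw' l)
  rw [hxa, Pi.smul_apply, smul_eq_mul, inv_mul_cancel_left₀ ha, ← mul_assoc] at h1
  exact h1

end CTR

theorem bCTR : St_CTR := by
  intro X ι Λ K _ _ _ _ y G γ hV hγ hG
  choose ctr s hs using CTR.exi hV hγ hG
  refine ⟨ctr, fun v => ⟨s v, hs v⟩, fun v x t ht => CTR.uniq hV v (hs v) ht,
    fun g d hg => ⟨fun h0 v => CTR.zero_of_near v (hs v) hg h0, fun h0 => ?_⟩⟩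
  refine ((Set.finite_iUnion fun l => finite_ord (κ := ℂ) (γ l)).union
    (finite_ord (κ := ℂ) (aeval γ g))).subset fun v hv => ?_
  by_contra hn
  simp only [Set.mem_union, Set.mem_iUnion, Set.mem_ofPred_eq, not_or, not_exists, not_not] at hn
  obtain ⟨m, hm⟩ := Function.ne_iff.1 (hV.ne (ctr v))
  have h1 := CTR.eq_one_of_near v hm (hs v m)
  have h2 : γ m ≠ 0 := by
    intro h
    rw [h, mul_zero, map_zero] at h1
    exact zero_ne_one h1
  rw [map_mul, (val_eq_one_iff (Or.inl v.disc)).2 ⟨h2, hn.1 m⟩, mul_one] at h1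
  have h3 := CTR.near_hom v (hs v) hg
  have hv' : eval (y (ctr v)) g = 0 := hv
  rw [hv', map_zero, sub_zero, map_mul, map_pow, h1, one_pow, one_mul,
    (val_eq_one_iff (Or.inl v.disc)).2 ⟨h0, hn.2⟩] at h3
  exact lt_irrefl _ h3

end Pool.Agent.Lib.LF
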