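import Pool.Agent.Lib.LF.BBlue

/-! Project lf: derivations and the transcendence degree. -/

open scoped Classical
open Set

noncomputable section

namespace Pool.Agent.Lib.LF

open Pool.Agent.Lib.MP_7fcda1_ag

namespace DIM

variable {k F : Type} [Field k] [CharZero k] [Field F] [Algebra k F]

theorem smooth : Algebra.FormallySmooth k F := by
  obtain ⟨s, hs⟩ := exists_isTranscendenceBasis k F
  have := hs.isAlgebraic_field
  have : CharZero (IntermediateField.adjoin k (range ((↑) : s → F))) :=
    charZero_of_injective_algebraMap (algebraMap k _).injective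
  exact .of_algebraicIndependent_of_isSeparable hs.1

/-- Extension of a derivation, given as a map to the dual numbers. -/
theorem ext_dual {R : Type} [CommRing R] [Algebra k R] (ψ : R →ₐ[k] DualNumber F)
    (h : ∀ a, (ψ a).fst = 0 → ψ a = 0) :
    ∃ D : Derivation k F F, ∀ a, D (ψ a).fst = (ψ a).snd := by
  let φ : R →+* F := (TrivSqZeroExt.fstHom F F F).toRingHom.comp ψ.toRingHom
  let A := R ⧸ RingHom.ker φ
  have : (RingHom.ker φ).IsPrime := RingHom.ker_isPrime φ
  let _ : Algebra A F := (RingHom.kerLift φ).toAlgebra
  have : FaithfulSMul A F :=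
    (faithfulSMul_iff_algebraMap_injective A F).2 (RingHom.kerLift_injective φ)
  let K := FractionRing A
  let _ : Algebra K F := FractionRing.liftAlgebra A F
  have : IsScalarTower A K F := FractionRing.isScalarTower_liftAlgebra A F
  have : CharZero K := charZero_of_injective_algebraMap (algebraMap k K).injective
  have := Algebra.FormallySmooth.of_isLocalization (R := A) (Rₘ := K) (nonZeroDivisors _)
  have : Algebra.FormallySmooth K F := smooth
  have := Algebra.FormallySmooth.comp A K F
  let ψ' : A →+* DualNumber F := Ideal.Quotient.lift _ ψ.toRingHom h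
  let _ : Algebra A (DualNumber F) := ψ'.toAlgebra
  let g : DualNumber F →ₐ[A] F :=
    { (TrivSqZeroExt.fstHom F F F).toRingHom with
      commutes' := fun a => by
        obtain ⟨a, rfl⟩ := Ideal.Quotient.mk_surjective a
        rfl }
  have hs : Function.Surjective g := fun a => ⟨TrivSqZeroExt.inl a, rfl⟩
  have hn : IsNilpotent (RingHom.ker (g : DualNumber F →+* F)) := ⟨2, by
    rw [Submodule.pow_succ, Submodule.pow_one, Ideal.zero_eq_bot, eq_bot_iff, Ideal.mul_le]
    intro a ha b hb
    have ha' : a.fst = 0 := ha
    have hb' : b.fst = 0 := hb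
    exact TrivSqZeroExt.ext (by simp [ha']) (by simp [ha', hb'])⟩
  let σ := Algebra.FormallySmooth.liftOfSurjective (AlgHom.id _ F) g hs hn
  have hσ : ∀ a, (σ a).fst = a :=
    Algebra.FormallySmooth.liftOfSurjective_apply (AlgHom.id _ F) g hs hn
  have hψ : ∀ a, σ (ψ a).fst = ψ a := fun a => σ.commutes (Ideal.Quotient.mk _ a)
  have hc : ∀ c : k, (σ (algebraMap k F c)).snd = 0 := fun c => by
    have := hψ (algebraMap k R c)
    rw [ψ.commutes] at this
    rw [show algebraMap k F c = (algebraMap k (DualNumber F) c).fst from rfl, this]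
    rfl
  refine ⟨Derivation.mk'
    { toFun := fun a => (σ a).snd
      map_add' := by simp
      map_smul' := fun c a => by
        simp [Algebra.smul_def, hσ, hc] } fun a b => by simp [hσ, mul_comm], fun a => ?_⟩
  change (σ _).snd = _
  rw [hψ]

/-- A derivation that vanishes on a set vanishes on the algebraic closure. -/
theorem zero_alg (D : Derivation k F F) {S : Set F} (h : ∀ s ∈ S, D s = 0) {x : F}
    (hx : IsAlgebraic (IntermediateField.adjoin k S) x) : D x = 0 := by
  set K := IntermediateField.adjoin k S
  have hK : ∀ c ∈ K, D c = 0 := fun c hc => by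
    induction hc using IntermediateField.adjoin_induction with
    | mem a ha => exact h a ha
    | algebraMap a => simp
    | add a b _ _ ha hb => simp [ha, hb]
    | inv a _ ha => simp [Derivation.leibniz_inv, ha]
    | mul a b _ _ ha hb => simp [ha, hb]
  let D' : Derivation K F F := Derivation.mk'
    { toFun := D
      map_add' := by simp
      map_smul' := fun c a => by
        have := hK c c.2
        simp [IntermediateField.smul_def, this] } fun a b => D.leibniz a b
  have : CharZero K := charZero_of_injective_algebraMap (algebraMap k _).injective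
  have h1 := D'.map_aeval (minpoly K x) x
  rw [minpoly.aeval, map_zero] at h1
  have h2 : Polynomial.aeval x (Polynomial.derivative (minpoly K x)) ≠ 0 :=
    (minpoly.irreducible hx.isIntegral).separable.aeval_derivative_ne_zero (minpoly.aeval K x)
  exact (smul_eq_zero.1 h1.symm).resolve_left h2

end DIM

theorem bDIM : St_DIM := by
  intro k F ι _ _ _ _
  refine ⟨fun u n D hD => ?_, fun u hu w => ?_, fun R _ _ φ D hD h0 => ?_⟩
  · by_contra hn
    obtain ⟨J, hJ⟩ := (AlgebraicIndependent.matroid k F).exists_isBasis (range u)
    have h1 : rk k (range u) = J.encard := hJ.eRk_eq_encard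
    rw [h1, not_le] at hn
    have hf : J.Finite := Set.finite_of_encard_le_coe hn.le
    have := hf.fintype
    rw [Set.encard_eq_coe_toFinset_card, Set.toFinset_card, Nat.cast_lt] at hn
    have h2 : ¬LinearIndependent F fun (r : Fin n) (j : J) => D r j := fun h => by
      have := h.fintype_card_le_finrank
      simp only [Fintype.card_fin, Module.finrank_fintype_fun_eq_card] at this
      omega
    obtain ⟨c, hc, r, hr⟩ := Fintype.not_linearIndependent_iff.1 h2
    refine hr (Fintype.linearIndependent_iff.1 hD c (funext fun l => ?_) r)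
    have h3 : ∀ x, (∑ r, c r • D r) x = ∑ r, c r * D r x := fun x => by
      induction (Finset.univ : Finset (Fin n)) using Finset.induction_on with
      | empty => simp
      | insert a s ha ih => simp [Finset.sum_insert ha, ih]
    have h4 := DIM.zero_alg (∑ r, c r • D r) (S := J) (fun s hs => by
      rw [h3]
      simpa [Finset.sum_apply] using congrFun hc ⟨s, hs⟩) (x := u l)
      (Rk_mem_cl.1 (hJ.subset_closure ⟨l, rfl⟩))
    rw [h3] at h4
    simpa [Finset.sum_apply] using h4
  · let ψ : MvPolynomial ι k →ₐ[k] DualNumber F :=
      MvPolynomial.aeval fun l => TrivSqZeroExt.inl (u l) + TrivSqZeroExt.inr (w l)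
    have h1 : ∀ a, (ψ a).fst = MvPolynomial.aeval u a := fun a =>
      DFunLike.congr_fun (show (TrivSqZeroExt.fstHom k F F).comp ψ = MvPolynomial.aeval u from
        MvPolynomial.algHom_ext fun l => by simp [ψ]) a
    obtain ⟨D, hD⟩ := DIM.ext_dual ψ fun a ha => by
      rw [h1] at ha
      rw [algebraicIndependent_iff.1 hu a ha, map_zero]
    exact ⟨D, fun l => by simpa [ψ] using hD (MvPolynomial.X l)⟩
  · have h1 : D 1 = 0 := by simpa using hD 1 1
    let ψ : R →ₐ[k] DualNumber F :=
      { toFun := fun a => TrivSqZeroExt.inl (φ a) + TrivSqZeroExt.inr (D a)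
        map_one' := by simp [h1]
        map_mul' := fun a b => TrivSqZeroExt.ext (by simp) (by simp [hD, mul_comm])
        map_zero' := by simp
        map_add' := fun a b => TrivSqZeroExt.ext (by simp) (by simp)
        commutes' := fun c => by
          rw [Algebra.algebraMap_eq_smul_one c, map_smul D, h1, map_smul φ, map_one, smul_zero,
            TrivSqZeroExt.inr_zero, add_zero, ← Algebra.algebraMap_eq_smul_one]
          rfl }
    obtain ⟨D', hD'⟩ := DIM.ext_dual ψ fun a ha => by
      have ha' : φ a = 0 := by simpa [ψ] using ha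
      simp [ψ, ha', h0 a ha']
    exact ⟨D', fun a => by simpa [ψ] using hD' a⟩

end Pool.Agent.Lib.LF
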