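import Pool.Agent.Lib.LF.B_LCS

/-! From a chain between two generic points to the conclusion. -/

open scoped Classical
open Set MvPolynomial

noncomputable section

namespace Pool.Agent.Lib.LF

open Pool.Agent.Lib.MP_7fcda1_ag

namespace END

lemma chn_on {ι Λ Ω : Type} [Field Ω] [Algebra ℂ Ω] {G : Λ → Po ι} {z z' : ι → Ω}
    (h : Chn Ω G z z') (hG : ∀ l, aeval z (G l) = 0) (l : Λ) : aeval z' (G l) = 0 := by
  rcases Relation.ReflTransGen.cases_tail h with rfl | ⟨w, -, -, q, hq, hq1⟩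
  · exact hG l
  · have h1 := congrArg (Polynomial.aeval (1 : Ω) : Polynomial Ω →ₐ[Ω] Ω) (hq l)
    rw [map_zero, ← AlgHom.comp_apply, comp_aeval, aeval_map_algebraMap] at h1
    have h2 : (fun i => Polynomial.aeval (1 : Ω) (q i)) = z' := funext fun i => by
      rw [Polynomial.coe_aeval_eq_eval]
      exact (hq1 i).2
    rwa [h2] at h1

end END

theorem bEND (hS : St_SPR) (hR : St_RCE) (hM : St_MOV) : St_END := by
  intro X ι Λ Ω _ _ _ y G z z' i d₀ d₁ hV hi hi' hG hC h0 h1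
  have hG' := END.chn_on hC hG
  obtain ⟨a1, -, a3, -, a5, -⟩ := bLCS X ι Λ Ω y G z i hV hi hG
  obtain ⟨b1, b2, b3, b4, -, b6⟩ := bLCS X ι Λ Ω y G z' i hV hi' hG'
  obtain ⟨g, hg, hs⟩ := hS ι Λ Ω G z z' (fun h => by simp [h] at hi) hC
  obtain ⟨h, e, hh, hz, hx⟩ := b6 g hg
  refine ⟨Loc y z', Loc y z, b1, b2, (b3 _).2 ?_, fun hd => ?_, a1, (a3 _).2 ?_, fun x hxY => ?_⟩
  · rw [h1]
    exact_mod_cast Nat.lt_succ_self d₁
  · have := (b3 _).1 hd
    rw [h1] at this
    exact lt_irrefl _ this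
  · exact h0.trans_lt (by exact_mod_cast Nat.lt_succ_self d₀)
  obtain ⟨c, hc, hcx⟩ := hM X ι Λ Ω y G z' i h e hV hi' hG' hh hz x hxY
  have key : ∀ w : X, ∃ u : X, w ∈ c.support →
      u ∈ Loc y z ∧ Finsupp.single u 1 - Finsupp.single w 1 ∈ RatTriv y := by
    intro w
    by_cases hw : w ∈ c.support
    · obtain ⟨c1, c2⟩ := hc w hw
      obtain ⟨c3, c4⟩ := hx w c2
      have c5 := (b4 w c1 i c3).2
      rw [LCS.nrm_eq, hi', inv_one, one_smul] at c5
      obtain ⟨w0, c6, c7, c8⟩ := hs _ c5 c4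
      obtain ⟨u, hu, a, rfl⟩ := a5 w0 c7 c6
      exact ⟨u, fun _ => ⟨hu, hR X ι Λ y G u w a (y w i)⁻¹ hV
        (fun ha => c7 (by rw [ha, zero_smul])) c8⟩⟩
    · exact ⟨w, fun h => absurd h hw⟩
  choose f hf using key
  refine ⟨c.mapDomain f, fun w hw => ?_, ?_⟩
  · obtain ⟨u, hu, rfl⟩ := Finset.mem_image.1 (Finsupp.mapDomain_support hw)
    exact (hf u hu).1
  · have e1 : c.mapDomain f - c =
        ∑ w ∈ c.support, c w • (Finsupp.single (f w) (1 : ℤ) - Finsupp.single w 1) := by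
      simp only [smul_sub, Finset.sum_sub_distrib, Finsupp.smul_single, smul_eq_mul, mul_one]
      congr 1
      exact (Finsupp.sum_single c).symm
    have e2 : c.mapDomain f - c ∈ RatTriv y := by
      rw [e1]
      exact sum_mem fun w hw => zsmul_mem (hf w hw).2 _
    have e3 := sub_mem hcx e2
    rwa [sub_sub, add_sub_cancel] at e3

end Pool.Agent.Lib.LF
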