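import Pool.Agent.Lib.LF.BBlue

/-! The formal flow of a derivation; uniqueness for polynomial differential equations. -/

open scoped Classical Polynomial PowerSeries
open Set MvPolynomial

noncomputable section

namespace Pool.Agent.Lib.LF

namespace ET

variable {R : Type} [CommRing R] [Algebra ℂ R]

theorem cancel (n : ℕ) (a : R) (h : a * (n + 1) = 0) : a = 0 := by
  have h1 : ((n : ℂ) + 1) ≠ 0 := by exact_mod_cast n.succ_ne_zero
  have h2 : ((n : ℂ) + 1) • a = 0 := by
    rw [Algebra.smul_def, map_add, map_natCast, map_one, mul_comm, h]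
  have h3 := congrArg (fun x => ((n : ℂ) + 1)⁻¹ • x) h2
  simpa only [smul_smul, inv_mul_cancel₀ h1, one_smul, smul_zero] using h3

/-- A set of series without constant term that is stable under the derivative. -/
theorem uniq (S : Set R⟦X⟧) (h0 : ∀ f ∈ S, PowerSeries.constantCoeff f = 0)
    (h1 : ∀ f ∈ S, PowerSeries.derivative R f ∈ S) : ∀ f ∈ S, f = 0 := by
  have key : ∀ n, ∀ f ∈ S, PowerSeries.coeff n f = 0 := by
    intro n
    induction n with
    | zero => exact fun f hf => by simpa using h0 f hf
    | succ n ih =>
      intro f hf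
      have := ih _ (h1 f hf)
      rw [PowerSeries.coeff_derivative] at this
      exact cancel n _ this
  exact fun f hf => PowerSeries.ext fun n => by simpa using key n f hf

variable (D : Derivation ℂ R R)

/-- The flow as a linear map. -/
def etL : R →ₗ[ℂ] R⟦X⟧ where
  toFun := et D
  map_add' a b := by
    ext n
    have : (⇑D)^[n] (a + b) = (⇑D)^[n] a + (⇑D)^[n] b := by
      induction n with
      | zero => rfl
      | succ n ih => simp only [Function.iterate_succ_apply', ih, map_add]
    simp only [et, map_add, PowerSeries.coeff_mk, this, smul_add]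
  map_smul' c a := by
    ext n
    have : (⇑D)^[n] (c • a) = c • (⇑D)^[n] a := by
      induction n with
      | zero => rfl
      | succ n ih => simp only [Function.iterate_succ_apply', ih, D.map_smul]
    simp only [et, RingHom.id_apply, PowerSeries.coeff_smul, PowerSeries.coeff_mk, this]
    rw [smul_comm]

theorem c0 (a : R) : PowerSeries.constantCoeff (et D a) = a := by
  rw [← PowerSeries.coeff_zero_eq_constantCoeff_apply]
  simp [et]

theorem der (a : R) : PowerSeries.derivative R (et D a) = et D (D a) := by
  ext n
  have h1 : ((n : ℂ) + 1) ≠ 0 := by exact_mod_cast n.succ_ne_zero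
  have h2 : ((n : R) + 1) = algebraMap ℂ R ((n : ℂ) + 1) := by simp
  simp only [PowerSeries.coeff_derivative, et, PowerSeries.coeff_mk, Function.iterate_succ_apply]
  rw [h2, mul_comm, ← Algebra.smul_def, smul_smul, Nat.factorial_succ]
  congr 1
  push_cast
  rw [mul_inv, mul_inv_cancel_left₀ h1]

theorem one : et D 1 = 1 := by
  refine sub_eq_zero.1 (uniq {et D 1 - 1, 0} ?_ ?_ _ (Or.inl rfl))
  · rintro f (rfl | rfl) <;> simp [c0]
  · have h0 : et D 0 = 0 := (etL D).map_zero
    rintro f (rfl | rfl) <;> simp [der, h0]

theorem mul (a b : R) : et D (a * b) = et D a * et D b := by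
  have mem : ∀ a b, et D (a * b) - et D a * et D b ∈ AddSubgroup.closure
      {f | ∃ a b, f = et D (a * b) - et D a * et D b} := fun a b =>
    AddSubgroup.subset_closure ⟨a, b, rfl⟩
  refine sub_eq_zero.1 (uniq (AddSubgroup.closure
    {f | ∃ a b, f = et D (a * b) - et D a * et D b} : AddSubgroup R⟦X⟧) ?_ ?_ _ (mem a b))
  · intro f hf
    induction hf using AddSubgroup.closure_induction with
    | mem x hx =>
      obtain ⟨a, b, rfl⟩ := hx
      simp [c0]
    | zero => simp
    | add x y _ _ hx hy => rw [map_add, hx, hy, add_zero]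
    | neg x _ hx => rw [map_neg, hx, neg_zero]
  · intro f hf
    induction hf using AddSubgroup.closure_induction with
    | mem x hx =>
      obtain ⟨a, b, rfl⟩ := hx
      have h1 : et D (a * D b + D a * b) = et D (a * D b) + et D (D a * b) := (etL D).map_add _ _
      have h2 : PowerSeries.derivative R (et D (a * b) - et D a * et D b) =
          (et D (a * D b) - et D a * et D (D b)) + (et D (D a * b) - et D (D a) * et D b) := by
        rw [map_sub, Derivation.leibniz, der, der, der, Derivation.leibniz, smul_eq_mul,
          smul_eq_mul, smul_eq_mul, smul_eq_mul, mul_comm b, h1]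
        ring
      rw [h2]
      exact add_mem (mem _ _) (mem _ _)
    | zero => simp
    | add x y _ _ hx hy =>
      rw [map_add]
      exact add_mem hx hy
    | neg x _ hx =>
      rw [map_neg]
      exact neg_mem hx

theorem chain {ι : Type} [Fintype ι] (g : ι → R⟦X⟧) (a : Po ι) :
    PowerSeries.derivative R (aeval g a) =
      ∑ l, PowerSeries.derivative R (g l) * aeval g (pderiv l a) := by
  induction a using MvPolynomial.induction_on with
  | C c =>
    rw [aeval_C, IsScalarTower.algebraMap_apply ℂ R R⟦X⟧, Derivation.map_algebraMap]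
    simp
  | add p q hp hq => simp only [map_add, hp, hq, mul_add, Finset.sum_add_distrib]
  | mul_X p i hp =>
    have h1 : ∀ l, aeval g (pderiv l (p * X i)) =
        aeval g (pderiv l p) * g i + if l = i then aeval g p else 0 := fun l => by
      rw [pderiv_mul, map_add, map_mul, map_mul, aeval_X, pderiv_X]
      by_cases h : l = i
      · subst h
        simp
      · simp [h, Ne.symm h]
    rw [map_mul, aeval_X, Derivation.leibniz, hp]
    simp only [h1, mul_add, Finset.sum_add_distrib, mul_ite, mul_zero, Finset.sum_ite_eq',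
      Finset.mem_univ, if_true, smul_eq_mul, Finset.mul_sum]
    rw [add_comm, mul_comm (aeval g p)]
    congr 1
    exact Finset.sum_congr rfl fun l _ => by ring

end ET

open ET in
theorem bET : St_ET := by
  refine ⟨fun R _ _ D => ⟨⟨AlgHom.ofLinearMap (etL D) (one D) (mul D), fun _ => rfl⟩,
    fun a => ⟨c0 D a, by simp [et], der D a⟩⟩, fun ι R _ _ _ P g J hg hJ h0 a ha => ?_⟩
  refine uniq ((fun a => aeval g a) '' J) ?_ ?_ _ ⟨a, ha, rfl⟩
  · rintro _ ⟨a, ha, rfl⟩
    let φ : R⟦X⟧ →ₐ[ℂ] R :=
      { (PowerSeries.constantCoeff : R⟦X⟧ →+* R) with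
        commutes' := fun c => by
          simp [IsScalarTower.algebraMap_apply ℂ R R⟦X⟧] }
    have := comp_aeval_apply g φ a
    exact this.trans (h0 a ha)
  · rintro _ ⟨a, ha, rfl⟩
    refine ⟨_, hJ a ha, ?_⟩
    simp only [chain, hg, map_sum, map_mul]

end Pool.Agent.Lib.LF
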