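import Pool.Agent.Lib.LF.ABlue
import Pool.Agent.Lib.PN.B_FS
import Pool.Agent.Lib.PN.B_LG
import Pool.Agent.Lib.PN.B_LG2
import Pool.Agent.Lib.PN.B_CMP

/-! A representative of the hyperplane class with small support. -/

open scoped Classical Topology ContDiff ComplexOrder Matrix
open Set Complex Filter

noncomputable section

namespace Pool.Agent.Lib.LF

open Pool.Agent.Lib.SV (E nsq)
open Pool.Agent.Lib.HS32
open Pool.Agent.Lib.PN (PMap fs lg Lift nsq_pos nsq_smul holN_apply)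

namespace ETA

variable {m n : ℕ}

/-- The squared norm of a linear form on a line. -/
def un (l b : E n) : ℝ := normSq (l ⬝ᵥ b) / nsq b

lemma un_smul (l b : E n) {a : ℂ} (ha : a ≠ 0) : un l (a • b) = un l b := by
  rw [un, un, nsq_smul, dotProduct_smul, smul_eq_mul, map_mul,
    mul_div_mul_left _ _ (normSq_pos.2 ha).ne']

lemma cd_normSq : ContDiff ℝ ∞ fun x : ℂ => normSq x := by
  simp only [normSq_apply]
  exact (reCLM.contDiff.mul reCLM.contDiff).add (imCLM.contDiff.mul imCLM.contDiff)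

lemma cd_nsq : ContDiff ℝ ∞ fun b : E n => nsq b :=
  ContDiff.sum fun i _ => cd_normSq.comp (contDiff_apply ℝ ℂ i)

lemma cd_un (l : E n) {b : E n} (hb : b ≠ 0) : ContDiffAt ℝ ∞ (un l) b := by
  have h1 : ContDiff ℝ ∞ fun b : E n => l ⬝ᵥ b :=
    ContDiff.sum fun i _ => contDiff_const.mul (contDiff_apply ℝ ℂ i)
  exact (cd_normSq.comp h1).contDiffAt.div cd_nsq.contDiffAt (nsq_pos hb).ne'

/-- The logarithm, cut off near zero. -/
def chi (ε t : ℝ) : ℝ := Real.smoothTransition (4 * t / ε - 1) * Real.log t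

lemma cd_chi {ε : ℝ} (hε : 0 < ε) (t : ℝ) : ContDiffAt ℝ ∞ (chi ε) t := by
  by_cases ht : t = 0
  · refine (contDiffAt_const (c := (0 : ℝ))).congr_of_eventuallyEq ?_
    filter_upwards [Iio_mem_nhds (show t < ε / 4 by rw [ht]; positivity)] with s hs
    rw [chi, Real.smoothTransition.zero_of_nonpos, zero_mul]
    rw [sub_nonpos, div_le_one hε]
    linarith [mem_Iio.1 hs]
  · exact (Real.smoothTransition.contDiffAt.comp t
      (((contDiffAt_const.mul contDiffAt_id).div_const ε).sub contDiffAt_const)).mul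
      (Real.contDiffAt_log.2 ht)

lemma chi_eq {ε t : ℝ} (hε : 0 < ε) (ht : ε / 2 < t) : chi ε t = Real.log t := by
  rw [chi, Real.smoothTransition.one_of_one_le, one_mul]
  rw [le_sub_iff_add_le, le_div_iff₀ hε]
  linarith

lemma cd_hol {F : E m → E n} {z : E m} (h : HolN F z) : ContDiffAt ℝ ∞ F z :=
  contDiffAt_pi.2 fun i => ((mHOL m _ z).2.2 (holN_apply h i)).1

/-- The Hessian of a function of `F` kills the holomorphic fields in the kernel of `dF`. -/
lemma vert {F : E m → E n} {z : E m} {V : E m → E m} {Φ : E n → ℂ} (hF : HolN F z)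
    (hΦ : ContDiffAt ℝ ∞ Φ (F z)) (hV : HolN V z)
    (h0 : ∀ᶠ w in 𝓝 z, fderiv ℂ F w (V w) = 0) : hess (Φ ∘ F) z *ᵥ V z = 0 := by
  have hg : ContDiffAt ℝ ∞ (Φ ∘ F) z := hΦ.comp z (cd_hol hF)
  have h1 : (fun w => ∑ a, dz a (Φ ∘ F) w * V w a) =ᶠ[𝓝 z] fun _ => 0 := by
    filter_upwards [hF, h0, (cd_hol hF).continuousAt.eventually (cd_ev_diff hΦ)] with w a1 a2 a3
    have e : ∀ v, fderiv ℝ (Φ ∘ F) w v = fderiv ℝ Φ (F w) (fderiv ℂ F w v) := fun v => by
      rw [fderiv_comp w a3 (a1.restrictScalars ℝ), a1.fderiv_restrictScalars ℝ]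
      rfl
    have b1 := fderiv_eq_sum (Φ ∘ F) w (V w)
    have b2 := fderiv_eq_sum (Φ ∘ F) w (I • V w)
    rw [e, a2, map_zero] at b1
    rw [e, map_smul, a2, smul_zero, map_zero] at b2
    have b3 : ∑ j, (dz j (Φ ∘ F) w * (I • V w) j + dzb j (Φ ∘ F) w * star ((I • V w) j)) =
        I * (∑ j, dz j (Φ ∘ F) w * V w j - ∑ j, dzb j (Φ ∘ F) w * star (V w j)) := by
      rw [← Finset.sum_sub_distrib, Finset.mul_sum]
      refine Finset.sum_congr rfl fun j _ => ?_
      simp only [Pi.smul_apply, smul_eq_mul, star_mul', star_def, conj_I]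
      ring
    rw [b3] at b2
    rw [Finset.sum_add_distrib] at b1
    have b4 := (mul_eq_zero.1 b2.symm).resolve_left I_ne_zero
    linear_combination (b4 - b1) / 2
  funext b
  have h2 := dzb_congr (j := b) h1
  have dV : ∀ a, DifferentiableAt ℝ (fun w => V w a) z := fun a =>
    (holN_apply hV a).self_of_nhds.restrictScalars ℝ
  rw [dzb_const, dzb_sum fun a _ => (cd_diff (cd_dz hg a)).fun_mul (dV a)] at h2
  rw [Pi.zero_apply, ← h2, Matrix.mulVec, dotProduct]
  refine Finset.sum_congr rfl fun a _ => ?_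
  rw [dzb_mul (cd_diff (cd_dz hg a)) (dV a),
    ((mHOL m _ z).1 (dV a)).1 (holN_apply hV a).self_of_nhds b, mul_zero, add_zero]
  rfl

end ETA

theorem bETA (hK : St_KX) : St_ETA := by
  intro m n M p l hp
  obtain ⟨-, -, -, hk, -⟩ := hK m M _ p hp
  have hc : ∀ x, ∃ c, p x c ≠ 0 := fun x => Function.ne_iff.1 (hp.ne x)
  have ev : ∀ e ∈ M.C, ∀ z ∈ e.target, ∀ c, p (e.symm z) c ≠ 0 →
      uu p l ∘ e.symm =ᶠ[𝓝 z] ETA.un l ∘ (aff p c ∘ e.symm) := fun e he z hz c h =>
    (hk e he z hz c h).1.mono fun w hw => (ETA.un_smul l _ (inv_ne_zero hw)).symm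
  have ne : ∀ x c, p x c ≠ 0 → aff p c x ≠ 0 := fun x c h =>
    smul_ne_zero (inv_ne_zero h) (hp.ne x)
  have sm : M.Sm (uu p l) := fun e he z hz => by
    obtain ⟨c, h⟩ := hc (e.symm z)
    exact ((ETA.cd_un l (ne _ c h)).comp z (ETA.cd_hol (hk e he z hz c h).2.1)).congr_of_eventuallyEq
      (ev e he z hz c h)
  refine ⟨((mTR m M).2.2.2.1 ℝ _).1 sm, fun ε hε => ?_⟩
  have su : M.Sm fun x => ETA.chi ε (uu p l x) := fun e he z hz =>
    (ETA.cd_chi hε _).comp z (sm e he z hz)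
  refine ⟨_, su, fun e he z hz => ?_⟩
  have key : ∀ c, p (e.symm z) c ≠ 0 →
      fs M p e z + M.hs (fun x => ETA.chi ε (uu p l x)) e z =
        hess ((fun b => ((Real.log (nsq b) + ETA.chi ε (ETA.un l b) : ℝ) : ℂ)) ∘
          (aff p c ∘ e.symm)) z := by
    intro c h
    obtain ⟨-, k2, -, -, -, k6, -⟩ := hk e he z hz c h
    rw [(PN.st_FS PN.st_LG (PN.st_LG2 PN.st_LG) PN.st_CMP m M _ p hp).2 e z _ k6, Mf.hs,
      ← hess_add (g := M.lc (fun x => ETA.chi ε (uu p l x)) e)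
        ((PN.st_LG m _ _ z k2).2.2 (ne _ c h)).1 (cd_ofReal (su e he z hz))]
    refine hess_congr ((ev e he z hz c h).mono fun w hw => ?_)
    simp only [Function.comp_apply] at hw
    simp only [lg, Mf.lc, Function.comp_apply, hw, ofReal_add]
  refine ⟨fun hu => ?_, fun c V h hV h0 => ?_⟩
  · obtain ⟨c, h⟩ := hc (e.symm z)
    obtain ⟨k1, k2, -⟩ := hk e he z hz c h
    have h1 : HolN (fun w => l ⬝ᵥ aff p c (e.symm w)) z := k2.mono fun w hw =>
      DifferentiableAt.fun_sum fun i _ => (differentiableAt_pi.1 hw i).const_mul _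
    have h2 : ∀ᶠ w in 𝓝 z, ε / 2 < uu p l (e.symm w) :=
      (sm e he z hz).continuousAt.eventually (lt_mem_nhds (by
        change ε / 2 < uu p l (e.symm z)
        linarith))
    have h3 : ∀ᶠ w in 𝓝 z, ε / 2 < ETA.un l (aff p c (e.symm w)) := by
      filter_upwards [h2, ev e he z hz c h] with w a b
      exact a.trans_eq b
    have h4 : ∀ b : E (n + 1), ε / 2 < ETA.un l b → l ⬝ᵥ b ≠ 0 := fun b a h => by
      rw [ETA.un, h, map_zero, zero_div] at a
      linarith
    rw [key c h, ← (((mHOL m _ z).2.2 h1).2.2.2 (h4 _ h3.self_of_nhds)).2.1]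
    refine hess_congr ?_
    filter_upwards [h3, k1] with w a b
    simp only [Function.comp_apply]
    rw [ETA.chi_eq hε a, ETA.un, Real.log_div (normSq_pos.2 (h4 _ a)).ne' (nsq_pos (ne _ c b)).ne',
      add_sub_cancel]
  · obtain ⟨k1, k2, -⟩ := hk e he z hz c h
    rw [key c h]
    refine ETA.vert k2 (cd_ofReal ((ETA.cd_nsq.contDiffAt.log (nsq_pos (ne _ c h)).ne').add
      ((ETA.cd_chi hε _).comp _ (ETA.cd_un l (ne _ c h))))) hV ?_
    filter_upwards [h0, k1, e.open_target.mem_nhds hz] with w a b d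
    rw [(hk e he w d c b).2.2.2.1, a]

end Pool.Agent.Lib.LF
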