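import Pool.Agent.Lib.LF.BBlue

/-! Exponential polynomials are polynomials in algebraically independent series. -/

open scoped Classical PowerSeries
open Set MvPolynomial

noncomputable section

namespace Pool.Agent.Lib.LF

namespace EXP

variable {R : Type} [CommRing R] [Algebra ℂ R]

lemma ex_eq (ν : ℂ) :
    ex R ν = PowerSeries.map (algebraMap ℂ R) (PowerSeries.rescale ν (PowerSeries.exp ℂ)) := by
  ext n
  rw [PowerSeries.coeff_map, PowerSeries.coeff_rescale, PowerSeries.coeff_exp, ex,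
    PowerSeries.coeff_mk]
  simp [div_eq_mul_inv]

lemma ex_add (a b : ℂ) : ex R (a + b) = ex R a * ex R b := by
  rw [ex_eq, ex_eq, ex_eq, ← map_mul, PowerSeries.exp_mul_exp_eq_exp_add]

lemma ex_zero : ex R 0 = 1 := by
  ext n
  rw [ex, PowerSeries.coeff_mk, PowerSeries.coeff_one]
  cases n <;> simp

lemma ex_pow (a : ℂ) (n : ℕ) : ex R a ^ n = ex R (n * a) := by
  induction n with
  | zero => rw [pow_zero, Nat.cast_zero, zero_mul, ex_zero]
  | succ n ih => rw [pow_succ, ih, ← ex_add, Nat.cast_succ, add_one_mul]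

lemma ex_sum {τ : Type} (s : Finset τ) (a : τ → ℂ) :
    ∏ i ∈ s, ex R (a i) = ex R (∑ i ∈ s, a i) := by
  induction s using Finset.induction_on with
  | empty => rw [Finset.prod_empty, Finset.sum_empty, ex_zero]
  | insert i s hi ih => rw [Finset.prod_insert hi, Finset.sum_insert hi, ih, ex_add]

lemma der (ν : ℂ) : PowerSeries.derivative R (ex R ν) = algebraMap ℂ R ν • ex R ν := by
  ext n
  rw [PowerSeries.coeff_derivative, map_smul, ex, PowerSeries.coeff_mk, PowerSeries.coeff_mk,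
    smul_eq_mul, ← map_mul, ← map_natCast (algebraMap ℂ R) n, ← map_one (algebraMap ℂ R),
    ← map_add, ← map_mul, Nat.factorial_succ]
  have h1 : ((n : ℂ) + 1) ≠ 0 := Nat.cast_add_one_ne_zero n
  have h2 : ((n.factorial : ℕ) : ℂ) ≠ 0 := Nat.cast_ne_zero.2 n.factorial_ne_zero
  refine congrArg _ ?_
  push_cast
  field_simp
  ring

lemma mon {r : ℕ} (μ : Fin r → ℂ) (m : Option (Fin r) →₀ ℕ) :
    (m.prod fun o k => tu R μ o ^ k) =
      PowerSeries.X ^ m none * ex R (∑ i, (m (some i) : ℂ) * μ i) := by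
  rw [Finsupp.prod_fintype _ _ fun _ => pow_zero _, Fintype.prod_option, ← ex_sum]
  simp only [tu, Option.elim, ex_pow]

section field

variable {E : Type} [Field E] [Algebra ℂ E]

lemma mem_gen (ν : ℂ) (a : ℕ) : PowerSeries.X ^ a * ex E ν ∈
    Module.End.maxGenEigenspace (PowerSeries.derivative E).toLinearMap (algebraMap ℂ E ν) := by
  rw [Module.End.mem_maxGenEigenspace]
  refine ⟨a + 1, ?_⟩
  induction a with
  | zero =>
    rw [zero_add, pow_one, pow_zero, one_mul, LinearMap.sub_apply, LinearMap.smul_apply,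
      Module.End.one_apply, Derivation.coeFn_coe, der, sub_self]
  | succ a ih =>
    have h1 : ((PowerSeries.derivative E).toLinearMap - algebraMap ℂ E ν • (1 : Module.End E E⟦X⟧))
        (PowerSeries.X ^ (a + 1) * ex E ν) = (a + 1) • (PowerSeries.X ^ a * ex E ν) := by
      rw [LinearMap.sub_apply, LinearMap.smul_apply, Module.End.one_apply, Derivation.coeFn_coe,
        Derivation.leibniz, Derivation.leibniz_pow, der, PowerSeries.derivative_X]
      simp only [smul_eq_mul, mul_smul_comm, Nat.add_sub_cancel, mul_one, nsmul_eq_mul]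
      ring
    rw [pow_succ, Module.End.mul_apply, h1, map_nsmul, ih, smul_zero]

lemma ind_pow (ν : ℂ) : LinearIndependent E fun a : ℕ => PowerSeries.X ^ a * ex E ν := by
  rw [linearIndependent_iff']
  intro s g hg a ha
  have h1 := congrArg (fun f => PowerSeries.coeff a (f * ex E (-ν))) hg
  simp only [Finset.sum_mul, smul_mul_assoc, mul_assoc, ← ex_add, add_neg_cancel, ex_zero, mul_one,
    zero_mul, map_zero, map_sum, map_smul, PowerSeries.coeff_X_pow, smul_eq_mul, mul_ite,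
    mul_zero, Finset.sum_ite_eq, ha, if_true] at h1
  exact h1

lemma ind : LinearIndependent E fun x : Σ _ : ℂ, ℕ => PowerSeries.X ^ x.2 * ex E x.1 := by
  refine linearIndependent_iUnion_finite (f := fun (ν : ℂ) (a : ℕ) => PowerSeries.X ^ a * ex E ν)
    ind_pow fun ν t _ hν => ?_
  have h1 := Module.End.independent_maxGenEigenspace (PowerSeries.derivative E).toLinearMap
    (algebraMap ℂ E ν)
  refine h1.mono ?_ (iSup₂_le fun ν' hν' => ?_)
  · rw [Submodule.span_le]
    rintro _ ⟨a, rfl⟩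
    exact mem_gen ν a
  · refine le_iSup₂_of_le (algebraMap ℂ E ν')
      (fun h => hν ((algebraMap ℂ E).injective h ▸ hν')) ?_
    rw [Submodule.span_le]
    rintro _ ⟨a, rfl⟩
    exact mem_gen ν' a

lemma alg_ind {r : ℕ} {μ : Fin r → ℂ} (hμ : LinearIndependent ℤ μ) :
    AlgebraicIndependent E (tu E μ) := by
  have h1 := (ind (E := E)).comp
    (fun m : Option (Fin r) →₀ ℕ => (⟨∑ i, (m (some i) : ℂ) * μ i, m none⟩ : Σ _ : ℂ, ℕ))
    fun m m' h => by
      have h2 : ∑ i, (m (some i) : ℂ) * μ i = ∑ i, (m' (some i) : ℂ) * μ i := congrArg (·.1) h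
      have h3 : m none = m' none := congrArg (·.2) h
      have h4 := Fintype.linearIndependent_iff.1 hμ
        (fun i => (m (some i) : ℤ) - (m' (some i) : ℤ)) (by
          simp only [sub_smul, Finset.sum_sub_distrib, zsmul_eq_mul, Int.cast_natCast, h2,
            sub_self])
      ext o
      cases o with
      | none => exact h3
      | some i => exact_mod_cast sub_eq_zero.1 (h4 i)
  rw [algebraicIndependent_iff]
  intro p hp
  ext m
  by_cases hm : m ∈ p.support
  · refine linearIndependent_iff'.1 h1 p.support (fun m => coeff m p) ?_ m hm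
    rw [← hp]
    conv_rhs => rw [p.as_sum, map_sum]
    refine Finset.sum_congr rfl fun m _ => ?_
    rw [aeval_monomial, mon, Algebra.smul_def]
    rfl
  · exact notMem_support_iff.1 hm

end field

lemma fin_exp {f : ℂ⟦X⟧} (hf : f ∈ Lam) : ∃ S : Set ℂ, S.Finite ∧
    f ∈ Submodule.span ℂ {g | ∃ (a : ℕ), ∃ ν ∈ S, g = PowerSeries.X ^ a * ex ℂ ν} := by
  have hm : ∀ {S S' : Set ℂ}, S ⊆ S' →
      Submodule.span ℂ {g | ∃ (a : ℕ), ∃ ν ∈ S, g = PowerSeries.X ^ a * ex ℂ ν} ≤
      Submodule.span ℂ {g | ∃ (a : ℕ), ∃ ν ∈ S', g = PowerSeries.X ^ a * ex ℂ ν} := fun h =>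
    Submodule.span_mono fun _ ⟨a, ν, hν, hg⟩ => ⟨a, ν, h hν, hg⟩
  induction hf using Submodule.span_induction with
  | mem g hg =>
    obtain ⟨a, ν, rfl⟩ := hg
    exact ⟨{ν}, finite_singleton ν, Submodule.subset_span ⟨a, ν, rfl, rfl⟩⟩
  | zero => exact ⟨∅, finite_empty, zero_mem _⟩
  | add g h _ _ hg hh =>
    obtain ⟨S, hS, hg⟩ := hg
    obtain ⟨S', hS', hh⟩ := hh
    exact ⟨S ∪ S', hS.union hS', add_mem (hm subset_union_left hg) (hm subset_union_right hh)⟩
  | smul c g _ hg =>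
    obtain ⟨S, hS, hg⟩ := hg
    exact ⟨S, hS, Submodule.smul_mem _ c hg⟩

lemma basis {S : Set ℂ} (hS : S.Finite) : ∃ (r : ℕ) (μ : Fin r → ℂ) (ν₀ : ℂ),
    LinearIndependent ℤ μ ∧ ∀ ν ∈ S, ∃ n : Fin r → ℕ, ν₀ + ν = ∑ i, (n i : ℂ) * μ i := by
  have := Module.Finite.span_of_finite ℤ hS
  let B := Module.finBasis ℤ (Submodule.span ℤ S)
  have h1 : ∀ ν : S, ∃ n : Fin (Module.finrank ℤ (Submodule.span ℤ S)) → ℤ,
      (ν : ℂ) = ∑ i, (n i : ℂ) * (B i : ℂ) := fun ν => by
    refine ⟨fun i => B.repr ⟨ν, Submodule.subset_span ν.2⟩ i, ?_⟩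
    have h2 := congrArg Subtype.val (B.sum_repr ⟨ν, Submodule.subset_span ν.2⟩)
    rw [Submodule.coe_sum] at h2
    simp only [Submodule.coe_smul_of_tower, zsmul_eq_mul] at h2
    exact h2.symm
  choose n hn using h1
  have := hS.to_subtype
  obtain ⟨N, hN⟩ := Finite.bddAbove_range
    fun x : S × Fin (Module.finrank ℤ (Submodule.span ℤ S)) => -n x.1 x.2
  refine ⟨_, fun i => (B i : ℂ), ∑ i, (N : ℂ) * (B i : ℂ),
    B.linearIndependent.map' (Submodule.span ℤ S).subtype (Submodule.ker_subtype _),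
    fun ν hν => ⟨fun i => (N + n ⟨ν, hν⟩ i).toNat, ?_⟩⟩
  have h3 : ν = _ := hn ⟨ν, hν⟩
  conv_lhs => rw [h3]
  rw [← Finset.sum_add_distrib]
  refine Finset.sum_congr rfl fun i _ => ?_
  have h4 : -n ⟨ν, hν⟩ i ≤ N := hN ⟨(⟨ν, hν⟩, i), rfl⟩
  have h5 : (((N + n ⟨ν, hν⟩ i).toNat : ℕ) : ℤ) = N + n ⟨ν, hν⟩ i := Int.toNat_of_nonneg (by omega)
  rw [← Int.cast_natCast, h5, Int.cast_add, add_mul]

end EXP

open EXP in
theorem bEXP : St_EXP := by
  intro β _ c hc
  choose S hS hcS using fun b => fin_exp (hc b)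
  obtain ⟨r, μ, ν₀, hμ, hν⟩ := basis (finite_iUnion hS)
  have h1 : ∀ b, ∃ W : Po (Option (Fin r)), aeval (tu ℂ μ) W = ex ℂ ν₀ * c b := fun b => by
    have h2 := hcS b
    generalize c b = f at h2
    induction h2 using Submodule.span_induction with
    | mem g hg =>
      obtain ⟨a, ν, hνS, rfl⟩ := hg
      obtain ⟨n, hn⟩ := hν ν (mem_iUnion.2 ⟨b, hνS⟩)
      refine ⟨X none ^ a * ∏ i, X (some i) ^ n i, ?_⟩
      rw [mul_left_comm, ← ex_add, hn, ← ex_sum]
      simp only [map_mul, map_pow, map_prod, aeval_X, tu, Option.elim, ex_pow]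
    | zero => exact ⟨0, by rw [map_zero, mul_zero]⟩
    | add g h _ _ hg hh =>
      obtain ⟨W, hW⟩ := hg
      obtain ⟨W', hW'⟩ := hh
      exact ⟨W + W', by rw [map_add, hW, hW', mul_add]⟩
    | smul a g _ hg =>
      obtain ⟨W, hW⟩ := hg
      exact ⟨a • W, by rw [map_smul, hW, mul_smul_comm]⟩
  choose W hW using h1
  exact ⟨r, μ, ν₀, W, hW, fun E _ _ => alg_ind hμ⟩

end Pool.Agent.Lib.LF
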