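import Pool.Agent.Lib.LF.BBlue

/-! Block FIX: a fixed point on an invariant closed subset. -/

open scoped Classical Topology
open Set MvPolynomial

noncomputable section

namespace Pool.Agent.Lib.LF

namespace FIX

variable {ι : Type}

theorem eval_smul {g : Po ι} {d : ℕ} (hg : g.IsHomogeneous d) (a : ℂ) (u : ι → ℂ) :
    eval (a • u) g = a ^ d * eval u g := by
  rw [eval_eq, eval_eq, Finset.mul_sum]
  refine Finset.sum_congr rfl fun s hs => ?_
  have hd : ∑ l ∈ s.support, s l = d := by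
    have := hg (mem_support_iff.1 hs)
    rw [← this, Finsupp.weight_apply, Finsupp.sum]
    simp
  simp only [Pi.smul_apply, smul_eq_mul, mul_pow, Finset.prod_mul_distrib,
    Finset.prod_pow_eq_pow_sum, hd]
  ring

theorem deriv_eval [Fintype ι] {u : ℂ → ι → ℂ} {u' : ι → ℂ} {t : ℂ}
    (hu : ∀ l, HasDerivAt (fun s => u s l) (u' l) t) (g : Po ι) :
    HasDerivAt (fun s => eval (u s) g) (dir g (u t) u') t := by
  induction g using MvPolynomial.induction_on with
  | C a => simpa [dir] using hasDerivAt_const t a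
  | add p q hp hq =>
    have h := hp.add hq
    simp only [dir, map_add, add_mul, Finset.sum_add_distrib] at h ⊢
    exact h
  | mul_X p s hp =>
    have h := hp.mul (hu s)
    have h1 : dir (p * X s) (u t) u' = dir p (u t) u' * u t s + eval (u t) p * u' s := by
      have h2 : ∀ l, eval (u t) (pderiv l (p * X s)) * u' l =
          eval (u t) (pderiv l p) * u' l * u t s + if l = s then eval (u t) p * u' s else 0 := by
        intro l
        rw [pderiv_mul, map_add, map_mul, map_mul, eval_X, pderiv_X]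
        by_cases hl : l = s
        · subst hl
          simp only [Pi.single_eq_same, map_one, if_true]
          ring
        · rw [if_neg hl, Pi.single_eq_of_ne' hl, map_zero]
          ring
      simp only [dir, h2, Finset.sum_add_distrib, Finset.sum_ite_eq', Finset.mem_univ, if_true,
        Finset.sum_mul]
    rw [h1]
    simp only [map_mul, eval_X]
    exact h

/-- a form that vanishes on `X i = 0` and is `g` in the chart `i` -/
theorem exists_form (i : ι) (g : Po ι) : ∃ (N : ℕ) (H : Po ι), H.IsHomogeneous (N + 1) ∧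
    (∀ u : ι → ℂ, u i = 0 → eval u H = 0) ∧
    ∀ u : ι → ℂ, u i ≠ 0 → eval u H = u i ^ (N + 1) * eval ((u i)⁻¹ • u) g := by
  refine ⟨g.totalDegree, ∑ k ∈ Finset.range (g.totalDegree + 1),
    X i ^ (g.totalDegree + 1 - k) * homogeneousComponent k g, ?_, fun u hu => ?_, fun u hu => ?_⟩
  · refine IsHomogeneous.sum _ _ _ fun k hk => ?_
    have h := (isHomogeneous_X_pow (R := ℂ) i (g.totalDegree + 1 - k)).mul
      (homogeneousComponent_isHomogeneous k g)
    have hk' := Finset.mem_range.1 hk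
    rwa [Nat.sub_add_cancel hk'.le] at h
  · rw [map_sum]
    refine Finset.sum_eq_zero fun k hk => ?_
    have hk' := Finset.mem_range.1 hk
    rw [map_mul, map_pow, eval_X, hu, zero_pow (by omega), zero_mul]
  · have hs := congrArg (eval ((u i)⁻¹ • u)) (sum_homogeneousComponent g)
    rw [← hs, map_sum, map_sum, Finset.mul_sum]
    refine Finset.sum_congr rfl fun k hk => ?_
    have hk' := Finset.mem_range.1 hk
    rw [map_mul, map_pow, eval_X, eval_smul (homogeneousComponent_isHomogeneous k g),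
      pow_sub₀ _ hu hk'.le, inv_pow, mul_assoc]

theorem dir_aff [Fintype ι] (i : ι) (g H : Po ι) (N : ℕ)
    (hH : ∀ u : ι → ℂ, u i ≠ 0 → eval u H = u i ^ (N + 1) * eval ((u i)⁻¹ • u) g)
    (u v : ι → ℂ) (hu : u i ≠ 0) (h0 : eval ((u i)⁻¹ • u) g = 0) (h1 : dir H u v = 0) :
    dir g ((u i)⁻¹ • u) (fun l => (v l * u i - u l * v i) / u i ^ 2) = 0 := by
  have hl : ∀ l, HasDerivAt (fun s : ℂ => (u + s • v) l) (v l) 0 := by
    intro l
    simpa using ((hasDerivAt_id (0 : ℂ)).mul_const (v l)).const_add (u l)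
  have hz : u + (0 : ℂ) • v = u := by simp
  have hA := deriv_eval (u := fun s => u + s • v) hl H
  rw [hz, h1] at hA
  have hq : ∀ l, HasDerivAt (fun s : ℂ => ((((u + s • v) i)⁻¹ • (u + s • v)) l))
      ((v l * u i - u l * v i) / u i ^ 2) 0 := by
    intro l
    have h := (hl l).div (hl i) (by rw [hz]; exact hu)
    simp only [hz] at h
    refine h.congr_of_eventuallyEq (Filter.Eventually.of_forall fun s => ?_)
    simp only [Pi.smul_apply, smul_eq_mul, Pi.div_apply]
    rw [div_eq_inv_mul]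
  have hB := ((hl i).pow (N + 1)).mul
    (deriv_eval (u := fun s => ((u + s • v) i)⁻¹ • (u + s • v)) hq g)
  have hne : ∀ᶠ s in 𝓝 (0 : ℂ), (u + s • v) i ≠ 0 :=
    (hl i).continuousAt.eventually_ne (by rw [hz]; exact hu)
  have hC := hA.unique (hB.congr_of_eventuallyEq (hne.mono fun s hs => hH _ hs))
  simp only [hz, Pi.pow_apply, h0, mul_zero, zero_add] at hC
  exact (mul_eq_zero.1 hC.symm).resolve_left (pow_ne_zero _ hu)

end FIX

theorem bFIX (hT : St_TRF) (hF : St_FIXF) : St_FIX := by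
  intro X ι Λ _ y G V T v hV hVc hVi hR hVt ⟨x₀, hx₀, a₀, ha₀⟩ hTV hTc ⟨z, hz⟩ hTt
  obtain ⟨F, _, _, Y, hG, hD⟩ := hT X ι Λ y G V hV hVc hVi
  obtain ⟨D, P, hDm, hP⟩ := hD v hR hVt
  have hZ : Zm Y P := by
    obtain ⟨i, hi⟩ := Function.ne_iff.1 (hV.ne x₀)
    refine ⟨i, aff y i x₀, (hG.pt x₀ hx₀ i hi).1, (hG.pt x₀ hx₀ i hi).2, fun l => ?_⟩
    rw [hP x₀ hx₀ i l hi, afv, ha₀]
    simp only [Pi.smul_apply, smul_eq_mul]
    ring
  obtain ⟨i₀, hi₀⟩ := Function.ne_iff.1 (hV.ne z)
  have hJ : ∀ (g : Po ι) (d : ℕ), g.IsHomogeneous d → Van y T g →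
      g ∈ {g : Po ι | ∀ x ∈ T, y x i₀ ≠ 0 → eval (aff y i₀ x) g = 0} := by
    intro g d hg h0 x hx _
    rw [aff, FIX.eval_smul hg, h0 x hx, mul_zero]
  obtain ⟨w, i, hwi, hw, hwP⟩ := hF ι F Y D P i₀ (aff y i₀ z)
    {g : Po ι | ∀ x ∈ T, y x i₀ ≠ 0 → eval (aff y i₀ x) g = 0} hDm hZ
    (hG.pt z (hTV hz) i₀ hi₀).1 (hG.pt z (hTV hz) i₀ hi₀).2 (fun g hg => hg z hz hi₀) (by
      intro g hg x hx hxi
      obtain ⟨N, H, hH, hH0, hH1⟩ := FIX.exists_form i₀ g
      have hvan : Van y T H := by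
        intro x' hx'
        by_cases h : y x' i₀ = 0
        · exact hH0 _ h
        · have := hg x' hx' h
          rw [aff] at this
          rw [hH1 _ h, this, mul_zero]
      have h1 := FIX.dir_aff i₀ g H N hH1 (y x) (v x) hxi (hg x hx hxi) (hTt H _ hH hvan x hx)
      rw [map_sum, ← h1, dir]
      refine Finset.sum_congr rfl fun l _ => ?_
      rw [map_mul, hP x (hTV hx) i₀ l hxi, mul_comm]
      rfl)
  have hw0 : w ≠ 0 := fun h => by
    rw [h] at hwi
    exact zero_ne_one hwi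
  obtain ⟨x, a, hxa⟩ := hV.onto w hw0 fun l => by
    obtain ⟨d, hd⟩ := hV.hom l
    refine hw _ d hd (Or.inr ((hG.ker _).2 fun x _ a => ?_))
    rw [FIX.eval_smul hd, hV.zero, mul_zero]
  have ha : a * y x i = 1 := by
    rw [← hwi, hxa]
    rfl
  have ha0 : a ≠ 0 := left_ne_zero_of_mul_eq_one ha
  have hxi : y x i ≠ 0 := right_ne_zero_of_mul_eq_one ha
  have hxT : x ∈ T := by
    obtain ⟨S, hS, hTS⟩ := hTc
    rw [hTS]
    intro g hg
    obtain ⟨d, hd⟩ := hS g hg
    have h1 := hw g d hd (Or.inl (hJ g d hd fun x' hx' => by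
      rw [hTS] at hx'
      exact hx' g hg))
    rw [hxa, FIX.eval_smul hd] at h1
    exact (mul_eq_zero.1 h1).resolve_left (pow_ne_zero _ ha0)
  have haff : aff y i x = w := by
    rw [aff, hxa, eq_inv_of_mul_eq_one_left ha]
  refine ⟨x, hxT, v x i / y x i, funext fun l => ?_⟩
  have h1 := hP x (hTV hxT) i l hxi
  rw [haff, hwP l, afv, eq_comm, div_eq_zero_iff] at h1
  have h2 := h1.resolve_right (pow_ne_zero _ hxi)
  simp only [Pi.smul_apply, smul_eq_mul]
  field_simp
  linear_combination h2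

end Pool.Agent.Lib.LF
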