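import Pool.Agent.Lib.LF.B_CMP

/-! Project lf: a fixed point on an invariant closed subset, in terms of fields. -/

open scoped Classical Polynomial PowerSeries
open Set MvPolynomial

noncomputable section

namespace Pool.Agent.Lib.LF

open Pool.Agent.Lib.MP_7fcda1_ag

namespace FIXF

variable {ι : Type}

/-- Homogenisation with respect to the variable `i`. -/
theorem homog (i : ι) (a : Po ι) : ∃ (e : ℕ) (H : Po ι), H.IsHomogeneous e ∧
    ∀ (R : Type) [CommRing R] [Algebra ℂ R] (v : ι → R), v i = 1 → aeval v H = aeval v a := by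
  refine ⟨a.totalDegree, ∑ k ∈ Finset.range (a.totalDegree + 1),
    X i ^ (a.totalDegree - k) * homogeneousComponent k a, ?_, fun R _ _ v hv => ?_⟩
  · refine IsHomogeneous.sum _ _ _ fun k hk => ?_
    have h := (isHomogeneous_X_pow (R := ℂ) i (a.totalDegree - k)).mul
      (homogeneousComponent_isHomogeneous k a)
    have hk' := Finset.mem_range.1 hk
    rwa [show a.totalDegree - k + k = a.totalDegree by omega] at h
  · conv_rhs => rw [← sum_homogeneousComponent a]
    simp [map_sum, hv]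

variable [Fintype ι] {F : Type} [Field F] [Algebra ℂ F]

theorem der_apply (P : ι → Po ι) (a : Po ι) :
    mkDerivation ℂ P a = ∑ l, P l * pderiv l a := by
  induction a using MvPolynomial.induction_on with
  | C c => simp
  | add p q hp hq => simp [hp, hq, mul_add, Finset.sum_add_distrib]
  | mul_X p l hp =>
    have : ∀ j, P j * pderiv j (p * X l) =
        X l * (P j * pderiv j p) + if j = l then p * P l else 0 := fun j => by
      by_cases h : j = l
      · subst h
        simp [Derivation.leibniz]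
        ring
      · simp [Derivation.leibniz, h, pderiv_X_of_ne (Ne.symm h)]
        ring
    rw [Finset.sum_congr rfl fun j _ => this j, Finset.sum_add_distrib, ← Finset.mul_sum,
      Finset.sum_ite_eq', if_pos (Finset.mem_univ l), Derivation.leibniz, mkDerivation_X, hp,
      smul_eq_mul, smul_eq_mul, add_comm]

omit [Fintype ι] in
theorem der_comm {u : ι → F} {D : Derivation ℂ F F} {P : ι → Po ι}
    (h : ∀ l, D (u l) = aeval u (P l)) (a : Po ι) :
    aeval u (mkDerivation ℂ P a) = D (aeval u a) := by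
  induction a using MvPolynomial.induction_on with
  | C c => simp
  | add p q hp hq => simp [hp, hq]
  | mul_X p l hp => simp [Derivation.leibniz, hp, h]

omit [Fintype ι] in
theorem iter_comm {u : ι → F} {D : Derivation ℂ F F} {P : ι → Po ι}
    (h : ∀ l, D (u l) = aeval u (P l)) (n : ℕ) (a : Po ι) :
    aeval u ((⇑(mkDerivation ℂ P))^[n] a) = (⇑D)^[n] (aeval u a) := by
  induction n with
  | zero => rfl
  | succ n ih => rw [Function.iterate_succ_apply', Function.iterate_succ_apply', der_comm h, ih]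

omit [Fintype ι] in
theorem et_comm {u : ι → F} {D : Derivation ℂ F F} {P : ι → Po ι}
    (h : ∀ l, D (u l) = aeval u (P l)) (a : Po ι) :
    PowerSeries.mapAlgHom (aeval u : Po ι →ₐ[ℂ] F) (et (mkDerivation ℂ P) a) =
      et D (aeval u a) := by
  ext n
  simp [et, PowerSeries.mapAlgHom_apply, PowerSeries.coeff_map, iter_comm h]

omit [Fintype ι] in
theorem spec_ser {u : ι → F} {η : ι → ℂ} (h : Spec u η) {f : (Po ι)⟦X⟧}
    (hf : PowerSeries.mapAlgHom (aeval u : Po ι →ₐ[ℂ] F) f = 0) :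
    PowerSeries.mapAlgHom (aeval η : Po ι →ₐ[ℂ] ℂ) f = 0 := by
  ext n
  have := congrArg (PowerSeries.coeff n) hf
  simp only [PowerSeries.mapAlgHom_apply, PowerSeries.coeff_map, map_zero] at this ⊢
  exact h _ this

omit [Fintype ι] in
theorem cmb_map {α R : Type} [Fintype α] [CommRing R] [Algebra ℂ R] (e : α → Po ι)
    (c : α → ℂ⟦X⟧) (v : ι → R) :
    PowerSeries.mapAlgHom (aeval v : Po ι →ₐ[ℂ] R) (cmb e c (X : ι → Po ι)) = cmb e c v := by
  unfold cmb
  rw [map_sum]
  refine Finset.sum_congr rfl fun a _ => ?_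
  rw [map_mul]
  congr 1
  · ext n
    simp [PowerSeries.mapAlgHom_apply, PowerSeries.coeff_map]
  · simp [PowerSeries.mapAlgHom_apply]

omit [Fintype ι] in
theorem cmb_scale {α R : Type} [Fintype α] [CommRing R] [Algebra ℂ R] {e : α → Po ι} {d : ℕ}
    (he : ∀ a, (e a).IsHomogeneous d) (c : α → ℂ⟦X⟧) (s : R) (v : ι → R) :
    cmb e c (fun l => s * v l) = PowerSeries.C (s ^ d) * cmb e c v := by
  unfold cmb
  rw [Finset.mul_sum]
  refine Finset.sum_congr rfl fun a _ => ?_
  rw [CMP.hom_scale (he a), map_mul]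
  ring

omit [Fintype ι] in
theorem cmb_lam {α : Type} [Fintype α] (e : α → Po ι) {c : α → ℂ⟦X⟧} (hc : ∀ a, c a ∈ Lam)
    (η : ι → ℂ) : cmb e c η ∈ Lam := by
  refine Submodule.sum_mem _ fun a _ => ?_
  have : PowerSeries.map (algebraMap ℂ ℂ) (c a) * PowerSeries.C (aeval η (e a)) =
      aeval η (e a) • c a := by
    ext n
    simp [mul_comm]
  rw [this]
  exact Submodule.smul_mem _ _ (hc a)

end FIXF

theorem bFIXF (hJET : St_JET) (hEXP : St_EXP) (hLEAD : St_LEAD) (hET : St_ET) : St_FIXF := by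
  intro ι F _ _ _ Y D P i₀ η J hD hZ hY hS hJ0 hJ
  obtain ⟨d, r, e, c, hj, hp0⟩ := hJET ι F ℂ Y D P i₀ η hD hZ hY hS
  set u := nrm Y i₀ with hu
  have hDu : ∀ l, D (u l) = aeval u (P i₀ l) := hD i₀ hY
  obtain ⟨⟨φ, hφ⟩, hφ'⟩ := hET.1 (Po ι) (mkDerivation ℂ (P i₀))
  let ψ : Po ι →ₐ[ℂ] ℂ⟦X⟧ := (PowerSeries.mapAlgHom (aeval η : Po ι →ₐ[ℂ] ℂ)).comp φ
  have hψ : ∀ a, ψ a = PowerSeries.mapAlgHom (aeval η : Po ι →ₐ[ℂ] ℂ)
      (et (mkDerivation ℂ (P i₀)) a) := fun a => by rw [← hφ]; rfl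
  set g : ι → ℂ⟦X⟧ := fun l => ψ (X l) with hg
  have hgψ : ∀ a, aeval g a = ψ a := fun a => by
    rw [hg, CMP.aeval_hom, aeval_X_left_apply]
  have hker : ∀ a, aeval u a = 0 → aeval g a = 0 := fun a ha => by
    rw [hgψ, hψ]
    refine FIXF.spec_ser hS ?_
    rw [FIXF.et_comm hDu, ha]
    ext n
    simp [et, Function.iterate_fixed (map_zero D)]
  have hkJ : ∀ a ∈ J, aeval g a = 0 := fun a ha => by
    have : ∀ n, (⇑(mkDerivation ℂ (P i₀)))^[n] a ∈ J := fun n => by
      induction n with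
      | zero => exact ha
      | succ n ih =>
        rw [Function.iterate_succ_apply', FIXF.der_apply]
        exact hJ _ ih
    rw [hgψ, hψ]
    ext n
    have h := hJ0 _ (this n)
    simp [et, PowerSeries.mapAlgHom_apply, PowerSeries.coeff_map, h]
  have hdg : ∀ l, PowerSeries.derivative ℂ (g l) = aeval g (P i₀ l) := fun l => by
    have h := (hφ' (X l)).2.2
    rw [mkDerivation_X] at h
    rw [hgψ, hψ, ← h]
    change PowerSeries.derivative ℂ (ψ (X l)) = _
    rw [hψ]
    ext n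
    simp [PowerSeries.mapAlgHom_apply, PowerSeries.coeff_map, PowerSeries.coeff_derivative]
  have hYu : Y = fun l => Y i₀ * u l := funext fun l => by
    simp only [hu, nrm]
    field_simp
  have hp : ∀ l, cmb e (c l) η = g l * cmb e (c i₀) η := fun l => by
    have h1 := hj.eq i₀ l hY
    rw [← hu] at h1
    have h2 : ∀ c', cmb e c' Y = PowerSeries.C (Y i₀ ^ d) * cmb e c' u := fun c' => by
      conv_lhs => rw [hYu]
      exact FIXF.cmb_scale hj.hom c' _ _
    have h3 : (PowerSeries.C (Y i₀ ^ d) : F⟦X⟧) ≠ 0 := fun h => pow_ne_zero d hY (by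
      simpa using congrArg PowerSeries.constantCoeff h)
    rw [h2, h2, mul_left_comm] at h1
    have h4 := mul_left_cancel₀ h3 h1
    have h5 := FIXF.spec_ser hS (f := cmb e (c l) (X : ι → Po ι) -
        et (mkDerivation ℂ (P i₀)) (X l) * cmb e (c i₀) (X : ι → Po ι)) (by
      rw [map_sub, map_mul, FIXF.cmb_map, FIXF.cmb_map, FIXF.et_comm hDu, aeval_X, h4, sub_self])
    rw [map_sub, map_mul, FIXF.cmb_map, FIXF.cmb_map, ← hψ] at h5
    exact sub_eq_zero.1 h5
  obtain ⟨r', μ, ν, W, hW, hind⟩ := hEXP ι (fun l => cmb e (c l) η)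
    fun l => FIXF.cmb_lam e (hj.lam l) η
  have hinj : Function.Injective (aeval (tu ℂ μ) : Po (Option (Fin r')) →ₐ[ℂ] ℂ⟦X⟧) := hind ℂ
  set s : ℂ⟦X⟧ := ex ℂ ν * cmb e (c i₀) η with hs
  have hs0 : s ≠ 0 := by
    refine mul_ne_zero (fun h => ?_) hp0
    simpa [ex] using congrArg (PowerSeries.coeff 0) h
  have hWg : ∀ l, aeval (tu ℂ μ) (W l) = s * g l := fun l => by
    rw [hW, hp l, hs]
    ring
  have hWa : ∀ (a : Po ι) (k : ℕ), a.IsHomogeneous k →
      aeval (tu ℂ μ) (aeval W a) = s ^ k * aeval g a := fun a k ha => by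
    rw [← CMP.aeval_hom (aeval (tu ℂ μ) : Po (Option (Fin r')) →ₐ[ℂ] ℂ⟦X⟧), ← CMP.hom_scale ha]
    simp only [hWg]
  have hW0 : W ≠ 0 := fun h => hs0 (by rw [hs, ← hW i₀, h]; simp)
  obtain ⟨hL1, hL2⟩ := hLEAD r' μ
  obtain ⟨w, i, hwi, hw1, hw2⟩ := hL2 ι W hW0
  have hform : ∀ (a : Po ι) (k : ℕ), a.IsHomogeneous k → a ∈ J ∨ aeval Y a = 0 → eval w a = 0 := by
    intro a k ha h
    refine hw1 a k ha (hinj ?_)
    rw [hWa a k ha, map_zero]
    rcases h with h | h
    · rw [hkJ a h, mul_zero]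
    · rw [hYu, CMP.hom_scale ha] at h
      rw [hker a ((mul_eq_zero.1 h).resolve_left (pow_ne_zero _ hY)), mul_zero]
  refine ⟨w, i, hwi, hform, fun l => ?_⟩
  have hYi : Y i ≠ 0 := fun h => by
    have := hform (X i) 1 (isHomogeneous_X ℂ i) (Or.inr (by simpa using h))
    simp [hwi] at this
  obtain ⟨k, H, hH, hHe⟩ := FIXF.homog i (P i l)
  have h1 := hHe ℂ w hwi
  rw [aeval_eq_eval] at h1
  rw [← h1]
  refine hw2 l H k hH (hinj ?_)
  have hun : ∀ l, u l = u i * nrm Y i l := fun l => by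
    simp only [hu, nrm]
    field_simp
  have h2 : aeval u H = u i ^ k * D (nrm Y i l) := by
    rw [hD i hYi l, ← hHe F (nrm Y i) (div_self hYi), ← CMP.hom_scale hH]
    exact congrArg (fun v => aeval v H) (funext hun)
  have h3 : aeval u (P i₀ l) = u i * D (nrm Y i l) + nrm Y i l * aeval u (P i₀ i) := by
    rw [← hDu, ← hDu, hun l, Derivation.leibniz, smul_eq_mul, smul_eq_mul]
  have h4 := hker ((P i₀ l * X i - X l * P i₀ i) * X i ^ k - H * X i ^ 2) (by
    simp only [map_sub, map_mul, map_pow, aeval_X]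
    rw [h2, h3, hun l]
    ring)
  simp only [map_sub, map_mul, map_pow, aeval_X] at h4
  simp only [map_sub, map_mul, map_pow, ← hL1, hWg, hWa H k hH, Derivation.leibniz, smul_eq_mul,
    hdg, mul_pow]
  linear_combination s ^ (k + 2) * h4

end Pool.Agent.Lib.LF
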