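import Pool.Agent.Lib.LF.BBlue
import Pool.Agent.Lib.NAK.Two

/-! The formal flow of a regular vector field is given by forms of bounded degree. -/

open scoped Classical Polynomial PowerSeries
open Set Filter PowerSeries

noncomputable section

namespace Pool.Agent.Lib.LF

open Pool.Agent.Lib.NAK

namespace FLOW

theorem seq {F : Type} [Zero F] (G : ℕ → (ℕ → F) → F) :
    ∃ f : ℕ → F, ∀ n, f n = G n fun r => if r < n then f r else 0 := by
  refine ⟨WellFounded.fix wellFounded_lt fun n ih =>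
    G n fun r => if h : r < n then ih r h else 0, fun n => ?_⟩
  rw [WellFounded.fix_eq]
  simp only [dite_eq_ite]

/-- A series is found order by order. -/
theorem solve {F A : Type} [CommRing F] (u : A → F⟦X⟧) (M : A → F → Prop) (s₀ : F)
    (hu : ∀ a, constantCoeff (u a) = 1) (h0 : ∀ a, M a s₀)
    (h : ∀ n (s : F⟦X⟧), (∀ r < n, ∀ a, M a (coeff r (u a * s))) →
      ∃ c, ∀ a, M a (c + coeff n (u a * s))) :
    ∃ s, constantCoeff s = s₀ ∧ ∀ n a, M a (coeff n (u a * s)) := by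
  choose! c hc using h
  obtain ⟨f, hf⟩ := seq fun n g => if n = 0 then s₀ else c n (mk g)
  have f0 : f 0 = s₀ := by rw [hf, if_pos rfl]
  refine ⟨mk f, by rw [constantCoeff_mk, f0], fun n => ?_⟩
  induction n using Nat.strongRecOn with
  | ind n ih =>
    intro a
    by_cases hn : n = 0
    · rw [hn, coeff_zero_eq_constantCoeff, map_mul, hu, one_mul, constantCoeff_mk, f0]
      exact h0 a
    obtain ⟨q, hq⟩ : (X : F⟦X⟧) ^ n ∣ mk f - mk fun r => if r < n then f r else 0 :=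
      X_pow_dvd_iff.2 fun m hm => by simp [hm]
    have e : ∀ b, u b * mk f =
        X ^ n * (u b * q) + u b * mk fun r => if r < n then f r else 0 := fun b => by
      rw [eq_add_of_sub_eq hq]
      ring
    have q0 : constantCoeff q = f n := by
      have := congrArg (coeff n) hq
      rw [coeff_X_pow_mul', if_pos le_rfl, Nat.sub_self, coeff_zero_eq_constantCoeff] at this
      simpa using this.symm
    have := hc n (mk fun r => if r < n then f r else 0) (fun r hr b => by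
      have := ih r hr b
      rwa [e, map_add, coeff_X_pow_mul', if_neg hr.not_ge, zero_add] at this) a
    rw [e, map_add, coeff_X_pow_mul', if_pos le_rfl, Nat.sub_self, coeff_zero_eq_constantCoeff,
      map_mul, hu, one_mul, q0, hf n, if_neg hn]
    exact this

variable {ι F : Type} [Field F] [Algebra ℂ F] {Y : ι → F} {D : Derivation ℂ F F}
  {P : ι → ι → Po ι}

omit [Algebra ℂ F] in
theorem nrm_mul {i : ι} (hi : Y i ≠ 0) (i₀ l : ι) : nrm Y i₀ l = nrm Y i l * nrm Y i₀ i := by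
  rw [nrm, nrm, nrm, div_mul_div_cancel₀ hi]

omit [Algebra ℂ F] in
theorem nrm_inv {i l : ι} (hi : Y i ≠ 0) (hl : Y l ≠ 0) : nrm Y i l * nrm Y l i = 1 := by
  rw [nrm, nrm, div_mul_div_cancel₀ hi, div_self hl]

theorem D_mem (hD : Dm Y D P) {i : ι} (hi : Y i ≠ 0) {x : F}
    (hx : x ∈ Algebra.adjoin ℂ (range (nrm Y i))) : D x ∈ Algebra.adjoin ℂ (range (nrm Y i)) := by
  induction hx using Algebra.adjoin_induction with
  | mem x hx =>
    obtain ⟨l, rfl⟩ := hx
    rw [hD i hi, Algebra.adjoin_range_eq_range_aeval]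
    exact ⟨_, rfl⟩
  | algebraMap c => simp
  | add x y _ _ hx hy => exact map_add D x y ▸ add_mem hx hy
  | mul x y h1 h2 hx hy => exact D.leibniz x y ▸ add_mem (mul_mem h1 hy) (mul_mem h2 hx)

theorem et_mem (hD : Dm Y D P) {i : ι} (hi : Y i ≠ 0) (l : ι) (n : ℕ) :
    coeff n (et D (nrm Y i l)) ∈ Algebra.adjoin ℂ (range (nrm Y i)) := by
  rw [et, coeff_mk]
  refine Subalgebra.smul_mem _ ?_ _
  induction n with
  | zero => exact Algebra.subset_adjoin (mem_range_self l)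
  | succ n ih => exact Function.iterate_succ_apply' D n _ ▸ D_mem hD hi ih

variable (Y) in
/-- The homogeneous coordinate ring. -/
abbrev Z : Dat ℂ F (Ix Y fun _ : Unit => 1) := dat ℂ Y fun _ : Unit => 1

omit [Algebra ℂ F] in
theorem ne (a : Ix Y fun _ : Unit => 1) : Y a.1.2 ≠ 0 := right_ne_zero_of_mul a.2

theorem Y_mem (l : ι) : Y l ∈ (Z Y).R 1 := by
  have := RR_mul (p_mem ℂ Y (fun _ : Unit => 1) ()) (y_mem ℂ Y (fun _ : Unit => 1) l)
  rwa [one_mul] at this

theorem adj_loc (a : Ix Y fun _ : Unit => 1) {x : F}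
    (hx : x ∈ Algebra.adjoin ℂ (range (nrm Y a.1.2))) : x ∈ loc (NAK.top (Z Y)) {a} 0 := by
  have h1 : (1 : F) ∈ loc (NAK.top (Z Y)) {a} 0 := loc_of (J := NAK.top (Z Y)) (Z Y).one
  induction hx using Algebra.adjoin_induction with
  | mem x hx =>
    obtain ⟨l, rfl⟩ := hx
    refine loc_den (Den.mul a rfl Den.one) ?_
    have e : (Z Y).z a * 1 * nrm Y a.1.2 l = Y l := by
      change 1 * Y a.1.2 * 1 * (Y l / Y a.1.2) = Y l
      rw [one_mul, mul_one, mul_div_cancel₀ _ (ne a)]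
    rw [e, add_zero, add_zero]
    exact loc_of (J := NAK.top (Z Y)) (Y_mem l)
  | algebraMap c => exact Algebra.algebraMap_eq_smul_one (A := F) c ▸ Submodule.smul_mem _ c h1
  | add x y _ _ hx hy => exact add_mem hx hy
  | mul x y _ _ hx hy => exact loc_mul hx hy (add_zero _)

end FLOW

open FLOW in
theorem bFLOW (hE : St_ET) : St_FLOW := by
  intro ι F _ _ _ Y D P i₀ hD h0
  obtain ⟨⟨φ, hφ⟩, hc⟩ := hE.1 F D
  have wf := wf_dat ℂ Y fun _ : Unit => 1
  obtain ⟨d1, h1⟩ := eventually_atTop.1 (serre1 wf _ _ (bot_le' (NAK.top (Z Y))))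
  obtain ⟨d2, h2⟩ := eventually_atTop.1 (serre2 wf _ _ (bot_le' (NAK.top (Z Y))))
  obtain ⟨n, hn⟩ : ∃ n : ℕ, d1 ≤ n • 1 ∧ d2 ≤ n • 1 := by
    refine ⟨d1.1.natAbs + d1.2.natAbs + d2.1.natAbs + d2.2.natAbs, ⟨?_, ?_⟩, ?_, ?_⟩ <;>
      simp only [nsmul_one, Prod.fst_natCast, Prod.snd_natCast] <;> omega
  replace h1 := h1 (1 + n • 1) (hn.1.trans (le_add_of_nonneg_left zero_le_one))
  replace h2 := h2 _ hn.2
  have hg : ∀ (a : Ix Y fun _ : Unit => 1) l r,
      coeff r (φ (nrm Y a.1.2 l)) ∈ loc (NAK.top (Z Y)) {a} 0 := fun a l r =>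
    adj_loc a (hφ _ ▸ et_mem hD (ne a) l r)
  let a₀ : Ix Y fun _ : Unit => 1 := ⟨((), i₀), mul_ne_zero one_ne_zero h0⟩
  obtain ⟨s, s0, hs⟩ := solve (fun a : Ix Y fun _ : Unit => 1 =>
      C (nrm Y a.1.2 i₀) * φ (nrm Y i₀ a.1.2)) (fun a x => x ∈ loc (NAK.top (Z Y)) {a} (n • 1))
      (Y i₀ ^ n) (fun a => by
        rw [map_mul, constantCoeff_C, hφ, (hc _).1, nrm_inv (ne a) h0])
      (fun a => loc_of (J := NAK.top (Z Y)) ((Z Y).pow (Y_mem i₀) n)) fun m s hs => by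
    obtain ⟨b, hb, e⟩ := h2 (fun a a' =>
        coeff m (C (nrm Y a'.1.2 i₀) * φ (nrm Y i₀ a'.1.2) * s) -
          coeff m (C (nrm Y a.1.2 i₀) * φ (nrm Y i₀ a.1.2) * s)) (fun a a' => by
      have e : C (nrm Y a'.1.2 i₀) * φ (nrm Y i₀ a'.1.2) * s =
          C (nrm Y a'.1.2 a.1.2) * φ (nrm Y a.1.2 a'.1.2) *
            (C (nrm Y a.1.2 i₀) * φ (nrm Y i₀ a.1.2) * s) := by
        rw [nrm_mul (ne a) a'.1.2 i₀, nrm_mul (ne a) i₀ a'.1.2, map_mul, map_mul]
        ring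
      rw [e, coeff_mul, ← Finset.sum_erase_add _ _ (a := (0, m)) (by simp),
        coeff_zero_eq_constantCoeff, map_mul, constantCoeff_C, hφ, (hc _).1,
        nrm_inv (ne a') (ne a), one_mul, add_sub_cancel_right, ← hφ]
      refine sum_mem fun p hp => ?_
      obtain ⟨p1, p2⟩ := Finset.mem_erase.1 hp
      have p3 := Finset.HasAntidiagonal.mem_antidiagonal.1 p2
      have p4 : p.2 < m := by
        refine Nat.lt_of_le_of_ne (by omega) fun h => p1 (Prod.ext ?_ h)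
        change p.1 = 0
        omega
      refine loc_mul ?_ (loc_mono (hs _ p4 a) le_rfl (s1 _ _)) (zero_add _)
      rw [coeff_C_mul]
      exact loc_mul (loc_mono (adj_loc a' (Algebra.subset_adjoin (mem_range_self _))) le_rfl
        (s2 _ _)) (loc_mono (hg a _ _) le_rfl (s1 _ _)) (zero_add _))
      fun a a' a'' => by simp
    refine ⟨b a₀ - coeff m (C (nrm Y a₀.1.2 i₀) * φ (nrm Y i₀ a₀.1.2) * s), fun a => ?_⟩
    have e1 := loc_bot (e a₀ a)
    rw [show b a₀ - coeff m (C (nrm Y a₀.1.2 i₀) * φ (nrm Y i₀ a₀.1.2) * s) +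
      coeff m (C (nrm Y a.1.2 i₀) * φ (nrm Y i₀ a.1.2) * s) = b a by linear_combination e1]
    exact hb a
  refine ⟨n + 1, fun l => φ (nrm Y i₀ l) * (C (Y i₀) * s), fun l m => ?_, fun i l hi => ?_, ?_⟩
  · obtain ⟨x, hx, e⟩ := h1 (fun _ => coeff m (φ (nrm Y i₀ l) * (C (Y i₀) * s))) (fun a => by
      have e : φ (nrm Y i₀ l) * (C (Y i₀) * s) = C (Y a.1.2) * (φ (nrm Y a.1.2 l) *
          (C (nrm Y a.1.2 i₀) * φ (nrm Y i₀ a.1.2) * s)) := by
        rw [nrm_mul (ne a) i₀ l, map_mul, ← mul_div_cancel₀ (Y i₀) (ne a), map_mul, ← nrm]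
        ring
      rw [e, coeff_C_mul, coeff_mul]
      exact loc_mul (loc_of (J := NAK.top (Z Y)) (Y_mem _))
        (sum_mem fun p _ => loc_mul (hg a _ _) (hs _ a) (zero_add _)) rfl) fun a a' => by simp
    rw [sub_eq_zero.1 (loc_bot (e a₀))]
    have e1 : (1 + n • 1 : ℤ × ℤ) = (((n + 1 : ℕ) : ℤ), ((n + 1 : ℕ) : ℤ)) := by
      ext <;> simp [add_comm]
    have e2 : x ∈ RR ℂ Y (fun _ : Unit => 1) (1 + n • 1) := hx
    rwa [e1, RR_nat, range_const, ← Submodule.one_eq_span, one_pow, one_mul] at e2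
  · beta_reduce
    rw [nrm_mul hi i₀ l, map_mul, hφ, mul_assoc]
  · rw [map_mul, map_mul, constantCoeff_C, s0, hφ, (hc _).1, nrm, div_self h0, one_mul, pow_succ']

end Pool.Agent.Lib.LF
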