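import Pool.Agent.Lib.LF.ABlue

/-! Project lf, block GEN: the generic choice of linear forms and skew matrices. -/

open scoped Classical Matrix
open Set

noncomputable section

namespace Pool.Agent.Lib.LF

open Pool.Agent.Lib.SV (E)
open Pool.Agent.Lib.HS32 Pool.Agent.Lib.MP_7fcda1_ag

namespace GEN

theorem alg_countable (k : Subfield ℂ) (hk : (k : Set ℂ).Countable) {T : Set ℂ} (hT : T.Finite) :
    {x : ℂ | IsAlgebraic (IntermediateField.adjoin k T) x}.Countable := by
  have h1 : Countable k := hk.to_subtype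
  have h2 : Countable T := hT.countable.to_subtype
  have h3 : Countable (IntermediateField.adjoin k T) := by
    rw [← Cardinal.mk_le_aleph0_iff]
    refine (IntermediateField.cardinalMk_adjoin_le k T).trans ?_
    exact max_le (max_le Cardinal.mk_le_aleph0 Cardinal.mk_le_aleph0) le_rfl
  exact Algebraic.countable _ _

theorem exists_fin (k : Subfield ℂ) (hk : (k : Set ℂ).Countable) (j : ℕ) :
    ∃ T : Set ℂ, T.Finite ∧ (j : ℕ∞) ≤ rk k T := by
  induction j with
  | zero => exact ⟨∅, finite_empty, by simp⟩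
  | succ j ih =>
    obtain ⟨T, hT, hj⟩ := ih
    have h1 : ∃ a : ℂ, ¬IsAlgebraic (IntermediateField.adjoin k T) a := by
      by_contra hn
      push Not at hn
      have h2 := alg_countable k hk hT
      rw [eq_univ_of_forall (s := {x : ℂ | IsAlgebraic (IntermediateField.adjoin k T) x}) hn] at h2
      exact not_countable_complex h2
    obtain ⟨a, ha⟩ := h1
    refine ⟨insert a T, hT.insert a, ?_⟩
    rw [rk_insert ha]
    push_cast
    gcongr

theorem exists_gen (k : Subfield ℂ) (hk : (k : Set ℂ).Countable) (σ : Type) [Fintype σ] :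
    ∃ z : σ → ℂ, AlgebraicIndependent k z := by
  obtain ⟨T, -, h⟩ := exists_fin k hk (Fintype.card σ)
  obtain ⟨w, -, hw⟩ := exists_indep h
  exact ⟨w ∘ Fintype.equivFin σ, hw.comp _ (Fintype.equivFin σ).injective⟩

theorem cnt {k : Subfield ℂ} {σ : Type} [Fintype σ] {z : σ → ℂ} (hz : AlgebraicIndependent k z)
    (S : Finset σ) (T : Set ℂ)
    (h : ∀ s ∈ S, z s ∈ IntermediateField.adjoin k (z '' {s | s ∉ S} ∪ T)) :
    (S.card : ℕ∞) ≤ rk k T ∧ (rk k T ≤ S.card →
      ∀ t ∈ T, IsAlgebraic (IntermediateField.adjoin k (range z)) t) := by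
  have h1 : rk k (T ∪ range z) ≤ rk k (z '' {s | s ∉ S} ∪ T) := by
    refine rk_le_of_mem ?_
    rintro x (hx | ⟨s, rfl⟩)
    · exact IntermediateField.subset_adjoin _ _ (Or.inr hx)
    · by_cases hs : s ∈ S
      · exact h s hs
      · exact IntermediateField.subset_adjoin _ _ (Or.inl ⟨s, hs, rfl⟩)
  have h2 : rk k (z '' {s | s ∉ S}) ≤ (Sᶜ.card : ℕ) := by
    refine (Rk_le_encard _).trans ((encard_image_le _ _).trans ?_)
    rw [← encard_coe_eq_coe_finsetCard]
    exact encard_le_encard fun s hs => by simpa using hs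
  have h3 : rk k (T ∪ range z) ≤ (Sᶜ.card : ℕ) + rk k T :=
    h1.trans (rk_union_le.trans (by gcongr))
  have h4 : rk k (range z) = (Sᶜ.card : ℕ) + (S.card : ℕ) := by
    rw [rk_range_indep hz, ← Nat.cast_add, Finset.card_compl_add_card]
  refine ⟨?_, fun h5 => alg_of_rk ?_ ?_⟩
  · have h6 := (rk_mono (k := k) (subset_union_right (s := T) (t := range z))).trans h3
    rw [h4] at h6
    exact (ENat.add_le_add_iff_left (ENat.natCast_ne_top _)).1 h6
  · rw [rk_range_indep hz]; exact ENat.natCast_ne_top _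
  · rw [h4]; exact h3.trans (by gcongr)

theorem lin_mem {k : Subfield ℂ} {ι : Type} [Fintype ι] (K : IntermediateField k ℂ)
    (u b : ι → ℂ) (c : ι) (hc : b c = 1) (hb : ∀ q, b q ∈ K) (hu : ∀ q, q ≠ c → u q ∈ K)
    (h : u ⬝ᵥ b ∈ K) : u c ∈ K := by
  have e : u c = u ⬝ᵥ b - ∑ q ∈ Finset.univ.erase c, u q * b q := by
    rw [dotProduct, ← Finset.add_sum_erase _ _ (Finset.mem_univ c), hc]; ring
  rw [e]
  exact sub_mem h (sum_mem fun q hq => mul_mem (hu q (Finset.ne_of_mem_erase hq)) (hb q))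

end GEN

open GEN in
theorem bGEN : St_GEN := by
  intro k j n hk
  obtain ⟨z, hz⟩ := exists_gen k hk
    ((Fin j × Fin (n + 1)) ⊕ (Fin (j + 1) × Fin (n + 1) × Fin (n + 1)))
  let l : Fin j → E (n + 1) := fun i q => z (Sum.inl (i, q))
  let N : Fin (j + 1) → Mat (n + 1) := fun r =>
    Matrix.of fun p q => z (Sum.inr (r, p, q)) - z (Sum.inr (r, q, p))
  refine ⟨l, N, {b | ∀ q, IsAlgebraic (IntermediateField.adjoin k (range z)) (b q)}, ?_, ?_, ?_⟩
  · intro r; ext p q; simp [N]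
  · exact countable_pi fun _ => alg_countable k hk (finite_range z)
  intro b c hc hl
  let S₁ : Finset ((Fin j × Fin (n + 1)) ⊕ (Fin (j + 1) × Fin (n + 1) × Fin (n + 1))) :=
    Finset.univ.image fun i => Sum.inl (i, c)
  have c₁ : S₁.card = j := by
    rw [Finset.card_image_of_injective _ (fun i i' h => by simpa using h)]; simp
  have m₁ : ∀ (K : IntermediateField k ℂ), (∀ q, b q ∈ K) →
      (∀ i q, q ≠ c → z (Sum.inl (i, q)) ∈ K) → ∀ i, z (Sum.inl (i, c)) ∈ K :=
    fun K hb hK i => lin_mem K (l i) b c hc hb (hK i) (by rw [hl i]; exact zero_mem K)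
  refine ⟨?_, fun a ha hr => ?_⟩
  · have := (cnt hz S₁ (range b) ?_).1
    · rwa [c₁] at this
    intro s hs
    obtain ⟨i, -, rfl⟩ := Finset.mem_image.1 hs
    refine m₁ _ (fun q => IntermediateField.subset_adjoin _ _ (Or.inr ⟨q, rfl⟩)) (fun i q hq => ?_) i
    exact IntermediateField.subset_adjoin _ _ (Or.inl ⟨_, by simp [S₁, hq.symm], rfl⟩)
  obtain ⟨r₀, hr₀⟩ := Function.ne_iff.1 ha
  have hr₀ : a r₀ ≠ 0 := hr₀
  let S₂ : Finset ((Fin j × Fin (n + 1)) ⊕ (Fin (j + 1) × Fin (n + 1) × Fin (n + 1))) :=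
    (Finset.univ.erase c).image fun p => Sum.inr (r₀, p, c)
  have c₂ : (S₁ ∪ S₂).card = j + n := by
    rw [Finset.card_union_of_disjoint, c₁,
      Finset.card_image_of_injective _ (fun i i' h => by simpa using h)]
    · simp
    · rw [Finset.disjoint_left]; simp [S₁, S₂]
  let R : Finset (Fin (j + 1)) := (Finset.univ.erase r₀).filter fun r => a r ≠ 0
  let ξ : E (n + 1) := (a r₀)⁻¹ • (∑ r, a r • N r) *ᵥ b
  let T : Set ℂ := (range b ∪ range ξ) ∪ (fun r => (a r₀)⁻¹ * a r) '' R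
  have hT : rk k T ≤ ((n + R.card : ℕ) : ℕ∞) := by
    refine rk_union_le.trans ?_
    push_cast
    refine add_le_add (hr _) ((Rk_le_encard _).trans ((encard_image_le _ _).trans ?_))
    rw [encard_coe_eq_coe_finsetCard]
  have key := cnt hz (S₁ ∪ S₂) T (by
    set K := IntermediateField.adjoin k (z '' {s | s ∉ S₁ ∪ S₂} ∪ T) with hK
    have hb : ∀ q, b q ∈ K := fun q =>
      IntermediateField.subset_adjoin _ _ (Or.inr (Or.inl (Or.inl ⟨q, rfl⟩)))
    have hξ : ∀ q, ξ q ∈ K := fun q =>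
      IntermediateField.subset_adjoin _ _ (Or.inr (Or.inl (Or.inr ⟨q, rfl⟩)))
    have hz' : ∀ s, s ∉ S₁ ∪ S₂ → z s ∈ K := fun s hs =>
      IntermediateField.subset_adjoin _ _ (Or.inl ⟨s, hs, rfl⟩)
    have hlam : ∀ r, r ≠ r₀ → (a r₀)⁻¹ * a r ∈ K := fun r h => by
      by_cases h0 : a r = 0
      · rw [h0, mul_zero]; exact zero_mem K
      · exact IntermediateField.subset_adjoin _ _ (Or.inr (Or.inr ⟨r, by simp [R, h, h0], rfl⟩))
    intro s hs
    rcases Finset.mem_union.1 hs with hs | hs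
    · obtain ⟨i, -, rfl⟩ := Finset.mem_image.1 hs
      exact m₁ K hb (fun i q hq => hz' _ (by simp [S₁, S₂, hq.symm])) i
    obtain ⟨p, hp, rfl⟩ := Finset.mem_image.1 hs
    have hp : p ≠ c := Finset.ne_of_mem_erase hp
    have e : ξ p = N r₀ p ⬝ᵥ b +
        ∑ r ∈ Finset.univ.erase r₀, (a r₀)⁻¹ * a r * (N r p ⬝ᵥ b) := by
      have e1 : ξ p = ∑ r, (a r₀)⁻¹ * a r * (N r p ⬝ᵥ b) := by
        simp only [ξ, Matrix.sum_mulVec, Matrix.smul_mulVec, Pi.smul_apply, Finset.sum_apply,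
          smul_eq_mul, Finset.mul_sum, mul_assoc]
        rfl
      rw [e1, ← Finset.add_sum_erase _ _ (Finset.mem_univ r₀), inv_mul_cancel₀ hr₀, one_mul]
    have h1 : N r₀ p ⬝ᵥ b ∈ K := by
      rw [← sub_eq_iff_eq_add.2 e]
      refine sub_mem (hξ p) (sum_mem fun r hr => ?_)
      have hr : r ≠ r₀ := Finset.ne_of_mem_erase hr
      refine mul_mem (hlam r hr) (sum_mem fun q _ => mul_mem (sub_mem ?_ ?_) (hb q))
      · exact hz' _ (by simp [S₁, S₂, hr.symm])
      · exact hz' _ (by simp [S₁, S₂, hr.symm])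
    have h2 : N r₀ p c ∈ K := lin_mem K (N r₀ p) b c hc hb (fun q hq => sub_mem
      (hz' _ (by simp [S₁, S₂, hq.symm])) (hz' _ (by simp [S₁, S₂, hp.symm]))) h1
    have h3 : z (Sum.inr (r₀, c, p)) ∈ K := hz' _ (by simp [S₁, S₂, hp.symm])
    have := add_mem h2 h3
    simpa [N] using this)
  rw [c₂] at key
  have hR : R.card ≤ j := by
    refine (Finset.card_filter_le _ _).trans ?_
    simp
  refine ⟨fun h0 => ?_, fun q => key.2 (hT.trans ?_) _ (Or.inl (Or.inl ⟨q, rfl⟩))⟩
  · have h1 : j + n ≤ n + R.card := by exact_mod_cast key.1.trans hT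
    have h2 : Fin.last j ≠ r₀ := fun h => hr₀ (h ▸ h0)
    have h3 : R ⊆ (Finset.univ.erase r₀).erase (Fin.last j) := fun r hr => by
      have hr := Finset.mem_filter.1 hr
      exact Finset.mem_erase.2 ⟨fun h => hr.2 (h ▸ h0), hr.1⟩
    have h4 := Finset.card_le_card h3
    have h5 : Fin.last j ∈ Finset.univ.erase r₀ := by simp [h2]
    have h6 := Finset.card_erase_add_one h5
    have h7 : (Finset.univ.erase r₀).card = j := by simp
    omega
  · exact_mod_cast (by omega : n + R.card ≤ j + n)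

end Pool.Agent.Lib.LF
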