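import Pool.Agent.Lib.LF.B_TRS

/-! Gluing of local connections by a partition of unity. -/

open scoped Classical Topology ContDiff Matrix
open Set Filter Metric

noncomputable section

namespace Pool.Agent.Lib.LF

open Pool.Agent.Lib.SV (E)
open Pool.Agent.Lib.HS32

namespace GLU

variable {m : ℕ}

theorem trn_congr {ψ ψ' : E m → E m} {z : E m} (h : ψ =ᶠ[𝓝 z] ψ') (a : Fin m → Mat m) :
    trn ψ z a = trn ψ' z a := by
  funext k
  rw [trn, trn, TRS.jm_congr h, dM_congr (S := jm ψ) (T := jm ψ')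
    (h.eventually_nhds.mono fun w hw => TRS.jm_congr hw)]

/-- the change of coordinates is affine -/
theorem trn_sum {ι : Type} [Fintype ι] (ψ : E m → E m) (z : E m) (c : ι → ℝ) (hc : ∑ i, c i = 1)
    (t : ι → Fin m → Mat m) : trn ψ z (∑ i, c i • t i) = ∑ i, c i • trn ψ z (t i) := by
  funext k
  simp only [trn, Finset.sum_apply, Pi.smul_apply, smul_add, Finset.sum_add_distrib,
    ← Finset.sum_smul, hc, one_smul]
  congr 1
  simp only [Finset.smul_sum]
  rw [Finset.sum_comm, Finset.mul_sum, Finset.sum_mul]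
  refine Finset.sum_congr rfl fun i _ => ?_
  rw [← Matrix.smul_mul, ← Matrix.mul_smul, Finset.smul_sum]
  simp only [smul_comm (c i)]

variable {M : Mf m}

theorem trn_ch {d e e' : M.Ch} (hd : d ∈ M.C) (he : e ∈ M.C) (he' : e' ∈ M.C) {x : M.X}
    (h0 : x ∈ d.source) (h : x ∈ e.source) (h' : x ∈ e'.source) (a : Fin m → Mat m) :
    trn (d ∘ e'.symm) (e' x) a = trn (e ∘ e'.symm) (e' x) (trn (d ∘ e.symm) (e x) a) := by
  obtain ⟨h1, -, -, h2, -⟩ := (mTR m M).2.1 e he e' he' x h h'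
  obtain ⟨h3, h4, -⟩ := (mTR m M).2.1 d hd e he x h0 h
  have e1 : (e ∘ e'.symm) (e' x) = e x := congrArg e (e'.left_inv h')
  rw [← e1] at h3 ⊢
  rw [← TRS.trn_comp h1 _ h3 (by rw [e1]; exact h4)]
  exact trn_congr (h2.mono fun w hw => (congrArg d hw.2.2.2.2.1).symm) a

end GLU

open GLU in
theorem bGLU : St_GLU := by
  intro m M _ H K _ hK hT hL
  choose d hd hx B hB using hL
  let O : M.X → Set M.X := fun x =>
    {y | y ∈ (d x).source ∧ SmC (B x) (d x y) ∧ B x (d x y) ∈ K (d x) (d x y)}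
  have hO : ∀ x, O x ∈ 𝓝 x := fun x =>
    Filter.Eventually.and ((d x).open_source.mem_nhds (hx x))
      (((d x).continuousAt (hx x)).eventually (hB x))
  obtain ⟨V, hV⟩ := (mCOV m M).2.1 M.C O Mf.sub_all hO
  choose p hp using fun a => (hV a).2
  let L : Fin V.r → Set M.X := fun a => (V.e a).symm '' closedBall (V.c a) (2 * V.ρ a)
  have h24 : ∀ a, closedBall (V.c a) (2 * V.ρ a) ⊆ closedBall (V.c a) (4 * V.ρ a) := fun a =>
    closedBall_subset_closedBall (by linarith [V.pos a])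
  have hc : ∀ a, IsClosed (L a) := fun a => ((isCompact_closedBall _ _).image_of_continuousOn
    ((V.e a).continuousOn_symm.mono ((h24 a).trans (V.sub a)))).isClosed
  have hLO : ∀ a, L a ⊆ O (p a) := fun a => (image_mono (h24 a)).trans (hp a)
  have hχ : ∀ a y, V.χ a y ≠ 0 → y ∈ L a := fun a y h =>
    ⟨V.e a y, ball_subset_closedBall (V.supp a y h).2, (V.e a).left_inv (V.supp a y h).1⟩
  have hχ2 : ∀ a y, V.χ a y ^ 2 ≠ 0 → y ∈ O (p a) := fun a y h =>
    hLO a (hχ a y fun h0 => h (by rw [h0]; norm_num))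
  refine ⟨fun e z => ∑ a, V.χ a (e.symm z) ^ 2 •
    trn (d (p a) ∘ e.symm) z (B (p a) (d (p a) (e.symm z))), ⟨?_, ?_⟩, ?_⟩
  · refine Mf.allOn_of_source fun e he y hy k => ?_
    simp only [Finset.sum_apply, Pi.smul_apply]
    refine SmM.sum fun a _ => ?_
    by_cases h : y ∈ L a
    · obtain ⟨h0, h1, -⟩ := hLO a h
      obtain ⟨h3, h4, -⟩ := (mTR m M).2.1 _ (hd (p a)) e he y h0 hy
      refine SmM.rsmul ((V.sm a e he _ (e.map_source hy)).pow 2) ?_
      exact (TRS.kur_tr h3 h4 (B (p a)) (fun w => trn (d (p a) ∘ e.symm) w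
        (B (p a) (d (p a) (e.symm w)))) (by rwa [Function.comp, e.left_inv hy])
        (Eventually.of_forall fun _ => rfl)).1 k
    · refine (smM_const 0).congr ?_
      have : ∀ᶠ w in 𝓝 (e y), e.symm w ∉ L a :=
        (e.continuousAt_symm (e.map_source hy)).eventually
          ((hc a).isOpen_compl.mem_nhds (by rwa [e.left_inv hy]))
      filter_upwards [this] with w hw
      rw [not_not.1 (mt (hχ a _) hw)]
      simp
  · intro e he e' he' x h h'
    simp only [e.left_inv h, e'.left_inv h']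
    rw [trn_sum _ _ _ (V.sum x)]
    refine Finset.sum_congr rfl fun a _ => ?_
    by_cases h0 : V.χ a x ^ 2 = 0
    · rw [h0, zero_smul, zero_smul]
    · rw [trn_ch (hd _) he he' (hχ2 a x h0).1 h h']
  · refine Mf.allOn_of_source fun e he y hy => ?_
    simp only [e.left_inv hy]
    rw [← finsum_eq_sum_of_fintype]
    refine (hK e _).finsum_mem (fun a => sq_nonneg _)
      (by rw [finsum_eq_sum_of_fintype, V.sum]) fun a h0 => ?_
    exact hT _ (hd _) e he y (hχ2 a y h0).1 hy _ (hχ2 a y h0).2.2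

end Pool.Agent.Lib.LF
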