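import Pool.Agent.Lib.LF.B_TRS

/-! The vector fields dual to the pull-backs of forms. -/

open scoped Classical Topology ContDiff ComplexOrder Matrix
open Set Complex Filter

noncomputable section

namespace Pool.Agent.Lib.LF

open Pool.Agent.Lib.SV (E)
open Pool.Agent.Lib.HS32

namespace HAM

open TRS

variable {m : ℕ} {ι : Type} [Fintype ι] {z : E m}

/-- a map and its Jacobian matrix, to second order at one point -/
structure Dat (u : E m → ι → ℂ) (B : E m → Matrix ι (Fin m) ℂ) (z : E m) : Prop where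
  hu : ∀ l, DifferentiableAt ℂ (fun w => u w l) z
  hB : ∀ l q, DifferentiableAt ℂ (fun w => B w l q) z
  du : ∀ l k, dz k (fun w => u w l) z = B z l k
  sym : ∀ l q k, dz k (fun w => B w l q) z = dz q (fun w => B w l k) z

variable {u : E m → ι → ℂ} {B : E m → Matrix ι (Fin m) ℂ}

theorem Dat.lin (h : Dat u B z) (N : Matrix ι ι ℂ) (l : ι) :
    DifferentiableAt ℂ (fun w => (N *ᵥ u w) l) z := by
  simp only [Matrix.mulVec, dotProduct]
  exact DifferentiableAt.fun_sum fun a _ => (h.hu a).const_mul _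

theorem Dat.phi (h : Dat u B z) (N : Matrix ι ι ℂ) (q : Fin m) :
    DifferentiableAt ℂ (fun w => ((N *ᵥ u w) ᵥ* B w) q) z := by
  simp only [Matrix.vecMul, dotProduct]
  exact DifferentiableAt.fun_sum fun a _ => (h.lin N a).fun_mul (h.hB a q)

/-- the symmetric part of the derivative of the form -/
def sy (f : ι → ℂ) (B : E m → Matrix ι (Fin m) ℂ) (z : E m) : Mat m :=
  Matrix.of fun q k => ∑ l, f l * dz k (fun w => B w l q) z

theorem Dat.jm_phi (h : Dat u B z) (N : Matrix ι ι ℂ) :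
    jm (fun w => (N *ᵥ u w) ᵥ* B w) z = (B z)ᵀ * (N * B z) + sy (N *ᵥ u z) B z := by
  ext q k
  rw [jm_eq (h.phi N), Matrix.add_apply, Matrix.mul_apply, sy, Matrix.of_apply,
    ← Finset.sum_add_distrib]
  simp only [Matrix.vecMul, dotProduct]
  rw [dz_sum fun a _ => rd ((h.lin N a).fun_mul (h.hB a q))]
  refine Finset.sum_congr rfl fun l _ => ?_
  rw [dz_mul (rd (h.lin N l)) (rd (h.hB l q)), Matrix.transpose_apply, mul_comm (B z l q)]
  congr 2
  simp only [Matrix.mulVec, dotProduct, Matrix.mul_apply]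
  rw [dz_sum fun a _ => rd ((h.hu a).const_mul _)]
  exact Finset.sum_congr rfl fun a _ => by rw [dz_const_mul _ (rd (h.hu a)), h.du]

theorem Dat.sy_sym (h : Dat u B z) (f : ι → ℂ) (Y : E m) : Y ᵥ* sy f B z = sy f B z *ᵥ Y := by
  funext q
  simp only [Matrix.vecMul, Matrix.mulVec, dotProduct, sy, Matrix.of_apply]
  refine Finset.sum_congr rfl fun k _ => ?_
  rw [mul_comm]
  congr 1
  exact Finset.sum_congr rfl fun l _ => by rw [h.sym]

/-- the derivative of a product of a matrix and a vector -/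
theorem dz_mulVec {κ : Type} {T : E m → Matrix κ (Fin m) ℂ} {Y : E m → E m}
    (hT : ∀ l q, DifferentiableAt ℂ (fun w => T w l q) z)
    (hY : ∀ q, DifferentiableAt ℂ (fun w => Y w q) z) (l : κ) (q : Fin m) :
    dz q (fun w => (T w *ᵥ Y w) l) z =
      ∑ k, dz q (fun w => T w l k) z * Y z k + (T z * jm Y z) l q := by
  simp only [Matrix.mulVec, dotProduct, Matrix.mul_apply]
  rw [dz_sum fun a _ => rd ((hT l a).fun_mul (hY a)), ← Finset.sum_add_distrib]
  exact Finset.sum_congr rfl fun a _ => by rw [dz_mul (rd (hT l a)) (rd (hY a)), jm_eq hY]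

theorem Dat.lie (h : Dat u B z) (N : Matrix ι ι ℂ) {Y : E m → E m}
    (hY : ∀ q, DifferentiableAt ℂ (fun w => Y w q) z) (e : ∀ᶠ w in 𝓝 z, B w *ᵥ Y w = 0) :
    jm (fun w => (N *ᵥ u w) ᵥ* B w) z *ᵥ Y z + ((N *ᵥ u z) ᵥ* B z) ᵥ* jm Y z = 0 := by
  have e1 : ∀ l q, (B z * jm Y z) l q = -∑ k, dz q (fun w => B w l k) z * Y z k := by
    intro l q
    have := dz_mulVec h.hB hY l q
    rw [dz_congr (g := fun _ => 0) (e.mono fun w hw => congrFun hw l), dz_const] at this
    linear_combination -this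
  rw [h.jm_phi, Matrix.add_mulVec, ← Matrix.mulVec_mulVec, ← Matrix.mulVec_mulVec,
    e.self_of_nhds, Matrix.mulVec_zero, Matrix.mulVec_zero, zero_add, Matrix.vecMul_vecMul]
  funext q
  simp only [Pi.add_apply, Matrix.vecMul, dotProduct, e1, Pi.zero_apply]
  rw [Matrix.mulVec, dotProduct]
  simp only [sy, Matrix.of_apply, Finset.sum_mul, mul_neg, Finset.sum_neg_distrib, Finset.mul_sum]
  rw [Finset.sum_comm, add_neg_eq_zero]
  exact Finset.sum_congr rfl fun l _ => Finset.sum_congr rfl fun k _ => by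
    rw [h.sym l q k, mul_assoc]

theorem Dat.br (h : Dat u B z) (N N' : Matrix ι ι ℂ) {S : E m → Mat m} {Y Y' : E m → E m}
    (hS : ∀ a b, DifferentiableAt ℂ (fun w => S w a b) z) (h0 : (S z).det ≠ 0)
    (sk : ∀ᶠ w in 𝓝 z, (S w)ᵀ = -S w)
    (cl : ∀ a b c, dM a S z b c + dM b S z c a + dM c S z a b = 0)
    (hY : ∀ q, DifferentiableAt ℂ (fun w => Y w q) z)
    (hY' : ∀ q, DifferentiableAt ℂ (fun w => Y' w q) z) (e : ∀ᶠ w in 𝓝 z, B w *ᵥ Y w = 0)
    (e' : B z *ᵥ Y' z = 0) (s : ∀ᶠ w in 𝓝 z, S w *ᵥ Y w = (N *ᵥ u w) ᵥ* B w)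
    (s' : ∀ᶠ w in 𝓝 z, S w *ᵥ Y' w = (N' *ᵥ u w) ᵥ* B w) :
    jm Y' z *ᵥ Y z = jm Y z *ᵥ Y' z := by
  have d : ∀ (N : Matrix ι ι ℂ) {Y : E m → E m}, (∀ q, DifferentiableAt ℂ (fun w => Y w q) z) →
      (∀ᶠ w in 𝓝 z, S w *ᵥ Y w = (N *ᵥ u w) ᵥ* B w) →
      S z * jm Y z = jm (fun w => (N *ᵥ u w) ᵥ* B w) z -
        Matrix.of fun a k => ∑ b, dM k S z a b * Y z b := by
    intro N Y hY s
    ext a k
    have := dz_mulVec hS hY a k
    rw [dz_congr (g := fun w => ((N *ᵥ u w) ᵥ* B w) a) (s.mono fun w hw => congrFun hw a),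
      ← jm_eq (h.phi N)] at this
    rw [Matrix.sub_apply, this, Matrix.of_apply]
    simp only [dM, Matrix.of_apply]
    ring
  have sk' : ∀ k a b, dM k S z a b = -dM k S z b a := by
    intro k a b
    simp only [dM, Matrix.of_apply]
    rw [← dz_neg]
    exact dz_congr (sk.mono fun w hw => congrFun₂ hw b a)
  have l := h.lie N' hY e
  rw [← s'.self_of_nhds, Matrix.vecMul_mulVec, sk.self_of_nhds, neg_mul, d N hY s,
    Matrix.vecMul_neg, add_neg_eq_zero] at l
  have i : Y' z ᵥ* jm (fun w => (N *ᵥ u w) ᵥ* B w) z =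
      jm (fun w => (N *ᵥ u w) ᵥ* B w) z *ᵥ Y' z := by
    rw [h.jm_phi, Matrix.add_mulVec, Matrix.vecMul_add, h.sy_sym, ← Matrix.mulVec_mulVec,
      ← Matrix.mulVec_mulVec, e', ← Matrix.vecMul_vecMul, Matrix.vecMul_transpose, e']
    simp only [Matrix.mulVec_zero, Matrix.zero_vecMul]
  have inj : Function.Injective (S z).mulVec :=
    Matrix.mulVec_injective_iff_isUnit.2 ((Matrix.isUnit_iff_isUnit_det _).2 h0.isUnit)
  apply inj
  rw [Matrix.mulVec_mulVec, Matrix.mulVec_mulVec, d N' hY' s', d N hY s, Matrix.sub_mulVec,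
    Matrix.sub_mulVec, l, Matrix.vecMul_sub, i, sub_sub, sub_right_inj]
  funext a
  simp only [Pi.add_apply, Matrix.vecMul, Matrix.mulVec, dotProduct, Matrix.of_apply,
    Finset.sum_mul, Finset.mul_sum]
  rw [Finset.sum_comm (f := fun k b => dM k S z a b * Y' z b * Y z k), ← Finset.sum_add_distrib]
  refine Finset.sum_congr rfl fun k _ => ?_
  rw [← Finset.sum_add_distrib]
  refine Finset.sum_congr rfl fun b _ => ?_
  have := cl a b k
  rw [sk' a b k, sk' b k a] at this
  linear_combination -(Y z b * Y' z k) * this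

theorem hol_inv {S : E m → Mat m} (hS : ∀ a b, HolN (fun w => S w a b) z) (h0 : (S z).det ≠ 0)
    (a b : Fin m) : DifferentiableAt ℂ (fun w => (S w)⁻¹ a b) z := by
  have hs : SmM S z := fun a b => ((mHOL m _ z).2.2 (hS a b)).1
  refine hol_of (hs.inv h0) (fun k => ?_) a b
  have : dMb k S z = 0 := by
    ext a b
    exact ((mHOL m _ z).1 (hs.diff a b)).1 (hS a b).self_of_nhds k
  rw [(((mCOF m _ z hs).2.2.2.2.1 h0).2 k).2, this]
  simp

theorem dat {n : ℕ} {M : Mf m} {p : M.X → E (n + 1)} {c : Fin (n + 1)} {e : M.Ch}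
    (h1 : HolN (aff p c ∘ e.symm) z) (h2 : ∀ l q, HolN (fun w => jb p c e w l q) z) :
    Dat (fun w => aff p c (e.symm w)) (jb p c e) z := by
  have hl : ∀ l, HolN (fun w => aff p c (e.symm w) l) z := fun l =>
    h1.mono fun w hw => differentiableAt_pi.1 hw l
  have du : ∀ᶠ w in 𝓝 z, ∀ l k, dz k (fun w => aff p c (e.symm w) l) w = jb p c e w l k := by
    filter_upwards [h1] with w hw l k
    refine ((mHOL m _ w).2.1 (differentiableAt_pi.1 hw l) k).trans ?_
    rw [jb, Matrix.of_apply, fderiv_pi (differentiableAt_pi.1 hw)]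
    rfl
  refine ⟨fun l => (hl l).self_of_nhds, fun l q => (h2 l q).self_of_nhds, du.self_of_nhds,
    fun l q k => ?_⟩
  rw [dz_congr (g := dz q fun w => aff p c (e.symm w) l) (du.mono fun w hw => (hw l q).symm),
    dz_congr (f := fun w => jb p c e w l k) (g := dz k fun w => aff p c (e.symm w) l)
      (du.mono fun w hw => (hw l k).symm)]
  exact dz_dz ((mHOL m _ z).2.2 (hl l)).1 k q

end HAM

open HAM TRS in
theorem bHAM (hK : St_KX) : St_HAM := by
  intro m n M S p N N' c hF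
  obtain ⟨-, -, -, hA, hO⟩ := hK m M _ p hF.pm
  have D : M.All fun e z => p (e.symm z) c ≠ 0 →
      Dat (fun w => aff p c (e.symm w)) (jb p c e) z := fun e he z hz hc =>
    dat (hA e he z hz c hc).2.1 (hA e he z hz c hc).2.2.1
  have dY : ∀ N, M.All fun e z => p (e.symm z) c ≠ 0 →
      ∀ q, DifferentiableAt ℂ (fun w => ham S p N c e w q) z := by
    intro N e he z hz hc q
    simp only [ham, Matrix.mulVec, dotProduct]
    exact DifferentiableAt.fun_sum fun a _ =>
      (hol_inv (hF.sy.hol e he z hz) (hF.sy.det e he z hz) q a).mul ((D e he z hz hc).phi N a)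
  have vert : ∀ N, M.All fun e z => p (e.symm z) c ≠ 0 → jb p c e z *ᵥ ham S p N c e z = 0 := by
    intro N e he z hz hc
    rw [ham, cov, ← Matrix.mulVec_transpose, Matrix.mulVec_mulVec, Matrix.mulVec_mulVec,
      hF.lg e he z hz c hc, Matrix.zero_mulVec]
  have du : ∀ N, M.All fun e z => S e z *ᵥ ham S p N c e z = cov p N c e z := by
    intro N e he z hz
    rw [ham, Matrix.mulVec_mulVec, Matrix.mul_nonsing_inv _ (hF.sy.det e he z hz).isUnit,
      Matrix.one_mulVec]
  refine ⟨fun e he z hz hc => ?_, fun e he e' he' x hx hx' hc => ?_⟩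
  · have ev : ∀ᶠ w in 𝓝 z, w ∈ e.target ∧ p (e.symm w) c ≠ 0 :=
      (e.open_target.eventually_mem hz).and (hA e he z hz c hc).1
    have d := D e he z hz hc
    refine ⟨ev.mono fun w hw => differentiableAt_pi.2 (dY N e he w hw.1 hw.2),
      ev.mono fun w hw => differentiableAt_pi.2 ((D e he w hw.1 hw.2).phi N),
      vert N e he z hz hc, ?_, ?_, ?_, fun c' hN hc' => ?_⟩
    · rw [cov, ← Matrix.dotProduct_mulVec, vert N e he z hz hc, dotProduct_zero]
    · exact d.br N N' (fun a b => (hF.sy.hol e he z hz a b).self_of_nhds) (hF.sy.det e he z hz)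
        (ev.mono fun w hw => hF.sy.skew e he w hw.1) (hF.sy.cl e he z hz) (dY N e he z hz hc)
        (dY N' e he z hz hc) (ev.mono fun w hw => vert N e he w hw.1 hw.2) (vert N' e he z hz hc)
        (ev.mono fun w hw => du N e he w hw.1) (ev.mono fun w hw => du N' e he w hw.1)
    · exact d.lie N' (dY N e he z hz hc) (ev.mono fun w hw => vert N e he w hw.1 hw.2)
    · have e1 : aff p c' (e.symm z) = (aff p c (e.symm z) c')⁻¹ • aff p c (e.symm z) := by
        simp only [aff, Pi.smul_apply, smul_eq_mul, smul_smul]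
        congr 1
        field_simp
      have e2 : (N *ᵥ aff p c (e.symm z)) ⬝ᵥ aff p c (e.symm z) = 0 := by
        have : (N *ᵥ aff p c (e.symm z)) ⬝ᵥ aff p c (e.symm z) =
            -((N *ᵥ aff p c (e.symm z)) ⬝ᵥ aff p c (e.symm z)) := by
          conv_lhs => rw [dotProduct_comm, Matrix.dotProduct_mulVec, ← Matrix.mulVec_transpose, hN,
            Matrix.neg_mulVec, neg_dotProduct]
        linear_combination this / 2
      rw [ham, ham, ← Matrix.mulVec_smul, cov, cov, (hA e he z hz c hc).2.2.2.2.2.2.1 c' hc', e1]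
      congr 1
      rw [Matrix.mulVec_smul, Matrix.smul_vecMul, Matrix.vecMul_sub, Matrix.vecMul_smul,
        Matrix.vecMul_smul, Matrix.vecMul_vecMulVec, e2, zero_smul, smul_zero, sub_zero, smul_smul,
        sq]
  · have e1 : cov p N c e' (e' x) = cov p N c e (e x) ᵥ* M.J e e' x := by
      rw [cov, cov, e.left_inv hx, e'.left_inv hx', hO e he e' he' x hx hx' c hc,
        Matrix.vecMul_vecMul]
    refine ⟨?_, e1⟩
    have h0 := hF.sy.det e' he' _ (e'.map_source hx')
    have e2 := hF.sy.cmp e he e' he' x hx hx'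
    have hJ : (M.J e e' x).det ≠ 0 := by
      intro h
      apply h0
      rw [e2, Matrix.det_mul, h, mul_zero]
    have hJ' : IsUnit (M.J e e' x)ᵀ.det := by
      rw [Matrix.det_transpose]
      exact hJ.isUnit
    rw [ham, ham, e1, e2, ← Matrix.mulVec_transpose, Matrix.mulVec_mulVec, Matrix.mulVec_mulVec,
      Matrix.mul_inv_rev, Matrix.mul_inv_rev, Matrix.mul_nonsing_inv_cancel_left _ _ hJ.isUnit,
      Matrix.nonsing_inv_mul_cancel_right _ _ hJ']

end Pool.Agent.Lib.LF
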