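import Pool.Agent.Lib.LF.ABlue

/-! Project lf: independence of the fields. -/

open scoped Topology Matrix
open Set Filter

namespace Pool.Agent.Lib.LF

open Pool.Agent.Lib.SV (E)
open Pool.Agent.Lib.HS32

namespace IDP

theorem skew_dot {n : ℕ} {τ : Type} [Fintype τ] {N : τ → Mat n} (h : Skw N) (a : τ → ℂ) (v : E n) :
    ((∑ r, a r • N r) *ᵥ v) ⬝ᵥ v = 0 := by
  have e : (∑ r, a r • N r)ᵀ = -∑ r, a r • N r := by
    rw [Matrix.transpose_sum, ← Finset.sum_neg_distrib]
    exact Finset.sum_congr rfl fun r _ => by rw [Matrix.transpose_smul, h r, smul_neg]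
  have t : ((∑ r, a r • N r) *ᵥ v) ⬝ᵥ v = -(((∑ r, a r • N r) *ᵥ v) ⬝ᵥ v) := by
    conv_lhs => rw [dotProduct_comm, Matrix.dotProduct_mulVec, ← Matrix.mulVec_transpose, e,
      Matrix.neg_mulVec, neg_dotProduct]
  linear_combination (1 / 2 : ℂ) * t

theorem sum_cov {m n : ℕ} {M : Mf m} {τ : Type} [Fintype τ] (p : M.X → E (n + 1))
    (N : τ → Mat (n + 1)) (a : τ → ℂ) (c : Fin (n + 1)) (e : M.Ch) (z : E m) :
    ∑ r, a r • cov p (N r) c e z =
      (p (e.symm z) c)⁻¹ • (((∑ r, a r • N r) *ᵥ p (e.symm z)) ᵥ* jb p c e z) := by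
  simp only [cov, aff, Matrix.sum_mulVec, Matrix.smul_mulVec, Matrix.mulVec_smul,
    Matrix.sum_vecMul, Matrix.smul_vecMul, Finset.smul_sum]
  exact Finset.sum_congr rfl fun r _ => smul_comm _ _ _

end IDP

theorem bIDP (hK : St_KX) (hH : St_HAM) : St_IDP := by
  intro m n M S p τ _ N hF hN
  obtain ⟨-, -, -, k, -⟩ := hK m M _ p hF.pm
  have h1 : M.All fun e z => ∀ c, p (e.symm z) c ≠ 0 →
      (Indp p N (e.symm z) ↔ LinearIndependent ℂ fun r => cov p (N r) c e z) := by
    intro e he z hz c hc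
    rw [Fintype.linearIndependent_iff]
    refine forall_congr' fun a => imp_congr ?_ funext_iff
    rw [IDP.sum_cov, smul_eq_zero_iff_right (inv_ne_zero hc)]
    refine ⟨fun h => ?_, (k e he z hz c hc).2.2.2.2.2.2.2 _ (IDP.skew_dot hN a _)⟩
    have := h.2 e he (e.map_target hz) c hc
    rwa [e.right_inv hz] at this
  refine ⟨isOpen_iff_mem_nhds.2 fun x hx => ?_, fun e he z hz c hc => ⟨h1 e he z hz c hc, ?_⟩⟩
  · obtain ⟨e, he, hs⟩ := M.cov x
    obtain ⟨c, hc⟩ := Function.ne_iff.1 (hF.pm.ne x)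
    have hz := e.map_source hs
    rw [← e.left_inv hs] at hc
    have hx' : Indp p N (e.symm (e x)) := by rwa [e.left_inv hs]
    have ct : ContinuousAt (fun w r => cov p (N r) c e w) (e x) := continuousAt_pi.2 fun r =>
      ((hH m n M S p (N r) (N r) c hF).1 e he _ hz hc).2.1.self_of_nhds.continuousAt
    have ev : ∀ᶠ w in 𝓝 (e x), Indp p N (e.symm w) := by
      filter_upwards [ct.eventually (isOpen_setOfPred_linearIndependent.mem_nhds
        ((h1 e he _ hz c hc).1 hx')), (k e he _ hz c hc).1, e.open_target.mem_nhds hz]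
        with w a b d using (h1 e he w d c b).2 a
    filter_upwards [(e.continuousAt hs).eventually ev, e.open_source.mem_nhds hs] with y a b
    rwa [e.left_inv b] at a
  · refine (h1 e he z hz c hc).trans
      (LinearMap.linearIndependent_iff (Matrix.mulVecLin (S e z)⁻¹) ?_).symm
    exact LinearMap.ker_eq_bot.2 (Matrix.mulVec_injective_of_isUnit
      ((Matrix.isUnit_iff_isUnit_det _).2 (Matrix.isUnit_nonsing_inv_det _
        (hF.sy.det e he z hz).isUnit)))

end Pool.Agent.Lib.LF
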