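import Pool.Agent.Lib.LF.ABlue

/-! Project lf: invariant forms. -/

open scoped Classical Topology ContDiff Matrix
open Set Complex Filter MvPolynomial MeasureTheory

noncomputable section

namespace Pool.Agent.Lib.LF

open Pool.Agent.Lib.SV (E)
open Pool.Agent.Lib.HS32

namespace INV

variable {m : ℕ} {M : Mf m} {e e' : M.Ch} {x : M.X}

/-- A relation on overlaps holds near a point, in coordinates. -/
theorem ov_ev {F : Type} {Φ : M.Fam F} {r : (E m → E m) → Mat m → E m → F → F}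
    (h : M.Ov fun e e' x => Φ e' (e' x) = r (e ∘ e'.symm) (M.J e e' x) (e' x) (Φ e (e x)))
    (he : e ∈ M.C) (he' : e' ∈ M.C) (hx : x ∈ e.source) (hx' : x ∈ e'.source) :
    ∀ᶠ w in 𝓝 (e' x), Φ e' w =
      r (e ∘ e'.symm) (jm (e ∘ e'.symm) w) w (Φ e ((e ∘ e'.symm) w)) := by
  filter_upwards [((mTR m M).2.1 e he e' he' x hx hx').2.2.2.1] with w hw
  have := h e he e' he' _ hw.2.1 hw.2.2.1
  beta_reduce at this
  rwa [hw.2.2.2.2.2.1, hw.2.2.2.2.2.2] at this

theorem map_inv {J : Mat m} (h : J.det ≠ 0) :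
    J⁻¹.map (C : ℂ →+* Frm m) * J.map C = 1 ∧ J.map (C : ℂ →+* Frm m) * J⁻¹.map C = 1 := by
  rw [← Matrix.map_mul, ← Matrix.map_mul, Matrix.nonsing_inv_mul _ h.isUnit,
    Matrix.mul_nonsing_inv _ h.isUnit, Matrix.map_one _ (map_zero _) (map_one _)]
  exact ⟨rfl, rfl⟩

theorem one_add {J : Mat m} (h : J.det ≠ 0) (φ : Frm m →ₐ[ℂ] Frm m)
    (R : Matrix (Fin m) (Fin m) (Frm m)) :
    1 + J⁻¹.map C * R.map φ * J.map C = J⁻¹.map C * (1 + R).map φ * J.map C := by
  rw [Matrix.map_add _ (map_add φ), Matrix.map_one _ (map_zero φ) (map_one φ), Matrix.mul_add,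
    Matrix.add_mul, Matrix.mul_one, (map_inv h).1]

theorem det_conj {J : Mat m} (h : J.det ≠ 0) (φ : Frm m →ₐ[ℂ] Frm m)
    (R : Matrix (Fin m) (Fin m) (Frm m)) :
    (J⁻¹.map C * R.map φ * J.map C).det = φ R.det := by
  rw [Matrix.det_mul_comm, ← Matrix.mul_assoc, (map_inv h).2, Matrix.one_mul]
  exact (φ.map_det R).symm

end INV

open INV in
theorem bINV (hC : St_CLS) (hT : St_TOP) (hR : St_TRS) : St_INV := by
  intro m M
  refine ⟨fun H hH => ⟨fun e he z hz a => (hH.sm e he z hz).gam (hH.det_ne e he z hz) a,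
    fun e he e' he' x hx hx' => funext fun k => ?_⟩, fun A hA => ?_,
    fun T h => ⟨fun e he z hz => ?_, fun e he e' he' x hx hx' => ?_⟩,
    ⟨{ carrier := {Φ | FInv M Φ}
       mul_mem' := fun {Φ Ψ} h h' => ⟨fun e he z hz => ?_, fun e he e' he' x hx hx' => ?_⟩
       add_mem' := fun {Φ Ψ} h h' => ⟨fun e he z hz => ?_, fun e he e' he' x hx hx' => ?_⟩
       algebraMap_mem' := fun c => ⟨fun e he z hz => (hC m z).2.1 (C c),
        fun e he e' he' x hx hx' => ((sub _ _).commutes c).symm⟩ }, fun _ => Iff.rfl⟩⟩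
  · obtain ⟨h1, h2, -⟩ := (mTR m M).2.1 e he e' he' x hx hx'
    have e1 : (e ∘ e'.symm) (e' x) = e x := by simp [e'.left_inv hx']
    have := ((mPB m _ _ (H e) (H e') h1 h2 (e1 ▸ hH.sm.at he hx)
      (ov_ev (r := fun _ J _ T => Jᴴ * T * J) hH.cmp he he' hx hx')).2.2
        (e1 ▸ hH.det_ne.at he hx)).1 k
    rw [e1] at this
    exact this
  · have h1 : M.All fun e z => ∀ p q, Cls (fun w => cu (kur (A e) w) p q) z :=
      fun e he z hz p q => by
        obtain ⟨h2, h3⟩ := (hC m z).2.2.2.2.2.1 (fun w a => -A e w a p q)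
          (contDiffAt_pi.2 fun a => (hA.sm e he z hz a p q).neg)
        have := (hC m z).2.2.2.1 _ h2 h3
        simp only [dbr, dzb_neg] at this
        exact this
    have h2 : M.Ov fun e e' x => cu (kur (A e') (e' x)) = (M.J e e' x)⁻¹.map C *
        (cu (kur (A e) (e x))).map (sub (M.J e e' x)ᴴ (M.J e e' x)) * (M.J e e' x).map C :=
      fun e he e' he' x hx hx' => by
        obtain ⟨h1, h2, -⟩ := (mTR m M).2.1 e he e' he' x hx hx'
        have e1 : (e ∘ e'.symm) (e' x) = e x := by simp [e'.left_inv hx']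
        have := ((hR m _ _ h1 h2).2.2 (A e) (A e') (e1 ▸ hA.sm.at he hx)
          (ov_ev (r := fun ψ _ w a => trn ψ w a) hA.cmp he he' hx hx')).2
        rw [e1] at this
        beta_reduce
        rw [show kur (A e') (e' x) = _ from funext fun k => funext fun l => this k l]
        exact (hT m).2.2.2.2.2.2.2 _ _ _ _ _
    refine ⟨⟨fun e he z hz => ?_, fun e he e' he' x hx hx' => ?_⟩, h1, h2⟩
    · obtain ⟨S, hS⟩ := (hC m z).1
      refine ((hC m z).2.2.2.2.2.2.1 (fun w => 1 + cu (kur (A e) w)) fun p q => ?_).1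
      exact (hS _).1 (S.add_mem ((hS _).2 ((hC m z).2.1 ((1 : Matrix _ _ _) p q)))
        ((hS _).2 (h1 e he z hz p q)))
    · have h0 := ((mTR m M).2.1 e he e' he' x hx hx').2.1
      simp only [chf]
      rw [h2 e he e' he' x hx hx', one_add h0, det_conj h0]
  · exact (hC m z).2.2.2.1 _ (h.sm e he z hz)
      ((hC m z).2.2.2.2.1 _ (h.sm e he z hz) (h.herm.ev he hz) (h.cl e he z hz))
  · beta_reduce
    rw [h.cmp e he e' he' x hx hx', (hT m).2.2.1]
  · obtain ⟨S, hS⟩ := (hC m z).1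
    exact (hS _).1 (S.mul_mem ((hS _).2 (h.cls e he z hz)) ((hS _).2 (h'.cls e he z hz)))
  · simp only [Pi.mul_apply, map_mul]
    rw [h.cmp e he e' he' x hx hx', h'.cmp e he e' he' x hx hx']
  · obtain ⟨S, hS⟩ := (hC m z).1
    exact (hS _).1 (S.add_mem ((hS _).2 (h.cls e he z hz)) ((hS _).2 (h'.cls e he z hz)))
  · simp only [Pi.add_apply, map_add]
    rw [h.cmp e he e' he' x hx hx', h'.cmp e he e' he' x hx hx']

end Pool.Agent.Lib.LF
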