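import Pool.Agent.Lib.LF.ABlue
import Pool.Agent.Lib.LF.B_DIM

/-! Project lf: isotropy bounds the transcendence degree. -/

open scoped Classical Matrix
open Set

noncomputable section

namespace Pool.Agent.Lib.LF

open Pool.Agent.Lib.MP_7fcda1_ag

namespace ISO

/-- An isotropic independent family has at most half the dimension. -/
theorem iso_card {K τ σ : Type} [Field K] [Fintype τ] [Fintype σ] (x y : τ → σ → K)
    (hs : ∀ r s, x r ⬝ᵥ y s = y r ⬝ᵥ x s)
    (hi : ∀ g : τ → K, (∀ l, ∑ r, g r * x r l = 0) → (∀ l, ∑ r, g r * y r l = 0) → ∀ r, g r = 0) :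
    Fintype.card τ ≤ Fintype.card σ := by
  let A : Matrix τ (σ ⊕ σ) K := Matrix.of fun r => Sum.elim (x r) (y r)
  let B : Matrix τ (σ ⊕ σ) K := Matrix.of fun r => Sum.elim (y r) (-x r)
  have hA : LinearIndependent K A.row := Fintype.linearIndependent_iff.2 fun g hg =>
    hi g (fun l => by simpa [A, Matrix.row] using congrFun hg (Sum.inl l))
      fun l => by simpa [A, Matrix.row] using congrFun hg (Sum.inr l)
  have hB : LinearIndependent K B.row := Fintype.linearIndependent_iff.2 fun g hg =>
    hi g (fun l => by simpa [B, Matrix.row] using congrFun hg (Sum.inr l))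
      fun l => by simpa [B, Matrix.row] using congrFun hg (Sum.inl l)
  have hAB : A * Bᵀ = 0 := by
    ext r s
    have := hs r s
    simp only [dotProduct] at this
    simp [Matrix.mul_apply, A, B, Fintype.sum_sum_type, this]
  have h := Matrix.rank_add_rank_le_card_of_mul_eq_zero hAB
  rw [Matrix.rank_transpose, hA.rank_matrix, hB.rank_matrix, Fintype.card_sum] at h
  omega

end ISO

theorem bISO' (hD : St_DIM) : St_ISO := by
  intro k n b ξ c hc h0 hδ
  let z : Fin (n + 1) ⊕ Fin (n + 1) → ℂ := Sum.elim b ξ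
  have hz : range b ∪ range ξ = range z := (Set.Sum.elim_range b ξ).symm
  obtain ⟨J, s, hs, hJ⟩ := Rk_basis (k := k) z
  rw [hz, hJ]
  by_contra hn
  have hle : ENat.card (Fin (n + 1)) ≤ ENat.card J := by
    rw [ENat.card_eq_coe_fintype_card, Fintype.card_fin, Nat.cast_succ]
    exact Order.add_one_le_of_lt (not_le.1 hn)
  obtain ⟨e⟩ : Nonempty (Fin (n + 1) ↪ J) := by
    have : Finite J := Finite.of_injective _ (Function.Injective.of_comp hs.injective)
    have := Fintype.ofFinite J
    refine Function.Embedding.nonempty_of_card_le ?_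
    rw [ENat.card_eq_coe_fintype_card, ENat.card_eq_coe_fintype_card] at hle
    exact_mod_cast hle
  choose D hDe using fun r : Fin (n + 1) =>
    (hD k ℂ (Fin (n + 1))).2.1 ((z ∘ s) ∘ e) (hs.comp e e.injective) (Pi.single r 1)
  have h1 : ∀ δ : Derivation k ℂ ℂ, δ (b c) = 0 := fun δ => by rw [hc, δ.map_one_eq_zero]
  have h2 : ∀ δ : Derivation k ℂ ℂ, ∑ l, δ (ξ l) * b l = 0 := fun δ => by
    have h3 := congrArg δ h0
    simp only [dotProduct, map_sum, Derivation.leibniz, map_zero, smul_eq_mul,
      Finset.sum_add_distrib] at h3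
    rw [hδ δ, zero_add] at h3
    simpa only [mul_comm] using h3
  have h4 : ∀ δ δ' : Derivation k ℂ ℂ,
      ∑ l, δ (b l) * δ' (ξ l) = -∑ l, ξ l * δ' (δ (b l)) := fun δ δ' => by
    have h3 := congrArg δ' (hδ δ)
    simp only [map_sum, Derivation.leibniz, map_zero, smul_eq_mul, Finset.sum_add_distrib] at h3
    linear_combination h3
  have h5 : ∀ δ δ' : Derivation k ℂ ℂ,
      ∑ l, δ (b l) * δ' (ξ l) = ∑ l, δ (ξ l) * δ' (b l) := fun δ δ' => by
    have h3 := hδ ⁅δ, δ'⁆
    simp only [Derivation.commutator_apply, mul_sub, Finset.sum_sub_distrib] at h3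
    have h6 := h4 δ' δ
    rw [h4 δ δ']
    simp only [mul_comm (δ (ξ _))]
    linear_combination h3 - h6
  have := ISO.iso_card (K := ℂ) (τ := Option (Fin (n + 1))) (σ := Fin (n + 1))
    (fun o => o.elim 0 fun r l => D r (b l)) (fun o => o.elim (Pi.single c 1) fun r l => D r (ξ l))
    ?_ ?_
  · simp at this
  · rintro (_ | r) (_ | r')
    · simp
    · simp [h1]
    · simp [h1]
    · exact h5 _ _
  · intro g hx hy
    simp only [Fintype.sum_option, Option.elim_none, Option.elim_some, Pi.zero_apply, mul_zero,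
      zero_add] at hx hy
    have hg : g none = 0 := by
      have h3 : ∑ l, (g none * (Pi.single c 1 : Fin (n + 1) → ℂ) l +
          ∑ r, g (some r) * D r (ξ l)) * b l = 0 :=
        Finset.sum_eq_zero fun l _ => by rw [hy l, zero_mul]
      simp only [add_mul, Finset.sum_add_distrib, Finset.sum_mul, mul_assoc] at h3
      rw [Finset.sum_comm] at h3
      simp only [← Finset.mul_sum, h2, mul_zero, Finset.sum_const_zero, add_zero] at h3
      simpa [Pi.single_apply, hc] using h3
    have hz' : ∀ i, ∑ r, g (some r) * D r (z i) = 0 := by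
      rintro (l | l)
      · exact hx l
      · simpa [hg, z] using hy l
    rintro (_ | r)
    · exact hg
    · have h3 := hz' (s (e r))
      have h6 : ∀ r', D r' (z (s (e r))) = (Pi.single r' 1 : Fin (n + 1) → ℂ) r := fun r' =>
        hDe r' r
      simpa [h6, Pi.single_apply] using h3

theorem bISO : St_ISO := bISO' bDIM

end Pool.Agent.Lib.LF
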