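import Pool.Agent.Lib.LF.ABlue

/-! Row KUR: consequences of the affine conditions for the curvature. -/

open scoped Classical Topology ContDiff Matrix
open Set Complex Filter

noncomputable section

namespace Pool.Agent.Lib.LF

open Pool.Agent.Lib.SV (E)
open Pool.Agent.Lib.HS32

namespace KUR

variable {m : ℕ} {z : E m}

theorem av_single (a : Fin m → Mat m) (k : Fin m) : av a (Pi.single k 1) = a k := by
  simp [av, Pi.single_apply]

theorem pa_mulVec (a : Fin m → Mat m) (V : E m → E m) (z u : E m) :
    pa a V z *ᵥ u = jm V z *ᵥ u + av a u *ᵥ V z := by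
  rw [pa, Matrix.add_mulVec, av, Matrix.sum_mulVec]
  congr 1
  funext p
  simp only [Matrix.mulVec, dotProduct, Matrix.of_apply, Finset.sum_apply, Matrix.smul_apply,
    smul_eq_mul, Finset.sum_mul]
  exact Finset.sum_congr rfl fun k _ => Finset.sum_congr rfl fun q _ => by ring

theorem bo_mulVec (a : Fin m → Mat m) (V : E m → E m) (z u : E m) :
    bo a V z *ᵥ u = jm V z *ᵥ u + av a (V z) *ᵥ u := by
  rw [bo, Matrix.add_mulVec, add_comm]

theorem cp_mulVec (a : Fin m → Mat m) (V : E m → E m) (z u : E m) :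
    cp a V z *ᵥ u = jm V z *ᵥ u - V z ᵥ* av a u := by
  rw [cp, Matrix.sub_mulVec, av, Matrix.vecMul_sum]
  congr 1
  funext p
  simp only [Matrix.mulVec, Matrix.vecMul, dotProduct, Matrix.of_apply, Finset.sum_apply,
    Matrix.smul_apply, smul_eq_mul, Finset.sum_mul]
  exact Finset.sum_congr rfl fun k _ => Finset.sum_congr rfl fun q _ => by ring

theorem tri (a : Fin m → Mat m) (ψ U V : E m) :
    ψ ⬝ᵥ (av a U *ᵥ V) = ∑ p, ∑ q, ∑ k, ψ p * U k * V q * a k p q := by
  simp only [av, Matrix.mulVec, dotProduct, Matrix.sum_apply, Matrix.smul_apply, smul_eq_mul,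
    Finset.sum_mul, Finset.mul_sum]
  exact Finset.sum_congr rfl fun p _ => Finset.sum_congr rfl fun q _ =>
    Finset.sum_congr rfl fun k _ => by ring

/-- The conjugate derivative of an identity that is affine in the connection. -/
theorem master {A : E m → Fin m → Mat m} (hA : SmC A z) {h : E m → ℂ} {ψ U V : E m → E m}
    (hh : DifferentiableAt ℂ h z) (hψ : DifferentiableAt ℂ ψ z) (hU : DifferentiableAt ℂ U z)
    (hV : DifferentiableAt ℂ V z)
    (e : ∀ᶠ w in 𝓝 z, h w + ψ w ⬝ᵥ (av (A w) (U w) *ᵥ V w) = 0) (b : Fin m) :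
    ψ z ⬝ᵥ (av (fun a => kur A z a b) (U z) *ᵥ V z) = 0 := by
  have hg : ∀ p q k, DifferentiableAt ℂ (fun w => ψ w p * U w k * V w q) z := fun p q k =>
    ((differentiableAt_pi.1 hψ p).fun_mul (differentiableAt_pi.1 hU k)).fun_mul
      (differentiableAt_pi.1 hV q)
  have ha : ∀ p q k, DifferentiableAt ℝ (fun w => A w k p q) z := fun p q k => (hA k).diff p q
  have h3 : ∀ p q k, DifferentiableAt ℝ (fun w => ψ w p * U w k * V w q * A w k p q) z :=
    fun p q k => ((hg p q k).restrictScalars ℝ).fun_mul (ha p q k)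
  have h2 : ∀ p q, DifferentiableAt ℝ (fun w => ∑ k, ψ w p * U w k * V w q * A w k p q) z :=
    fun p q => DifferentiableAt.fun_sum fun k _ => h3 p q k
  have h1 : ∀ p, DifferentiableAt ℝ (fun w => ∑ q, ∑ k, ψ w p * U w k * V w q * A w k p q) z :=
    fun p => DifferentiableAt.fun_sum fun q _ => h2 p q
  have e0 : dzb b (fun w => h w + ∑ p, ∑ q, ∑ k, ψ w p * U w k * V w q * A w k p q) z = 0 := by
    rw [← dzb_const (j := b) (z := z) 0]
    refine dzb_congr (e.mono fun w hw => ?_)
    rw [tri] at hw
    exact hw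
  rw [dzb_add (hh.restrictScalars ℝ) (DifferentiableAt.fun_sum fun p _ => h1 p),
    BHOL.dzb_zero hh, zero_add, dzb_sum fun p _ => h1 p] at e0
  rw [tri, ← neg_eq_zero, ← e0, ← Finset.sum_neg_distrib]
  refine Finset.sum_congr rfl fun p _ => ?_
  rw [dzb_sum fun q _ => h2 p q, ← Finset.sum_neg_distrib]
  refine Finset.sum_congr rfl fun q _ => ?_
  rw [dzb_sum fun k _ => h3 p q k, ← Finset.sum_neg_distrib]
  refine Finset.sum_congr rfl fun k _ => ?_
  rw [dzb_mul ((hg p q k).restrictScalars ℝ) (ha p q k), BHOL.dzb_zero (hg p q k)]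
  simp [kur]

theorem hol_jm {V : E m → E m} (h : HolN V z) (p q : Fin m) : HolN (fun w => jm V w p q) z :=
  (PN.holN_fderiv h q).mono fun _ hw => differentiableAt_pi.1 hw p

section mat

variable {α β γ : Type} [Fintype α] [Fintype β] [Fintype γ]

/-- All entries are differentiable. -/
def DM (T : E m → Matrix α β ℂ) (z : E m) : Prop :=
  ∀ i j, DifferentiableAt ℂ (fun w => T w i j) z

omit [Fintype α] [Fintype β] in
theorem DM.const (T : Matrix α β ℂ) : DM (fun _ : E m => T) z :=
  fun _ _ => differentiableAt_const _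

omit [Fintype α] [Fintype γ] in
theorem DM.mul {T : E m → Matrix α β ℂ} {S : E m → Matrix β γ ℂ} (hT : DM T z) (hS : DM S z) :
    DM (fun w => T w * S w) z := fun i j => by
  simp only [Matrix.mul_apply]
  exact DifferentiableAt.fun_sum fun a _ => (hT i a).fun_mul (hS a j)

omit [Fintype α] [Fintype β] in
theorem DM.add {T S : E m → Matrix α β ℂ} (hT : DM T z) (hS : DM S z) :
    DM (fun w => T w + S w) z := fun i j => (hT i j).fun_add (hS i j)

omit [Fintype α] [Fintype β] in
theorem DM.sub {T S : E m → Matrix α β ℂ} (hT : DM T z) (hS : DM S z) :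
    DM (fun w => T w - S w) z := fun i j => (hT i j).fun_sub (hS i j)

omit [Fintype α] [Fintype β] in
theorem DM.smul {T : E m → Matrix α β ℂ} {f : E m → ℂ} (hf : DifferentiableAt ℂ f z)
    (hT : DM T z) : DM (fun w => f w • T w) z := fun i j => hf.fun_mul (hT i j)

theorem DM.det [DecidableEq α] {T : E m → Matrix α α ℂ} (h : DM T z) :
    DifferentiableAt ℂ (fun w => (T w).det) z := by
  simp only [Matrix.det_apply']
  exact DifferentiableAt.fun_sum fun σ _ =>
    (HasFDerivAt.finsetProd fun a _ => (h (σ a) a).hasFDerivAt).differentiableAt.const_mul _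

theorem DM.adj [DecidableEq α] {T : E m → Matrix α α ℂ} (h : DM T z) :
    DM (fun w => (T w).adjugate) z := fun i j => by
  simp only [Matrix.adjugate_apply]
  refine DM.det (T := fun w => (T w).updateRow j (Pi.single i 1)) fun a b => ?_
  simp only [Matrix.updateRow_apply]
  split_ifs
  · exact differentiableAt_const _
  · exact h a b

theorem DM.inv [DecidableEq α] {T : E m → Matrix α α ℂ} (h : DM T z) (h0 : (T z).det ≠ 0) :
    DM (fun w => (T w)⁻¹) z := by
  simp only [Matrix.inv_def, Ring.inverse_eq_inv']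
  exact DM.smul (h.det.fun_inv h0) h.adj

omit [Fintype α] in
theorem DM.mulVec {T : E m → Matrix α β ℂ} {v : E m → β → ℂ} (hT : DM T z)
    (hv : ∀ j, DifferentiableAt ℂ (fun w => v w j) z) (i : α) :
    DifferentiableAt ℂ (fun w => (T w *ᵥ v w) i) z := by
  simp only [Matrix.mulVec, dotProduct]
  exact DifferentiableAt.fun_sum fun a _ => (hT i a).fun_mul (hv a)

theorem diff_dot {u v : E m → β → ℂ} (hu : ∀ j, DifferentiableAt ℂ (fun w => u w j) z)
    (hv : ∀ j, DifferentiableAt ℂ (fun w => v w j) z) :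
    DifferentiableAt ℂ (fun w => u w ⬝ᵥ v w) z := by
  simp only [dotProduct]
  exact DifferentiableAt.fun_sum fun a _ => (hu a).fun_mul (hv a)

/-- Independent columns have a left inverse. -/
theorem exists_left [DecidableEq β] (Z : β → α → ℂ) (h : LinearIndependent ℂ Z) :
    ∃ L : Matrix β α ℂ, L * (Matrix.of Z)ᵀ = 1 := by
  have hi : Function.Injective (Matrix.of Z)ᵀ.mulVec := Matrix.mulVec_injective_iff.2 h
  obtain ⟨g, hg⟩ := LinearMap.exists_leftInverse_of_injective (Matrix.toLin' (Matrix.of Z)ᵀ)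
    (LinearMap.ker_eq_bot.2 hi)
  refine ⟨LinearMap.toMatrix' g, ?_⟩
  have := congrArg LinearMap.toMatrix' hg
  rwa [LinearMap.toMatrix'_comp, LinearMap.toMatrix'_toLin', LinearMap.toMatrix'_id] at this

omit [Fintype α] in
theorem mem_span_iff (Z : β → α → ℂ) (v : α → ℂ) :
    v ∈ Submodule.span ℂ (range Z) ↔ ∃ c, (Matrix.of Z)ᵀ *ᵥ c = v := by
  rw [Submodule.mem_span_range_iff_exists_fun]
  refine exists_congr fun c => ?_
  have : (Matrix.of Z)ᵀ *ᵥ c = ∑ i, c i • Z i := by
    funext p
    simp [Matrix.mulVec, dotProduct, mul_comm]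
  rw [this]

end mat

/-- A holomorphic family of matrices that kills a frame and detects its span at `z`. -/
theorem ann {τ : Type} [Fintype τ] (Z : τ → E m → E m) (hZ : ∀ s, DifferentiableAt ℂ (Z s) z)
    (hi : LinearIndependent ℂ fun s => Z s z) : ∃ Ψ : E m → Mat m, DM Ψ z ∧
      (∀ w, ∀ u ∈ Submodule.span ℂ (range fun s => Z s w), Ψ w *ᵥ u = 0) ∧
      ∀ u, Ψ z *ᵥ u = 0 → u ∈ Submodule.span ℂ (range fun s => Z s z) := by
  obtain ⟨L, hL⟩ := exists_left _ hi
  set W : E m → Matrix (Fin m) τ ℂ := fun w => (Matrix.of fun s => Z s w)ᵀ with hW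
  have hWd : DM W z := fun p s => differentiableAt_pi.1 (hZ s) p
  have hL' : L * W z = 1 := hL
  have hG : DM (fun w => L * W w) z := (DM.const L).mul hWd
  refine ⟨fun w => (L * W w).det • (1 : Mat m) - W w * (L * W w).adjugate * L,
    (DM.smul hG.det (DM.const 1)).sub ((hWd.mul hG.adj).mul (DM.const L)), ?_, ?_⟩
  · intro w u hu
    obtain ⟨c, rfl⟩ := (mem_span_iff _ _).1 hu
    change (_ - _) *ᵥ (W w *ᵥ c) = 0
    rw [Matrix.mulVec_mulVec, Matrix.sub_mul, Matrix.mul_assoc, Matrix.mul_assoc,
      Matrix.adjugate_mul]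
    simp
  · intro u hu
    refine (mem_span_iff _ _).2 ⟨L *ᵥ u, ?_⟩
    change W z *ᵥ (L *ᵥ u) = u
    beta_reduce at hu
    rw [hL', Matrix.det_one, Matrix.adjugate_one, one_smul, Matrix.mul_one, Matrix.sub_mulVec,
      Matrix.one_mulVec, sub_eq_zero] at hu
    rw [Matrix.mulVec_mulVec, ← hu]

end KUR

open KUR in
theorem bKUR : St_KUR := by
  intro m A z V hA hV
  have hV0 : DifferentiableAt ℂ V z := hV.self_of_nhds
  have hj : DM (jm V) z := fun p q => (hol_jm hV p q).self_of_nhds
  refine ⟨fun e a b => ?_, fun e a b => ?_, fun V' hV' e b => ?_, fun τ _ Z hZ hi => ?_⟩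
  · funext p
    have := master hA (h := fun w => jm V w p a) (ψ := fun _ => Pi.single p 1)
      (U := fun _ => Pi.single a 1) (hj p a) (differentiableAt_const _)
      (differentiableAt_const _) hV0 (e.mono fun w hw => by
        have h1 := congrFun (pa_mulVec (A w) V w (Pi.single a 1)) p
        rw [hw] at h1
        simpa using h1.symm) b
    simpa [av_single] using this
  · funext q
    have := master hA (h := fun w => -jm V w q a) (ψ := V) (U := fun _ => Pi.single a 1)
      (V := fun _ => Pi.single q 1) (hj q a).fun_neg hV0 (differentiableAt_const _)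
      (differentiableAt_const _) (e.mono fun w hw => by
        have h1 := congrFun (cp_mulVec (A w) V w (Pi.single a 1)) q
        rw [hw] at h1
        rw [Matrix.dotProduct_mulVec]
        simp only [Matrix.zero_apply, Pi.sub_apply, Matrix.mulVec_single_one,
          Matrix.col_apply] at h1
        simp only [dotProduct_single, mul_one]
        linear_combination h1) b
    rw [Matrix.dotProduct_mulVec, av_single] at this
    simpa using this
  · funext p
    have hV'0 : DifferentiableAt ℂ V' z := hV'.self_of_nhds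
    have := master hA (h := fun w => (jm V w *ᵥ V' w) p) (ψ := fun _ => Pi.single p 1)
      (U := V) (V := V') (hj.mulVec (differentiableAt_pi.1 hV'0) p) (differentiableAt_const _)
      hV0 hV'0 (e.mono fun w hw => by
        have h1 := congrFun (bo_mulVec (A w) V w (V' w)) p
        rw [hw] at h1
        simpa using h1.symm) b
    simpa using this
  · obtain ⟨Ψ, hΨ, h1, h2⟩ := ann Z (fun s => (hZ s).self_of_nhds) hi
    refine ⟨fun e a b => h2 _ ?_, fun e b u => h2 _ ?_⟩
    · funext p
      have := master hA (h := fun w => Ψ w p ⬝ᵥ (jm V w *ᵥ Pi.single a 1)) (ψ := fun w => Ψ w p)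
        (U := fun _ => Pi.single a 1) (V := V)
        (diff_dot (hΨ p) (hj.mulVec fun _ => differentiableAt_const _))
        (differentiableAt_pi.2 (hΨ p)) (differentiableAt_const _) hV0 (e.mono fun w hw => by
          have h3 := congrFun (h1 w _ (hw (Pi.single a 1))) p
          rw [pa_mulVec] at h3
          rw [← dotProduct_add]
          exact h3) b
      rw [av_single] at this
      exact this
    · funext p
      exact master hA (h := fun w => Ψ w p ⬝ᵥ (jm V w *ᵥ u)) (ψ := fun w => Ψ w p)
        (U := V) (V := fun _ => u)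
        (diff_dot (hΨ p) (hj.mulVec fun _ => differentiableAt_const _))
        (differentiableAt_pi.2 (hΨ p)) hV0 (differentiableAt_const _) (e.mono fun w hw => by
          have h3 := congrFun (h1 w _ (hw u)) p
          rw [bo_mulVec] at h3
          rw [← dotProduct_add]
          exact h3) b

end Pool.Agent.Lib.LF
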