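import Pool.Agent.Lib.LF.ABlue

/-! Project lf, block KX: the affine coordinates of a holomorphic map to a projective space. -/

open scoped Classical Topology ContDiff ComplexOrder Matrix Manifold
open Set Complex Filter MvPolynomial MeasureTheory

noncomputable section

namespace Pool.Agent.Lib.LF

open Pool.Agent.Lib.SV (E nsq Cells)
open Pool.Agent.Lib.HS32 Pool.Agent.Lib.MP_7fcda1_ag
open Pool.Agent.Lib.PN (Prj PMap fs Pol)

namespace KX

variable {m : ℕ} {M : Mf m} {ι : Type} [Fintype ι] {p : M.X → ι → ℂ} {e e' : M.Ch} {z : E m}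
  {c c' : ι}

theorem kap_smul (b : ι → ℂ) {a : ℂ} (ha : a ≠ 0) : kap (a • b) = kap b := by
  funext i j
  have h1 : (normSq a : ℂ) = a * star a := (mul_conj a).symm
  have h2 : star a ≠ 0 := star_ne_zero.2 ha
  simp only [kap, PN.nsq_smul, Pi.smul_apply, smul_eq_mul, star_mul', ofReal_mul, h1]
  rw [show a * b i * (star a * star (b j)) = a * star a * (b i * star (b j)) by ring,
    mul_div_mul_left _ _ (mul_ne_zero ha h2)]

theorem kap_inj {b b' : ι → ℂ} (hb' : b' ≠ 0) (h : kap b' = kap b) : ∃ a : ℂ, b' = a • b := by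
  obtain ⟨j, hj⟩ := Function.ne_iff.1 hb'
  have h1 : star (b' j) ≠ 0 := star_ne_zero.2 hj
  have h2 : (nsq b' : ℂ) ≠ 0 := ofReal_ne_zero.2 (PN.nsq_pos hb').ne'
  refine ⟨star (b j) / nsq b * nsq b' / star (b' j), funext fun i => ?_⟩
  have h3 : b' i * star (b' j) / nsq b' = b i * star (b j) / nsq b := congrFun (congrFun h i) j
  rw [div_eq_iff h2] at h3
  rw [Pi.smul_apply, smul_eq_mul, div_mul_eq_mul_div, eq_div_iff h1, h3]
  ring

theorem kap_cont {b : ι → ℂ} (hb : b ≠ 0) : ContinuousAt (kap : (ι → ℂ) → ι → ι → ℂ) b := by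
  refine continuousAt_pi.2 fun i => continuousAt_pi.2 fun j => ?_
  refine ContinuousAt.div ?_ ?_ (ofReal_ne_zero.2 (PN.nsq_pos hb).ne')
  · fun_prop
  · exact (continuous_ofReal.comp (continuous_finsetSum _ fun l _ =>
      continuous_normSq.comp (continuous_apply l))).continuousAt

omit [Fintype ι] in
theorem aff_of_smul {X : Type} {y : X → ι → ℂ} {x : X} {a : ℂ} {v : ι → ℂ} (ha : a ≠ 0)
    (h : v = a • y x) : (v c)⁻¹ • v = aff y c x := by
  rw [h, aff, Pi.smul_apply, smul_eq_mul, mul_inv, smul_smul, mul_right_comm, inv_mul_cancel₀ ha,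
    one_mul]

theorem loc (hp : PMap M p) (he : e ∈ M.C) (hz : z ∈ e.target) (hc : p (e.symm z) c ≠ 0) :
    (∀ᶠ w in 𝓝 z, p (e.symm w) c ≠ 0) ∧ PN.Lift M p e z (aff p c ∘ e.symm) := by
  obtain ⟨F, hF⟩ := hp.ex e he z hz
  have h0 : F z c ≠ 0 := by
    obtain ⟨a, ha, h⟩ := hF.ev.self_of_nhds
    rw [h]
    exact mul_ne_zero ha hc
  have h1 : ∀ᶠ w in 𝓝 z, F w c ≠ 0 :=
    (PN.holN_apply hF.hol c).self_of_nhds.continuousAt.eventually_ne h0
  have h2 : ∀ᶠ w in 𝓝 z, p (e.symm w) c ≠ 0 := by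
    filter_upwards [hF.ev, h1] with w ⟨a, _, h⟩ b
    rw [h] at b
    exact right_ne_zero_of_mul b
  have h3 : (aff p c ∘ e.symm) =ᶠ[𝓝 z] fun w => (F w c)⁻¹ • F w := by
    filter_upwards [hF.ev] with w ⟨a, ha, h⟩ using (aff_of_smul ha h).symm
  refine ⟨h2, he, hz, ?_, h2.mono fun w hw => ⟨_, inv_ne_zero hw, rfl⟩⟩
  filter_upwards [(hF.norm h0).1.hol, h3.eventually_nhds] with w a b
  exact a.congr_of_eventuallyEq b

theorem pull {x : M.X} (hx : x ∈ e.source) {P : M.X → Prop} (h : ∀ᶠ w in 𝓝 (e x), P (e.symm w)) :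
    ∀ᶠ y in 𝓝 x, P y := by
  filter_upwards [(e.continuousAt hx).eventually h, e.open_source.mem_nhds hx] with y a b
  rwa [e.left_inv b] at a

theorem op (hp : PMap M p) (c : ι) : IsOpen {x | p x c ≠ 0} := by
  refine isOpen_iff_mem_nhds.2 fun x hx => ?_
  obtain ⟨e, he, hxe⟩ := M.cov x
  exact pull hxe (loc hp he (e.map_source hxe) (by rwa [e.left_inv hxe])).1

theorem cont (hp : PMap M p) : Continuous fun x => kap (p x) := by
  refine continuous_iff_continuousAt.2 fun x => ?_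
  obtain ⟨e, he, hx⟩ := M.cov x
  obtain ⟨F, hF⟩ := hp.ex e he _ (e.map_source hx)
  have h1 : ContinuousAt (fun y => kap (F (e y))) x :=
    ContinuousAt.comp (f := fun y => F (e y)) (kap_cont (hF.ne hp.ne))
      (ContinuousAt.comp (f := e) hF.hol.self_of_nhds.continuousAt (e.continuousAt hx))
  refine h1.congr ?_
  filter_upwards [(e.continuousAt hx).eventually hF.ev, e.open_source.mem_nhds hx]
    with y ⟨a, ha, h⟩ b
  rw [h, kap_smul _ ha, e.left_inv b]

theorem fd (p : M.X → ι → ℂ) (c : ι) (e : M.Ch) (z v : E m) :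
    fderiv ℂ (aff p c ∘ e.symm) z v = jb p c e z *ᵥ v := by
  funext l
  conv_lhs => rw [← Finset.univ_sum_single v]
  simp only [map_sum, Finset.sum_apply, Matrix.mulVec, dotProduct, jb, Matrix.of_apply]
  refine Finset.sum_congr rfl fun q _ => ?_
  rw [show Pi.single q (v q) = v q • (Pi.single q 1 : E m) by
    rw [← Pi.single_smul, smul_eq_mul, mul_one], map_smul, Pi.smul_apply, smul_eq_mul, mul_comm]

theorem row (hp : PMap M p) (he : e ∈ M.C) (hz : z ∈ e.target) (hc : p (e.symm z) c ≠ 0) :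
    jb p c e z c = 0 := by
  obtain ⟨h1, h2⟩ := loc hp he hz hc
  funext q
  have h3 : (fun w => (aff p c ∘ e.symm) w c) =ᶠ[𝓝 z] fun _ => (1 : ℂ) :=
    h1.mono fun w hw => inv_mul_cancel₀ hw
  have h4 := h3.fderiv_eq (𝕜 := ℂ)
  rw [fderiv_apply h2.hol.self_of_nhds] at h4
  simpa [jb] using congrArg (fun L => L (Pi.single q 1)) h4

theorem chg (hp : PMap M p) (he : e ∈ M.C) (hz : z ∈ e.target) (hc : p (e.symm z) c ≠ 0)
    (hc' : p (e.symm z) c' ≠ 0) : jb p c' e z = (aff p c (e.symm z) c')⁻¹ • jb p c e z -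
      (aff p c (e.symm z) c')⁻¹ ^ 2 • Matrix.vecMulVec (aff p c (e.symm z)) (jb p c e z c') := by
  obtain ⟨-, h2⟩ := loc hp he hz hc
  have h3 : (aff p c' ∘ e.symm) =ᶠ[𝓝 z]
      fun w => ((aff p c ∘ e.symm) w c')⁻¹ • (aff p c ∘ e.symm) w := by
    filter_upwards [h2.ev] with w ⟨a, ha, h⟩ using (aff_of_smul ha h).symm
  have h4 := h2.hol.self_of_nhds.hasFDerivAt
  have h5 : (aff p c ∘ e.symm) z c' ≠ 0 := mul_ne_zero (inv_ne_zero hc) hc'
  have h6 := ((hasDerivAt_inv h5).comp_hasFDerivAt z (hasFDerivAt_pi'.1 h4 c')).smul h4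
  ext l q
  have h7 : fderiv ℂ (aff p c' ∘ e.symm) z = _ := h3.fderiv_eq.trans h6.fderiv
  simp only [jb, Matrix.of_apply, h7, Matrix.sub_apply, Matrix.smul_apply, Matrix.vecMulVec_apply]
  simp
  ring

theorem ov (hp : PMap M p) (he : e ∈ M.C) (he' : e' ∈ M.C) {x : M.X} (hx : x ∈ e.source)
    (hx' : x ∈ e'.source) (hc : p x c ≠ 0) :
    jb p c e' (e' x) = jb p c e (e x) * M.J e e' x := by
  obtain ⟨h1, -, -, h2, -⟩ := (mTR m M).2.1 e he e' he' x hx hx'
  have h3 : (aff p c ∘ e'.symm) =ᶠ[𝓝 (e' x)] (aff p c ∘ e.symm) ∘ (e ∘ e'.symm) := by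
    filter_upwards [h2] with w hw
    simp only [Function.comp_apply, hw.2.2.2.2.1]
  have h4 : (e ∘ e'.symm) (e' x) = e x := by rw [Function.comp_apply, e'.left_inv hx']
  have h5 : DifferentiableAt ℂ (aff p c ∘ e.symm) ((e ∘ e'.symm) (e' x)) := by
    rw [h4]
    exact (loc hp he (e.map_source hx) (by rwa [e.left_inv hx])).2.hol.self_of_nhds
  ext l q
  rw [jb, Matrix.of_apply, h3.fderiv_eq, fderiv_comp _ h5 h1.self_of_nhds, h4,
    ContinuousLinearMap.comp_apply, fd]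
  rfl

end KX

open KX in
theorem bKX : St_KX := by
  intro m M ι _ p hp
  refine ⟨op hp, ⟨cont hp, fun x x' => ⟨kap_inj (hp.ne _), fun ⟨a, h⟩ => ?_⟩⟩,
    fun b a ha => kap_smul b ha, fun e he z hz c hc => ?_,
    fun e he e' he' x hx hx' c hc => ov hp he he' hx hx' hc⟩
  · rw [h, kap_smul]
    rintro rfl
    exact hp.ne x' (by rw [h, zero_smul])
  obtain ⟨h1, h2⟩ := loc hp he hz hc
  refine ⟨h1, h2.hol, fun l q => PN.holN_apply (PN.holN_fderiv h2.hol q) l, fd p c e z,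
    row hp he hz hc, h2, fun c' hc' => chg hp he hz hc hc', fun ξ h3 h4 => ⟨h3, ?_⟩⟩
  intro e' he' hx c' hc'
  rw [ov hp he he' (e.map_target hz) hx hc', e.right_inv hz, chg hp he hz hc hc',
    ← Matrix.vecMul_vecMul, Matrix.vecMul_sub, Matrix.vecMul_smul, Matrix.vecMul_smul, h4,
    Matrix.vecMul_vecMulVec, aff, dotProduct_smul, h3]
  simp

end Pool.Agent.Lib.LF
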