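import Pool.Agent.Lib.LF.B_EXP

/-! The exponential of an endomorphism; descent of solutions of linear equations. -/

open scoped Classical PowerSeries
open Set

noncomputable section

namespace Pool.Agent.Lib.LF

namespace LAM

lemma exp_mem {W : Type} [AddCommGroup W] [Module ℂ W] [FiniteDimensional ℂ W]
    (D : W →ₗ[ℂ] W) (f : W →ₗ[ℂ] ℂ) (w : W) :
    (PowerSeries.mk fun n => (n.factorial : ℂ)⁻¹ * f ((D ^ n) w)) ∈ Lam := by
  have hw : w ∈ ⨆ ν, Module.End.maxGenEigenspace D ν := by
    rw [Module.End.iSup_maxGenEigenspace_eq_top]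
    exact Submodule.mem_top
  induction hw using Submodule.iSup_induction' with
  | mem ν w hw =>
    obtain ⟨k, hk⟩ := (Module.End.mem_maxGenEigenspace D ν w).1 hw
    obtain ⟨N, rfl⟩ : ∃ N : Module.End ℂ W, D = ν • (1 : Module.End ℂ W) + N :=
      ⟨D - ν • 1, (add_sub_cancel _ _).symm⟩
    rw [add_sub_cancel_left] at hk
    have h1 : (PowerSeries.mk fun n => (n.factorial : ℂ)⁻¹ * f ((N ^ n) w)) =
        ∑ j ∈ Finset.range k, ((j.factorial : ℂ)⁻¹ * f ((N ^ j) w)) • PowerSeries.X ^ j := by
      ext n
      simp only [PowerSeries.coeff_mk, map_sum, map_smul, PowerSeries.coeff_X_pow, smul_eq_mul,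
        mul_ite, mul_one, mul_zero, Finset.sum_ite_eq, Finset.mem_range]
      split_ifs with h
      · rfl
      · rw [show n = n - k + k by omega, pow_add, Module.End.mul_apply, hk, map_zero, map_zero,
          mul_zero]
    have h2 : (PowerSeries.mk fun n => (n.factorial : ℂ)⁻¹ *
        f (((ν • (1 : Module.End ℂ W) + N) ^ n) w)) =
        ex ℂ ν * PowerSeries.mk fun n => (n.factorial : ℂ)⁻¹ * f ((N ^ n) w) := by
      ext n
      rw [PowerSeries.coeff_mk, PowerSeries.coeff_mul,
        ((Commute.one_left N).smul_left ν).add_pow', LinearMap.sum_apply, map_sum, Finset.mul_sum]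
      refine Finset.sum_congr rfl fun p hp => ?_
      have h3 : ((n.choose p.1 * p.1.factorial * p.2.factorial : ℕ) : ℂ) = n.factorial := by
        rw [← Finset.HasAntidiagonal.mem_antidiagonal.1 hp, Nat.choose_symm_add,
          Nat.add_choose_mul_factorial_mul_factorial]
      have h4 : ((p.1.factorial : ℕ) : ℂ) ≠ 0 := Nat.cast_ne_zero.2 p.1.factorial_ne_zero
      have h5 : ((p.2.factorial : ℕ) : ℂ) ≠ 0 := Nat.cast_ne_zero.2 p.2.factorial_ne_zero
      have h6 : ((n.factorial : ℕ) : ℂ) ≠ 0 := Nat.cast_ne_zero.2 n.factorial_ne_zero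
      rw [ex, PowerSeries.coeff_mk, PowerSeries.coeff_mk, smul_pow, one_pow, smul_mul_assoc,
        one_mul, LinearMap.smul_apply, LinearMap.smul_apply, map_nsmul, map_smul, nsmul_eq_mul,
        smul_eq_mul, Algebra.algebraMap_self_apply]
      push_cast at h3
      field_simp
      rw [← h3]
      ring
    rw [h2, h1, Finset.mul_sum]
    refine Submodule.sum_mem _ fun j _ => ?_
    rw [mul_smul_comm]
    exact Submodule.smul_mem _ _ (Submodule.subset_span ⟨j, ν, mul_comm _ _⟩)
  | zero =>
    have : (PowerSeries.mk fun n => (n.factorial : ℂ)⁻¹ * f ((D ^ n) 0)) = 0 := by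
      ext n
      simp
    rw [this]
    exact zero_mem _
  | add u v _ _ hu hv =>
    have : (PowerSeries.mk fun n => (n.factorial : ℂ)⁻¹ * f ((D ^ n) (u + v))) =
        (PowerSeries.mk fun n => (n.factorial : ℂ)⁻¹ * f ((D ^ n) u)) +
          PowerSeries.mk fun n => (n.factorial : ℂ)⁻¹ * f ((D ^ n) v) := by
      ext n
      simp only [map_add, PowerSeries.coeff_mk, mul_add]
    rw [this]
    exact add_mem hu hv

lemma mul_mem {f g : ℂ⟦X⟧} (hf : f ∈ Lam) (hg : g ∈ Lam) : f * g ∈ Lam := by
  induction hf, hg using Submodule.span_induction₂ with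
  | mem_mem f g hf hg =>
    obtain ⟨a, ν, rfl⟩ := hf
    obtain ⟨b, κ, rfl⟩ := hg
    exact Submodule.subset_span ⟨a + b, ν + κ, by rw [pow_add, EXP.ex_add]; ring⟩
  | zero_left => rw [zero_mul]; exact zero_mem _
  | zero_right => rw [mul_zero]; exact zero_mem _
  | add_left f f' g _ _ _ h h' => rw [add_mul]; exact add_mem h h'
  | add_right f g g' _ _ _ h h' => rw [mul_add]; exact add_mem h h'
  | smul_left c f g _ _ h => rw [smul_mul_assoc]; exact Submodule.smul_mem _ c h
  | smul_right c f g _ _ h => rw [mul_smul_comm]; exact Submodule.smul_mem _ c h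

/-- Descent along an extension of fields. -/
lemma desc_field {K F J : Type} [Field K] [Field F] [Algebra K F] [Fintype J] (u L : J → F)
    (h : ∑ j, L j * u j ≠ 0) : ∃ x : J → K, (∀ s : J → K, ∑ j, algebraMap K F (s j) * u j = 0 →
      ∑ j, s j * x j = 0) ∧ ∑ j, L j * algebraMap K F (x j) ≠ 0 := by
  let B := Module.Basis.ofVectorSpace K F
  by_contra hc
  push Not at hc
  have h1 : ∀ t, ∑ j, L j * algebraMap K F (B.repr (u j) t) = 0 := fun t =>
    hc (fun j => B.repr (u j) t) fun s hs => by
      have h2 := congrArg (fun z => B.repr z t) hs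
      simpa only [← Algebra.smul_def, map_sum, map_smul, Finsupp.finsetSum_apply,
        Finsupp.smul_apply, smul_eq_mul, map_zero, Finsupp.zero_apply] using h2
  have h3 : ∀ j, u j = ∑ t ∈ Finset.univ.biUnion fun j => (B.repr (u j)).support,
      algebraMap K F (B.repr (u j) t) * B t := fun j => by
    conv_lhs => rw [← B.linearCombination_repr (u j), Finsupp.linearCombination_apply]
    rw [Finsupp.sum_of_support_subset _
      (Finset.subset_biUnion_of_mem (fun j => (B.repr (u j)).support) (Finset.mem_univ j))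
      (fun t a => a • B t) fun t _ => zero_smul _ _]
    exact Finset.sum_congr rfl fun t _ => Algebra.smul_def _ _
  refine h ?_
  rw [Finset.sum_congr rfl fun j _ => by rw [h3 j, Finset.mul_sum], Finset.sum_comm]
  refine Finset.sum_eq_zero fun t _ => ?_
  simp only [← mul_assoc]
  rw [← Finset.sum_mul, h1 t, zero_mul]

lemma desc {A B B' J : Type} [CommRing A] [CommRing B] [CommRing B'] [IsDomain B']
    [Fintype J] (i : A →+* B) (i' : B →+* B') (S : Set (J → A)) (c : J → B) (L : J → B')
    (hi : Function.Injective i) (hi' : Function.Injective i')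
    (hS : ∀ s ∈ S, ∑ j, i (s j) * c j = 0) (hL : ∑ j, L j * i' (c j) ≠ 0) :
    ∃ c' : J → A, (∀ s ∈ S, ∑ j, s j * c' j = 0) ∧ ∑ j, L j * i' (i (c' j)) ≠ 0 := by
  have : IsDomain A := (hi'.comp hi).isDomain (i'.comp i)
  have hκ : Function.Injective (algebraMap B' (FractionRing B')) := IsFractionRing.injective _ _
  have hφ : Function.Injective ((algebraMap B' (FractionRing B')).comp (i'.comp i)) :=
    hκ.comp (hi'.comp hi)
  let _ : Algebra (FractionRing A) (FractionRing B') := (IsFractionRing.lift hφ).toAlgebra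
  have h1 : ∀ a : A, algebraMap (FractionRing A) (FractionRing B')
      (algebraMap A (FractionRing A) a) = algebraMap B' (FractionRing B') (i' (i a)) := fun a =>
    IsFractionRing.lift_algebraMap hφ a
  obtain ⟨x, hx1, hx2⟩ := desc_field (K := FractionRing A)
    (fun j => algebraMap B' (FractionRing B') (i' (c j)))
    (fun j => algebraMap B' (FractionRing B') (L j)) (fun h => hL (hκ (by
      rw [map_sum, map_zero, ← h]
      exact Finset.sum_congr rfl fun j _ => map_mul _ _ _)))
  obtain ⟨b, hb⟩ := IsLocalization.exist_integer_multiples_of_finite (nonZeroDivisors A) x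
  choose c' hc' using hb
  have hb0 : algebraMap A (FractionRing A) b ≠ 0 :=
    IsFractionRing.to_map_ne_zero_of_mem_nonZeroDivisors b.2
  refine ⟨c', fun s hs => IsFractionRing.injective A (FractionRing A) ?_, fun h => hx2 ?_⟩
  · have h2 := hx1 (fun j => algebraMap A (FractionRing A) (s j)) (by
      simp only [h1, ← map_mul]
      rw [← map_sum, ← map_sum, hS s hs, map_zero, map_zero])
    rw [map_sum, map_zero]
    simp only [map_mul, hc', Algebra.smul_def, mul_left_comm _ (algebraMap A (FractionRing A) b)]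
    rw [← Finset.mul_sum, h2, mul_zero]
  · have h2 := congrArg (algebraMap B' (FractionRing B')) h
    rw [map_sum, map_zero] at h2
    simp only [map_mul, ← h1, hc', Algebra.smul_def, mul_left_comm _
      (algebraMap (FractionRing A) (FractionRing B') (algebraMap A (FractionRing A) b))] at h2
    rw [← Finset.mul_sum] at h2
    exact (mul_eq_zero.1 h2).resolve_left ((map_ne_zero _).2 hb0)

end LAM

theorem bLAM : St_LAM :=
  ⟨fun _ _ _ _ D f w => LAM.exp_mem D f w,
    ⟨Submodule.subset_span ⟨0, 0, by rw [pow_zero, EXP.ex_zero, one_mul]⟩,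
      fun _ hf _ hg => LAM.mul_mem hf hg⟩,
    fun _ _ _ _ _ _ _ _ _ _ i i' S c L hi hi' hS hL => LAM.desc i i' S c L hi hi' hS hL⟩

end Pool.Agent.Lib.LF
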