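import Pool.Agent.Lib.LF.BBlue

/-! The locus of a point with coordinates in an extension field. -/

open scoped Classical
open Set MvPolynomial

noncomputable section

namespace Pool.Agent.Lib.LF

open Pool.Agent.Lib.MP_7fcda1_ag

namespace LCS

variable {ι : Type}

lemma aeval_smul {R : Type} [CommRing R] [Algebra ℂ R] {g : Po ι} {d : ℕ}
    (hg : g.IsHomogeneous d) (c : R) (z : ι → R) : aeval (c • z) g = c ^ d * aeval z g := by
  rw [aeval_def, aeval_def, eval₂_eq, eval₂_eq, Finset.mul_sum]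
  refine Finset.sum_congr rfl fun s hs => ?_
  rw [hg.degree_eq_sum_deg_support hs, ← Finset.prod_pow_eq_pow_sum]
  simp only [Pi.smul_apply, smul_eq_mul, mul_pow, Finset.prod_mul_distrib]
  ring

lemma eval_smul {g : Po ι} {d : ℕ} (hg : g.IsHomogeneous d) (c : ℂ) (z : ι → ℂ) :
    eval (c • z) g = c ^ d * eval z g := by
  have := aeval_smul hg c z
  rwa [aeval_eq_eval, aeval_eq_eval] at this

/-- Homogenisation with respect to the variable `c`. -/
lemma exists_hom (c : ι) (g : Po ι) : ∃ (h : Po ι) (e : ℕ), h.IsHomogeneous e ∧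
    ∀ (R : Type) [CommRing R] [Algebra ℂ R] (w : ι → R), w c = 1 → aeval w h = aeval w g := by
  refine ⟨∑ d ∈ Finset.range (g.totalDegree + 1),
    X c ^ (g.totalDegree - d) * homogeneousComponent d g, g.totalDegree, ?_, ?_⟩
  · refine IsHomogeneous.sum _ _ _ fun d hd => ?_
    have h1 := ((isHomogeneous_X ℂ c).pow (g.totalDegree - d)).mul
      (homogeneousComponent_isHomogeneous d g)
    have h2 : 1 * (g.totalDegree - d) + d = g.totalDegree := by
      have := Finset.mem_range.1 hd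
      omega
    rwa [h2] at h1
  · intro R _ _ w hw
    conv_rhs => rw [← sum_homogeneousComponent g]
    simp only [map_sum, map_mul, map_pow, aeval_X, hw, one_pow, one_mul]

/-- The Nullstellensatz. -/
lemma nss [Finite ι] {Ω : Type} [Field Ω] [Algebra ℂ Ω] (z : ι → Ω) (g : Po ι)
    (hg : aeval z g ≠ 0) : ∃ w : ι → ℂ, Spec z w ∧ eval w g ≠ 0 := by
  have hp : (RingHom.ker (aeval z : Po ι →ₐ[ℂ] Ω)).IsPrime := RingHom.ker_isPrime _
  have h := IsPrime.vanishingIdeal_zeroLocus (K := ℂ) (RingHom.ker (aeval z : Po ι →ₐ[ℂ] Ω))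
  by_contra hn
  push Not at hn
  apply hg
  have : g ∈ vanishingIdeal ℂ (zeroLocus ℂ (RingHom.ker (aeval z : Po ι →ₐ[ℂ] Ω))) := by
    intro w hw
    have := hn w fun p hp => hw p hp
    rwa [aeval_eq_eval]
  rw [h] at this
  exact this

lemma aff_self {X : Type} (y : X → ι → ℂ) {c : ι} {x : X} (h : y x c ≠ 0) : aff y c x c = 1 := by
  simp [aff, h]

lemma nrm_eq {K : Type} [Field K] (z : ι → K) (c : ι) : nrm z c = (z c)⁻¹ • z := by
  funext l
  simp [nrm, div_eq_inv_mul]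

end LCS

theorem bLCS : St_LCS := by
  intro X ι Λ Ω _ _ _ y G z i hV hi hG
  have p5 : ∀ w : ι → ℂ, w ≠ 0 → Spec z w → ∃ x ∈ Loc y z, ∃ a : ℂ, w = a • y x := by
    intro w hw hs
    obtain ⟨x, a, e⟩ := hV.onto w hw fun l => by
      have := hs _ (hG l)
      rwa [aeval_eq_eval] at this
    refine ⟨x, fun g d hg h0 => ?_, a, e⟩
    have h1 := hs g h0
    rw [aeval_eq_eval, e, LCS.eval_smul hg] at h1
    refine (mul_eq_zero.1 h1).resolve_left (pow_ne_zero _ fun ha => hw ?_)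
    rw [e, ha, zero_smul]
  have p4 : ∀ x ∈ Loc y z, ∀ c, y x c ≠ 0 → z c ≠ 0 ∧ Spec (nrm z c) (aff y c x) := by
    intro x hx c hc
    have hz : z c ≠ 0 := fun h => hc (by
      have := hx (MvPolynomial.X c) 1 (isHomogeneous_X ℂ c) (by rwa [aeval_X])
      rwa [eval_X] at this)
    refine ⟨hz, fun g hg => ?_⟩
    obtain ⟨h, e, hh, hw⟩ := LCS.exists_hom c g
    rw [← hw _ _ (LCS.aff_self y hc), aff, LCS.aeval_smul hh, aeval_eq_eval,
      hx h e hh ?_, mul_zero]
    rw [← hw _ _ (div_self hz), LCS.nrm_eq, LCS.aeval_smul hh] at hg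
    exact (mul_eq_zero.1 hg).resolve_left (pow_ne_zero _ (inv_ne_zero hz))
  have pn : ∀ g : Po ι, aeval z g ≠ 0 →
      ∃ x ∈ Loc y z, y x i ≠ 0 ∧ eval (aff y i x) g ≠ 0 := by
    intro g hg
    obtain ⟨w, hs, hw⟩ := LCS.nss z g hg
    have h1 : w i = 1 := by
      have := hs (MvPolynomial.X i - 1) (by simp [hi])
      simpa [sub_eq_zero] using this
    obtain ⟨x, hx, a, e⟩ := p5 w (fun h => by simp [h] at h1) hs
    have h2 : a * y x i = 1 := by rw [← h1, e]; rfl
    have h3 : y x i ≠ 0 := right_ne_zero_of_mul_eq_one h2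
    refine ⟨x, hx, h3, ?_⟩
    rwa [aff, ← eq_inv_of_mul_eq_one_left h2, ← e]
  have pv : ∀ (g : Po ι) (d : ℕ), g.IsHomogeneous d → Van y (Loc y z) g → aeval z g = 0 := by
    intro g d hg hv
    by_contra h
    obtain ⟨x, hx, -, h2⟩ := pn g h
    rw [aff, LCS.eval_smul hg, hv x hx, mul_zero] at h2
    exact h2 rfl
  refine ⟨⟨{g | (∃ d, g.IsHomogeneous d) ∧ aeval z g = 0}, fun g hg => hg.1, ?_⟩, ⟨?_, ?_⟩,
    fun d => ⟨fun h => ?_, fun h c l => ?_⟩, p4, p5, fun g hg => ?_⟩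
  · ext x
    exact ⟨fun hx g ⟨⟨d, hd⟩, h0⟩ => hx g d hd h0, fun hx g d hd h0 => hx g ⟨⟨d, hd⟩, h0⟩⟩
  · obtain ⟨x, hx, -⟩ := pn 1 (by simp)
    exact ⟨x, hx⟩
  · intro g h d e hg hh hv
    have := pv _ _ (hg.mul hh) hv
    rw [map_mul] at this
    exact (mul_eq_zero.1 this).imp (fun h0 x hx => hx g d hg h0) fun h0 x hx => hx h e hh h0
  · by_contra hn
    obtain ⟨w, hw, hind⟩ := exists_indep (not_lt.1 hn)
    choose l hl using hw
    obtain ⟨g, hg, h0⟩ := h i l
    have h1 : aeval z (rename l g) ≠ 0 := by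
      rw [aeval_rename, show z ∘ l = w from funext hl]
      exact fun h => hg (algebraicIndependent_iff.1 hind g h)
    obtain ⟨x, hx, h2, h3⟩ := pn _ h1
    rw [eval_rename] at h3
    exact h3 (h0 x hx h2)
  · have h1 : ¬ AlgebraicIndependent ℂ (nrm z c ∘ l) := by
      intro hind
      have h2 : rk ℂ (range (nrm z c ∘ l)) ≤ rk ℂ (range z) := by
        refine rk_le_of_mem ?_
        rintro _ ⟨a, rfl⟩
        exact div_mem (IntermediateField.subset_adjoin ℂ _ ⟨l a, rfl⟩)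
          (IntermediateField.subset_adjoin ℂ _ ⟨c, rfl⟩)
      rw [rk_range_indep hind, Fintype.card_fin] at h2
      exact absurd h (not_lt.2 h2)
    rw [algebraicIndependent_iff] at h1
    push Not at h1
    obtain ⟨g, h0, hg⟩ := h1
    refine ⟨g, hg, fun x hx hc => ?_⟩
    have := (p4 x hx c hc).2 (rename l g) (by rwa [aeval_rename])
    rwa [aeval_eq_eval, eval_rename] at this
  · obtain ⟨h, e, hh, hw⟩ := LCS.exists_hom i g
    refine ⟨MvPolynomial.X i * h, 1 + e, (isHomogeneous_X ℂ i).mul hh, ?_, fun x hx => ?_⟩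
    · rwa [map_mul, aeval_X, hi, one_mul, hw _ _ hi]
    · rw [map_mul, eval_X] at hx
      have h1 := left_ne_zero_of_mul hx
      refine ⟨h1, ?_⟩
      have h2 := hw _ _ (LCS.aff_self y h1)
      rw [aeval_eq_eval] at h2
      rw [← h2, aff, LCS.eval_smul hh]
      exact mul_ne_zero (pow_ne_zero _ (inv_ne_zero h1)) (right_ne_zero_of_mul hx)

end Pool.Agent.Lib.LF
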