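import Pool.Agent.Lib.LF.BBlue

/-! Block LEAD: the leading coefficient of a solution is a zero of the field. -/

open scoped Classical Polynomial PowerSeries
open Set MvPolynomial

noncomputable section

namespace Pool.Agent.Lib.LF

namespace LEAD

theorem der_ex (ν : ℂ) : PowerSeries.derivative ℂ (ex ℂ ν) = PowerSeries.C ν * ex ℂ ν := by
  ext n
  rw [PowerSeries.coeff_derivative, PowerSeries.coeff_C_mul]
  simp only [ex, PowerSeries.coeff_mk, Algebra.algebraMap_self, RingHom.id_apply]
  have h1 : ((n.factorial : ℕ) : ℂ) ≠ 0 := Nat.cast_ne_zero.2 n.factorial_ne_zero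
  have h2 : ((n : ℂ) + 1) ≠ 0 := by exact_mod_cast n.succ_ne_zero
  rw [Nat.factorial_succ]
  push_cast
  field_simp
  ring

theorem chain {σ A : Type} [Fintype σ] [CommRing A] [Algebra ℂ A] (D : Derivation ℂ A A)
    (f : σ → A) (W : Po σ) : D (aeval f W) = ∑ s, aeval f (pderiv s W) * D (f s) := by
  induction W using MvPolynomial.induction_on with
  | C a => simp
  | add p q hp hq => simp [hp, hq, add_mul, Finset.sum_add_distrib]
  | mul_X p s hp =>
    rw [map_mul, aeval_X, Derivation.leibniz, hp, smul_eq_mul, smul_eq_mul, Finset.mul_sum]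
    have h : ∀ t, aeval f (pderiv t (p * X s)) * D (f t) =
        f s * (aeval f (pderiv t p) * D (f t)) + if t = s then aeval f p * D (f s) else 0 := by
      intro t
      rw [pderiv_mul, map_add, map_mul, map_mul, aeval_X, pderiv_X]
      by_cases hts : t = s
      · subst hts
        simp only [Pi.single_eq_same, map_one, if_true]
        ring
      · rw [if_neg hts, Pi.single_eq_of_ne' hts, map_zero]
        ring
    simp only [h, Finset.sum_add_distrib, Finset.sum_ite_eq', Finset.mem_univ, if_true]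
    ring

theorem part1 {r : ℕ} (μ : Fin r → ℂ) (W : Po (Option (Fin r))) :
    PowerSeries.derivative ℂ (aeval (tu ℂ μ) W) = aeval (tu ℂ μ) (dt μ W) := by
  rw [chain, Fintype.sum_option, dt, map_add, map_sum]
  congr 1
  · simp [tu]
  · refine Finset.sum_congr rfl fun i _ => ?_
    simp only [tu, Option.elim_some, der_ex, map_mul, aeval_C, aeval_X]
    rw [PowerSeries.algebraMap_apply, Algebra.algebraMap_self, RingHom.id_apply]
    ring

variable {σ : Type} (m : MonomialOrder σ)

/-- degree at most `a`, coefficient `x` at `a` -/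
def T (f : Po σ) (a : σ →₀ ℕ) (x : ℂ) : Prop :=
  m.toSyn (m.degree f) ≤ m.toSyn a ∧ coeff a f = x

variable {m}

theorem T.mul {f g : Po σ} {a b : σ →₀ ℕ} {x y : ℂ} (hf : T m f a x) (hg : T m g b y) :
    T m (f * g) (a + b) (x * y) := by
  refine ⟨m.degree_mul_le.trans ?_, ?_⟩
  · rw [map_add, map_add]
    exact add_le_add hf.1 hg.1
  · rw [m.coeff_mul_of_add_of_degree_le hf.1 hg.1, hf.2, hg.2]

theorem T.add {f g : Po σ} {a : σ →₀ ℕ} {x y : ℂ} (hf : T m f a x) (hg : T m g a y) :
    T m (f + g) a (x + y) :=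
  ⟨m.degree_add_le.trans (sup_le hf.1 hg.1), by rw [coeff_add, hf.2, hg.2]⟩

theorem T.sub {f g : Po σ} {a : σ →₀ ℕ} {x y : ℂ} (hf : T m f a x) (hg : T m g a y) :
    T m (f - g) a (x - y) :=
  ⟨m.degree_sub_le.trans (sup_le hf.1 hg.1), by rw [coeff_sub, hf.2, hg.2]⟩

theorem T.const (c : ℂ) : T m (C c) 0 c := ⟨by rw [m.degree_C], by simp⟩

theorem T.zero (a : σ →₀ ℕ) : T m 0 a 0 := ⟨by simp, by simp⟩

theorem T.pow {f : Po σ} {a : σ →₀ ℕ} {x : ℂ} (hf : T m f a x) (n : ℕ) :
    T m (f ^ n) (n • a) (x ^ n) := by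
  induction n with
  | zero => simpa using T.const (m := m) 1
  | succ n ih =>
    rw [pow_succ, pow_succ, succ_nsmul]
    exact ih.mul hf

theorem T.sum {α : Type} (S : Finset α) {f : α → Po σ} {a : σ →₀ ℕ} {x : α → ℂ}
    (h : ∀ s ∈ S, T m (f s) a (x s)) : T m (∑ s ∈ S, f s) a (∑ s ∈ S, x s) := by
  induction S using Finset.induction_on with
  | empty => simpa using T.zero (m := m) a
  | insert s S hs ih =>
    rw [Finset.sum_insert hs, Finset.sum_insert hs]
    exact (h s (Finset.mem_insert_self _ _)).add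
      (ih fun t ht => h t (Finset.mem_insert_of_mem ht))

theorem T.prod {ι : Type} {W : ι → Po σ} {a : σ →₀ ℕ} {c : ℂ} {w : ι → ℂ}
    (h : ∀ l, T m (W l) a (c * w l)) (S : Finset ι) (k : ι → ℕ) :
    T m (∏ l ∈ S, W l ^ k l) ((∑ l ∈ S, k l) • a) (c ^ (∑ l ∈ S, k l) * ∏ l ∈ S, w l ^ k l) := by
  induction S using Finset.induction_on with
  | empty => simpa using T.const (m := m) 1
  | insert s S hs ih =>
    rw [Finset.prod_insert hs, Finset.prod_insert hs, Finset.sum_insert hs, add_smul]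
    have h1 := ((h s).pow (k s)).mul ih
    have h2 : (c * w s) ^ k s * (c ^ (∑ l ∈ S, k l) * ∏ l ∈ S, w l ^ k l) =
        c ^ (k s + ∑ l ∈ S, k l) * (w s ^ k s * ∏ l ∈ S, w l ^ k l) := by ring
    rwa [h2] at h1

theorem T.hom {ι : Type} {W : ι → Po σ} {a : σ →₀ ℕ} {c : ℂ} {w : ι → ℂ}
    (h : ∀ l, T m (W l) a (c * w l)) (g : Po ι) (d : ℕ) (hg : g.IsHomogeneous d) :
    T m (aeval W g) (d • a) (c ^ d * eval w g) := by
  rw [aeval_def, eval₂_eq, eval_eq, Finset.mul_sum]
  refine T.sum _ fun s hs => ?_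
  have hd : ∑ l ∈ s.support, s l = d := by
    have := hg (mem_support_iff.1 hs)
    rw [← this, Finsupp.weight_apply, Finsupp.sum]
    simp
  have h1 := (T.const (m := m) (coeff s g)).mul (T.prod h s.support s)
  rw [hd, zero_add] at h1
  have h2 : coeff s g * (c ^ d * ∏ l ∈ s.support, w l ^ s l) =
      c ^ d * (coeff s g * ∏ l ∈ s.support, w l ^ s l) := by ring
  rwa [h2] at h1

theorem T.pd {f : Po σ} {a : σ →₀ ℕ} {x : ℂ} (hf : T m f a x) (i : σ) :
    T m (pderiv i f) a 0 := by
  constructor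
  · rw [m.degree_le_iff]
    intro s hs
    have h1 : coeff (s + Finsupp.single i 1) f ≠ 0 := by
      intro h0
      rw [mem_support_iff, coeff_pderiv, h0, zero_mul] at hs
      exact hs rfl
    have h2 := (m.le_degree (mem_support_iff.2 h1)).trans hf.1
    exact (m.toSyn_monotone le_self_add).trans h2
  · rw [coeff_pderiv, m.coeff_eq_zero_of_lt, zero_mul]
    refine lt_of_le_of_lt hf.1 (m.toSyn_strictMono ?_)
    exact lt_add_of_pos_right _ (by
      rw [pos_iff_ne_zero]
      exact Finsupp.single_ne_zero.2 one_ne_zero)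

theorem coeff_X_pd (f : Po σ) (i : σ) (s : σ →₀ ℕ) :
    coeff s (X i * pderiv i f) = s i * coeff s f := by
  induction f using MvPolynomial.induction_on' with
  | monomial u c =>
    rw [X_mul_pderiv_monomial, coeff_smul, coeff_monomial]
    split_ifs with h
    · subst h
      simp
    · simp
  | add p q hp hq => rw [map_add, mul_add, coeff_add, hp, hq, coeff_add, mul_add]

theorem T.xpd {f : Po σ} {a : σ →₀ ℕ} {x : ℂ} (hf : T m f a x) (i : σ) :
    T m (X i * pderiv i f) a (a i * x) := by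
  constructor
  · rw [m.degree_le_iff]
    intro s hs
    have h1 : coeff s f ≠ 0 := by
      intro h0
      rw [mem_support_iff, coeff_X_pd, h0, mul_zero] at hs
      exact hs rfl
    exact (m.le_degree (mem_support_iff.2 h1)).trans hf.1
  · rw [coeff_X_pd, hf.2]

theorem T.dt {r : ℕ} {m : MonomialOrder (Option (Fin r))} (μ : Fin r → ℂ)
    {f : Po (Option (Fin r))} {a : Option (Fin r) →₀ ℕ} {x : ℂ} (hf : T m f a x) :
    T m (dt μ f) a ((∑ i, μ i * a (some i)) * x) := by
  have h1 : ∀ i ∈ (Finset.univ : Finset (Fin r)),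
      T m (C (μ i) * X (some i) * pderiv (some i) f) a (μ i * a (some i) * x) := by
    intro i _
    have := (T.const (m := m) (μ i)).mul (hf.xpd (some i))
    rwa [zero_add, ← mul_assoc, ← mul_assoc] at this
  have h2 := (hf.pd none).add (T.sum _ h1)
  rwa [zero_add, ← Finset.sum_mul] at h2

end LEAD

theorem bLEAD : St_LEAD := by
  intro r μ
  refine ⟨LEAD.part1 μ, fun ι _ W hW => ?_⟩
  let _ : LinearOrder (Option (Fin r)) :=
    LinearOrder.lift' (Fintype.equivFin _) (Fintype.equivFin _).injective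
  let m : MonomialOrder (Option (Fin r)) := MonomialOrder.lex
  obtain ⟨i₀, hi₀⟩ := Function.ne_iff.1 hW
  obtain ⟨i, hi, hmax⟩ := (Finset.univ.filter fun l => W l ≠ 0).exists_max_image
    (fun l => m.toSyn (m.degree (W l))) ⟨i₀, by simpa using hi₀⟩
  have hi' : W i ≠ 0 := (Finset.mem_filter.1 hi).2
  set a := m.degree (W i) with ha
  set c : ℂ := coeff a (W i) with hc
  have hc0 : c ≠ 0 := m.coeff_degree_ne_zero_iff.2 hi'
  set w : ι → ℂ := fun l => c⁻¹ * coeff a (W l) with hw
  have hT : ∀ l, LEAD.T m (W l) a (c * w l) := by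
    intro l
    refine ⟨?_, by rw [hw]; field_simp⟩
    by_cases hl : W l = 0
    · rw [hl]
      simp
    · exact hmax l (by simpa using hl)
  have hwi : w i = 1 := inv_mul_cancel₀ hc0
  refine ⟨w, i, hwi, fun g d hg h0 => ?_, fun l H e hH h0 => ?_⟩
  · have h1 := (LEAD.T.hom hT g d hg).2
    rw [h0, coeff_zero] at h1
    exact (mul_eq_zero.1 h1.symm).resolve_left (pow_ne_zero _ hc0)
  · have h1 := ((((hT l).dt μ).mul (hT i)).sub ((hT l).mul ((hT i).dt μ))).mul ((hT i).pow e)
    have h2 := (LEAD.T.hom hT H e hH).mul ((hT i).pow 2)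
    have h3 : e • a + 2 • a = a + a + e • a := by rw [two_smul, add_comm]
    rw [h3, ← h0] at h2
    have h4 := h2.2.symm.trans h1.2
    rw [hwi, mul_one] at h4
    have h5 : c ^ e * eval w H * c ^ 2 = 0 := by rw [h4]; ring
    rcases mul_eq_zero.1 h5 with h6 | h6
    · exact (mul_eq_zero.1 h6).resolve_left (pow_ne_zero _ hc0)
    · exact absurd h6 (pow_ne_zero _ hc0)

end Pool.Agent.Lib.LF
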