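import Pool.Agent.Lib.LF.ABlue
import Pool.Agent.Lib.HS32.MAll

/-! Local connections with parallel frames. -/

open scoped Classical Topology ContDiff Matrix
open Set Filter

noncomputable section

namespace Pool.Agent.Lib.LF

open Pool.Agent.Lib.SV (E)
open Pool.Agent.Lib.HS32

namespace LOC

variable {m : ℕ} {α β γ τ σ κ : Type}

/-- All entries are smooth. -/
def Sm (T : E m → Matrix α β ℂ) (z : E m) : Prop := ∀ i j, ContDiffAt ℝ ∞ (fun w => T w i j) z

variable {z : E m}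

theorem sm_const (A : Matrix α β ℂ) : Sm (fun _ : E m => A) z := fun _ _ => contDiffAt_const

theorem Sm.add {S T : E m → Matrix α β ℂ} (hS : Sm S z) (hT : Sm T z) :
    Sm (fun w => S w + T w) z := fun i j => (hS i j).add (hT i j)

theorem Sm.sub {S T : E m → Matrix α β ℂ} (hS : Sm S z) (hT : Sm T z) :
    Sm (fun w => S w - T w) z := fun i j => (hS i j).sub (hT i j)

theorem Sm.neg {T : E m → Matrix α β ℂ} (hT : Sm T z) : Sm (fun w => -T w) z :=
  fun i j => (hT i j).neg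

theorem Sm.tr {T : E m → Matrix α β ℂ} (hT : Sm T z) : Sm (fun w => (T w)ᵀ) z :=
  fun i j => hT j i

theorem Sm.mul [Fintype β] {S : E m → Matrix α β ℂ} {T : E m → Matrix β γ ℂ} (hS : Sm S z)
    (hT : Sm T z) : Sm (fun w => S w * T w) z := fun i j => by
  simp only [Matrix.mul_apply]
  exact ContDiffAt.sum fun a _ => (hS i a).mul (hT a j)

theorem Sm.sum_smul [Fintype γ] {f : γ → E m → ℂ} {T : γ → E m → Matrix α β ℂ}
    (hf : ∀ c, ContDiffAt ℝ ∞ (f c) z) (hT : ∀ c, Sm (T c) z) :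
    Sm (fun w => ∑ c, f c w • T c w) z := fun i j => by
  simp only [Matrix.sum_apply]
  exact ContDiffAt.sum fun c _ => (hf c).mul (hT c i j)

theorem Sm.det [Fintype α] {T : E m → Matrix α α ℂ} (hT : Sm T z) :
    ContDiffAt ℝ ∞ (fun w => (T w).det) z := by
  simp only [Matrix.det_apply']
  exact ContDiffAt.sum fun s _ => contDiffAt_const.mul (contDiffAt_prod fun a _ => hT _ _)

theorem Sm.inv [Fintype α] {T : E m → Matrix α α ℂ} (hT : Sm T z) (h0 : (T z).det ≠ 0) :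
    Sm (fun w => (T w)⁻¹) z := by
  have ha : Sm (fun w => (T w).adjugate) z := fun i j => by
    simp only [Matrix.adjugate_apply]
    refine Sm.det (T := fun w => (T w).updateRow j (Pi.single i 1)) fun a b => ?_
    simp only [Matrix.updateRow_apply]
    split_ifs
    exacts [contDiffAt_const, hT a b]
  simp only [Matrix.inv_def, Ring.inverse_eq_inv']
  exact fun i j => (hT.det.inv h0).mul (ha i j)

/-- The matrix whose columns are the given fields. -/
def cols (V : α → E m → E m) (w : E m) : Matrix (Fin m) α ℂ := Matrix.of fun p r => V r w p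

theorem sm_cols {V : α → E m → E m} (h : ∀ r, HolN (V r) z) : Sm (cols V) z := fun p r =>
  contDiffAt_pi.1 (mCHN m (V r) z (h r)).1 p

/-- A smooth left inverse. -/
theorem left_inv [Fintype α] {V : α → E m → E m} (h : ∀ r, HolN (V r) z)
    (hi : LinearIndependent ℂ fun r => V r z) :
    ∃ L : E m → Matrix α (Fin m) ℂ, ∀ᶠ w in 𝓝 z, Sm L w ∧ L w * cols V w = 1 := by
  have hk : LinearMap.ker (Matrix.toLin' (cols V z)) = ⊥ :=
    LinearMap.ker_eq_bot.2 (Matrix.mulVec_injective_iff.2 hi)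
  obtain ⟨g, hg⟩ := LinearMap.exists_leftInverse_of_injective _ hk
  have h0 : LinearMap.toMatrix' g * cols V z = 1 := by
    have := congrArg LinearMap.toMatrix' hg
    rwa [LinearMap.toMatrix'_comp, LinearMap.toMatrix'_toLin', LinearMap.toMatrix'_id] at this
  set L0 := LinearMap.toMatrix' g
  have hd : ∀ᶠ w in 𝓝 z, (L0 * cols V w).det ≠ 0 :=
    ((sm_const L0).mul (sm_cols h)).det.continuousAt.eventually_ne (by simp [h0])
  refine ⟨fun w => (L0 * cols V w)⁻¹ * L0, ?_⟩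
  filter_upwards [hd, eventually_all.2 fun r => (h r).eventually_nhds] with w h1 h2
  refine ⟨(((sm_const L0).mul (sm_cols h2)).inv h1).mul (sm_const L0), ?_⟩
  rw [Matrix.mul_assoc, Matrix.nonsing_inv_mul _ (isUnit_iff_ne_zero.2 h1)]

theorem dot_deriv {φ Z : E m → E m} (hφ : DifferentiableAt ℂ φ z) (hZ : DifferentiableAt ℂ Z z)
    (h : ∀ᶠ w in 𝓝 z, φ w ⬝ᵥ Z w = 0) (k : Fin m) :
    ∑ q, φ z q * jm Z z q k + ∑ q, jm φ z q k * Z z q = 0 := by
  have h1 := HasFDerivAt.fun_sum (u := Finset.univ) fun q _ =>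
    (hasFDerivAt_pi'.1 hφ.hasFDerivAt q).fun_mul (hasFDerivAt_pi'.1 hZ.hasFDerivAt q)
  have h2 := (hasFDerivAt_const (𝕜 := ℂ) (0 : ℂ) z).congr_of_eventuallyEq
    (f₁ := fun w => ∑ q, φ w q * Z w q) h
  have h3 := congrArg (fun T : E m →L[ℂ] ℂ => T (Pi.single k 1)) (h1.unique h2)
  simp only [_root_.sum_apply, _root_.add_apply,
    _root_.smul_apply, ContinuousLinearMap.comp_apply,
    ContinuousLinearMap.proj_apply, smul_eq_mul, _root_.zero_apply,
    Finset.sum_add_distrib] at h3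
  rw [← h3]
  simp only [jm, Matrix.of_apply, mul_comm]

variable [Fintype τ] [Fintype σ] [Fintype κ]

theorem alg (Y : Matrix (Fin m) τ ℂ) (Z : Matrix (Fin m) σ ℂ) (Φ : Matrix κ (Fin m) ℂ)
    (LY : Matrix τ (Fin m) ℂ) (LZ : Matrix σ (Fin m) ℂ) (R : Matrix (Fin m) κ ℂ)
    (DY : τ → Mat m) (DZ : Fin m → Matrix (Fin m) σ ℂ) (DΦ : Fin m → Matrix κ (Fin m) ℂ)
    (hY : LY * Y = 1) (hZ : LZ * Z = 1) (hR : Φ * R = 1) (h1 : ∀ k, Φ * DZ k + DΦ k * Z = 0)
    (h2 : ∀ r, ∑ k, Y k r • DZ k = DY r * Z) (h3 : ∀ r, ∑ k, Y k r • DΦ k + Φ * DY r = 0)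
    (a0 a : Fin m → Mat m) (e0 : ∀ k, a0 k = -(DZ k * LZ) + R * DΦ k * (1 - Z * LZ))
    (e : ∀ k, a k = a0 k + ∑ r, LY r k • (-DY r - ∑ l, Y l r • a0 l)) :
    (∀ r, ∑ k, Y k r • a k + DY r = 0) ∧ (∀ k, DZ k + a k * Z = 0) ∧ ∀ k, DΦ k = Φ * a k := by
  have z0 : ∀ k, a0 k * Z = -DZ k := fun k => by
    rw [e0, Matrix.add_mul, Matrix.neg_mul, Matrix.mul_assoc, hZ, Matrix.mul_one,
      Matrix.mul_assoc _ _ Z, Matrix.sub_mul, Matrix.one_mul, Matrix.mul_assoc Z, hZ, Matrix.mul_one,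
      sub_self, Matrix.mul_zero, add_zero]
  have f0 : ∀ k, Φ * a0 k = DΦ k := fun k => by
    rw [e0, Matrix.mul_add, Matrix.mul_neg, ← Matrix.mul_assoc, ← Matrix.mul_assoc,
      ← Matrix.mul_assoc, hR, Matrix.one_mul, Matrix.mul_sub, Matrix.mul_one, ← Matrix.mul_assoc,
      eq_neg_of_add_eq_zero_left (h1 k), Matrix.neg_mul]
    abel
  have z1 : ∀ r, (-DY r - ∑ l, Y l r • a0 l) * Z = 0 := fun r => by
    rw [Matrix.sub_mul, Matrix.neg_mul, Matrix.sum_mul, ← h2]
    simp only [Matrix.smul_mul, z0, smul_neg, Finset.sum_neg_distrib, sub_self]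
  have f1 : ∀ r, Φ * (-DY r - ∑ l, Y l r • a0 l) = 0 := fun r => by
    rw [Matrix.mul_sub, Matrix.mul_neg, Matrix.mul_sum]
    simp only [Matrix.mul_smul, f0]
    rw [eq_neg_of_add_eq_zero_left (h3 r), sub_self]
  refine ⟨fun r => ?_, fun k => ?_, fun k => ?_⟩
  · have : ∑ k, Y k r • ∑ r', LY r' k • (-DY r' - ∑ l, Y l r' • a0 l) =
        -DY r - ∑ l, Y l r • a0 l := by
      simp only [Finset.smul_sum (r := Y _ r) (s := Finset.univ (α := τ)), smul_smul]
      rw [Finset.sum_comm]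
      have hh : ∀ r', ∑ k, Y k r * LY r' k = if r' = r then 1 else 0 := fun r' => by
        rw [← Matrix.one_apply, ← hY, Matrix.mul_apply]
        exact Finset.sum_congr rfl fun k _ => mul_comm _ _
      simp only [← Finset.sum_smul, hh, ite_smul, one_smul, zero_smul, Finset.sum_ite_eq',
        Finset.mem_univ, if_true]
    simp only [e, smul_add, Finset.sum_add_distrib, this]
    abel
  · rw [e, Matrix.add_mul, z0, Matrix.sum_mul]
    simp only [Matrix.smul_mul, z1, smul_zero, Finset.sum_const_zero, add_zero, add_neg_cancel]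
  · rw [e, Matrix.mul_add, f0, Matrix.mul_sum]
    simp only [Matrix.mul_smul, f1, smul_zero, Finset.sum_const_zero, add_zero]

end LOC

open LOC in
theorem bLOC : St_LOC := by
  intro m τ σ κ _ _ _ Y Z φ z hY hZ hφ iY iZ iφ h
  obtain ⟨LY, hLY⟩ := left_inv hY iY
  obtain ⟨LZ, hLZ⟩ := left_inv hZ iZ
  obtain ⟨Lφ, hLφ⟩ := left_inv hφ iφ
  let DZ : E m → Fin m → Matrix (Fin m) σ ℂ := fun w k => Matrix.of fun p s => jm (Z s) w p k
  let DΦ : E m → Fin m → Matrix κ (Fin m) ℂ := fun w k => Matrix.of fun t q => jm (φ t) w q k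
  let a0 : E m → Fin m → Mat m := fun w k =>
    -(DZ w k * LZ w) + (Lφ w)ᵀ * DΦ w k * (1 - cols Z w * LZ w)
  refine ⟨fun w k => a0 w k + ∑ r, LY w r k • (-jm (Y r) w - ∑ l, cols Y w l r • a0 w l), ?_⟩
  filter_upwards [hLY, hLZ, hLφ, h.eventually_nhds,
    eventually_all.2 fun r => (hY r).eventually_nhds,
    eventually_all.2 fun r => (hZ r).eventually_nhds,
    eventually_all.2 fun r => (hφ r).eventually_nhds] with w h1 h2 h3 h4 gY gZ gφ
  have s0 : ∀ k, Sm (fun x => a0 x k) w := fun k => by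
    have d1 : Sm (fun x => DZ x k) w := fun p s => (mCHN m (Z s) w (gZ s)).2.1 p k
    have d2 : Sm (fun x => DΦ x k) w := fun t q => (mCHN m (φ t) w (gφ t)).2.1 q k
    exact (d1.mul h2.1).neg.add ((h3.1.tr.mul d2).mul ((sm_const 1).sub ((sm_cols gZ).mul h2.1)))
  obtain ⟨-, k2, k3⟩ := h4.self_of_nhds
  obtain ⟨r1, r2, r3⟩ := alg (cols Y w) (cols Z w) (cols φ w)ᵀ (LY w) (LZ w) (Lφ w)ᵀ
    (fun r => jm (Y r) w) (DZ w) (DΦ w) h1.2 h2.2
    (by rw [← Matrix.transpose_mul, h3.2, Matrix.transpose_one])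
    (fun k => by
      ext t s
      exact dot_deriv (gφ t).self_of_nhds (gZ s).self_of_nhds (h4.mono fun x hx => hx.1 t s) k)
    (fun r => by
      ext p s
      have := congrFun (k2 r s) p
      simpa [DZ, cols, Matrix.sum_apply, Matrix.mul_apply, Matrix.mulVec, dotProduct,
        mul_comm] using this)
    (fun r => by
      ext t q
      have := congrFun (k3 r t) q
      simpa [DΦ, cols, Matrix.sum_apply, Matrix.mul_apply, Matrix.mulVec, Matrix.vecMul,
        dotProduct, mul_comm] using this)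
    (a0 w) _ (fun _ => rfl) (fun _ => rfl)
  refine ⟨fun k => (s0 k).add (Sm.sum_smul (fun r => h1.1 r k) fun r => Sm.sub
    (Sm.neg (mCHN m (Y r) w (gY r)).2.1) (Sm.sum_smul (fun l => sm_cols gY l r) s0)),
    r1, fun s => ?_, fun t => ?_⟩
  · ext p k
    exact congrFun (congrFun (r2 k) p) s
  · ext q k
    exact sub_eq_zero.2 (congrFun (congrFun (r3 k) t) q)

end Pool.Agent.Lib.LF
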