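import Pool.Agent.Lib.LF.BBlue

/-! Project lf: small tools for the assembly. -/

open scoped Classical
open Set MvPolynomial

noncomputable section

namespace Pool.Agent.Lib.LF.K99

open Pool.Agent.Lib.MP_7fcda1_ag

variable {ι : Type}

theorem cf_lift {k : Subfield ℂ} {g : Po ι} (h : Cf k g) :
    ∃ g₀ : MvPolynomial ι k, map (algebraMap k ℂ) g₀ = g := by
  refine mem_range_map_iff_coeffs_subset.2 fun c hc => ?_
  obtain ⟨μ, -, rfl⟩ := mem_coeffs_iff.1 hc
  exact ⟨⟨_, h μ⟩, rfl⟩

theorem countable_closure {s : Set ℂ} (h : s.Countable) :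
    (Subfield.closure s : Set ℂ).Countable := by
  rw [← Cardinal.le_aleph0_iff_set_countable] at h ⊢
  exact (Subfield.cardinalMk_closure_le_max s).trans (max_le h le_rfl)

theorem cf_closure {s : Set ℂ} {g : Po ι} (h : (g.coeffs : Set ℂ) ⊆ s) :
    Cf (Subfield.closure s) g := fun μ => by
  by_cases h0 : coeff μ g = 0
  · rw [h0]
    exact zero_mem _
  · exact Subfield.subset_closure (h (coeff_mem_coeffs μ h0))

theorem aeval_lift {k : Subfield ℂ} {E : Type} [CommRing E] [Algebra ℂ E] (u : ι → E)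
    (g₀ : MvPolynomial ι k) : aeval u (map (algebraMap k ℂ) g₀) = aeval u g₀ :=
  aeval_map_algebraMap ℂ u g₀

theorem finrank_perp {n : ℕ} {b : Fin (n + 1) → ℂ} (hb : b ≠ 0) :
    Module.finrank ℂ (LinearMap.ker ((dotProductBilin ℂ ℂ).flip b)) = n := by
  have h : (dotProductBilin ℂ ℂ).flip b ≠ (0 : Module.Dual ℂ (Fin (n + 1) → ℂ)) := fun h => by
    obtain ⟨i, hi⟩ := Function.ne_iff.1 hb
    have := LinearMap.congr_fun h (Pi.single i 1)
    simp at this
    exact hi this
  have := Module.Dual.finrank_ker_add_one_of_ne_zero h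
  simpa using this

end Pool.Agent.Lib.LF.K99
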