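import Pool.Agent.Lib.LF.ABlue
import Pool.Agent.Lib.LF.Kit99

/-! Project lf: assembly of the two halves. -/

open scoped Classical Topology Matrix
open Set Filter MvPolynomial

noncomputable section

namespace Pool.Agent.Lib.LF

open Pool.Agent.Lib.SV (E)
open Pool.Agent.Lib.HS32 Pool.Agent.Lib.MP_7fcda1_ag K99
open Pool.Agent.Lib.PN (Prj PMap fs Pol)

namespace MAIN

variable {m : ℕ} {M : Mf m} {ι : Type} [Fintype ι] {f : M.X → ι → ℂ}

theorem isClosed_zero (hKX : St_KX) (hf : PMap M f) {g : Po ι} {d : ℕ} (hg : g.IsHomogeneous d) :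
    IsClosed {x | eval (f x) g = 0} := by
  obtain ⟨ho, -, -, ha, -⟩ := hKX m M ι f hf
  rw [← isOpen_compl_iff, isOpen_iff_mem_nhds]
  intro x hx
  obtain ⟨c, hc⟩ := Function.ne_iff.1 (hf.ne x)
  have h1 := ha (M.ch x) (Mf.ch_mem x) _ (Mf.ch_tgt x) c (by rwa [Mf.ch_symm])
  have h2 : ContinuousAt (fun w => eval ((aff f c ∘ (M.ch x).symm) w) g) (M.ch x x) :=
    (PN.holN_eval h1.2.1 g).self_of_nhds.continuousAt
  have h3 : ∀ x', f x' c ≠ 0 → (eval (aff f c x') g = 0 ↔ eval (f x') g = 0) := fun x' h => by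
    rw [aff, PN.eval_smul_hom hg]
    simp [h]
  have h4 := (h2.comp (f := M.ch x) ((M.ch x).continuousAt (Mf.mem_ch x))).eventually_ne
    (y := 0) (by
      simp only [Function.comp_apply, Mf.ch_symm]
      exact mt (h3 x hc).1 hx)
  filter_upwards [h4, (ho c).mem_nhds hc, (M.ch x).open_source.mem_nhds (Mf.mem_ch x)]
    with x' a b e h
  simp only [Function.comp_apply, (M.ch x).left_inv e] at a
  exact a ((h3 x' b).2 h)

end MAIN

theorem bMAIN (hANA : St_ANA) (hISO : St_ISO) (hTGT : St_TGT) (hVF : St_VF) (hTAN : St_TAN)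
    (hALG : St_ALG) (hKX : St_KX) : St_MAIN := by
  intro j k ρ m e r r' M _ G f H S p d Q hG hQ hF hP hH hc hI h2
  choose g hg0 hg using h2
  let s : Set ℂ := (⋃ l, ((G l).coeffs : Set ℂ)) ∪ (⋃ t, ⋃ l, ((Q t l).coeffs : Set ℂ)) ∪
    ⋃ c, ⋃ l, ((g c l).coeffs : Set ℂ)
  have hs : (Subfield.closure s : Set ℂ).Countable := countable_closure
    (((countable_iUnion fun _ => (Finset.countable_toSet _)).union
      (countable_iUnion fun _ => countable_iUnion fun _ => Finset.countable_toSet _)).union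
      (countable_iUnion fun _ => countable_iUnion fun _ => Finset.countable_toSet _))
  have cG : ∀ l, Cf (Subfield.closure s) (G l) := fun l => cf_closure fun a ha =>
    Or.inl (Or.inl (mem_iUnion.2 ⟨l, ha⟩))
  have cQ : ∀ t l, Cf (Subfield.closure s) (Q t l) := fun t l => cf_closure fun a ha =>
    Or.inl (Or.inr (mem_iUnion₂.2 ⟨t, l, ha⟩))
  have cg : ∀ t l, Cf (Subfield.closure s) (g t l) := fun t l => cf_closure fun a ha =>
    Or.inr (mem_iUnion₂.2 ⟨t, l, ha⟩)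
  generalize Subfield.closure s = k₀ at hs cG cQ cg
  have hcc : ∀ x c, p x c ≠ 0 → aff p c x c = 1 := fun x c h => inv_mul_cancel₀ h
  obtain ⟨x₀, c, ξ, h0, hrk, hξ, hx⟩ := hANA j k m M H S p k₀ hH hF hs (fun x c h η hη =>
    hISO k₀ (j + k) _ η c (hcc x c h) (by rw [aff, dotProduct_smul, hη.1, smul_zero])
      (hTGT ρ m e M _ _ _ G f p d Q k₀ hG hQ hF.pm cG cQ x c h η hη)) hI
  set b := aff p c x₀ with hb
  have b1 : b c = 1 := hcc x₀ c h0
  have b0 : b ≠ 0 := fun h => by simp [h] at b1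
  have hpb : p x₀ = p x₀ c • b := by rw [hb, aff, smul_inv_smul₀ h0]
  have hT : {x | ∃ a : ℂ, p x = a • b} = {x | ∃ a : ℂ, p x = a • p x₀} := by
    ext x
    exact ⟨fun ⟨a, h⟩ => ⟨a * (p x₀ c)⁻¹, by rw [h, hb, aff, mul_smul]⟩,
      fun ⟨a, h⟩ => ⟨a * p x₀ c, by rw [h, mul_smul, ← hpb]⟩⟩
  have hne : ∀ x (a : ℂ), p x = a • b → p x c ≠ 0 := fun x a h h' => hQ.ne x (by
    rw [h, Pi.smul_apply, b1, smul_eq_mul, mul_one] at h'
    rw [h, h', zero_smul])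
  obtain ⟨x₁, a₁, hx₁, hK⟩ : ∃ (x₁ : M.X) (a : ℂ), b = a • p x₁ ∧ Kx p x₁ = ⊥ := by
    by_contra! hn
    obtain ⟨w, hw, hi⟩ := exists_indep hrk
    choose l hl using hw
    obtain ⟨g₀, e₀⟩ := cf_lift (cg c l)
    have h3 := hg c l b hn (by rw [id, b1]; exact one_ne_zero)
    have h4 : (fun a => aff id c b (l a)) = w := funext fun a => by simp [aff, b1, hl]
    rw [h4, ← e₀, ← aeval_eq_eval, aeval_lift] at h3
    exact hg0 c l (by rw [← e₀, algebraicIndependent_iff.1 hi g₀ h3, map_zero])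
  have a0 : a₁ ≠ 0 := fun h => b0 (by rw [hx₁, h, zero_smul])
  have hx1 : p x₁ = a₁⁻¹ • b := by rw [hx₁, inv_smul_smul₀ a0]
  have hV : Var f G := ⟨hG.map.ne, fun l => ⟨e, hG.hom l⟩, hG.zero, hG.onto, hG.inj⟩
  obtain ⟨v, hv⟩ := hVF ρ m (j + k) e M _ _ G f S p d Q c hG hQ hF hP
  obtain ⟨hcl, hRT⟩ := hTAN M.X _ _ _ _ f G p d Q b c hV b1 hQ.hom hQ.cov hQ.par hQ.ne
  obtain ⟨t, l, hl⟩ := hQ.cov x₁
  have hQb : ∀ x (a : ℂ), p x = a • b → ∀ l,
      eval (f x) (Q t l) = b l * eval (f x) (Q t c) := fun x a h l => by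
    obtain ⟨a', h'⟩ := hQ.par t x
    rw [congrFun h' l, congrFun h' c, h]
    simp only [Pi.smul_apply, smul_eq_mul, b1]
    ring
  let W := LinearMap.ker ((dotProductBilin ℂ ℂ).flip b)
  have hW : ∀ w : W, ∀ x (a : ℂ), p x = a • b → w.1 ⬝ᵥ p x = 0 := fun w x a h => by
    rw [h, dotProduct_smul, show w.1 ⬝ᵥ b = 0 from w.2, smul_zero]
  have hξW : ∀ r, ξ r ∈ W := fun r => by
    obtain ⟨x', a, h1, h3⟩ := hx r
    obtain ⟨a', h4⟩ : x' ∈ {x | ∃ a : ℂ, p x = a • b} := hT ▸ ⟨a, h1⟩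
    have h5 := h3.1
    rw [h4, dotProduct_smul, smul_eq_zero] at h5
    exact h5.resolve_left fun h => hQ.ne x' (by rw [h4, h, zero_smul])
  refine hALG M.X _ _ _ W f G k₀ j k (d t) b c (Q t) _ x₁ (v.comp W.subtype)
    (Module.finBasisOfFinrankEq ℂ W (finrank_perp b0)) (fun r => ⟨ξ r, hξW r⟩) hV
    (fun T ⟨A, h1, h3⟩ => ?_) hs cG (fun l => ⟨cQ t l, hQ.hom t l⟩) hrk hcl (hT ▸ hc x₀)
    (fun x ⟨a, h⟩ => hQb x a h) ⟨_, hx1⟩ (fun h => hl (by rw [hQb x₁ _ hx1, h, mul_zero]))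
    (fun w => hRT _ (hv w).1 (hv w).2.1 (hv w).2.2.1) (fun w h => ?_)
    (Module.Basis.linearIndependent _) (LinearIndependent.of_comp W.subtype hξ) fun r => ?_
  · rw [h3, ofPred_forall]
    refine isClosed_iInter fun g => ?_
    rw [ofPred_forall]
    exact isClosed_iInter fun hg => let ⟨_, hd⟩ := h1 g hg; MAIN.isClosed_zero hKX hG.map hd
  · have := ((hv w).2.2.2 x₁ (hne _ _ hx1) (hW w _ _ hx1)).1 h
    rw [hK] at this
    exact Subtype.ext this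
  · obtain ⟨x', a, h1, h3⟩ := hx r
    obtain ⟨a', h4⟩ : x' ∈ {x | ∃ a : ℂ, p x = a • b} := hT ▸ ⟨a, h1⟩
    exact ⟨x', ⟨a', h4⟩, ((hv (ξ r)).2.2.2 x' (hne _ _ h4) h3.1).2 h3⟩

end Pool.Agent.Lib.LF
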