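import Pool.Agent.Lib.LF.BBlue

/-! Project lf, block MAT: the lemma on matroids. -/

open scoped Classical
open Set

noncomputable section

namespace Pool.Agent.Lib.LF

namespace MAT

variable {α : Type} {M : Matroid α} {A A' : Set α} {d k : ℕ}

theorem first (hE : M.E = univ) (h1 : ((d + k : ℕ) : ℕ∞) ≤ M.eRk A')
    (h2 : M.eRk A + k ≤ M.eRk (A ∪ A')) : ∃ C : Set α, C ⊆ A ∧ M.Indep C ∧
      M.eRk A ≤ C.encard + d ∧ C.encard + (d + k : ℕ) ≤ M.eRk (C ∪ A') := by
  obtain ⟨B, hB⟩ := M.exists_isBasis A' (hE ▸ subset_univ _)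
  obtain ⟨W, hW, hBW⟩ := hB.indep.subset_isBasis_of_subset (X := A ∪ B) subset_union_right
    (hE ▸ subset_univ _)
  have hI : W \ B ⊆ A := fun x hx => (hW.subset hx.1).resolve_right hx.2
  have hI' : M.Indep (W \ B) := hW.indep.subset sdiff_subset
  have h3 : M.eRk (A ∪ A') ≤ W.encard := by
    rw [hW.encard_eq_eRk, ← M.eRk_union_closure_right_eq A B]
    exact M.eRk_mono (union_subset_union_right _ hB.subset_closure)
  have h4 : ∀ C, W \ B ⊆ C → W.encard ≤ M.eRk (C ∪ A') := fun C hC => by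
    rw [← hW.indep.eRk_eq_encard]
    refine M.eRk_mono fun x hx => ?_
    by_cases hx' : x ∈ B
    · exact Or.inr (hB.subset hx')
    · exact Or.inl (hC ⟨hx, hx'⟩)
  by_cases h : M.eRk A ≤ (W \ B).encard + d
  · refine ⟨W \ B, hI, hI', h, le_trans ?_ (h4 _ subset_rfl)⟩
    rw [← encard_sdiff_add_encard_of_subset hBW, hB.encard_eq_eRk]
    gcongr
  obtain ⟨J, hJ, hIJ⟩ := hI'.subset_isBasis_of_subset hI (hE ▸ subset_univ _)
  have h5 : (W \ B).encard ≤ M.eRk A - d := ENat.le_sub_of_add_le_right (by simp) (not_le.1 h).le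
  obtain ⟨C, hC1, hC2, hC3⟩ := exists_superset_subset_encard_eq hIJ h5
    (by rw [hJ.encard_eq_eRk]; exact tsub_le_self)
  have h6 : C.encard + d = M.eRk A := by
    rw [hC3]
    exact tsub_add_cancel_of_le (le_trans le_add_self (not_le.1 h).le)
  refine ⟨C, hC2.trans hJ.subset, hJ.indep.subset hC2, h6.ge, ?_⟩
  rw [Nat.cast_add, ← add_assoc, h6]
  exact h2.trans (h3.trans (h4 C hC1))

end MAT

theorem bMAT : St_MAT := by
  intro α M A A' d k hE hA hA' h1 h2
  obtain ⟨C, hCA, hC, h3, h4⟩ := MAT.first hE h1 h2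
  obtain ⟨W, hW, hCW⟩ := hC.subset_isBasis_of_subset (X := C ∪ A') subset_union_left
    (hE ▸ subset_univ _)
  have hf : C.Finite := hA.subset hCA
  have hU : W \ C ⊆ A' := fun x hx => (hW.subset hx.1).resolve_left hx.2
  have h5 : ((d + k : ℕ) : ℕ∞) ≤ (W \ C).encard := by
    rw [← hW.encard_eq_eRk, ← encard_sdiff_add_encard_of_subset hCW, add_comm] at h4
    exact (ENat.add_le_add_iff_right hf.encard_lt_top.ne).1 h4
  obtain ⟨T, hT, hTc⟩ := exists_subset_encard_eq h5
  have h6 : C ∪ (W \ C) \ T ∪ T = W := by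
    rw [union_assoc, sdiff_union_of_subset hT, union_sdiff_cancel hCW]
  refine ⟨C ∪ (W \ C) \ T, T, hf.union (hA'.subset (sdiff_subset.trans hU)), hT.trans hU, hTc,
    disjoint_union_left.2 ⟨disjoint_sdiff_right.mono_right hT, disjoint_sdiff_left⟩,
    h6.symm ▸ hW.indep, h6.symm ▸ subset_union_right.trans hW.subset_closure, ?_⟩
  rw [← union_assoc, union_eq_self_of_subset_right hCA,
    encard_union_eq (disjoint_sdiff_right.mono_right sdiff_subset), add_right_comm]
  refine (M.eRk_union_le_eRk_add_encard _ _).trans ?_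
  gcongr

end Pool.Agent.Lib.LF
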