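import Pool.Agent.Lib.LF.B_TRF
import Pool.Agent.Lib.MP_7fcda1_ag.CT1

/-! The moving lemma for zero-cycles on the locus of a point. -/

open scoped Classical
open Set MvPolynomial

noncomputable section

namespace Pool.Agent.Lib.LF

open Pool.Agent.Lib.MP_7fcda1_ag

namespace MOV

/-- A function with a simple zero at one place that is a unit at finitely many other places. -/
lemma exists_fun {K : Type} [Field K] [Algebra ℂ K] [IsFF ℂ K] {B : Set (Place ℂ K)}
    (hB : B.Finite) {v : Place ℂ K} (hv : v ∈ B) :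
    ∃ φ : K, φ ≠ 0 ∧ ord v.O φ = 1 ∧ ∀ w ∈ B, w ≠ v → ord w.O φ = 0 := by
  obtain ⟨t, ht0, ht⟩ := v.disc.exists_ord 1
  obtain ⟨M, hM⟩ := (hB.image fun w : Place ℂ K => 1 - ord w.O (t - 1)).bddAbove
  obtain ⟨c, hc1, hc2⟩ := approx (V := v.O) (hB.toFinset.image fun w => w.O)
    (fun V hV => by
      obtain ⟨w, -, rfl⟩ := Finset.mem_image.1 hV
      exact w.disc)
    (Finset.mem_image.2 ⟨v, hB.mem_toFinset.2 hv, rfl⟩) (max M 2)
  have h1 : Ge v.O 0 (t - 1) :=
    Ge.sub (Or.inr (by rw [ht]; norm_num)) (Or.inr (by rw [ord_one]))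
  have h2 := ord_add_of_ge (V := v.O) (b := (t - 1) * (c - 1)) ht0
    ((h1.mul hc1).mono (by rw [ht]; have := le_max_right M 2; omega))
  refine ⟨t + (t - 1) * (c - 1), h2.1, h2.2.trans ht, fun w hw hwv => ?_⟩
  have h3 := hc2 w.O (Finset.mem_image.2 ⟨w, hB.mem_toFinset.2 hw, rfl⟩)
    fun h => hwv (Place.ext h)
  have h4 : 1 - ord w.O (t - 1) ≤ M := hM ⟨w, hw, rfl⟩
  have h5 := ord_add_of_ge (V := w.O) (a := 1) (b := (t - 1) * c) one_ne_zero
    (((ge_ord (V := w.O) (a := t - 1)).mul h3).mono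
      (by rw [ord_one]; have := le_max_left M 2; omega))
  rw [show t + (t - 1) * (c - 1) = 1 + (t - 1) * c by ring, h5.2, ord_one]

end MOV

open TRF in
theorem bMOV (hCRV : St_CRV) (hCTR : St_CTR) (hLCS : St_LCS) : St_MOV := by
  intro X ι Λ Ω _ _ _ y G z i h e hV hi hG hh hz x hx
  by_cases hxh : eval (y x) h = 0
  swap
  · refine ⟨Finsupp.single x 1, fun w hw => ?_, by rw [sub_self]; exact zero_mem _⟩
    rw [Finset.mem_singleton.1 (Finsupp.support_single_subset hw)]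
    exact ⟨hx, hxh⟩
  obtain ⟨c, hc⟩ := Function.ne_iff.1 (hV.ne x)
  have hc' : y x c ≠ 0 := hc
  obtain ⟨hzc, hS⟩ := (hLCS X ι Λ Ω y G z i hV hi hG).2.2.2.1 x hx c hc'
  obtain ⟨K, _, _, _, γ, v, hγ, hγh, hv⟩ := hCRV ι Ω (nrm z c) (aff y c x) h hS
    (by rw [scaleN hh]; exact mul_ne_zero (pow_ne_zero _ (inv_ne_zero hzc)) hz)
    (by rw [aff, scaleC hh, hxh, mul_zero])
  have hγ0 : ∀ (g : Po ι) (d : ℕ), g.IsHomogeneous d → aeval z g = 0 → aeval γ g = 0 :=
    fun g d hg h0 => hγ g (by rw [scaleN hg, h0, mul_zero])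
  have hγc : γ c = 1 := by
    have := hγ (MvPolynomial.X c - 1)
      (by rw [map_sub, aeval_X, map_one, nrm, div_self hzc, sub_self])
    rwa [map_sub, aeval_X, map_one, sub_eq_zero] at this
  obtain ⟨ctr, h1, h2, h3⟩ := hCTR X ι Λ K y G γ hV
    (fun h0 => by rw [h0] at hγc; exact zero_ne_one hγc) fun l => by
      obtain ⟨d, hd⟩ := hV.hom l
      exact hγ0 _ d hd (hG l)
  have hvx : ctr v = x := h2 v x (algebraMap ℂ K (y x c)) fun l => by
    have h4 : algebraMap ℂ K (y x c) * γ l - algebraMap ℂ K (y x l) =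
        algebraMap ℂ K (y x c) * (γ l - algebraMap ℂ K (aff y c x l)) := by
      rw [mul_sub, ← map_mul, aff, Pi.smul_apply, smul_eq_mul, mul_inv_cancel_left₀ hc']
    rw [h4, map_mul]
    exact (mul_le_of_le_one_left' ((v.O.valuation_le_one_iff _).2 (v.const _))).trans_lt (hv l)
  obtain ⟨φ, hφ0, hφ1, hφ2⟩ := MOV.exists_fun ((h3 h e hh).2 hγh) (v := v)
    (show eval (y (ctr v)) h = 0 by rw [hvx, hxh])
  refine ⟨-((div ℂ φ).erase v).mapDomain ctr, fun w hw => ?_, ?_⟩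
  · rw [Finsupp.support_neg] at hw
    obtain ⟨u, hu, rfl⟩ := Finset.mem_image.1 (Finsupp.mapDomain_support hw)
    rw [Finsupp.support_erase, Finset.mem_erase, Finsupp.mem_support_iff, div_apply] at hu
    exact ⟨fun g d hg h0 => (h3 g d hg).1 (hγ0 g d hg h0) u, fun h0 => hu.2 (hφ2 u h0 hu.1)⟩
  · refine AddSubgroup.subset_closure ⟨K, inferInstance, inferInstance, inferInstance, γ, ctr, φ,
      hφ0, h1, ?_⟩
    conv_rhs => rw [← Finsupp.single_add_erase v (div ℂ φ)]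
    rw [Finsupp.mapDomain_add, Finsupp.mapDomain_single, div_apply, hφ1, hvx, sub_neg_eq_add]

end Pool.Agent.Lib.LF
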