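import Pool.Agent.Lib.LF.BBlue

/-! The two ends of a chain of rational curves are rationally equivalent. -/

open scoped Classical Polynomial
open Set MvPolynomial

noncomputable section

namespace Pool.Agent.Lib.LF

open Pool.Agent.Lib.MP_7fcda1_ag

namespace RCE

/-- the rational function `T - c` -/
def lf (c : ℂ) : RatFunc ℂ := algebraMap ℂ[X] (RatFunc ℂ) (Polynomial.X - Polynomial.C c)

theorem ff : IsFF ℂ (RatFunc ℂ) := ⟨RatFunc.X, RatFunc.transcendental_X, by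
  rw [RatFunc.adjoin_X]
  exact Module.Finite.of_surjective (Algebra.linearMap _ _) fun a => ⟨⟨a, trivial⟩, rfl⟩⟩

theorem cst (c : ℂ) : algebraMap ℂ[X] (RatFunc ℂ) (Polynomial.C c) = algebraMap ℂ (RatFunc ℂ) c :=
  (IsScalarTower.algebraMap_apply ℂ ℂ[X] (RatFunc ℂ) c).symm

theorem val_cst (w : Place ℂ (RatFunc ℂ)) {c : ℂ} (hc : c ≠ 0) :
    w.O.valuation (algebraMap ℂ (RatFunc ℂ) c) = 1 :=
  Ord2_val_eq_one.2 ⟨(map_ne_zero _).2 hc, w.const c, by rw [← map_inv₀]; exact w.const _⟩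

theorem poly_mem (w : Place ℂ (RatFunc ℂ)) {c : ℂ} (h : w.O.valuation (lf c) < 1) (r : ℂ[X]) :
    algebraMap ℂ[X] (RatFunc ℂ) r ∈ w.O := by
  have hX : algebraMap ℂ[X] (RatFunc ℂ) Polynomial.X ∈ w.O := by
    have h1 := add_mem ((w.O.valuation_le_one_iff _).1 h.le) (w.const c)
    rwa [lf, ← cst, ← map_add, sub_add_cancel] at h1
  induction r using Polynomial.induction_on' with
  | add p q hp hq => rw [map_add]; exact add_mem hp hq
  | monomial n a =>
    rw [← Polynomial.C_mul_X_pow_eq_monomial, map_mul, map_pow, cst]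
    exact mul_mem (w.const a) (pow_mem hX n)

theorem val_lt (w : Place ℂ (RatFunc ℂ)) {c : ℂ} (h : w.O.valuation (lf c) < 1) {r : ℂ[X]}
    (hr : r.eval c = 0) : w.O.valuation (algebraMap ℂ[X] (RatFunc ℂ) r) < 1 := by
  obtain ⟨s, rfl⟩ := Polynomial.dvd_iff_isRoot.2 hr
  rw [map_mul, map_mul]
  exact mul_lt_one_of_lt_of_le h ((w.O.valuation_le_one_iff _).2 (poly_mem w h s))

theorem val_one (w : Place ℂ (RatFunc ℂ)) {c : ℂ} (h : w.O.valuation (lf c) < 1) {r : ℂ[X]}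
    (hr : r.eval c ≠ 0) : w.O.valuation (algebraMap ℂ[X] (RatFunc ℂ) r) = 1 := by
  have h1 := val_lt w h (r := r - Polynomial.C (r.eval c)) (by simp)
  have h2 := val_cst w hr
  rw [← h2] at h1
  have h3 := Valuation.map_add_eq_of_lt_right _ h1
  rwa [← cst, ← map_add, sub_add_cancel, cst, h2] at h3

/-- the place at `c` -/
theorem place (c : ℂ) : ∃ v : Place ℂ (RatFunc ℂ), Disc v.O ∧ ord v.O (lf c) = 1 ∧
    v.O.valuation (lf c) < 1 ∧ ∀ w : Place ℂ (RatFunc ℂ), w.O.valuation (lf c) < 1 → w = v := by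
  obtain ⟨V, hV, h1, h2⟩ := exists_disc_prime (L := RatFunc ℂ) (Polynomial.prime_X_sub_C c)
  refine ⟨⟨V, hV.ne_top, fun a => cst a ▸ (h2 _).1⟩, hV, h1, (h2 _).2.2 dvd_rfl, fun w hw => ?_⟩
  have hle : V ≤ w.O := by
    intro f hf
    have hd : f.denom.eval c ≠ 0 := by
      intro h0
      have h3 := Polynomial.dvd_iff_isRoot.2 h0
      have h4 : algebraMap ℂ[X] (RatFunc ℂ) f.num = algebraMap ℂ[X] (RatFunc ℂ) f.denom * f := by
        rw [mul_comm, ← div_eq_iff ((map_ne_zero_iff _ (IsFractionRing.injective _ _)).2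
          f.denom_ne_zero), RatFunc.num_div_denom]
      have h5 : V.valuation (algebraMap ℂ[X] (RatFunc ℂ) f.num) < 1 := by
        rw [h4, map_mul]
        exact mul_lt_one_of_lt_of_le ((h2 _).2.2 h3) ((V.valuation_le_one_iff _).2 hf)
      exact (Polynomial.prime_X_sub_C c).not_isUnit
        (f.isCoprime_num_denom.isUnit_of_dvd' ((h2 _).2.1 h5) h3)
    rw [← RatFunc.num_div_denom f, div_eq_mul_inv]
    exact mul_mem (poly_mem w hw _) (Ord2_val_eq_one.1 (val_one w hw hd)).2.2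
  exact Place.ext ((hV.eq_or_top hle).resolve_right w.ne_top)

theorem lf_ne (c : ℂ) : lf c ≠ 0 :=
  (map_ne_zero_iff _ (IsFractionRing.injective _ _)).2 (Polynomial.X_sub_C_ne_zero c)

theorem div_eq : ∃ v₀ v₁ : Place ℂ (RatFunc ℂ), v₀.O.valuation (lf 0) < 1 ∧
    v₁.O.valuation (lf 1) < 1 ∧
    div ℂ (lf 0 / lf 1) = Finsupp.single v₀ 1 - Finsupp.single v₁ 1 := by
  obtain ⟨v₀, d0, o0, l0, u0⟩ := place 0
  obtain ⟨v₁, d1, o1, l1, u1⟩ := place 1
  refine ⟨v₀, v₁, l0, l1, ?_⟩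
  have a0 : v₀.O.valuation (lf 1) = 1 := val_one v₀ l0 (by simp)
  have a1 : v₁.O.valuation (lf 0) = 1 := val_one v₁ l1 (by simp)
  have hne : v₀ ≠ v₁ := fun h => by rw [← h, a0] at l1; exact lt_irrefl _ l1
  have key : (fun v : Place ℂ (RatFunc ℂ) => ord v.O (lf 0 / lf 1)) =
      ⇑(Finsupp.single v₀ 1 - Finsupp.single v₁ 1 : Place ℂ (RatFunc ℂ) →₀ ℤ) := by
    funext v
    rw [Finsupp.sub_apply]
    by_cases h0 : v = v₀
    · rw [h0, ord_div (lf_ne 0) (lf_ne 1), o0, ((val_eq_one_iff (Or.inl d0)).1 a0).2,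
        Finsupp.single_eq_same, Finsupp.single_eq_of_ne hne]
    by_cases h1 : v = v₁
    · rw [h1, ord_div (lf_ne 0) (lf_ne 1), o1, ((val_eq_one_iff (Or.inl d1)).1 a1).2,
        Finsupp.single_eq_same, Finsupp.single_eq_of_ne hne.symm]
    rw [Finsupp.single_eq_of_ne h0, Finsupp.single_eq_of_ne h1, sub_zero]
    by_cases hv : Disc v.O
    swap
    · exact dif_neg hv
    refine ((val_eq_one_iff (Or.inl hv)).1 ?_).2
    have b0 : 1 ≤ v.O.valuation (lf 0) := not_lt.1 fun h => h0 (u0 v h)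
    have b1 : 1 ≤ v.O.valuation (lf 1) := not_lt.1 fun h => h1 (u1 v h)
    have e : lf 0 = lf 1 + 1 := by simp [lf]
    have e' : lf 1 = lf 0 - 1 := by rw [e, add_sub_cancel_right]
    have c0 : v.O.valuation (lf 0) ≤ v.O.valuation (lf 1) := by
      rw [e]
      exact Valuation.map_add_le _ le_rfl (by rwa [map_one])
    have c1 : v.O.valuation (lf 1) ≤ v.O.valuation (lf 0) := by
      rw [e']
      exact Valuation.map_sub_le _ le_rfl (by rwa [map_one])
    rw [map_div₀, le_antisymm c0 c1, div_self ((Valuation.ne_zero_iff _).2 (lf_ne 1))]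
  have hf : (Function.support fun v : Place ℂ (RatFunc ℂ) => ord v.O (lf 0 / lf 1)).Finite := by
    rw [key]; exact Finsupp.hasFiniteSupport _
  ext v
  rw [div, mkDiv, dif_pos hf, Finsupp.ofSupportFinite_coe]
  exact congrFun key v

variable {X ι Λ : Type} [Fintype ι] {y : X → ι → ℂ} {G : Λ → Po ι}

theorem link (hC : St_CTR) (hV : Var y G) {x x' : X} {a a' : ℂ} (ha : a ≠ 0) (ha' : a' ≠ 0)
    (q : ι → ℂ[X]) (hq : ∀ l, aeval q (G l) = 0)
    (h01 : ∀ i, (q i).eval 0 = (a • y x) i ∧ (q i).eval 1 = (a' • y x') i) :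
    Finsupp.single x 1 - Finsupp.single x' 1 ∈ RatTriv y := by
  have := ff
  obtain ⟨v₀, v₁, l0, l1, hd⟩ := div_eq
  have hγ : (fun l => algebraMap ℂ[X] (RatFunc ℂ) (q l)) ≠ 0 := by
    intro h
    refine hV.ne x (funext fun l => ?_)
    have h1 : q l = 0 := (map_eq_zero_iff _ (IsFractionRing.injective ℂ[X] (RatFunc ℂ))).1
      (congrFun h l)
    have h2 := (h01 l).1
    rw [h1, Polynomial.eval_zero, Pi.smul_apply, smul_eq_mul] at h2
    exact (mul_eq_zero.1 h2.symm).resolve_left ha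
  obtain ⟨ctr, c1, c2, -⟩ := hC X ι Λ (RatFunc ℂ) y G _ hV hγ (fun l => by
    have h1 := congrArg (IsScalarTower.toAlgHom ℂ ℂ[X] (RatFunc ℂ)) (hq l)
    rwa [map_zero, comp_aeval_apply] at h1)
  have hc : ∀ (v : Place ℂ (RatFunc ℂ)) (c b : ℂ) (z : X), v.O.valuation (lf c) < 1 → b ≠ 0 →
      (∀ i, (q i).eval c = (b • y z) i) → ctr v = z := by
    intro v c b z hv hb h
    refine c2 v z (algebraMap ℂ (RatFunc ℂ) b⁻¹) fun l => ?_
    rw [← cst, ← cst, ← map_mul, ← map_sub]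
    refine val_lt v hv ?_
    simp [h l, hb]
  refine AddSubgroup.subset_closure ⟨RatFunc ℂ, inferInstance, inferInstance, ff, _, ctr,
    lf 0 / lf 1, div_ne_zero (lf_ne 0) (lf_ne 1), c1, ?_⟩
  rw [hd, Finsupp.mapDomain_sub, Finsupp.mapDomain_single, Finsupp.mapDomain_single,
    hc v₀ 0 a x l0 ha fun i => (h01 i).1, hc v₁ 1 a' x' l1 ha' fun i => (h01 i).2]

end RCE

theorem bRCE (hC : St_CTR) : St_RCE := by
  intro X ι Λ _ y G x x' a a' hV ha h
  have hx : a • y x ≠ 0 := smul_ne_zero ha (hV.ne x)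
  have key : ∀ w, Chn ℂ G (a • y x) w → w ≠ 0 ∧ ∀ (x' : X) (a' : ℂ), w = a' • y x' →
      Finsupp.single x 1 - Finsupp.single x' 1 ∈ RatTriv y := by
    intro w hw
    induction hw with
    | refl =>
      refine ⟨hx, fun x' a' h => ?_⟩
      rw [hV.inj x x' (a⁻¹ * a') (by rw [mul_smul, ← h, inv_smul_smul₀ ha]), sub_self]
      exact zero_mem _
    | @tail w w' _ hl ih =>
      obtain ⟨h0, q, hq, h01⟩ := hl
      refine ⟨h0, fun x' a' h => ?_⟩
      have hq' : ∀ l, aeval q (G l) = 0 := fun l => by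
        have h1 : aeval q (map (algebraMap ℂ ℂ) (G l)) = 0 := hq l
        rwa [Algebra.algebraMap_self, map_id] at h1
      obtain ⟨z, b, hz⟩ := hV.onto w ih.1 fun l => by
        have h1 := congrArg (Polynomial.aeval (0 : ℂ)) (hq' l)
        rw [map_zero, comp_aeval_apply] at h1
        simp only [Polynomial.coe_aeval_eq_eval, (h01 _).1] at h1
        exact h1
      have hb : b ≠ 0 := fun e => ih.1 (by rw [hz, e, zero_smul])
      have ha' : a' ≠ 0 := fun e => h0 (by rw [h, e, zero_smul])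
      have h2 := add_mem (ih.2 z b hz) (RCE.link hC hV hb ha' q hq' (by rwa [← hz, ← h]))
      rwa [sub_add_sub_cancel] at h2
  exact (key _ h).2 x' a' rfl

end Pool.Agent.Lib.LF
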