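import Pool.Agent.Lib.LF.BBlue

/-! Project lf, block SEI: the lemma of Seidenberg. -/

namespace Pool.Agent.Lib.LF

namespace SEI

variable {R : Type} [CommRing R]

theorem pow_mem {I P : Ideal R} (hP : P ∈ I.minimalPrimes) {a : R} (ha : a ∈ P) :
    ∃ (N : ℕ) (s : R), s ∉ P ∧ s * a ^ N ∈ I := by
  have := hP.1.1
  have h := IsLocalization.AtPrime.radical_map_of_mem_minimalPrimes (Localization.AtPrime P) P I hP
  obtain ⟨N, hN⟩ : algebraMap R (Localization.AtPrime P) a ∈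
      (I.map (algebraMap R (Localization.AtPrime P))).radical :=
    h ▸ Ideal.mem_map_of_mem _ ha
  rw [← map_pow, IsLocalization.algebraMap_mem_map_algebraMap_iff P.primeCompl] at hN
  obtain ⟨s, h1, h2⟩ := hN
  exact ⟨N, s, h1, h2⟩

theorem step [Algebra ℂ R] (D : Derivation ℂ R R) {I P : Ideal R} (hP : P.IsPrime) (hI : I ≤ P)
    (h : ∀ a ∈ I, D a ∈ I) (a : R) (N : ℕ) : ∀ s ∉ P, s * a ^ N ∈ I → D a ∈ P := by
  induction N with
  | zero => exact fun s h1 h2 => (h1 (hI (by simpa using h2))).elim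
  | succ N ih =>
    intro s h1 h2
    by_contra h3
    have h4 : ((N + 1 : ℕ) : R) ∉ P := fun h5 => hP.ne_top (P.eq_top_of_isUnit_mem h5 (by
      rw [← map_natCast (algebraMap ℂ R)]
      exact (Ne.isUnit (Nat.cast_ne_zero.2 N.succ_ne_zero)).map _))
    refine h3 (ih (((N + 1 : ℕ) : R) * (s * (s * D a))) (fun h5 => ?_) ?_)
    · exact h3 ((hP.mem_or_mem ((hP.mem_or_mem ((hP.mem_or_mem h5).resolve_left h4)).resolve_left
        h1)).resolve_left h1)
    · have h5 := I.sub_mem (I.mul_mem_left s (h _ h2)) (I.mul_mem_left (D s) h2)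
      rw [Derivation.leibniz, Derivation.leibniz_pow] at h5
      refine (congrArg (· ∈ I) ?_).mp h5
      simp only [smul_eq_mul, nsmul_eq_mul, Nat.add_sub_cancel]
      ring

end SEI

theorem bSEI : St_SEI := by
  intro R _ _ D I h
  have h1 : ∀ P ∈ I.minimalPrimes, ∀ a ∈ P, D a ∈ P := fun P hP a ha => by
    obtain ⟨N, s, h2, h3⟩ := SEI.pow_mem hP ha
    exact SEI.step D hP.1.1 hP.1.2 h a N s h2 h3
  refine ⟨h1, fun a ha => ?_⟩
  rw [← Ideal.sInf_minimalPrimes, Ideal.mem_sInf] at ha ⊢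
  exact fun {_} hP => h1 _ hP a (ha hP)

end Pool.Agent.Lib.LF
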