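import Pool.Agent.Lib.LF.BBlue

/-! Spreading of a chain of rational curves. -/

open scoped Classical Polynomial
open Set MvPolynomial

noncomputable section

namespace Pool.Agent.Lib.LF

namespace SPR

variable {ι Λ Ω : Type} [Field Ω] [Algebra ℂ Ω]

theorem univ_poly [Finite ι] (q : ι → Polynomial Ω) :
    ∃ (N : ℕ) (Q : ι → Polynomial (Po (ι × Fin N)))
    (ω : ι × Fin N → Ω), ∀ i, (Q i).map (aeval ω : Po (ι × Fin N) →ₐ[ℂ] Ω).toRingHom = q i := by
  obtain ⟨N, hN⟩ := (Set.finite_range fun i => (q i).natDegree).bddAbove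
  refine ⟨N + 1, fun i => ∑ n : Fin (N + 1), Polynomial.monomial n (X (i, n)),
    fun x => (q x.1).coeff x.2, fun i => ?_⟩
  have h : (q i).natDegree < N + 1 := Nat.lt_succ_of_le (hN (mem_range_self i))
  conv_rhs => rw [(q i).as_sum_range' _ h, ← Fin.sum_univ_eq_sum_range
    (fun n => Polynomial.monomial n ((q i).coeff n))]
  rw [Polynomial.map_sum]
  refine Finset.sum_congr rfl fun n _ => ?_
  simp

theorem aeval_map_poly {σ K : Type} [Field K] [Algebra ℂ K] (Q : ι → (Po σ)[X]) (ω : σ → K)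
    (g : Po ι) :
    aeval (fun i => (Q i).map (aeval ω : Po σ →ₐ[ℂ] K).toRingHom) (map (algebraMap ℂ K) g) =
      (aeval Q g).map (aeval ω : Po σ →ₐ[ℂ] K).toRingHom := by
  rw [aeval_map_algebraMap]
  have := DFunLike.congr_fun (comp_aeval Q (Polynomial.mapAlgHom (aeval ω : Po σ →ₐ[ℂ] K))) g
  exact this.symm

theorem aeval_aeval {σ K : Type} [CommRing K] [Algebra ℂ K] (π : ι → Po σ) (ω : σ → K)
    (a : Po ι) : aeval ω (aeval π a) = aeval (fun l => aeval ω (π l)) a :=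
  DFunLike.congr_fun (comp_aeval π (aeval ω : Po σ →ₐ[ℂ] K)) a

theorem link [Finite ι] (hC : St_CHV) (G : Λ → Po ι) {z z' : ι → Ω}
    (hl : Lnk (fun l => map (algebraMap ℂ Ω) (G l)) z z') {g : Po ι} (hg : aeval z g ≠ 0) :
    ∃ h : Po ι, aeval z' h ≠ 0 ∧ ∀ w' : ι → ℂ, Spec z' w' → eval w' h ≠ 0 →
      ∃ w : ι → ℂ, Spec z w ∧ eval w g ≠ 0 ∧
        Lnk (fun l => map (algebraMap ℂ ℂ) (G l)) w w' := by
  obtain ⟨hz', q, hq, hq'⟩ := hl
  obtain ⟨N, Q, ω, hQ⟩ := univ_poly q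
  have h0 : (fun l => aeval ω ((Q l).eval 0)) = z := funext fun l => by
    rw [← (hq' l).1, ← hQ, Polynomial.eval_zero_map]
    rfl
  have h1 : (fun l => aeval ω ((Q l).eval 1)) = z' := funext fun l => by
    rw [← (hq' l).2, ← hQ, Polynomial.eval_one_map]
    rfl
  obtain ⟨h, hh, H⟩ := hC (ι × Fin N) ι Ω ω (fun l => (Q l).eval 1)
    (aeval (fun l => (Q l).eval 0) g) (by rwa [aeval_aeval, h0])
  rw [h1] at hh H
  obtain ⟨i, hi⟩ := Function.ne_iff.1 hz'
  refine ⟨h * X i, by rw [map_mul, aeval_X]; exact mul_ne_zero hh hi, fun w' hw' hw => ?_⟩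
  rw [map_mul, eval_X] at hw
  obtain ⟨u, hu, hug, hu1⟩ := H w' hw' (left_ne_zero_of_mul hw)
  refine ⟨fun l => aeval u ((Q l).eval 0), fun a ha => ?_, ?_,
    Function.ne_iff.2 ⟨i, right_ne_zero_of_mul hw⟩,
    fun l => (Q l).map (aeval u : Po (ι × Fin N) →ₐ[ℂ] ℂ).toRingHom, fun l => ?_, fun l => ?_⟩
  · rw [← aeval_aeval]
    apply hu
    rwa [aeval_aeval, h0]
  · intro h2
    apply hug
    exact (aeval_aeval (fun l => (Q l).eval 0) u g).trans h2
  · have h2 := hq l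
    rw [← funext hQ, aeval_map_poly] at h2
    rw [aeval_map_poly]
    ext n
    rw [Polynomial.coeff_map, Polynomial.coeff_zero]
    apply hu
    have h3 := congrArg (fun p => Polynomial.coeff p n) h2
    simp only [Polynomial.coeff_map, Polynomial.coeff_zero] at h3
    exact h3
  · rw [Polynomial.eval_zero_map, Polynomial.eval_one_map]
    exact ⟨rfl, hu1 l⟩

end SPR

theorem bSPR (hC : St_CHV) : St_SPR := by
  intro ι Λ Ω _ _ _ G z z' hz hc
  obtain ⟨i, hi⟩ := Function.ne_iff.1 hz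
  induction hc with
  | refl =>
    refine ⟨X i, by rwa [aeval_X], fun w' hw' hw => ⟨w', hw', ?_, Relation.ReflTransGen.refl⟩⟩
    rw [eval_X] at hw
    exact Function.ne_iff.2 ⟨i, hw⟩
  | tail _ hl ih =>
    obtain ⟨g, hg, H⟩ := ih
    obtain ⟨h, hh, H'⟩ := SPR.link hC G hl hg
    refine ⟨h, hh, fun w' hw' hw => ?_⟩
    obtain ⟨w1, h1, h2, h3⟩ := H' w' hw' hw
    obtain ⟨w, h4, h5, h6⟩ := H w1 h1 h2
    exact ⟨w, h4, h5, h6.tail h3⟩

end Pool.Agent.Lib.LF
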