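import Pool.Agent.Lib.LF.B_CLS

/-! Project lf: the theorem of Stokes. -/

open scoped Classical Topology ContDiff Matrix
open Set Complex Filter MvPolynomial MeasureTheory

noncomputable section

namespace Pool.Agent.Lib.LF

open Pool.Agent.Lib.SV (E)
open Pool.Agent.Lib.HS32

namespace STK

variable {m : ℕ}

theorem law (hT : St_TOP) (J : Mat m) (Γ : Fin m → Frm m) (b : Fin m) :
    ∑ l, star (J b l) * top (∑ a, X (l, a) * ∑ c, C (J c a) * sub Jᴴ J (Γ c)) =
      (normSq J.det : ℂ) * top (∑ c, X (b, c) * Γ c) := by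
  have h := (hT m).2.2.2.1 Jᴴ J (∑ c, X (b, c) * Γ c)
  rw [Matrix.det_conjTranspose] at h
  rw [Complex.normSq_eq_conj_mul_self]
  refine Eq.trans ?_ h
  simp only [← CLS.top_C, ← CLS.top_sum]
  congr 1
  have e : ∀ c, sub Jᴴ J (X (b, c)) = ∑ l, ∑ a, C (star (J b l) * J c a) * X (l, a) := fun c => by
    simp [sub]
  simp only [map_sum, map_mul, e, Finset.mul_sum, Finset.sum_mul]
  conv_rhs => rw [Finset.sum_comm]
  refine Finset.sum_congr rfl fun l _ => ?_
  conv_rhs => rw [Finset.sum_comm]
  exact Finset.sum_congr rfl fun a _ => Finset.sum_congr rfl fun c _ => by ring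

end STK

theorem bSTK (hC : St_CLS) (hT : St_TOP) : St_STK := by
  intro m M _ H hH
  refine ⟨fun Φ hΦ => ?_, fun I _ β Φ h1 h2 => ?_⟩
  · have hI : M.Inv fun e z => top (Φ e z) / (H e z).det := fun e he e' he' x hx hx' => by
      have h0 := ((mTR m M).2.1 e he e' he' x hx hx').2.1
      have h0' : (M.J e e' x)ᴴ.det ≠ 0 := by
        rw [Matrix.det_conjTranspose]
        exact star_ne_zero.2 h0
      have h3 := hH.det_ne.at he hx
      beta_reduce
      rw [hΦ.cmp e he e' he' x hx hx', hH.cmp e he e' he' x hx hx', (hT m).2.2.2.1,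
        Matrix.det_mul, Matrix.det_mul]
      field_simp
    refine ⟨hI, (hI.sm fun e he z hz => ?_).continuous⟩
    simp only [div_eq_mul_inv]
    exact ((hC m z).2.2.2.2.2.2.2.1 _ (hΦ.cls e he z hz)).mul
      ((hH.sm e he z hz).det.inv (hH.det_ne e he z hz))
  · let W : M.Fam (E m) := fun e w l => top (∑ a, X (l, a) * ∑ i, C (β i e w a) * Φ i e w)
    have h3 : M.All fun e z => ContDiffAt ℝ ∞ (W e) z ∧
        dvb (W e) z = top (∑ i, lin (dbr (β i e) z) * Φ i e z) := fun e he z hz =>
      (hC m z).2.2.2.2.2.2.2.2 I (fun i => β i e) (fun i => Φ i e) (fun i => (h1 i e he z hz).1)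
        fun i => (h1 i e he z hz).2
    have hW : M.VDen fun e z => star (W e z) := by
      refine ⟨fun e he z hz => contDiffAt_pi.2 fun l =>
        cd_star (contDiffAt_pi.1 (h3 e he z hz).1 l), fun e he e' he' x hx hx' => funext fun b => ?_⟩
      have h4 := congrArg star
        (STK.law hT (M.J e e' x) (fun c => ∑ i, C (β i e (e x) c) * Φ i e (e x)) b)
      simp only [← h2 e he e' he' x hx hx'] at h4
      simpa [Matrix.mulVec, dotProduct, W, mul_comm] using h4
    obtain ⟨-, h5, h6⟩ := (mDIV m M H hH).2.2 W hW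
    have e : M.ev (fun e z => top (∑ i, lin (dbr (β i e) z) * Φ i e z) / (H e z).det) =
        M.ev fun e z => dvb (W e) z / (H e z).det :=
      Mf.ev_congr fun e he z hz => by beta_reduce; rw [(h3 e he z hz).2]
    exact ⟨e ▸ h5.continuous, by rw [itg, e]; exact h6 inferInstance⟩

end Pool.Agent.Lib.LF
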