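import Pool.Agent.Lib.LF.BBlue

/-! Project lf: the vector field is tangent to the reduced fibre. -/

open scoped Classical
open Set MvPolynomial

noncomputable section

namespace Pool.Agent.Lib.LF

namespace TAN

variable {X ι : Type} [Fintype ι]

/-- The value of a form at a multiple of a point. -/
theorem ev_smul {g : Po ι} {d : ℕ} (hg : g.IsHomogeneous d) (a : ℂ) (w : ι → ℂ) :
    eval (a • w) g = a ^ d * eval w g := by
  rw [eval_eq', eval_eq', Finset.mul_sum]
  refine Finset.sum_congr rfl fun s hs => ?_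
  have h : ∑ i, s i = d := by
    rw [hg.degree_eq_sum_deg_support hs]
    exact (Finset.sum_subset (Finset.subset_univ _) fun i _ hi => by simpa using hi).symm
  simp only [Pi.smul_apply, smul_eq_mul, mul_pow, Finset.prod_mul_distrib,
    Finset.prod_pow_eq_pow_sum, h]
  ring

/-- The derivation with coefficients `H`. -/
def der (H : ι → Po ι) : Derivation ℂ (Po ι) (Po ι) := ∑ l, H l • pderiv l

theorem der_apply (H : ι → Po ι) (g : Po ι) : der H g = ∑ l, H l * pderiv l g := by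
  have h := congrFun (map_sum (Derivation.coeFnAddMonoidHom (R := ℂ) (A := Po ι) (M := Po ι))
    (fun l => H l • pderiv l) Finset.univ) g
  rw [Finset.sum_apply] at h
  exact h

theorem der_hom {H : ι → Po ι} {e d : ℕ} (hH : ∀ l, (H l).IsHomogeneous e) {g : Po ι}
    (hg : g.IsHomogeneous d) : (der H g).IsHomogeneous (e + (d - 1)) := by
  rw [der_apply]
  exact IsHomogeneous.sum _ _ _ fun l _ => (hH l).mul hg.pderiv

theorem euler {g : Po ι} {d : ℕ} (hg : g.IsHomogeneous d) (w : ι → ℂ) :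
    dir g w w = d * eval w g := by
  have h := congrArg (eval w) hg.sum_X_mul_pderiv
  simp only [map_sum, map_mul, eval_X, nsmul_eq_mul, map_natCast] at h
  rw [← h, dir]
  exact Finset.sum_congr rfl fun l _ => mul_comm _ _

theorem ev_der {H : ι → Po ι} {w u : ι → ℂ} {t a : ℂ}
    (h : (fun l => eval w (H l)) = t • u + a • w) {g : Po ι} {d : ℕ} (hg : g.IsHomogeneous d) :
    eval w (der H g) = t * dir g w u + a * (d * eval w g) := by
  rw [← euler hg, der_apply, map_sum, dir, dir, Finset.mul_sum, Finset.mul_sum,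
    ← Finset.sum_add_distrib]
  refine Finset.sum_congr rfl fun l _ => ?_
  rw [map_mul, congrFun h l]
  simp only [Pi.add_apply, Pi.smul_apply, smul_eq_mul]
  ring

/-- A derivation that sends the generators of an ideal into the ideal preserves it. -/
theorem der_span {R : Type} [CommRing R] [Algebra ℂ R] (D : Derivation ℂ R R) (S : Set R)
    (h : ∀ a ∈ S, D a ∈ Ideal.span S) : ∀ a ∈ Ideal.span S, D a ∈ Ideal.span S := by
  intro a ha
  induction ha using Submodule.span_induction with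
  | mem a ha => exact h a ha
  | zero => simp
  | add a b _ _ ha hb =>
    rw [map_add]
    exact add_mem ha hb
  | smul r a h1 h2 =>
    rw [smul_eq_mul, D.leibniz, smul_eq_mul, smul_eq_mul]
    exact add_mem (Ideal.mul_mem_left _ _ h2) (Ideal.mul_mem_right _ _ h1)

/-- The Nullstellensatz on the cone. -/
theorem null {Λ : Type} {y : X → ι → ℂ} {G : Λ → Po ι} (hV : Var y G) {S : Set (Po ι)}
    (hS : ∀ g ∈ S, ∃ d, g.IsHomogeneous d) (hG : ∀ l, G l ∈ S) {f : Po ι} {d : ℕ}
    (hf : f.IsHomogeneous d) (h : ∀ x, (∀ g ∈ S, eval (y x) g = 0) → eval (y x) f = 0) (i : ι) :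
    MvPolynomial.X i * f ∈ (Ideal.span S).radical := by
  rw [← vanishingIdeal_zeroLocus_eq_radical (K := ℂ), zeroLocus_span, mem_vanishingIdeal_iff]
  intro w hw
  simp only [mem_ofPred_eq, aeval_eq_eval] at hw
  rw [aeval_eq_eval, map_mul, eval_X]
  by_cases h0 : w = 0
  · simp [h0]
  obtain ⟨x, a, rfl⟩ := hV.onto w h0 fun l => hw _ (hG l)
  have ha : a ≠ 0 := by
    rintro rfl
    exact h0 (zero_smul _ _)
  rw [ev_smul hf, h x fun g hg => ?_, mul_zero, mul_zero]
  obtain ⟨e, he⟩ := hS g hg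
  have h1 := hw g hg
  rw [ev_smul he] at h1
  exact (mul_eq_zero.1 h1).resolve_left (pow_ne_zero _ ha)

end TAN

open TAN in
theorem bTAN (hS : St_SEI) : St_TAN := by
  intro X ι κ Λ σ _ y G p d Q b c hV hb hQ hQ0 hQp hp
  have hc : ∀ x, (∃ a : ℂ, p x = a • b) → p x c ≠ 0 := by
    rintro x ⟨a, ha⟩ h
    rw [ha, Pi.smul_apply, hb, smul_eq_mul, mul_one] at h
    exact hp x (by rw [ha, h, zero_smul])
  have hz : ∀ x, (∃ a : ℂ, p x = a • b) → ∀ s l, eval (y x) (Q s l - C (b l) * Q s c) = 0 := by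
    rintro x ⟨a, ha⟩ s l
    obtain ⟨a', ha'⟩ := hQp s x
    rw [map_sub, map_mul, eval_C, congrFun ha' l, congrFun ha' c, ha]
    simp only [Pi.smul_apply, smul_eq_mul, hb]
    ring
  have hi : ∀ x s l₀, eval (y x) (Q s l₀) ≠ 0 →
      (∀ l, eval (y x) (Q s l - C (b l) * Q s c) = 0) → ∃ a : ℂ, p x = a • b := by
    intro x s l₀ h0 h
    obtain ⟨a', ha'⟩ := hQp s x
    have h1 : a' ≠ 0 := by
      rintro rfl
      exact h0 (by simpa using congrFun ha' l₀)
    refine ⟨p x c, funext fun l => mul_left_cancel₀ h1 ?_⟩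
    have h2 := h l
    rw [map_sub, map_mul, eval_C, congrFun ha' l, congrFun ha' c] at h2
    simp only [Pi.smul_apply, smul_eq_mul] at h2 ⊢
    linear_combination h2
  have hg : ∀ s l, (Q s l - C (b l) * Q s c).IsHomogeneous (d s) := fun s l =>
    (hQ s l).sub ((hQ s c).C_mul _)
  refine ⟨⟨range fun t : σ × κ => Q t.1 t.2 - C (b t.2) * Q t.1 c, ?_, ?_⟩,
    fun v h1 h2 h3 => ⟨fun x hx => ?_, fun g e hge hgv x hx => ?_⟩⟩
  · rintro _ ⟨t, rfl⟩
    exact ⟨_, hg _ _⟩
  · ext x
    refine ⟨fun hx => ?_, fun hx => ?_⟩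
    · rintro _ ⟨t, rfl⟩
      exact hz x hx _ _
    · obtain ⟨s, l, h0⟩ := hQ0 x
      exact hi x s l h0 fun l => hx _ ⟨(s, l), rfl⟩
  · obtain ⟨e, h, H, hR, h0, -⟩ := h1 x (hc x hx)
    exact ⟨e, h, H, ⟨hR.hh, hR.hH, fun x _ => hR.eq x trivial⟩, h0⟩
  obtain ⟨e', h, H, hR, h0, hh⟩ := h1 x (hc x hx)
  obtain ⟨s, l₀, hs⟩ := hQ0 x
  have hsc : eval (y x) (Q s c) ≠ 0 := by
    intro h4
    have h5 := hz x hx s l₀
    rw [map_sub, map_mul, h4, mul_zero, sub_zero] at h5
    exact hs h5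
  obtain ⟨i, hi0⟩ := Function.ne_iff.1 (hV.ne x)
  set S : Set (Po ι) := {f | (∃ n, f.IsHomogeneous n) ∧ Van y univ f} ∪
    range fun l => Q s l - C (b l) * Q s c
  have k1 : ∀ a ∈ S, (Q s c • der H) a ∈ Ideal.span S := by
    rintro a (⟨⟨n, hn⟩, hv⟩ | ⟨l, rfl⟩)
    · rw [Derivation.smul_apply, smul_eq_mul]
      refine Ideal.mul_mem_left _ _ (Ideal.subset_span (Or.inl ⟨⟨_, der_hom hR.hH hn⟩, ?_⟩))
      intro x' _
      obtain ⟨a', ha'⟩ := hR.eq x' trivial
      rw [ev_der ha' hn, hv x' trivial]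
      by_cases h4 : eval (y x') h = 0
      · simp [h4]
      · simp [h2 a n hn hv x' (hh x' h4)]
    · have h4 : (Q s c • der H) (Q s l - C (b l) * Q s c) =
          (Q s c * der H (Q s l) - Q s l * der H (Q s c)) +
            (Q s l - C (b l) * Q s c) * der H (Q s c) := by
        rw [Derivation.smul_apply, map_sub, Derivation.leibniz, derivation_C]
        simp only [smul_eq_mul]
        ring
      rw [h4]
      refine add_mem (Ideal.subset_span (Or.inl ⟨⟨_, ((hQ s c).mul (der_hom hR.hH (hQ s l))).sub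
        ((hQ s l).mul (der_hom hR.hH (hQ s c)))⟩, fun x' _ => ?_⟩))
        (Ideal.mul_mem_right _ _ (Ideal.subset_span (Or.inr ⟨l, rfl⟩)))
      obtain ⟨a', ha'⟩ := hR.eq x' trivial
      rw [map_sub, map_mul, map_mul, ev_der ha' (hQ s l), ev_der ha' (hQ s c)]
      by_cases h5 : eval (y x') h = 0
      · rw [h5]
        ring
      · linear_combination eval (y x') h * h3 x' s l (hh x' h5)
  have k2 : MvPolynomial.X i * (Q s c * g) ∈ (Ideal.span S).radical := by
    refine null hV ?_ (fun l => Or.inl ⟨hV.hom l, fun x _ => hV.zero x l⟩) ((hQ s c).mul hge)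
      (fun x' hx' => ?_) i
    · rintro a (ha | ⟨l, rfl⟩)
      exacts [ha.1, ⟨_, hg s l⟩]
    · rw [map_mul]
      by_cases h4 : eval (y x') (Q s c) = 0
      · rw [h4, zero_mul]
      · rw [hgv x' (hi x' s c h4 fun l => hx' _ (Or.inr ⟨l, rfl⟩)), mul_zero]
  have k3 : (Ideal.span S).radical ≤ RingHom.ker (eval (y x)) := by
    refine (RingHom.ker_isPrime _).isRadical.radical_le_iff.2 (Ideal.span_le.2 ?_)
    rintro a (ha | ⟨l, rfl⟩)
    exacts [ha.2 x trivial, hz x hx s l]
  have k4 := k3 ((hS _ _ _ (der_span _ S k1)).2 _ k2)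
  obtain ⟨a, ha⟩ := hR.eq x trivial
  rw [RingHom.mem_ker, Derivation.smul_apply, ← mul_assoc, Derivation.leibniz] at k4
  simp only [smul_eq_mul, map_mul, map_add, ev_der ha hge, hgv x hx, eval_X, mul_zero, zero_mul,
    add_zero, mul_eq_zero, hsc, h0, false_or, or_false] at k4
  exact k4.resolve_left hi0

end Pool.Agent.Lib.LF
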