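import Pool.Agent.Lib.LF.B_KX
import Pool.Agent.Lib.LF.B_TAN
import Pool.Agent.Lib.LF.Kit99

/-! Project lf, block TGT: derivations of the field of complex numbers give tangent vectors. -/

open scoped Classical Topology Matrix
open Set Filter MvPolynomial

noncomputable section

namespace Pool.Agent.Lib.LF

open Pool.Agent.Lib.SV (E)
open Pool.Agent.Lib.HS32
open Pool.Agent.Lib.PN (Prj PMap Pol)

namespace TGT

variable {ι : Type} [Fintype ι]

theorem dir_add (g : Po ι) (w u v : ι → ℂ) (t : ℂ) :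
    dir g w (t • u + v) = t * dir g w u + dir g w v := by
  simp only [dir, Pi.add_apply, Pi.smul_apply, smul_eq_mul, Finset.mul_sum,
    ← Finset.sum_add_distrib]
  exact Finset.sum_congr rfl fun _ _ => by ring

/-- The chain rule for a derivation that kills the coefficients. -/
theorem chain {k : Subfield ℂ} (δ : Derivation k ℂ ℂ) (u : ι → ℂ) {g : Po ι} (hg : Cf k g) :
    δ (eval u g) = dir g u fun j => δ (u j) := by
  obtain ⟨g, rfl⟩ := K99.cf_lift hg
  clear hg
  induction g using MvPolynomial.induction_on with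
  | C a => simp [dir]
  | add p q hp hq => simp only [dir, map_add, add_mul, Finset.sum_add_distrib] at *; rw [hp, hq]
  | mul_X p i hp =>
    simp only [dir, map_mul, map_X, eval_X, Derivation.leibniz, smul_eq_mul, map_add, add_mul,
      Finset.sum_add_distrib, pderiv_X, hp, Finset.mul_sum]
    congr 1
    · simp [Pi.single_apply, apply_ite (eval u)]
    · exact Finset.sum_congr rfl fun j _ => (mul_assoc _ _ _).symm

/-- The tangent space of the cone is the kernel of the Jacobian matrix. -/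
theorem tangent {ρ m e : ℕ} {M : Mf m} {Λ : Type} {G : Λ → Pol (ρ + m)}
    {f : M.X → Fin (ρ + m + 1) → ℂ} (hG : Prj M e G f) {c : M.Ch} {z : E m}
    {F : E m → Fin (ρ + m + 1) → ℂ} (hF : PN.Lift M f c z F) {w : Fin (ρ + m + 1) → ℂ}
    (hw : ∀ l, dir (G l) (F z) w = 0) : ∃ (t : ℂ) (v : E m), w = t • F z + fderiv ℂ F z v := by
  obtain ⟨I, S, hI⟩ := hG.jac (c.symm z)
  obtain ⟨a, ha, hz⟩ := hF.ev.self_of_nhds
  let J : Matrix (Fin ρ) (Fin (ρ + m + 1)) ℂ := Matrix.of fun r j =>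
    eval (f (c.symm z)) (pderiv j (G (I r)))
  have h1 : LinearIndependent ℂ J.row := PN.Cert.indep (κ := ℂ) (ξ := f (c.symm z)) hI
  have h2 : ∀ u, (∀ l, dir (G l) (F z) u = 0) → u ∈ LinearMap.ker J.mulVecLin := by
    intro u hu
    funext r
    have h := hu (I r)
    simp only [dir, hz, TAN.ev_smul (hG.hom _).pderiv, mul_assoc, ← Finset.mul_sum] at h
    exact (mul_eq_zero.1 h).resolve_left (pow_ne_zero _ ha)
  have h3 : Module.finrank ℂ (LinearMap.ker J.mulVecLin) = m + 1 := by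
    have h4 := LinearMap.finrank_range_add_finrank_ker J.mulVecLin
    have h5 : Module.finrank ℂ (LinearMap.range J.mulVecLin) = Fintype.card (Fin ρ) :=
      h1.rank_matrix
    simp only [Module.finrank_fintype_fun_eq_card, Fintype.card_fin] at h4 h5
    omega
  let L : ℂ × E m →ₗ[ℂ] Fin (ρ + m + 1) → ℂ :=
    (LinearMap.toSpanSingleton ℂ _ (F z)).coprod (fderiv ℂ F z).toLinearMap
  have h4 : Function.Injective L := by
    refine (injective_iff_map_eq_zero L).2 fun tv h => ?_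
    have h5 : tv.1 • F z + fderiv ℂ F z tv.2 = 0 := h
    have h6 := hG.imm c z F hF (-tv.1) tv.2 (by rw [neg_smul]; exact eq_neg_of_add_eq_zero_right h5)
    rw [h6, map_zero, add_zero] at h5
    exact Prod.ext ((smul_eq_zero.1 h5).resolve_right (hF.ne hG.map.ne)) h6
  have h0 : ∀ l, (fun x => eval (F x) (G l)) =ᶠ[𝓝 z] fun _ => 0 := fun l => by
    filter_upwards [hF.ev] with x ⟨b, _, hb⟩
    rw [hb, TAN.ev_smul (hG.hom l), hG.zero, mul_zero]
  have h5 : LinearMap.range L ≤ LinearMap.ker J.mulVecLin := by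
    rintro _ ⟨tv, rfl⟩
    refine h2 _ fun l => ?_
    have h6 : dir (G l) (F z) (fderiv ℂ F z tv.2) = 0 := by
      rw [dir, ← (PN.fderiv_eval hF.hol.self_of_nhds (G l) _).2, (h0 l).fderiv_eq]
      simp
    have h7 : L tv = tv.1 • F z + fderiv ℂ F z tv.2 := rfl
    have h8 : eval (F z) (G l) = 0 := (h0 l).self_of_nhds
    rw [h7, dir_add, h6, TAN.euler (hG.hom l), h8]
    simp
  have h6 := Submodule.eq_of_le_of_finrank_eq h5 (by
    rw [LinearMap.finrank_range_of_inj h4, h3]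
    simp [add_comm])
  obtain ⟨tv, h7⟩ := h6.ge (h2 w hw)
  exact ⟨tv.1, tv.2, h7.symm⟩

end TGT

open TGT in
theorem bTGT : St_TGT := by
  intro ρ m e M Λ κ σ _ G f p d Q k hG hQ hp cG cQ x c hc ξ hξ δ
  obtain ⟨c₀, h0, hx⟩ := M.cov x
  obtain ⟨i, hi⟩ := Function.ne_iff.1 (hG.map.ne x)
  have hz := c₀.map_source hx
  have hl := c₀.left_inv hx
  obtain ⟨-, hF⟩ := KX.loc hG.map h0 hz (c := i) (by rwa [hl])
  obtain ⟨h1, hB⟩ := KX.loc hp h0 hz (c := c) (by rwa [hl])
  set F := aff f i ∘ c₀.symm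
  set B := aff p c ∘ c₀.symm with hBd
  obtain ⟨a, ha, hFz⟩ := hF.ev.self_of_nhds
  obtain ⟨t, v, hv⟩ := tangent hG hF (w := fun j => δ (F (c₀ x) j)) fun l => by
    rw [← chain δ _ (cG l), hFz, TAN.ev_smul (hG.hom l), hG.zero, mul_zero, map_zero]
  obtain ⟨s, l₀, hs⟩ := hQ.cov (c₀.symm (c₀ x))
  have h2 : ∀ l, (fun w => eval (F w) (Q s l)) =ᶠ[𝓝 (c₀ x)]
      fun w => B w l * eval (F w) (Q s c) := fun l => by
    filter_upwards [hF.ev, h1] with w ⟨b, _, hb⟩ hw
    obtain ⟨b', hb'⟩ := hQ.par s (c₀.symm w)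
    rw [hb, TAN.ev_smul (hQ.hom s l), TAN.ev_smul (hQ.hom s c), congrFun hb' l, congrFun hb' c]
    simp only [hBd, aff, Function.comp, Pi.smul_apply, smul_eq_mul]
    field_simp
  have h3 : eval (F (c₀ x)) (Q s c) ≠ 0 := fun h => by
    have h4 := (h2 l₀).self_of_nhds
    simp only [h, mul_zero] at h4
    rw [hFz, TAN.ev_smul (hQ.hom s l₀)] at h4
    exact mul_ne_zero (pow_ne_zero _ ha) hs h4
  have hFd := hF.hol.self_of_nhds
  have hBd' := hB.hol.self_of_nhds
  have h4 : ∀ l, δ (aff p c x l) = (jb p c c₀ (c₀ x) *ᵥ v) l := fun l => by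
    have e0 : aff p c x l = B (c₀ x) l := by rw [hBd, Function.comp, hl]
    have e1 : eval (F (c₀ x)) (Q s l) = B (c₀ x) l * eval (F (c₀ x)) (Q s c) := (h2 l).self_of_nhds
    have e2 := congrArg δ e1
    rw [δ.leibniz, chain δ _ (cQ s l), chain δ _ (cQ s c), hv, dir_add, dir_add,
      TAN.euler (hQ.hom s l), TAN.euler (hQ.hom s c), smul_eq_mul, smul_eq_mul] at e2
    have e3 := congrArg (fun L => L v) ((h2 l).fderiv_eq (𝕜 := ℂ))
    simp only [fderiv_fun_mul (differentiableAt_pi.1 hBd' l) (PN.fderiv_eval hFd (Q s c) v).1,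
      add_apply, smul_apply, (PN.fderiv_eval hFd _ v).2,
      fderiv_apply hBd', smul_eq_mul, ContinuousLinearMap.comp_apply,
      ContinuousLinearMap.proj_apply] at e3
    rw [e0, ← KX.fd]
    refine mul_left_cancel₀ h3 ?_
    simp only [dir] at e2
    linear_combination e3 - e2 + t * d s * e1
  simp only [h4]
  have h5 := Matrix.dotProduct_mulVec ξ (jb p c c₀ (c₀ x)) v
  rw [hξ.2 c₀ h0 hx c hc, zero_dotProduct] at h5
  exact h5

end Pool.Agent.Lib.LF
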