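import Pool.Agent.Lib.LF.ABlue

/-! Project lf, block TOP: the algebra of the component of top degree. The first part (up to
`top_prod_rko`) is the draft of helper90. -/

open scoped Classical Matrix
open MvPolynomial

noncomputable section

namespace Pool.Agent.Lib.LF

open Pool.Agent.Lib.SV (E)
open Pool.Agent.Lib.HS32

namespace TOP

variable {m : ℕ}

/-- `top` as a linear map -/
def topL (m : ℕ) : Frm m →ₗ[ℂ] ℂ where
  toFun := top
  map_add' P Q := by simp [top, mul_add, Finset.sum_add_distrib]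
  map_smul' c P := by simp [top, Finset.mul_sum, mul_left_comm]

theorem topL_apply (P : Frm m) : topL m P = top P := rfl

theorem top_add (P Q : Frm m) : top (P + Q) = top P + top Q := (topL m).map_add P Q

theorem top_sub (P Q : Frm m) : top (P - Q) = top P - top Q := (topL m).map_sub P Q

theorem top_neg (P : Frm m) : top (-P) = -top P := (topL m).map_neg P

theorem top_zero : top (0 : Frm m) = 0 := (topL m).map_zero

theorem top_smul (c : ℂ) (P : Frm m) : top (c • P) = c * top P := (topL m).map_smul c P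

theorem top_C_mul (c : ℂ) (P : Frm m) : top (C c * P) = c * top P := by
  rw [← smul_eq_C_mul, top_smul]

theorem top_sum {ι : Type*} (s : Finset ι) (P : ι → Frm m) :
    top (∑ i ∈ s, P i) = ∑ i ∈ s, top (P i) := map_sum (topL m) P s

/-- `lin` as a linear map -/
def linL (m : ℕ) : Mat m →ₗ[ℂ] Frm m where
  toFun := lin
  map_add' S T := by simp [lin, add_mul, Finset.sum_add_distrib]
  map_smul' c T := by simp [lin, Finset.smul_sum, smul_eq_C_mul, mul_assoc]

theorem linL_apply (T : Mat m) : linL m T = lin T := rfl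

theorem lin_add (S T : Mat m) : lin (S + T) = lin S + lin T := (linL m).map_add S T

theorem lin_smul (c : ℂ) (T : Mat m) : lin (c • T) = c • lin T := (linL m).map_smul c T

theorem lin_zero : lin (0 : Mat m) = 0 := (linL m).map_zero

theorem lin_sum {ι : Type*} (s : Finset ι) (T : ι → Mat m) :
    lin (∑ i ∈ s, T i) = ∑ i ∈ s, lin (T i) := map_sum (linL m) T s

/-- the form of rank one -/
def rko (w : E m × E m) : Frm m := lin (Matrix.vecMulVec w.1 w.2)

theorem rko_eq (w : E m × E m) : rko w = ∑ p : Fin m × Fin m, C (w.1 p.1 * w.2 p.2) * X p := by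
  simp [rko, lin, Fintype.sum_prod_type, Matrix.vecMulVec_apply]

theorem rko_single (b a : Fin m) : rko (Pi.single b 1, Pi.single a 1) = (X (b, a) : Frm m) := by
  rw [rko_eq, Finset.sum_eq_single (b, a)]
  · simp
  · rintro ⟨b', a'⟩ _ h
    by_cases hb : b' = b
    · have ha : a' ≠ a := fun ha => h (by rw [hb, ha])
      simp [Pi.single_eq_of_ne ha]
    · simp [Pi.single_eq_of_ne hb]
  · simp

theorem lin_eq_sum_rko (T : Mat m) : lin T = ∑ b, rko (Pi.single b 1, T b) := by
  simp only [rko, ← lin_sum]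
  congr 1
  ext b a
  simp [Matrix.sum_apply, Matrix.vecMulVec_apply, Pi.single_apply]

theorem key_sum {P : Type*} (s t : Fin m → P) (ht : Function.Injective t)
    [Decidable ((∑ i, Finsupp.single (s i) 1 : P →₀ ℕ) = ∑ a, Finsupp.single (t a) 1)]
    [∀ τ : Equiv.Perm (Fin m), Decidable (s = t ∘ τ)] :
    (if (∑ i, Finsupp.single (s i) 1 : P →₀ ℕ) = ∑ a, Finsupp.single (t a) 1 then (1 : ℂ) else 0) =
      ∑ τ : Equiv.Perm (Fin m), if s = t ∘ τ then 1 else 0 := by
  by_cases h : (∑ i, Finsupp.single (s i) 1 : P →₀ ℕ) = ∑ a, Finsupp.single (t a) 1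
  · have hv : ∀ (u : Fin m → P) (p : P),
        (∑ i, Finsupp.single (u i) 1 : P →₀ ℕ) p ≠ 0 ↔ ∃ i, u i = p := by
      intro u p
      simp [Finsupp.finsetSum_apply, Finsupp.single_apply]
    have h1 : ∀ i, ∃ a, t a = s i := fun i => (hv t _).1 (by rw [← h]; exact (hv s _).2 ⟨i, rfl⟩)
    choose f hf using h1
    have hs : Function.Surjective f := by
      intro a
      obtain ⟨i, hi⟩ := (hv s (t a)).1 (by rw [h]; exact (hv t _).2 ⟨a, rfl⟩)
      exact ⟨i, ht (by rw [hf, hi])⟩
    have hb : Function.Bijective f := Finite.surjective_iff_bijective.1 hs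
    rw [if_pos h, Finset.sum_eq_single (Equiv.ofBijective f hb)]
    · rw [if_pos]
      ext i
      simp [hf]
    · intro τ _ hτ
      rw [if_neg]
      intro h2
      apply hτ
      ext i
      have : t (τ i) = t (f i) := by rw [hf, h2]; rfl
      simp [ht this]
    · simp
  · rw [if_neg h]
    symm
    apply Finset.sum_eq_zero
    intro τ _
    rw [if_neg]
    rintro rfl
    exact h (Equiv.sum_comp τ fun a => (Finsupp.single (t a) 1 : P →₀ ℕ))

theorem prod_X_eq {ι P : Type*} (S : Finset ι) (s : ι → P) :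
    (∏ i ∈ S, X (s i) : MvPolynomial P ℂ) = monomial (∑ i ∈ S, Finsupp.single (s i) 1) 1 := by
  induction S using Finset.induction_on with
  | empty => simp
  | insert i S hi ih =>
    rw [Finset.prod_insert hi, Finset.sum_insert hi, ih, X, monomial_mul, one_mul]

theorem top_prod_rko (w : Fin m → E m × E m) :
    top (∏ i, rko (w i)) =
      (Matrix.of fun i => (w i).1).det * (Matrix.of fun i => (w i).2).det := by
  have h1 : ∀ ρ : Equiv.Perm (Fin m),
      coeff (∑ a, Finsupp.single (ρ a, a) 1) (∏ i, rko (w i)) =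
        ∑ τ : Equiv.Perm (Fin m), ∏ i, (w i).1 (ρ (τ i)) * (w i).2 (τ i) := by
    intro ρ
    simp only [rko_eq]
    rw [Finset.prod_univ_sum, coeff_sum, Fintype.piFinset_univ]
    have h2 : ∀ s : Fin m → Fin m × Fin m,
        coeff (∑ a, Finsupp.single (ρ a, a) 1)
          (∏ i, C ((w i).1 (s i).1 * (w i).2 (s i).2) * X (s i) : Frm m) =
        ∑ τ : Equiv.Perm (Fin m), if s = (fun a => (ρ a, a)) ∘ τ then
          ∏ i, (w i).1 (s i).1 * (w i).2 (s i).2 else 0 := by
      intro s
      rw [Finset.prod_mul_distrib, ← map_prod, coeff_C_mul, prod_X_eq, coeff_monomial,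
        key_sum s (fun a => (ρ a, a)) (fun a a' h => (Prod.ext_iff.1 h).2), Finset.mul_sum]
      simp
    simp only [h2]
    rw [Finset.sum_comm]
    simp
  simp only [top, h1, Finset.mul_sum]
  rw [Finset.sum_comm, ← Matrix.det_transpose (Matrix.of fun i => (w i).2),
    Matrix.det_apply' (Matrix.of fun i => (w i).2)ᵀ, Finset.mul_sum]
  refine Finset.sum_congr rfl fun τ _ => ?_
  rw [← Matrix.det_transpose (Matrix.of fun i => (w i).1), Matrix.det_apply', Finset.sum_mul,
    eq_comm, ← Equiv.sum_comp (Equiv.mulRight τ)]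
  refine Finset.sum_congr rfl fun ρ _ => ?_
  have h3 : ((Equiv.Perm.sign τ : ℤ) : ℂ) * ((Equiv.Perm.sign τ : ℤ) : ℂ) = 1 := by
    rw [← Int.cast_mul, ← Units.val_mul, Int.units_mul_self]; simp
  simp only [Equiv.coe_mulRight, Equiv.Perm.sign_mul, Units.val_mul, Int.cast_mul,
    Finset.prod_mul_distrib, Matrix.transpose_apply, Matrix.of_apply, Equiv.Perm.mul_apply]
  linear_combination (((Equiv.Perm.sign ρ : ℤ) : ℂ) * (∏ i, (w i).1 (ρ (τ i))) *
    ∏ i, (w i).2 (τ i)) * h3

theorem top_of_hom {P : Frm m} {k : ℕ} (h : P.IsHomogeneous k) (hk : k ≠ m) : top P = 0 := by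
  refine Finset.sum_eq_zero fun ρ _ => ?_
  rw [h.coeff_eq_zero, mul_zero]
  rw [map_sum]
  simpa using hk.symm

theorem top_of_lt {P : Frm m} (h : P.totalDegree < m) : top P = 0 := by
  refine Finset.sum_eq_zero fun ρ _ => ?_
  rw [coeff_eq_zero_of_totalDegree_lt, mul_zero]
  refine h.trans_le (le_of_eq ?_)
  change m = Finsupp.degree _
  rw [map_sum]
  simp

theorem lin_hom (T : Mat m) : (lin T).IsHomogeneous 1 :=
  IsHomogeneous.sum _ _ _ fun _ _ => IsHomogeneous.sum _ _ _ fun _ _ =>
    (isHomogeneous_X ℂ _).C_mul _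

theorem prod_rko_hom {k : ℕ} (w : Fin k → E m × E m) : (∏ i, rko (w i)).IsHomogeneous k := by
  simpa using IsHomogeneous.prod Finset.univ (fun i => rko (w i)) (fun _ => 1)
    fun i _ => lin_hom _

/-- Linear maps that agree on products of forms of rank one are equal. -/
theorem ext_rko {W : Type*} [AddCommGroup W] [Module ℂ W] {f g : Frm m →ₗ[ℂ] W}
    (h : ∀ (k : ℕ) (w : Fin k → E m × E m), f (∏ i, rko (w i)) = g (∏ i, rko (w i)))
    (P : Frm m) : f P = g P := by
  have h1 : ∀ μ : Fin m × Fin m →₀ ℕ, ∃ (k : ℕ) (w : Fin k → E m × E m),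
      (monomial μ 1 : Frm m) = ∏ i, rko (w i) := by
    intro μ
    induction μ using Finsupp.induction_linear with
    | zero => exact ⟨0, Fin.elim0, by simp⟩
    | add μ ν hμ hν =>
      obtain ⟨k, w, hw⟩ := hμ
      obtain ⟨k', w', hw'⟩ := hν
      refine ⟨k + k', Fin.append w w', ?_⟩
      rw [Fin.prod_univ_add]
      simp only [Fin.append_left, Fin.append_right]
      rw [← hw, ← hw', monomial_mul, one_mul]
    | single p n =>
      refine ⟨n, fun _ => (Pi.single p.1 1, Pi.single p.2 1), ?_⟩
      simp [rko_single, X_pow_eq_monomial]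
  induction P using MvPolynomial.induction_on' with
  | monomial μ a =>
    obtain ⟨k, w, hw⟩ := h1 μ
    have : (monomial μ a : Frm m) = a • monomial μ 1 := by simp [smul_monomial]
    rw [this, map_smul, map_smul, hw, h]
  | add P Q hP hQ => rw [map_add, map_add, hP, hQ]

theorem sub_X (U V : Mat m) (p : Fin m × Fin m) :
    sub U V (X p) = lin (Matrix.of fun b a => U b p.1 * V p.2 a) := by
  simp [sub, lin]

theorem sub_C (U V : Mat m) (c : ℂ) : sub U V (C c) = C c := by simp [sub]

theorem sub_lin (U V T : Mat m) : sub U V (lin T) = lin (U * T * V) := by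
  have : U * T * V = ∑ b, ∑ a, T b a • Matrix.of fun b' a' => U b' b * V a a' := by
    ext b' a'
    simp only [Matrix.mul_apply, Matrix.sum_apply, Matrix.smul_apply, Matrix.of_apply,
      smul_eq_mul, Finset.sum_mul]
    rw [Finset.sum_comm]
    exact Finset.sum_congr rfl fun _ _ => Finset.sum_congr rfl fun _ _ => by ring
  rw [this, lin_sum]
  simp only [lin_sum, lin_smul]
  conv_lhs => rw [lin]
  simp only [map_sum, map_mul, sub_X, sub_C, smul_eq_C_mul]

theorem sub_rko (U V : Mat m) (w : E m × E m) :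
    sub U V (rko w) = rko (U *ᵥ w.1, w.2 ᵥ* V) := by
  rw [rko, sub_lin, Matrix.mul_vecMulVec, Matrix.vecMulVec_mul, rko]

theorem top_sub_eq (U V : Mat m) (P : Frm m) : top (sub U V P) = U.det * V.det * top P := by
  refine ext_rko (f := topL m ∘ₗ (sub U V).toLinearMap) (g := (U.det * V.det) • topL m)
    (fun k w => ?_) P
  change top (sub U V _) = U.det * V.det * top _
  rw [map_prod]
  simp only [sub_rko]
  by_cases hk : k = m
  · subst hk
    have h1 : (Matrix.of fun i => U *ᵥ (w i).1) = (Matrix.of fun i => (w i).1) * Uᵀ := by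
      ext i j
      simp [Matrix.mul_apply, Matrix.mulVec, dotProduct, mul_comm]
    have h2 : (Matrix.of fun i => (w i).2 ᵥ* V) = (Matrix.of fun i => (w i).2) * V := by
      ext i j
      simp [Matrix.mul_apply, Matrix.vecMul, dotProduct]
    rw [top_prod_rko, top_prod_rko, h1, h2, Matrix.det_mul, Matrix.det_mul, Matrix.det_transpose]
    ring
  · rw [top_of_hom (prod_rko_hom _) hk, top_of_hom (prod_rko_hom _) hk, mul_zero]

theorem mul_rko {k : ℕ} (w : Fin k → E m × E m) (u v : E m × E m) :
    (∏ i, rko (w i)) * (rko u * rko v) =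
      ∏ i : Fin (k + 2), rko ((Fin.cons u (Fin.cons v w) : Fin (k + 2) → E m × E m) i) := by
  rw [Fin.prod_univ_succ, Fin.prod_univ_succ]
  simp only [Fin.cons_zero, Fin.cons_succ]
  ring

theorem top_swap (Γ : Frm m) (u u' v v' : E m) :
    top (Γ * (rko (u, v) * rko (u', v'))) = -top (Γ * (rko (u', v) * rko (u, v'))) := by
  refine ext_rko (f := topL m ∘ₗ LinearMap.mulRight ℂ (rko (u, v) * rko (u', v')))
    (g := -(topL m ∘ₗ LinearMap.mulRight ℂ (rko (u', v) * rko (u, v')))) (fun k w => ?_) Γ
  change top (_ * _) = -top (_ * _)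
  rw [mul_rko, mul_rko]
  by_cases hk : k + 2 = m
  · subst hk
    rw [top_prod_rko, top_prod_rko]
    have h1 : (Matrix.of fun i => ((Fin.cons (u, v) (Fin.cons (u', v') w) :
        Fin (k + 2) → E (k + 2) × E (k + 2)) i).1) =
        (Matrix.of fun i => ((Fin.cons (u', v) (Fin.cons (u, v') w) :
          Fin (k + 2) → E (k + 2) × E (k + 2)) i).1).submatrix (Equiv.swap 0 1) id := by
      ext i j
      refine Fin.cases ?_ (fun i => Fin.cases ?_ (fun i => ?_) i) i
      · simp
      · simp
      · have : Equiv.swap (0 : Fin (k + 2)) 1 i.succ.succ = i.succ.succ :=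
          Equiv.swap_apply_of_ne_of_ne (Fin.succ_ne_zero _)
            fun h => Fin.succ_ne_zero _ (Fin.succ_injective _ h)
        simp [this]
    have h2 : (Matrix.of fun i => ((Fin.cons (u, v) (Fin.cons (u', v') w) :
        Fin (k + 2) → E (k + 2) × E (k + 2)) i).2) =
        Matrix.of fun i => ((Fin.cons (u', v) (Fin.cons (u, v') w) :
          Fin (k + 2) → E (k + 2) × E (k + 2)) i).2 := by
      ext i j
      refine Fin.cases ?_ (fun i => Fin.cases ?_ (fun i => ?_) i) i <;> simp
    rw [h1, h2, Matrix.det_permute, Equiv.Perm.sign_swap (Fin.zero_ne_one' (n := k + 1))]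
    simp
  · rw [top_of_hom (prod_rko_hom _) hk, top_of_hom (prod_rko_hom _) hk, neg_zero]

theorem cu_conj (R : Fin m → Fin m → Mat m) (U V g g' : Mat m) :
    cu (fun k l => g * (∑ a, ∑ b, (V a k * U l b) • R a b) * g') =
      g.map C * (cu R).map (sub U V) * g'.map C := by
  ext1 p q
  have h : (Matrix.of fun l k => (g * (∑ a, ∑ b, (V a k * U l b) • R a b) * g') p q) =
      ∑ s, ∑ r, (g p r * g' s q) • (U * (Matrix.of fun b a => R a b r s) * V) := by
    ext l k
    simp only [Matrix.mul_apply, Matrix.sum_apply, Matrix.smul_apply, Matrix.of_apply,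
      smul_eq_mul, Finset.sum_mul, Finset.mul_sum]
    refine Finset.sum_congr rfl fun _ _ => ?_
    rw [eq_comm, Finset.sum_comm]
    refine Finset.sum_congr rfl fun _ _ => ?_
    rw [Finset.sum_comm]
    exact Finset.sum_congr rfl fun _ _ => Finset.sum_congr rfl fun _ _ => by ring
  simp only [cu, Matrix.of_apply]
  rw [h]
  simp only [lin_sum, lin_smul, Matrix.mul_apply (M := g.map C * _),
    Matrix.mul_apply (M := g.map C), Matrix.map_apply, Matrix.of_apply, sub_lin, Finset.sum_mul,
    smul_eq_C_mul, map_mul]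
  exact Finset.sum_congr rfl fun _ _ => Finset.sum_congr rfl fun _ _ => by ring

end TOP

theorem bTOP : St_TOP := by
  intro m
  refine ⟨⟨TOP.topL m, fun _ => rfl⟩, ⟨TOP.linL m, fun _ => rfl⟩, TOP.sub_lin, TOP.top_sub_eq,
    fun G l a b c => ?_, fun _ => TOP.top_of_lt, fun T => (TOP.lin_hom T).totalDegree_le,
    TOP.cu_conj⟩
  have := TOP.top_swap G (Pi.single l 1) (Pi.single b 1) (Pi.single a 1) (Pi.single c 1)
  simpa only [TOP.rko_single] using this

end Pool.Agent.Lib.LF
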