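import Pool.Agent.Lib.LF.ABlue

/-! Project lf: from the manifold layer to the statement. -/

open scoped Manifold ContDiff

namespace Pool.Agent.Lib.LF

open Pool.Agent.Lib.SV Pool.Agent.Lib.HS Pool.Agent.Lib.GH

theorem final (h₁ : St_BR1) (h₂ : St_BR2) (h₃ : St_BR3) (h₄ : St_MAIN) (j k m ρ r : ℕ) (X : Type)
    [TopologicalSpace X] [ChartedSpace (E m) X] [IsManifold 𝓘(ℂ, E m) ω X] [CompactSpace X]
    [T2Space X] [ConnectedSpace X] (y : X → E (ρ + m + 1)) (p : X → E (j + k + 1))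
    (S g : X → Mat m) (x : Fin r → X) (B : Fin r → Set (E m)) (hy : Emb m ρ y) (hp : Mor y p)
    (hS : Sympl y S) (hL : Lagr S p) (hg : Kaehler g) (hB : Cells x B)
    (h1 : chern j g (fsm m p) x B ≠ 0)
    (h2 : DimLt id {b | ∀ z (a : ℂ), b = a • p z → ¬Subm m p z} j) :
    Concl y (j * 2) (j * 2 + k) := by
  have : (BBR.mf m X).Cpt := ⟨‹T2Space X›, ‹CompactSpace X›, ‹ConnectedSpace X›⟩
  obtain ⟨⟨s, e, G, hG⟩, hpm, hK⟩ := h₁ m ρ (j + k) X y p hy hp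
  obtain ⟨hF, hP⟩ := h₂ m (j + k) X _ y p S hG.map hpm hS hL
  obtain ⟨hH, hI⟩ := h₃ m (j + k) j r X p g x B hpm hg hB
  obtain ⟨h0, s', d, Q, q1, q2, q3⟩ := hp
  rw [hI] at h1
  refine h₄ j k ρ m e s s' (BBR.mf m X) G y _ _ p d Q hG ⟨h0, q1, q2, q3⟩ hF hP hH hL.conn h1
    fun c l => ?_
  obtain ⟨q, hq, h3⟩ := h2 c l
  exact ⟨q, hq, fun b hb => h3 b fun z a h4 h5 => hb z a h4 (hK z h5)⟩

end Pool.Agent.Lib.LF
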