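import Pool.Agent.Lib.LF.B_INV

/-! Project lf: the integral does not depend on the connection. -/

open scoped Classical Topology ContDiff Matrix Polynomial
open Set Complex Filter MvPolynomial MeasureTheory

noncomputable section

namespace Pool.Agent.Lib.LF

open Pool.Agent.Lib.SV (E)
open Pool.Agent.Lib.HS32

namespace TRA

section alg

variable {A : Type} [CommRing A] {m : ℕ}

theorem adj_conj {g g' : Matrix (Fin m) (Fin m) A} (h : g' * g = 1) (h' : g * g' = 1)
    (N : Matrix (Fin m) (Fin m) A) : (g' * N * g).adjugate = g' * N.adjugate * g := by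
  have e1 : g.adjugate = g.det • g' := by
    rw [← Matrix.one_mul g.adjugate, ← h, Matrix.mul_assoc, Matrix.mul_adjugate, Matrix.mul_smul,
      Matrix.mul_one]
  have e2 : g'.adjugate = g'.det • g := by
    rw [← Matrix.one_mul g'.adjugate, ← h', Matrix.mul_assoc, Matrix.mul_adjugate, Matrix.mul_smul,
      Matrix.mul_one]
  rw [Matrix.adjugate_mul_distrib, Matrix.adjugate_mul_distrib, e1, e2, Matrix.smul_mul,
    Matrix.mul_smul, Matrix.mul_smul, smul_smul, ← Matrix.det_mul, h', Matrix.det_one, one_smul,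
    Matrix.mul_assoc]

variable [Algebra ℂ A]

theorem ev_eq (L : A →ₗ[ℂ] ℂ) {P : ℂ[X]} {Q : A[X]} (h : ∀ n, P.coeff n = L (Q.coeff n)) :
    P.natDegree ≤ Q.natDegree ∧ ∀ t, P.eval t = L (Q.eval (algebraMap ℂ A t)) := by
  have h1 : P.natDegree ≤ Q.natDegree := Polynomial.natDegree_le_iff_coeff_eq_zero.2 fun n hn => by
    rw [h, Polynomial.coeff_eq_zero_of_natDegree_lt hn, map_zero]
  refine ⟨h1, fun t => ?_⟩
  rw [Polynomial.eval_eq_sum_range' (Nat.lt_succ_of_le h1), Polynomial.eval_eq_sum_range, map_sum]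
  refine Finset.sum_congr rfl fun n _ => ?_
  rw [h, ← map_pow, mul_comm (Q.coeff n), ← Algebra.smul_def, map_smul, smul_eq_mul, mul_comm]

/-- The determinant along a line of matrices. -/
theorem line (L : A →ₗ[ℂ] ℂ) (N D : Matrix (Fin m) (Fin m) A) : ∃ P : ℂ[X], P.natDegree ≤ m ∧
    ∀ t : ℂ, P.eval t = L (N + algebraMap ℂ A t • D).det ∧
      (Polynomial.derivative P).eval t = L ((N + algebraMap ℂ A t • D).adjugate * D).trace := by
  set G : Matrix (Fin m) (Fin m) A[X] :=
    (Polynomial.X : A[X]) • D.map Polynomial.C + N.map Polynomial.C with hG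
  let P : ℂ[X] := G.det.sum fun n a => Polynomial.monomial n (L a)
  have hP : ∀ n, P.coeff n = L (G.det.coeff n) := fun n => by
    simp only [P, Polynomial.sum_def, Polynomial.finsetSum_coeff, Polynomial.coeff_monomial,
      Finset.sum_ite_eq', Polynomial.mem_support_iff]
    split_ifs with h
    · rfl
    · rw [not_not.1 h, map_zero]
  have hP' : ∀ n, (Polynomial.derivative P).coeff n = L ((Polynomial.derivative G.det).coeff n) :=
    fun n => by
      rw [Polynomial.coeff_derivative, Polynomial.coeff_derivative, hP, ← Nat.cast_succ,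
        ← Nat.cast_succ, mul_comm (G.det.coeff _), ← nsmul_eq_mul, map_nsmul, nsmul_eq_mul,
        mul_comm]
  have e : ∀ s : A, (Polynomial.evalRingHom s).mapMatrix G = N + s • D := fun s => by
    ext i j
    simp [hG, add_comm, mul_comm s]
  have e' : (Polynomial.derivative (R := A)).toAddMonoidHom.mapMatrix G = D.map Polynomial.C := by
    ext i j : 2
    simp [hG]
  have hd := BCOF.leib_det (δ := (Polynomial.derivative (R := A)).toAddMonoidHom)
    (fun a b => Polynomial.derivative_mul) G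
  rw [e'] at hd
  refine ⟨P, (ev_eq L hP).1.trans ((Polynomial.natDegree_det_X_add_C_le _ _).trans (by simp)),
    fun t => ⟨?_, ?_⟩⟩
  · rw [(ev_eq L hP).2, ← Polynomial.coe_evalRingHom, RingHom.map_det, e]
  · rw [(ev_eq L hP').2, show Polynomial.derivative G.det = _ from hd,
      ← Polynomial.coe_evalRingHom, ← e, ← RingHom.map_adjugate]
    simp [Matrix.trace, Matrix.mul_apply]

end alg

variable {m : ℕ}

theorem law {J : Mat m} (h : J.det ≠ 0) (φ : Frm m →ₐ[ℂ] Frm m) (B : Fin m → Mat m)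
    (N : Matrix (Fin m) (Fin m) (Frm m)) (a : Fin m) :
    ((J⁻¹ * (∑ c, J c a • B c) * J).map C * (J⁻¹.map C * N.map φ * J.map C).adjugate).trace =
      ∑ c, C (J c a) * φ ((B c).map C * N.adjugate).trace := by
  obtain ⟨h1, h2⟩ := INV.map_inv h
  have e : (N.map φ).adjugate = N.adjugate.map φ := (φ.map_adjugate N).symm
  rw [adj_conj h1 h2, Matrix.map_mul, Matrix.map_mul, e, Matrix.mul_assoc,
    ← Matrix.mul_assoc (J.map C), ← Matrix.mul_assoc (J.map C), h2, Matrix.one_mul,
    ← Matrix.mul_assoc, Matrix.trace_mul_comm, ← Matrix.mul_assoc, ← Matrix.mul_assoc, h2,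
    Matrix.one_mul]
  have e2 : ∀ c : ℂ, φ (C c) = C c := φ.commutes
  simp only [Matrix.trace, Matrix.diag_apply, Matrix.mul_apply, Matrix.map_apply, Matrix.sum_apply,
    Matrix.smul_apply, smul_eq_mul, map_sum, map_mul, e2, Finset.mul_sum, Finset.sum_mul]
  conv_rhs => rw [Finset.sum_comm]
  refine Finset.sum_congr rfl fun p _ => ?_
  conv_rhs => rw [Finset.sum_comm]
  exact Finset.sum_congr rfl fun q _ => Finset.sum_congr rfl fun c _ => by ring

theorem trn_sub (ψ : E m → E m) (z : E m) (a a' : Fin m → Mat m) (k : Fin m) :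
    trn ψ z a' k - trn ψ z a k = (jm ψ z)⁻¹ * (∑ c, jm ψ z c k • (a' c - a c)) * jm ψ z := by
  simp only [trn, smul_sub, Finset.sum_sub_distrib, Matrix.mul_sub, Matrix.sub_mul]
  abel

theorem trn_line (ψ : E m → E m) (z : E m) (a a' : Fin m → Mat m) (t : ℂ) :
    trn ψ z (a + t • (a' - a)) = trn ψ z a + t • (trn ψ z a' - trn ψ z a) := by
  funext k
  rw [Pi.add_apply, Pi.smul_apply, Pi.sub_apply, trn_sub, ← sub_eq_iff_eq_add', trn_sub]
  simp only [Pi.add_apply, Pi.smul_apply, Pi.sub_apply, add_sub_cancel_left, smul_comm _ t,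
    ← Finset.smul_sum, Matrix.mul_smul, Matrix.smul_mul]

theorem con_line {M : Mf m} {A A' : M.Fam (Fin m → Mat m)} (h : Con M A) (h' : Con M A') (t : ℂ) :
    Con M fun e z => A e z + t • (A' e z - A e z) :=
  ⟨fun e he z hz a => (h.sm e he z hz a).add
    (SmM.smul contDiffAt_const ((h'.sm e he z hz a).sub (h.sm e he z hz a))),
    fun e he e' he' x hx hx' => by
      beta_reduce
      rw [trn_line, h.cmp e he e' he' x hx hx', h'.cmp e he e' he' x hx hx']⟩

theorem cu_line {A A' : E m → Fin m → Mat m} {z : E m} (h : SmC A z) (h' : SmC A' z) (t : ℂ) :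
    cu (kur (fun w => A w + t • (A' w - A w)) z) = cu (kur A z) + (C t : Frm m) •
      Matrix.of fun p q => lin (dbr (fun w a => -(A' w a p q - A w a p q)) z) := by
  ext p q : 2
  have e : ∀ a b, kur (fun w => A w + t • (A' w - A w)) z a b p q =
      kur A z a b p q + t * dbr (fun w a => -(A' w a p q - A w a p q)) z b a := fun a b => by
    have h1 := cd_diff (h a p q)
    have h2 := cd_diff ((h' a p q).sub (h a p q))
    have := dzb_add (j := b) h1 (h2.const_mul t)
    rw [dzb_const_mul t h2] at this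
    simp only [kur, dbr, Matrix.neg_apply, dMb_apply, Matrix.of_apply, dzb_neg]
    rw [mul_neg, ← neg_add, ← this]
    rfl
  simp only [cu, Matrix.add_apply, Matrix.smul_apply, Matrix.of_apply, e, lin, smul_eq_mul,
    map_add, map_mul, add_mul, Finset.sum_add_distrib, Finset.mul_sum, mul_assoc]

theorem tr1 (N D : Matrix (Fin m) (Fin m) (Frm m)) (Γ : Frm m) :
    (N * D).trace * Γ = ∑ i : Fin m × Fin m, D i.1 i.2 * (N i.2 i.1 * Γ) := by
  simp only [Matrix.trace, Matrix.diag_apply, Matrix.mul_apply, Fintype.sum_prod_type,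
    Finset.sum_mul]
  rw [Finset.sum_comm]
  exact Finset.sum_congr rfl fun p _ => Finset.sum_congr rfl fun q _ => by ring

theorem tr2 (B B' : Mat m) (N : Matrix (Fin m) (Fin m) (Frm m)) (Γ : Frm m) :
    ∑ i : Fin m × Fin m, C (-(B' i.1 i.2 - B i.1 i.2)) * (N i.2 i.1 * Γ) =
      -(((B' - B).map C * N).trace * Γ) := by
  rw [Matrix.trace_mul_comm, tr1, ← Finset.sum_neg_distrib]
  exact Finset.sum_congr rfl fun i _ => by rw [map_neg, neg_mul]; rfl

end TRA

open TRA in
theorem bTRA (hS : St_STK) (hI : St_INV) (hC : St_CLS) (hT : St_TOP) : St_TRA := by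
  intro m M _ H A A' Ψ hH hA hA' hΨ
  obtain ⟨-, i2, -, S, hSi⟩ := hI m M
  obtain ⟨tp, htp⟩ := (hT m).1
  let L : M.X → Frm m →ₗ[ℂ] ℂ := fun x =>
    (M.ev H x).det⁻¹ • tp.comp (LinearMap.mulRight ℂ (M.ev Ψ x))
  have hL : ∀ x P, L x P = top (P * M.ev Ψ x) / (M.ev H x).det := fun x P => by
    simp [L, htp, div_eq_inv_mul]
  let D : M.Fam (Matrix (Fin m) (Fin m) (Frm m)) := fun e z =>
    Matrix.of fun p q => lin (dbr (fun w a => -(A' e w a p q - A e w a p q)) z)
  let At : ℂ → M.Fam (Fin m → Mat m) := fun t e z => A e z + t • (A' e z - A e z)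
  have hAt : ∀ t, Con M (At t) := con_line hA hA'
  choose P hP1 hP2 using fun x =>
    line (L x) (1 + cu (kur (A (M.ch x)) (M.ch x x))) (M.ev D x)
  have e1 : ∀ (t : ℂ) x, 1 + cu (kur (A (M.ch x)) (M.ch x x)) + algebraMap ℂ (Frm m) t • M.ev D x =
      1 + cu (kur (At t (M.ch x)) (M.ch x x)) := fun t x => by
    rw [cu_line (hA.sm.ch x) (hA'.sm.ch x), add_assoc]
    rfl
  have e2 : ∀ (t : ℂ) x, (P x).eval t =
      M.ev (fun e z => top (chf (At t e) z * Ψ e z) / (H e z).det) x := fun t x => by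
    rw [(hP2 x t).1, e1, hL]
    rfl
  have main := BCOH.poly_int (M.mu H) P m hP1 (fun t => by
    simp only [e2]
    exact (mMU m M H hH).2.2.2.2.1 ℂ _ ((hS m M H hH).1 _
      ((hSi _).1 (S.mul_mem ((hSi _).2 (i2 _ (hAt t)).1) ((hSi _).2 hΨ)))).2) fun t => by
    obtain ⟨-, j2, j3⟩ := i2 _ (hAt t)
    have h := ((hS m M H hH).2 (Fin m × Fin m)
      (fun i e w a => -(A' e w a i.1 i.2 - A e w a i.1 i.2))
      (fun i e w => (1 + cu (kur (At t e) w)).adjugate i.2 i.1 * Ψ e w)
      (fun i e he z hz => ⟨contDiffAt_pi.2 fun a =>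
        ((hA'.sm e he z hz a _ _).sub (hA.sm e he z hz a _ _)).neg, ?_⟩)
      fun e he e' he' x hx hx' a => ?_).2
    · rw [← h, itg]
      refine integral_congr_ae (ae_of_all _ fun x => ?_)
      beta_reduce
      rw [(hP2 x t).2, e1, hL, tr1]
      rfl
    · obtain ⟨U, hU⟩ := (hC m z).1
      refine (hU _).1 (U.mul_mem ((hU _).2 (((hC m z).2.2.2.2.2.2.1
        (fun w => 1 + cu (kur (At t e) w)) fun p q => ?_).2 _ _)) ((hU _).2 (hΨ.cls e he z hz)))
      exact (hU _).1 (U.add_mem ((hU _).2 ((hC m z).2.1 ((1 : Matrix _ _ _) p q)))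
        ((hU _).2 (j2 e he z hz p q)))
    · have h0 := ((mTR m M).2.1 e he e' he' x hx hx').2.1
      simp only [tr2]
      rw [j3 e he e' he' x hx hx', INV.one_add h0, hA.cmp e he e' he' x hx hx',
        hA'.cmp e he e' he' x hx hx', trn_sub, hΨ.cmp e he e' he' x hx hx']
      have e6 := law h0 (sub (M.J e e' x)ᴴ (M.J e e' x)) (fun c => A' e (e x) c - A e (e x) c)
        (1 + cu (kur (At t e) (e x))) a
      rw [Mf.J] at e6 ⊢
      rw [e6]
      simp only [map_mul, map_neg, mul_neg, Finset.sum_neg_distrib, Finset.sum_mul, mul_assoc]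
  have e3 : At 1 = A' := by
    funext e z
    simp [At]
  have e4 : At 0 = A := by
    funext e z
    simp [At]
  simp only [e2, e3, e4] at main
  exact main.symm

end Pool.Agent.Lib.LF
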