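import Pool.Agent.Lib.LF.B_DIM

/-! The generic point of an irreducible closed set and the derivation attached to a regular
tangent vector field. -/

open scoped Classical
open Set MvPolynomial

noncomputable section

namespace Pool.Agent.Lib.LF

namespace TRF

variable {X ι : Type}

lemma scale {K : Type} [CommRing K] [Algebra ℂ K] {g : Po ι} {d : ℕ} (hg : g.IsHomogeneous d)
    (c : K) (w : ι → K) : aeval (fun l => c * w l) g = c ^ d * aeval w g := by
  rw [aeval_def, aeval_def, eval₂_eq, eval₂_eq, Finset.mul_sum]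
  refine Finset.sum_congr rfl fun m hm => ?_
  rw [hg.degree_eq_sum_deg_support hm]
  simp only [mul_pow, Finset.prod_mul_distrib, Finset.prod_pow_eq_pow_sum]
  ring

lemma scaleC {g : Po ι} {d : ℕ} (hg : g.IsHomogeneous d) (c : ℂ) (w : ι → ℂ) :
    eval (c • w) g = c ^ d * eval w g := scale hg c w

lemma scaleN {K : Type} [Field K] [Algebra ℂ K] {g : Po ι} {d : ℕ} (hg : g.IsHomogeneous d)
    (w : ι → K) (i : ι) : aeval (nrm w i) g = (w i)⁻¹ ^ d * aeval w g := by
  rw [← scale hg]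
  have : nrm w i = fun l => (w i)⁻¹ * w l := funext fun l => by rw [nrm, div_eq_inv_mul]
  rw [this]

lemma comp (g : Po ι) (w : ι → ℂ) (h : ∀ a : ℂ, eval (a • w) g = 0) (d : ℕ) :
    eval w (homogeneousComponent d g) = 0 := by
  rcases lt_or_ge g.totalDegree d with hd | hd
  · rw [homogeneousComponent_eq_zero _ _ hd, map_zero]
  have h1 : (∑ i ∈ Finset.range (g.totalDegree + 1),
      Polynomial.monomial i (eval w (homogeneousComponent i g)) : Polynomial ℂ) = 0 := by
    refine Polynomial.funext fun a => ?_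
    have h2 := h a
    rw [← sum_homogeneousComponent g, map_sum] at h2
    rw [Polynomial.eval_finsetSum, Polynomial.eval_zero, ← h2]
    refine Finset.sum_congr rfl fun i _ => ?_
    rw [Polynomial.eval_monomial, scaleC (homogeneousComponent_isHomogeneous i g), mul_comm]
  have h3 := congrArg (fun p : Polynomial ℂ => p.coeff d) h1
  simpa [Polynomial.finsetSum_coeff, Polynomial.coeff_monomial, Nat.lt_succ_iff, hd] using h3

lemma homog (g : Po ι) (i : ι) : ∃ (g' : Po ι) (N : ℕ), g'.IsHomogeneous N ∧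
    ∀ (K : Type) [Field K] [Algebra ℂ K] (w : ι → K), w i ≠ 0 →
      aeval (nrm w i) g' = aeval (nrm w i) g := by
  refine ⟨∑ d ∈ Finset.range (g.totalDegree + 1),
    MvPolynomial.X i ^ (g.totalDegree - d) * homogeneousComponent d g, g.totalDegree,
    IsHomogeneous.sum _ _ _ fun d hd => ?_, fun K _ _ w hw => ?_⟩
  · have h1 := (isHomogeneous_X_pow (R := ℂ) i (g.totalDegree - d)).mul
      (homogeneousComponent_isHomogeneous d g)
    rwa [Nat.sub_add_cancel (Nat.lt_succ_iff.1 (Finset.mem_range.1 hd))] at h1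
  · conv_rhs => rw [← sum_homogeneousComponent g]
    rw [map_sum, map_sum]
    refine Finset.sum_congr rfl fun d _ => ?_
    rw [map_mul, map_pow, aeval_X, nrm, div_self hw, one_pow, one_mul]

/-- The ideal of the cone over `V`. -/
def cone (y : X → ι → ℂ) (V : Set X) : Ideal (Po ι) :=
  vanishingIdeal ℂ {w | ∃ x ∈ V, ∃ a : ℂ, w = a • y x}

variable {y : X → ι → ℂ} {V : Set X}

lemma mem_cone {g : Po ι} : g ∈ cone y V ↔ ∀ x ∈ V, ∀ a : ℂ, eval (a • y x) g = 0 :=
  ⟨fun h x hx a => h _ ⟨x, hx, a, rfl⟩, fun h w hw => by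
    obtain ⟨x, hx, a, rfl⟩ := hw
    exact h x hx a⟩

lemma van_iff {g : Po ι} {d : ℕ} (hg : g.IsHomogeneous d) :
    (∀ x ∈ V, ∀ a : ℂ, eval (a • y x) g = 0) ↔ Van y V g :=
  ⟨fun h x hx => by simpa using h x hx 1, fun h x hx a => by rw [scaleC hg, h x hx, mul_zero]⟩

lemma comp_mem {g : Po ι} (h : ∀ x ∈ V, ∀ a : ℂ, eval (a • y x) g = 0) (d : ℕ) :
    ∀ x ∈ V, ∀ a : ℂ, eval (a • y x) (homogeneousComponent d g) = 0 :=
  (van_iff (homogeneousComponent_isHomogeneous d g)).2 fun x hx => comp g _ (h x hx) d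

lemma cone_prime (hI : Irred y V) : (cone y V).IsPrime := by
  let := MvPolynomial.gradedAlgebra (σ := ι) (R := ℂ)
  refine Ideal.IsHomogeneous.isPrime_of_homogeneous_mem_or_mem
    (𝒜 := homogeneousSubmodule ι ℂ) (fun d g hg => ?_) ?_ ?_
  · have h1 : ((DirectSum.decompose (homogeneousSubmodule ι ℂ) g d : homogeneousSubmodule ι ℂ d) :
        Po ι) = homogeneousComponent d g := decomposition.decompose'_apply g d
    rw [h1]
    exact mem_cone.2 (comp_mem (mem_cone.1 hg) d)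
  · obtain ⟨x, hx⟩ := hI.1
    rw [Ideal.ne_top_iff_one, mem_cone]
    intro h
    simpa using h x hx 1
  · rintro g h ⟨d, hg⟩ ⟨e, hh⟩ hgh
    rw [mem_homogeneousSubmodule] at hg hh
    rw [mem_cone, van_iff hg, mem_cone, van_iff hh]
    exact hI.2 g h d e hg hh ((van_iff (hg.mul hh)).1 (mem_cone.1 hgh))

lemma exists_gp (hI : Irred y V) :
    ∃ (F : Type) (_ : Field F) (_ : Algebra ℂ F) (Y : ι → F), Gp y V Y := by
  have := cone_prime hI
  let F := FractionRing (Po ι ⧸ cone y V)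
  let ψ : Po ι →ₐ[ℂ] F :=
    (IsScalarTower.toAlgHom ℂ (Po ι ⧸ cone y V) F).comp (Ideal.Quotient.mkₐ ℂ (cone y V))
  have h1 : ∀ g, aeval (fun l => ψ (MvPolynomial.X l)) g = ψ g := fun g =>
    (DFunLike.congr_fun (aeval_unique ψ) g).symm
  have h2 : ∀ g, aeval (fun l => ψ (MvPolynomial.X l)) g = 0 ↔
      ∀ x ∈ V, ∀ a : ℂ, eval (a • y x) g = 0 := fun g => by
    rw [h1, ← mem_cone, ← Ideal.Quotient.eq_zero_iff_mem]
    exact map_eq_zero_iff (algebraMap (Po ι ⧸ cone y V) F) (IsFractionRing.injective _ _)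
  refine ⟨F, inferInstance, inferInstance, fun l => ψ (MvPolynomial.X l), h2,
    fun g d hg => (h2 _).2 (comp_mem ((h2 g).1 hg) d), fun x hx i hi => ?_⟩
  have h3 : ψ (MvPolynomial.X i) ≠ 0 := fun h => by
    have h4 := (h2 (MvPolynomial.X i)).1 (by rw [aeval_X]; exact h) x hx 1
    exact hi (by simpa using h4)
  refine ⟨h3, fun g hg => ?_⟩
  obtain ⟨g', N, hN, hg'⟩ := homog g i
  rw [← hg' F _ h3, scaleN hN, mul_eq_zero] at hg
  have h5 := (h2 g').1 (hg.resolve_left (pow_ne_zero _ (inv_ne_zero h3))) x hx (y x i)⁻¹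
  have h6 : aff y i x = nrm (y x) i := funext fun l => by
    simp only [aff, nrm, Pi.smul_apply, smul_eq_mul, div_eq_inv_mul]
  rw [h6, ← hg' ℂ _ hi, ← h6]
  exact h5

variable [Fintype ι] {F : Type} [Field F] [Algebra ℂ F] {Y : ι → F}

/-- A function that is regular at all the points is a polynomial in the affine coordinates. -/
lemma reg {Λ : Type} {G : Λ → Po ι} (hV : Var y G) (hC : Closed y V) (hG : Gp y V Y) {i : ι}
    (hi : Y i ≠ 0) (f : F) (hf : ∀ x ∈ V, ∃ (h W : Po ι) (e : ℕ), h.IsHomogeneous e ∧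
      eval (y x) h ≠ 0 ∧ aeval (nrm Y i) h * f = aeval (nrm Y i) W) :
    ∃ P : Po ι, f = aeval (nrm Y i) P := by
  let J : Ideal (Po ι) :=
    { carrier := {g | ∃ P : Po ι, aeval (nrm Y i) g * f = aeval (nrm Y i) P}
      add_mem' := by
        rintro a b ⟨P, hP⟩ ⟨Q, hQ⟩
        exact ⟨P + Q, by rw [map_add, map_add, add_mul, hP, hQ]⟩
      zero_mem' := ⟨0, by rw [map_zero, zero_mul]⟩
      smul_mem' := by
        rintro c a ⟨P, hP⟩
        exact ⟨c * P, by rw [smul_eq_mul, map_mul, map_mul, mul_assoc, hP]⟩ }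
  by_cases hJ : J = ⊤
  · obtain ⟨P, hP⟩ := (Ideal.eq_top_iff_one J).1 hJ
    exact ⟨P, by rwa [map_one, one_mul] at hP⟩
  exfalso
  obtain ⟨M, hM, hJM⟩ := Ideal.exists_le_maximal J hJ
  obtain ⟨η, rfl⟩ := isMaximal_iff_eq_vanishingIdeal_singleton.1 hM
  have h1 : ∀ g ∈ J, eval η g = 0 := fun g hg =>
    (mem_vanishingIdeal_singleton_iff η g).1 (hJM hg)
  have h2 : ∀ g : Po ι, aeval (nrm Y i) g = 0 → eval η g = 0 := fun g hg =>
    h1 g ⟨0, by rw [hg, zero_mul, map_zero]⟩
  have h3 : η i = 1 := by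
    have := h2 (MvPolynomial.X i - 1) (by rw [map_sub, aeval_X, map_one, nrm, div_self hi, sub_self])
    rwa [map_sub, eval_X, map_one, sub_eq_zero] at this
  have h4 : ∀ (g : Po ι) (d : ℕ), g.IsHomogeneous d → Van y V g → eval η g = 0 :=
    fun g d hg hv => h2 g (by rw [scaleN hg, (hG.ker g).2 ((van_iff hg).2 hv), mul_zero])
  have h5 : η ≠ 0 := fun h => by rw [h] at h3; exact zero_ne_one h3
  obtain ⟨x, a, hx⟩ := hV.onto η h5 fun l => by
    obtain ⟨d, hd⟩ := hV.hom l
    exact h4 _ d hd fun x _ => hV.zero x l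
  have ha : a ≠ 0 := fun h => h5 (by rw [hx, h, zero_smul])
  have h6 : ∀ (g : Po ι) (d : ℕ), g.IsHomogeneous d → eval η g = 0 → eval (y x) g = 0 :=
    fun g d hg h => by
      rw [hx, scaleC hg, mul_eq_zero] at h
      exact h.resolve_left (pow_ne_zero _ ha)
  have hxV : x ∈ V := by
    obtain ⟨T, hT, hVT⟩ := hC
    rw [hVT]
    intro g hg
    obtain ⟨d, hd⟩ := hT g hg
    exact h6 g d hd (h4 g d hd fun x' hx' => by rw [hVT] at hx'; exact hx' g hg)
  obtain ⟨h, W, e, he, hne, hW⟩ := hf x hxV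
  exact hne (h6 h e he (h1 h ⟨W, hW⟩))

/-- The derivation with coefficients `H`. -/
def dH (H : ι → Po ι) : Po ι →ₗ[ℂ] Po ι where
  toFun g := ∑ l, H l * pderiv l g
  map_add' a b := by simp only [map_add, mul_add, Finset.sum_add_distrib]
  map_smul' c a := by
    simp only [Derivation.map_smul, mul_smul_comm, RingHom.id_apply, Finset.smul_sum]

lemma dH_apply (H : ι → Po ι) (g : Po ι) : dH H g = ∑ l, H l * pderiv l g := rfl

lemma dH_mul (H : ι → Po ι) (a b : Po ι) : dH H (a * b) = a * dH H b + b * dH H a := by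
  simp only [dH_apply, pderiv_mul, Finset.mul_sum, ← Finset.sum_add_distrib]
  exact Finset.sum_congr rfl fun l _ => by ring

lemma dH_X (H : ι → Po ι) (l : ι) : dH H (MvPolynomial.X l) = H l := by
  simp [dH_apply, pderiv_X, Pi.single_apply]

lemma dH_mem {v : X → ι → ℂ} {e : ℕ} {h : Po ι} {H : ι → Po ι} (hR : Rep y V v e h H)
    (hT : Tan y V v) {g : Po ι} (hg : g ∈ cone y V) : dH H g ∈ cone y V := by
  rw [← sum_homogeneousComponent g, map_sum]
  refine Ideal.sum_mem _ fun d _ => ?_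
  have h1 := homogeneousComponent_isHomogeneous d g
  have h2 := (van_iff h1).1 (comp_mem (mem_cone.1 hg) d)
  generalize homogeneousComponent d g = k at h1 h2
  have h3 : (dH H k).IsHomogeneous (e + 1 + (d - 1)) :=
    IsHomogeneous.sum _ _ _ fun l _ => (hR.hH l).mul h1.pderiv
  refine mem_cone.2 ((van_iff h3).2 fun x hx => ?_)
  obtain ⟨a, ha⟩ := hR.eq x hx
  have h4 := hT k d h1 h2 x hx
  have h5 := congrArg (eval (y x)) h1.sum_X_mul_pderiv
  rw [map_nsmul, h2 x hx, smul_zero, map_sum] at h5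
  have h6 : eval (y x) (dH H k) = eval (y x) h * dir k (y x) (v x) +
      a * ∑ l, eval (y x) (MvPolynomial.X l * pderiv l k) := by
    rw [dH_apply, map_sum, dir, Finset.mul_sum, Finset.mul_sum, ← Finset.sum_add_distrib]
    refine Finset.sum_congr rfl fun l _ => ?_
    have h7 := congrFun ha l
    simp only [Pi.add_apply, Pi.smul_apply, smul_eq_mul] at h7
    rw [map_mul, map_mul, eval_X, h7]
    ring
  rw [h6, h4, h5, mul_zero, mul_zero, add_zero]

omit [Fintype ι] in
lemma wedge {v : X → ι → ℂ} {e : ℕ} {h : Po ι} {H : ι → Po ι} (hR : Rep y V v e h H) (i l : ι) :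
    (H l * MvPolynomial.X i - MvPolynomial.X l * H i).IsHomogeneous (e + 2) ∧
    ∀ x ∈ V, eval (y x) (H l * MvPolynomial.X i - MvPolynomial.X l * H i) =
      eval (y x) h * (v x l * y x i - y x l * v x i) := by
  refine ⟨((hR.hH l).mul (isHomogeneous_X ℂ i)).sub ?_, fun x hx => ?_⟩
  · rw [mul_comm]
    exact (hR.hH i).mul (isHomogeneous_X ℂ l)
  · obtain ⟨a, ha⟩ := hR.eq x hx
    have h1 := congrFun ha l
    have h2 := congrFun ha i
    simp only [Pi.add_apply, Pi.smul_apply, smul_eq_mul] at h1 h2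
    rw [map_sub, map_mul, map_mul, eval_X, eval_X, h1, h2]
    ring

end TRF

open TRF in
theorem bTRF : St_TRF := by
  intro X ι Λ _ y G V hV hC hI
  obtain ⟨F, _, _, Y, hG⟩ := exists_gp hI
  refine ⟨F, inferInstance, inferInstance, Y, hG, fun v hR hT => ?_⟩
  obtain ⟨x₀, hx₀⟩ := hI.1
  obtain ⟨e, h, H, hH, hh⟩ := hR x₀ hx₀
  have hY : aeval Y h ≠ 0 := fun h0 => hh (by simpa using (hG.ker h).1 h0 x₀ hx₀ 1)
  obtain ⟨D, hD⟩ := (bDIM ℂ F ι).2.2 (Po ι) (aeval Y)
    ((aeval Y h)⁻¹ • (aeval Y : Po ι →ₐ[ℂ] F).toLinearMap ∘ₗ dH H)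
    (fun a b => by
      simp only [LinearMap.smul_apply, LinearMap.comp_apply, AlgHom.toLinearMap_apply, dH_mul,
        map_add, map_mul, smul_eq_mul]
      ring)
    (fun a ha => by
      have h1 := (hG.ker _).2 (mem_cone.1 (dH_mem hH hT (mem_cone.2 ((hG.ker a).1 ha))))
      simp only [LinearMap.smul_apply, LinearMap.comp_apply, AlgHom.toLinearMap_apply, h1,
        smul_zero])
  have hDY : ∀ l, D (Y l) = (aeval Y h)⁻¹ * aeval Y (H l) := fun l => by
    have h1 := hD (MvPolynomial.X l)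
    rw [aeval_X] at h1
    rw [h1]
    simp only [LinearMap.smul_apply, LinearMap.comp_apply, AlgHom.toLinearMap_apply, dH_X,
      smul_eq_mul]
  have key : ∀ i l, Y i ≠ 0 → ∀ e' h' H', Rep y V v e' h' H' →
      aeval (nrm Y i) h' * D (nrm Y i l) =
        aeval (nrm Y i) (H' l * MvPolynomial.X i - MvPolynomial.X l * H' i) := by
    intro i l hi e' h' H' hH'
    obtain ⟨a1, a2⟩ := wedge hH i l
    obtain ⟨b1, b2⟩ := wedge hH' i l
    have h1 : (h' * (H l * MvPolynomial.X i - MvPolynomial.X l * H i) -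
        h * (H' l * MvPolynomial.X i - MvPolynomial.X l * H' i)).IsHomogeneous (e' + (e + 2)) := by
      refine (hH'.hh.mul a1).sub ?_
      rw [show e' + (e + 2) = e + (e' + 2) by ring]
      exact hH.hh.mul b1
    have h2 := (hG.ker _).2 ((van_iff (y := y) (V := V) h1).2 fun x hx => by
      rw [map_sub, map_mul, map_mul, a2 x hx, b2 x hx]
      ring)
    rw [map_sub, map_mul, map_mul (aeval Y) h, sub_eq_zero] at h2
    rw [scaleN hH'.hh, scaleN b1, nrm, Derivation.leibniz_div, hDY, hDY]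
    have h3 : aeval Y (H' l * MvPolynomial.X i - MvPolynomial.X l * H' i) = (aeval Y h)⁻¹ *
        (aeval Y h' * aeval Y (H l * MvPolynomial.X i - MvPolynomial.X l * H i)) := by
      rw [h2, inv_mul_cancel_left₀ hY]
    rw [h3]
    simp only [map_sub, map_mul, aeval_X, smul_eq_mul]
    ring
  have hP : ∀ i l, ∃ P : Po ι, Y i ≠ 0 → D (nrm Y i l) = aeval (nrm Y i) P := fun i l => by
    by_cases hi : Y i = 0
    · exact ⟨0, fun h => absurd hi h⟩
    obtain ⟨P, hP⟩ := reg hV hC hG hi (D (nrm Y i l)) fun x hx => by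
      obtain ⟨e', h', H', hH', hh'⟩ := hR x hx
      exact ⟨h', _, e', hH'.hh, hh', key i l hi e' h' H' hH'⟩
    exact ⟨P, fun _ => hP⟩
  choose P hP using hP
  refine ⟨D, P, fun i hi l => hP i l hi, fun x hx i l hi => ?_⟩
  obtain ⟨hYi, hS⟩ := hG.pt x hx i hi
  obtain ⟨e', h', H', hH', hh'⟩ := hR x hx
  obtain ⟨b1, b2⟩ := wedge hH' i l
  have h1 : eval (aff y i x) (h' * P i l - (H' l * MvPolynomial.X i - MvPolynomial.X l * H' i)) =
      0 := hS _ (by rw [map_sub, map_mul, ← hP i l hYi, key i l hYi e' h' H' hH', sub_self])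
  rw [map_sub, map_mul, sub_eq_zero, aff, scaleC hH'.hh, scaleC b1, b2 x hx] at h1
  refine mul_left_cancel₀ (mul_ne_zero (pow_ne_zero e' (inv_ne_zero hi)) hh') ?_
  rw [aff, h1, afv, div_eq_mul_inv, ← inv_pow]
  ring

end Pool.Agent.Lib.LF
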