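import Pool.Agent.Lib.LF.B_CLS

/-! Project lf: the integral depends only on the classes. -/

open scoped Classical Topology ContDiff Matrix
open Set Complex Filter MvPolynomial MeasureTheory

noncomputable section

namespace Pool.Agent.Lib.LF

open Pool.Agent.Lib.SV (E)
open Pool.Agent.Lib.HS32

namespace TRH

variable {m : ℕ} {M : Mf m} [M.Cpt] {H : M.Fam (Mat m)} {Φ Ψ : M.Fam (Frm m)}

theorem lin_add (S T : Mat m) : lin (S + T) = lin S + lin T := by
  simp [lin, add_mul, Finset.sum_add_distrib]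

theorem itg_add (hS : St_STK) (hH : M.Met H) (h : FInv M Φ) (h' : FInv M Ψ) :
    itg M H (fun e z => Φ e z + Ψ e z) = itg M H Φ + itg M H Ψ := by
  have hi := (mMU m M H hH).2.2.2.2.1 ℂ
  rw [itg, itg, itg, ← integral_add (hi _ ((hS m M H hH).1 _ h).2) (hi _ ((hS m M H hH).1 _ h').2)]
  simp only [Mf.ev, CLS.top_add, add_div]

theorem itg_hs (hS : St_STK) (hH : M.Met H) (h : FInv M Φ) {u : M.X → ℝ} (hu : M.Sm u) :
    itg M H (fun e z => lin (M.hs u e z) * Φ e z) = 0 := by
  have := ((hS m M H hH).2 Unit (fun _ e w a => dz a (M.lc u e) w) (fun _ => Φ)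
    (fun _ e he z hz => ⟨contDiffAt_pi.2 fun a => cd_dz (hu.lc e he z hz) a, h.cls e he z hz⟩)
    fun e he e' he' x hx hx' a => ?_).2
  · simp only [Finset.univ_unique, Finset.sum_singleton] at this
    exact this
  · obtain ⟨h1, -, -, h2, -⟩ := (mTR m M).2.1 e he e' he' x hx hx'
    have e1 : (e ∘ e'.symm) (e' x) = e x := by simp [e'.left_inv hx']
    have h3 := ((mCHN m _ _ h1).2.2.2.2.2.2.2.2.2.1 (M.lc u e)
      (e1 ▸ cd_diff (hu.lc.at he hx)) a).1
    have h4 : dz a (M.lc u e') (e' x) = dz a (M.lc u e ∘ e ∘ e'.symm) (e' x) :=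
      dz_congr (h2.mono fun w hw => by simp only [Mf.lc, Function.comp, hw.2.2.2.2.1])
    have e2 : ∀ c : ℂ, sub (M.J e e' x)ᴴ (M.J e e' x) (C c) = C c := (sub _ _).commutes
    simp only [Finset.univ_unique, Finset.sum_singleton]
    rw [h4, h3, e1, h.cmp e he e' he' x hx hx']
    simp only [map_sum, map_mul, e2, Finset.sum_mul]
    exact Finset.sum_congr rfl fun c _ => by rw [Mf.J]; ring

end TRH

open TRH in
theorem bTRH (hS : St_STK) (hI : St_INV) : St_TRH := by
  intro m j M _ H T u Φ hH hT hu hΦ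
  obtain ⟨-, -, i3, S, hSi⟩ := hI m M
  have key : ∀ (s : Finset (Fin j)) (Φ : M.Fam (Frm m)), FInv M Φ →
      itg M H (fun e z => Φ e z * ∏ i ∈ s, lin (T e z + M.hs (u i) e z)) =
        itg M H fun e z => Φ e z * lin (T e z) ^ s.card := by
    intro s
    induction s using Finset.induction_on with
    | empty => simp
    | insert a s ha ih =>
      intro Φ hΦ
      have h1 := (mHES m M).1 _ (hu a)
      have h2 := (hSi _).2 hΦ
      have h3 := (hSi _).2 (i3 _ hT)
      have h4 := ih _ ((hSi _).1 (S.mul_mem h2 ((hSi _).2 (i3 _ (hT.add h1)))))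
      have h5 := (hSi _).1 (S.mul_mem h2 (S.pow_mem h3 s.card))
      have h6 := itg_add hS hH ((hSi _).1 (S.mul_mem h2 (S.pow_mem h3 (s.card + 1))))
        ((hSi _).1 (S.mul_mem ((hSi _).2 (i3 _ h1)) ((hSi _).2 h5)))
      have h7 := itg_hs hS hH h5 (hu a)
      simp only [Finset.prod_insert ha, Finset.card_insert_of_notMem ha, ← mul_assoc]
      refine h4.trans (Eq.trans ?_ (h6.trans ((congrArg _ h7).trans (add_zero _))))
      congr 1
      funext e z
      simp only [Pi.mul_apply, Pi.pow_apply, Pi.add_apply, lin_add]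
      ring
  simpa using key Finset.univ Φ hΦ

end Pool.Agent.Lib.LF
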