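import Pool.Agent.Lib.LF.B_IND

/-! Project lf, block TRN: change of the field of constants. -/

open scoped Classical
open Set MvPolynomial

noncomputable section

namespace Pool.Agent.Lib.LF

open Pool.Agent.Lib.MP_7fcda1_ag

namespace TRN

theorem big (E B : Type) [Field E] : ∃ (Ω : Type) (_ : Field Ω) (_ : IsAlgClosed Ω)
    (_ : Algebra E Ω) (x : B → Ω), AlgebraicIndependent E x :=
  ⟨AlgebraicClosure (FractionRing (MvPolynomial B E)), inferInstance, inferInstance, inferInstance,
    _, (algebraicIndependent_X B E).map'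
      (f := IsScalarTower.toAlgHom E (MvPolynomial B E)
        (AlgebraicClosure (FractionRing (MvPolynomial B E))))
      ((algebraMap (FractionRing (MvPolynomial B E))
        (AlgebraicClosure (FractionRing (MvPolynomial B E)))).injective.comp
        (IsFractionRing.injective (MvPolynomial B E) (FractionRing (MvPolynomial B E))))⟩

theorem ext₀ {R K Ω T : Type} [CommRing R] [IsDomain R] [Field K] [Field Ω] [IsAlgClosed Ω]
    [Algebra R K] [Algebra R Ω] [Algebra.IsAlgebraic R K]
    (hK : Function.Injective (algebraMap R K)) {y : T → Ω} (h : AlgebraicIndependent R y) :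
    ∃ _ : Algebra K Ω, (∀ a, algebraMap K Ω (algebraMap R K a) = algebraMap R Ω a) ∧
      AlgebraicIndependent K y := by
  have : FaithfulSMul R Ω := (faithfulSMul_iff_algebraMap_injective R Ω).2 h.algebraMap_injective
  have : FaithfulSMul R K := (faithfulSMul_iff_algebraMap_injective R K).2 hK
  let φ : K →ₐ[R] Ω := IsAlgClosed.lift
  let : Algebra K Ω := φ.toRingHom.toAlgebra
  have hφ : ∀ a, algebraMap K Ω (algebraMap R K a) = algebraMap R Ω a := fun a => φ.commutes a
  have : IsScalarTower R K Ω := IsScalarTower.of_algebraMap_eq fun a => (hφ a).symm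
  exact ⟨inferInstance, hφ, h.extendScalars K⟩

theorem ext {k K Ω B T : Type} [Field k] [Field K] [Field Ω] [IsAlgClosed Ω] [Algebra k K]
    [Algebra k Ω] {b : B → K} (hb : IsTranscendenceBasis k b) {f : B → Ω} {y : T → Ω}
    (h : AlgebraicIndependent k (Sum.elim y f)) : ∃ (_ : Algebra K Ω) (_ : IsScalarTower k K Ω),
      (∀ i, algebraMap K Ω (b i) = f i) ∧ AlgebraicIndependent K y := by
  obtain ⟨hf, hy⟩ := AlgebraicIndependent.sumElim_iff.1 h
  let R := Algebra.adjoin k (range b)
  let e : R ≃ₐ[k] Algebra.adjoin k (range f) := hb.1.aevalEquiv.symm.trans hf.aevalEquiv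
  let ψ : R →ₐ[k] Ω := (Algebra.adjoin k (range f)).val.comp e.toAlgHom
  let : Algebra R Ω := ψ.toRingHom.toAlgebra
  have : Algebra.IsAlgebraic R K := hb.isAlgebraic
  have hR : AlgebraicIndependent R y :=
    AlgebraicIndependent.of_ringHom_of_comp_eq (e : R →+* Algebra.adjoin k (range f))
      (RingHom.id Ω) hy e.injective (RingHom.ext fun _ => rfl)
  obtain ⟨i₀, hφ, hK⟩ := ext₀ (K := K) Subtype.val_injective hR
  refine ⟨i₀, IsScalarTower.of_algebraMap_eq fun a => ?_, fun i => ?_, hK⟩
  · rw [← ψ.commutes a]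
    exact (hφ (algebraMap k R a)).symm
  · have e1 : hb.1.aevalEquiv.symm ⟨b i, Algebra.subset_adjoin ⟨i, rfl⟩⟩ = X i := by
      rw [AlgEquiv.symm_apply_eq]
      exact Subtype.ext (by simp)
    refine (hφ ⟨b i, Algebra.subset_adjoin ⟨i, rfl⟩⟩).trans ?_
    show ((hf.aevalEquiv (hb.1.aevalEquiv.symm _) : Algebra.adjoin k (range f)) : Ω) = f i
    rw [e1]
    simp

theorem gen {k K E B : Type} [Field k] [Field K] [Field E] [Algebra k K] [Algebra k E]
    [Infinite B] {b : B → K} (hb : IsTranscendenceBasis k b) {C T : Set E} (hC : C.Finite)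
    (hd : Disjoint C T) (hi : AlgebraicIndependent k ((↑) : ↥(C ∪ T) → E)) :
    ∃ (Ω : Type) (_ : Field Ω) (_ : Algebra k Ω) (_ : Algebra K Ω) (_ : IsScalarTower k K Ω)
      (τ : E →ₐ[k] Ω) (C₀ : Set K), algebraMap K Ω '' C₀ = τ '' C ∧
        AlgebraicIndependent K fun t : T => τ t := by
  obtain ⟨Ω, _, _, _, x, hx⟩ := big E B
  let : Algebra k Ω := ((algebraMap E Ω).comp (algebraMap k E)).toAlgebra
  have : IsScalarTower k E Ω := IsScalarTower.of_algebraMap_eq fun _ => rfl
  have := hC.to_subtype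
  obtain ⟨n, hn⟩ := exists_injective_nat C
  let e : C → B := Infinite.natEmbedding B ∘ n
  have he : Function.Injective e := (Infinite.natEmbedding B).injective.comp hn
  let g : T ⊕ B → B ⊕ ↥(C ∪ T) := Sum.elim (fun t => Sum.inr ⟨t, Or.inr t.2⟩)
    fun i => if h : ∃ c, e c = i then Sum.inr ⟨h.choose, Or.inl h.choose.2⟩ else Sum.inl i
  have hg : Function.Injective g := by
    rintro (s | i) (t | j) h
    · simp only [g, Sum.elim_inl, Sum.inr.injEq, Subtype.mk.injEq] at h
      exact congrArg Sum.inl (Subtype.ext h)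
    · simp only [g, Sum.elim_inl, Sum.elim_inr] at h
      split_ifs at h with h1
      have h2 : (s : E) = h1.choose := congrArg Subtype.val (Sum.inr_injective h)
      exact (disjoint_left.1 hd h1.choose.2 (h2 ▸ s.2)).elim
    · simp only [g, Sum.elim_inl, Sum.elim_inr] at h
      split_ifs at h with h1
      have h2 : (h1.choose : E) = t := congrArg Subtype.val (Sum.inr_injective h)
      exact (disjoint_left.1 hd h1.choose.2 (h2 ▸ t.2)).elim
    · simp only [g, Sum.elim_inr] at h
      split_ifs at h with h1 h2 h2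
      · simp only [Sum.inr.injEq, Subtype.mk.injEq] at h
        have h3 : h1.choose = h2.choose := Subtype.ext h
        rw [← h1.choose_spec, ← h2.choose_spec, h3]
      · rw [Sum.inl_injective h]
  have hu := (hi.sumElim_comp hx).comp g hg
  rw [← Sum.elim_comp_inl_inr (_ ∘ g)] at hu
  obtain ⟨_, _, h1, h2⟩ := ext hb hu
  refine ⟨Ω, inferInstance, inferInstance, inferInstance, inferInstance,
    IsScalarTower.toAlgHom k E Ω, range (b ∘ e), ?_, h2⟩
  have h3 : ∀ c : C, algebraMap K Ω (b (e c)) = algebraMap E Ω c := fun c => by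
    have h4 : ∃ c', e c' = e c := ⟨c, rfl⟩
    have h5 : h4.choose = c := he h4.choose_spec
    rw [h1]
    simp only [g, Function.comp_apply, Sum.elim_inr, dif_pos h4, h5]
  ext z
  constructor
  · rintro ⟨_, ⟨c, rfl⟩, rfl⟩
    exact ⟨c, c.2, (h3 c).symm⟩
  · rintro ⟨c, hc, rfl⟩
    exact ⟨_, ⟨⟨c, hc⟩, rfl⟩, h3 ⟨c, hc⟩⟩

theorem basis (k : Subfield ℂ) (hk : (k : Set ℂ).Countable) :
    ∃ (B : Type) (_ : Infinite B) (b : B → ℂ), IsTranscendenceBasis k b := by
  obtain ⟨B, b, hb⟩ := exists_isTranscendenceBasis' k ℂ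
  refine ⟨B, ?_, b, hb⟩
  by_contra h
  rw [not_infinite_iff_finite] at h
  have : Countable k := hk.to_subtype
  have h1 := IsAlgClosed.cardinal_le_max_transcendence_basis' b hb
  rw [Cardinal.mk_complex] at h1
  exact absurd (h1.trans (max_le (max_le Cardinal.mk_le_aleph0 Cardinal.mk_le_aleph0) le_rfl))
    (not_le.2 Cardinal.aleph0_lt_continuum)

end TRN

theorem bTRN (hM : St_MAT) : St_TRN := by
  intro k E ι _ _ _ A A' d r hk h1 h2
  obtain ⟨C, T, hC, hT, hc, hd, hi, hcl, hr⟩ := hM E (AlgebraicIndependent.matroid k E) (range A)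
    (range A') d r rfl (finite_range A) (finite_range A') h1 h2
  obtain ⟨B, _, b, hb⟩ := TRN.basis k hk
  obtain ⟨Ω, _, _, _, _, τ, C₀, h3, h4⟩ := TRN.gen hb hC hd hi
  have hτ : Function.Injective τ := τ.toRingHom.injective
  have hCr : rk k C₀ = C.encard := by
    rw [← rk_image (IsScalarTower.toAlgHom k ℂ Ω), IsScalarTower.coe_toAlgHom', h3, rk_image]
    exact (hi.subset subset_union_left).eRk_eq_encard
  have key : ∀ (S : Set E) (n : ℕ∞), rk k (C ∪ S) ≤ C.encard + n → rk ℂ (τ '' S) ≤ n :=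
    fun S n h => by
      have h5 := bIND.2 k ℂ Ω C₀ (τ '' S)
      rw [h3, ← image_union, rk_image, hCr] at h5
      exact (ENat.add_le_add_iff_left hC.encard_lt_top.ne).1 (h5.trans h)
  refine ⟨Ω, inferInstance, inferInstance, τ.toRingHom, fun c hc' => ?_, ?_, le_antisymm ?_ ?_⟩
  · exact (τ.commutes ⟨c, hc'⟩).trans (IsScalarTower.algebraMap_apply k ℂ Ω _)
  · have := key (range A) d (by rw [union_comm]; exact hr)
    rwa [← range_comp] at this
  · have := key (range A') (d + r : ℕ) (by
      rw [← hc, ← encard_union_eq hd, ← hi.eRk_eq_encard, ← Matroid.eRk_closure_eq]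
      exact Matroid.eRk_mono _ (union_subset (subset_union_left.trans
        (Matroid.subset_closure _ _ (subset_univ _))) hcl))
    rwa [← range_comp] at this
  · have h5 := Rk_range_card h4
    rw [← hc]
    refine le_of_eq_of_le h5.symm (rk_mono ?_)
    rintro _ ⟨t, rfl⟩
    obtain ⟨l, hl⟩ := hT t.2
    exact ⟨l, congrArg τ hl⟩

end Pool.Agent.Lib.LF
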