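import Pool.Agent.Lib.LF.ABlue
import Pool.Agent.Lib.HS32.MAll

/-! Change of coordinates for connections. -/

open scoped Classical Topology ContDiff ComplexOrder Matrix
open Set Complex Filter

noncomputable section

namespace Pool.Agent.Lib.LF

open Pool.Agent.Lib.SV (E)
open Pool.Agent.Lib.HS32

namespace TRS

variable {m : ℕ} {ψ : E m → E m} {z : E m}

theorem jm_eq {U : E m → E m} (h : ∀ i, DifferentiableAt ℂ (fun w => U w i) z) (i j : Fin m) :
    jm U z i j = dz j (fun w => U w i) z := by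
  rw [(mHOL m _ z).2.1 (h i) j, jm, Matrix.of_apply, fderiv_pi h]
  rfl

theorem jm_congr {U U' : E m → E m} (e : U =ᶠ[𝓝 z] U') : jm U z = jm U' z := by
  simp only [jm, e.fderiv_eq]

theorem hol_of {T : E m → Mat m} (h : SmM T z) (hb : ∀ k, dMb k T z = 0) (i j : Fin m) :
    DifferentiableAt ℂ (fun w => T w i j) z :=
  ((mHOL m _ z).1 (h.diff i j)).2 fun k => congrFun₂ (hb k) i j

theorem hol_jm (h : HolN ψ z) (i j : Fin m) : DifferentiableAt ℂ (fun w => jm ψ w i j) z :=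
  hol_of (mCHN m ψ z h).2.1 (mCHN m ψ z h).2.2.2.1 i j

theorem dMb_inv (h : HolN ψ z) (hJ : (jm ψ z).det ≠ 0) (l : Fin m) :
    dMb l (fun w => (jm ψ w)⁻¹) z = 0 := by
  obtain ⟨-, hs, -, hb, -⟩ := mCHN m ψ z h
  rw [(((mCOF m _ z hs).2.2.2.2.1 hJ).2 l).2, hb]
  simp

theorem rd {f : E m → ℂ} (h : DifferentiableAt ℂ f z) : DifferentiableAt ℝ f z :=
  h.restrictScalars ℝ

theorem hol_comp {V : E m → E m} (h : HolN ψ z) (hV : HolN V (ψ z)) (i : Fin m) :
    DifferentiableAt ℂ (fun w => V (ψ w) i) z :=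
  differentiableAt_pi.1 (hV.self_of_nhds.comp z h.self_of_nhds) i

/-- the derivative of the relation between two vector fields -/
theorem vec {V V' : E m → E m} (h : HolN ψ z) (hJ : (jm ψ z).det ≠ 0) (hV : HolN V (ψ z))
    (e : ∀ᶠ w in 𝓝 z, jm ψ w *ᵥ V' w = V (ψ w)) :
    jm ψ z * jm V' z + (Matrix.of fun i k => (dM k (jm ψ) z *ᵥ V' z) i) =
      jm V (ψ z) * jm ψ z := by
  obtain ⟨-, hs, -, -, -, -, -, -, hc, -⟩ := mCHN m ψ z h
  have e1 : V' =ᶠ[𝓝 z] fun w => (jm ψ w)⁻¹ *ᵥ V (ψ w) := by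
    filter_upwards [e, hs.ev_det hJ] with w h1 h2
    rw [← h1, Matrix.mulVec_mulVec, Matrix.nonsing_inv_mul _ h2.isUnit, Matrix.one_mulVec]
  have d1 : ∀ i, DifferentiableAt ℂ (fun w => V' w i) z := by
    intro i
    refine DifferentiableAt.congr_of_eventuallyEq ?_ (e1.mono fun w hw => congrFun hw i)
    simp only [Matrix.mulVec, dotProduct]
    exact DifferentiableAt.fun_sum fun a _ =>
      (hol_of (hs.inv hJ) (dMb_inv h hJ) i a).mul (hol_comp h hV a)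
  rw [← (hc V hV).2, jm_congr (U := V ∘ ψ) (U' := fun w => jm ψ w *ᵥ V' w)
    (e.mono fun w hw => hw.symm)]
  have d2 : ∀ i, DifferentiableAt ℂ (fun w => (jm ψ w *ᵥ V' w) i) z := by
    intro i
    simp only [Matrix.mulVec, dotProduct]
    exact DifferentiableAt.fun_sum fun a _ => (hol_jm h i a).mul (d1 a)
  ext i k
  rw [jm_eq d2]
  simp only [Matrix.mulVec, dotProduct, Matrix.add_apply, Matrix.mul_apply, Matrix.of_apply]
  rw [dz_sum fun a _ => rd ((hol_jm h i a).fun_mul (d1 a)), ← Finset.sum_add_distrib]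
  refine Finset.sum_congr rfl fun a _ => ?_
  rw [dz_mul (rd (hol_jm h i a)) (rd (d1 a)), jm_eq d1, add_comm]
  rfl

/-- the derivative of the relation between two covector fields -/
theorem cvec {V V' : E m → E m} (h : HolN ψ z) (hV : HolN V (ψ z))
    (e : ∀ᶠ w in 𝓝 z, V' w = V (ψ w) ᵥ* jm ψ w) :
    jm V' z = (jm ψ z)ᵀ * (jm V (ψ z) * jm ψ z) +
      Matrix.of fun q k => (V (ψ z) ᵥ* dM k (jm ψ) z) q := by
  obtain ⟨-, -, -, -, -, -, -, -, hc, -⟩ := mCHN m ψ z h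
  rw [← (hc V hV).2, jm_congr (U' := fun w => V (ψ w) ᵥ* jm ψ w) e]
  have d2 : ∀ i, DifferentiableAt ℂ (fun w => (V (ψ w) ᵥ* jm ψ w) i) z := by
    intro i
    simp only [Matrix.vecMul, dotProduct]
    exact DifferentiableAt.fun_sum fun a _ => (hol_comp h hV a).mul (hol_jm h a i)
  ext q k
  rw [jm_eq d2]
  simp only [Matrix.vecMul, dotProduct, Matrix.add_apply, Matrix.mul_apply, Matrix.of_apply,
    Matrix.transpose_apply]
  rw [dz_sum fun a _ => rd ((hol_comp h hV a).fun_mul (hol_jm h a q)), ← Finset.sum_add_distrib]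
  refine Finset.sum_congr rfl fun a _ => ?_
  rw [dz_mul (rd (hol_comp h hV a)) (rd (hol_jm h a q)),
    jm_eq (U := V ∘ ψ) (fun i => hol_comp h hV i), mul_comm]
  rfl

theorem mul_trn (hJ : (jm ψ z).det ≠ 0) (a : Fin m → Mat m) (k : Fin m) :
    jm ψ z * trn ψ z a k = (∑ c, jm ψ z c k • a c) * jm ψ z + dM k (jm ψ) z := by
  simp only [trn, mul_add, mul_assoc, Matrix.mul_nonsing_inv_cancel_left _ _ hJ.isUnit]

theorem pa_tr {V V' : E m → E m} (h : HolN ψ z) (hJ : (jm ψ z).det ≠ 0) (hV : HolN V (ψ z))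
    (a : Fin m → Mat m) (e : ∀ᶠ w in 𝓝 z, jm ψ w *ᵥ V' w = V (ψ w)) :
    jm ψ z * pa (trn ψ z a) V' z = pa a V (ψ z) * jm ψ z := by
  rw [pa, pa, mul_add, add_mul, ← vec h hJ hV e, add_assoc]
  congr 1
  ext i k
  have e1 : (jm ψ z * Matrix.of fun p k => (trn ψ z a k *ᵥ V' z) p) i k =
      ((jm ψ z * trn ψ z a k) *ᵥ V' z) i := by
    rw [← Matrix.mulVec_mulVec]
    rfl
  rw [e1, mul_trn hJ, Matrix.add_mulVec, ← Matrix.mulVec_mulVec, e.self_of_nhds,
    Matrix.sum_mulVec]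
  simp only [Pi.add_apply, Finset.sum_apply, Matrix.smul_mulVec, Pi.smul_apply, smul_eq_mul,
    Matrix.add_apply, Matrix.mul_apply, Matrix.of_apply]
  rw [add_comm]
  congr 1
  exact Finset.sum_congr rfl fun c _ => mul_comm _ _

theorem bo_tr {V V' : E m → E m} (h : HolN ψ z) (hJ : (jm ψ z).det ≠ 0) (hV : HolN V (ψ z))
    (a : Fin m → Mat m) (e : ∀ᶠ w in 𝓝 z, jm ψ w *ᵥ V' w = V (ψ w)) :
    jm ψ z * bo (trn ψ z a) V' z = bo a V (ψ z) * jm ψ z := by
  have hc := (mCHN m ψ z h).2.2.1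
  rw [bo, bo, mul_add, add_mul, ← vec h hJ hV e, add_comm (jm ψ z * jm V' z), ← add_assoc]
  congr 1
  rw [av, av, Finset.mul_sum]
  simp only [Matrix.mul_smul, mul_trn hJ, smul_add, Finset.sum_add_distrib]
  congr 1
  · simp only [← Matrix.smul_mul, ← Finset.sum_mul]
    congr 1
    simp only [Finset.smul_sum, smul_smul]
    rw [Finset.sum_comm, ← e.self_of_nhds]
    refine Finset.sum_congr rfl fun c _ => ?_
    rw [← Finset.sum_smul]
    congr 1
    exact Finset.sum_congr rfl fun k _ => mul_comm _ _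
  · ext i j
    simp only [Matrix.sum_apply, Matrix.smul_apply, smul_eq_mul, Matrix.of_apply, Matrix.mulVec,
      dotProduct]
    exact Finset.sum_congr rfl fun k _ => by rw [hc i j k, mul_comm]

theorem cp_tr {V V' : E m → E m} (h : HolN ψ z) (hJ : (jm ψ z).det ≠ 0) (hV : HolN V (ψ z))
    (a : Fin m → Mat m) (e : ∀ᶠ w in 𝓝 z, V' w = V (ψ w) ᵥ* jm ψ w) :
    cp (trn ψ z a) V' z = (jm ψ z)ᵀ * cp a V (ψ z) * jm ψ z := by
  rw [cp, cp, cvec h hV e, mul_sub, sub_mul, mul_assoc, add_sub_assoc, sub_eq_add_neg (_ * _)]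
  congr 1
  ext q k
  simp only [Matrix.sub_apply, Matrix.of_apply, Matrix.neg_apply]
  rw [e.self_of_nhds, Matrix.vecMul_vecMul, mul_trn hJ, Matrix.vecMul_add, Pi.add_apply,
    sub_add_cancel_right, neg_inj, ← Matrix.vecMul_vecMul, Matrix.vecMul_sum]
  simp only [Matrix.vecMul_smul, Matrix.mul_apply, Matrix.transpose_apply, Matrix.of_apply]
  rw [Matrix.vecMul, dotProduct]
  simp only [Finset.sum_apply, Pi.smul_apply, smul_eq_mul, Finset.sum_mul]
  rw [Finset.sum_comm]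
  refine Finset.sum_congr rfl fun c _ => Finset.sum_congr rfl fun p _ => ?_
  ring

theorem trn_comp (h : HolN ψ z) (φ : E m → E m) (hφ : HolN φ (ψ z)) (hP : (jm φ (ψ z)).det ≠ 0)
    (a : Fin m → Mat m) : trn (φ ∘ ψ) z a = trn ψ z (trn φ (ψ z) a) := by
  obtain ⟨hψ, hs, -, -, -, -, -, -, hc, -⟩ := mCHN m ψ z h
  have hsφ := (mCHN m φ _ hφ).2.1
  have e : jm (φ ∘ ψ) =ᶠ[𝓝 z] fun w => jm φ (ψ w) * jm ψ w := by
    filter_upwards [h.eventually_nhds, hψ.continuousAt.eventually hφ.eventually_nhds] with w h1 h2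
    exact ((mCHN m ψ w h1).2.2.2.2.2.2.2.2.1 φ h2).2
  funext k
  rw [trn, dM_congr e, dM_mul (hsφ.comp hψ) hs, (BPB.dM_comp mCHN h hsφ.diff k).1, (hc φ hφ).2,
    Matrix.mul_inv_rev, trn]
  have e1 : ∑ c, (jm φ (ψ z) * jm ψ z) c k • a c =
      ∑ c, jm ψ z c k • ∑ d, jm φ (ψ z) d c • a d := by
    simp only [Matrix.mul_apply, Finset.sum_smul, Finset.smul_sum, smul_smul]
    rw [Finset.sum_comm]
    exact Finset.sum_congr rfl fun c _ => Finset.sum_congr rfl fun d _ => by rw [mul_comm]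
  have e2 : ∑ c, jm ψ z c k • trn φ (ψ z) a c = (jm φ (ψ z))⁻¹ *
      ((∑ c, jm ψ z c k • ∑ d, jm φ (ψ z) d c • a d) * jm φ (ψ z) +
        ∑ c, jm ψ z c k • dM c (jm φ) (ψ z)) := by
    rw [Finset.sum_mul, ← Finset.sum_add_distrib, Finset.mul_sum]
    refine Finset.sum_congr rfl fun c _ => ?_
    rw [trn, Matrix.smul_mul, ← smul_add, Matrix.mul_smul, mul_add, mul_assoc]
  rw [e1, e2]
  simp only [mul_add, add_mul, mul_assoc, Matrix.nonsing_inv_mul_cancel_left _ _ hP.isUnit,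
    add_assoc]

theorem kur_tr (h : HolN ψ z) (hJ : (jm ψ z).det ≠ 0) (A A' : E m → Fin m → Mat m)
    (hA : SmC A (ψ z)) (e : ∀ᶠ w in 𝓝 z, A' w = trn ψ w (A (ψ w))) :
    SmC A' z ∧ ∀ k l, kur A' z k l =
      (jm ψ z)⁻¹ * (∑ a, ∑ b, (jm ψ z a k * (jm ψ z)ᴴ l b) • kur A (ψ z) a b) * jm ψ z := by
  obtain ⟨hψ, hs, -, hb, -⟩ := mCHN m ψ z h
  have hh : ∀ᶠ w in 𝓝 z, HolN ψ w := h.eventually_nhds
  have e1 : ∀ k, (fun w => A' w k) =ᶠ[𝓝 z] fun w =>
      (jm ψ w)⁻¹ * (∑ a, jm ψ w a k • A (ψ w) a) * jm ψ w + (jm ψ w)⁻¹ * dM k (jm ψ) w :=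
    fun k => e.mono fun w hw => congrFun hw k
  have hi := hs.inv hJ
  have hG : ∀ a, SmM (fun w => A (ψ w) a) z := fun a => (hA a).comp hψ
  have hX : ∀ k, ∀ a ∈ Finset.univ, SmM (fun w => jm ψ w a k • A (ψ w) a) z := fun k a _ =>
    SmM.smul (hs a k) (hG a)
  refine ⟨fun k => (((hi.mul (SmM.sum (hX k))).mul hs).add (hi.mul (hs.dM k))).congr (e1 k),
    fun k l => ?_⟩
  have e3 : dMb l (dM k (jm ψ)) z = 0 := by
    rw [← dM_dMb hs, dM_congr (T := fun _ => 0) (hh.mono fun w hw => (mCHN m ψ w hw).2.2.2.1 l),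
      dM_const]
  have e4 : dMb l (fun w => ∑ a, jm ψ w a k • A (ψ w) a) z =
      ∑ a, jm ψ z a k • ∑ b, star (jm ψ z b l) • dMb b (fun w => A w a) (ψ z) := by
    have : dMb l (fun w => ∑ a, jm ψ w a k • A (ψ w) a) z =
        ∑ a, dMb l (fun w => jm ψ w a k • A (ψ w) a) z := by
      ext i j
      simp only [dMb, Matrix.of_apply, Matrix.sum_apply]
      exact dzb_sum fun a ha => (hX k a ha).diff i j
    rw [this]
    refine Finset.sum_congr rfl fun a _ => ?_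
    rw [dMb_smul (hs.diff a k) (hG a), (BPB.dM_comp mCHN h (hA a).diff l).2,
      show dzb l (fun w => jm ψ w a k) z = 0 from congrFun₂ (hb l) a k, zero_smul, zero_add]
  rw [kur, dMb_congr (e1 k), dMb_add ((hi.mul (SmM.sum (hX k))).mul hs) (hi.mul (hs.dM k)),
    dMb_mul (hi.mul (SmM.sum (hX k))) hs, dMb_mul hi (SmM.sum (hX k)), dMb_mul hi (hs.dM k),
    dMb_inv h hJ, e3, e4, hb]
  simp only [kur, smul_neg, Finset.sum_neg_distrib, Finset.smul_sum, smul_smul, zero_mul, mul_zero,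
    add_zero, zero_add, mul_neg, neg_mul, Matrix.conjTranspose_apply]

end TRS

open TRS in
theorem bTRS : St_TRS := fun _ _ _ h hJ =>
  ⟨fun a _ _ hV => ⟨fun e => ⟨pa_tr h hJ hV a e, bo_tr h hJ hV a e⟩, fun e => cp_tr h hJ hV a e⟩,
    fun φ hφ hP a => trn_comp h φ hφ hP a, fun A A' hA e => kur_tr h hJ A A' hA e⟩

end Pool.Agent.Lib.LF
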