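import Pool.Agent.Lib.LF.B_TOP

/-! Project lf, block VANB: vanishing of the type of Bott. -/

open scoped Classical Matrix
open MvPolynomial

noncomputable section

namespace Pool.Agent.Lib.LF

open Pool.Agent.Lib.SV (E)
open Pool.Agent.Lib.HS32

namespace VANB

open TOP

variable {m j : ℕ}

theorem exists_proj (F : Submodule ℂ (E m)) :
    ∃ P : Mat m, (∀ v, P *ᵥ v ∈ F) ∧ ∀ v ∈ F, P *ᵥ v = v := by
  obtain ⟨f, hf⟩ := LinearMap.exists_leftInverse_of_injective F.subtype F.ker_subtype
  refine ⟨LinearMap.toMatrix' (F.subtype ∘ₗ f), fun v => ?_, fun v hv => ?_⟩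
  · rw [LinearMap.toMatrix'_mulVec]
    exact (f v).2
  · rw [LinearMap.toMatrix'_mulVec]
    exact congrArg Subtype.val (LinearMap.congr_fun hf ⟨v, hv⟩)

theorem eq_zero_of_mulVec {A : Mat m} (h : ∀ v, A *ᵥ v = 0) : A = 0 :=
  Matrix.ext_iff_mulVec.2 fun v => by rw [h, Matrix.zero_mulVec]

theorem cu_mul (R : Fin m → Fin m → Mat m) (g g' : Mat m) :
    g.map C * cu R * g'.map C = cu fun a b => g * R a b * g' := by
  ext1 p q
  have h : (Matrix.of fun b a => (g * R a b * g') p q) =
      ∑ s, ∑ r, (g p r * g' s q) • (Matrix.of fun b a => R a b r s) := by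
    ext b a
    simp only [Matrix.mul_apply, Matrix.sum_apply, Matrix.smul_apply, Matrix.of_apply,
      smul_eq_mul, Finset.sum_mul]
    exact Finset.sum_congr rfl fun _ _ => Finset.sum_congr rfl fun _ _ => by ring
  simp only [cu, Matrix.of_apply]
  rw [h]
  simp only [lin_sum, lin_smul, Matrix.mul_apply, Matrix.map_apply, Matrix.of_apply,
    Finset.sum_mul, smul_eq_C_mul, map_mul]
  exact Finset.sum_congr rfl fun _ _ => Finset.sum_congr rfl fun _ _ => by ring

theorem cu_zero : cu (fun _ _ => (0 : Mat m)) = 0 := by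
  ext1 p q
  exact lin_zero

/-- The algebra generated by the forms that kill the vectors `Y`. -/
def alg (Y : Fin (j + 1) → E m) : Subalgebra ℂ (Frm m) :=
  Algebra.adjoin ℂ {P | ∃ w : E m × E m, (∀ r, w.2 ⬝ᵥ Y r = 0) ∧ rko w = P}

theorem lin_mem {Y : Fin (j + 1) → E m} {T : Mat m} (h : ∀ r, T *ᵥ Y r = 0) : lin T ∈ alg Y := by
  rw [lin_eq_sum_rko]
  exact sum_mem fun b _ => Algebra.subset_adjoin ⟨(_, T b), fun r => congrFun (h r) b, rfl⟩

theorem det_mem {Y : Fin (j + 1) → E m} {R : Fin m → Fin m → Mat m}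
    (h : ∀ r b, av (fun a => R a b) (Y r) = 0) : (1 + cu R).det ∈ alg Y := by
  have h1 : ∀ p q, (1 + cu R) p q ∈ alg Y := fun p q => by
    refine add_mem ?_ (lin_mem fun r => funext fun b => ?_)
    · rw [Matrix.one_apply]
      split_ifs
      exacts [one_mem _, zero_mem _]
    · have := congrFun (congrFun (h r b) p) q
      simpa [av, Matrix.sum_apply, Matrix.mulVec, dotProduct, mul_comm] using this
  rw [Matrix.det_apply']
  exact sum_mem fun σ _ => mul_mem (intCast_mem _ _) (prod_mem fun i _ => h1 _ _)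

theorem top_prod {Y : Fin (j + 1) → E m} (hY : LinearIndependent ℂ Y) {k : ℕ}
    (w : Fin k → E m × E m) (hw : ∀ i r, (w i).2 ⬝ᵥ Y r = 0) (w' : Fin j → E m × E m) :
    top ((∏ i, rko (w i)) * ∏ i, rko (w' i)) = 0 := by
  have h0 : (∏ i, rko (w i)) * ∏ i, rko (w' i) = ∏ i, rko (Fin.append w w' i) := by
    rw [Fin.prod_univ_add]
    simp only [Fin.append_left, Fin.append_right]
  rw [h0]
  by_cases hk : k + j = m
  · subst hk
    have h1 : LinearMap.ker (Matrix.of fun i r => (w' i).2 ⬝ᵥ Y r).mulVecLin ≠ ⊥ :=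
      LinearMap.ker_ne_bot_of_finrank_lt (by simp)
    obtain ⟨c, hc, hc0⟩ := (Submodule.ne_bot_iff _).1 h1
    have h2 : (Matrix.of fun i => (Fin.append w w' i).2).det = 0 := by
      refine Matrix.exists_mulVec_eq_zero_iff.1 ⟨∑ r, c r • Y r, fun h => hc0 ?_, ?_⟩
      · exact funext (Fintype.linearIndependent_iff.1 hY c h)
      · funext i
        change (Fin.append w w' i).2 ⬝ᵥ _ = 0
        rw [dotProduct_sum]
        refine Fin.addCases (fun i => ?_) (fun i => ?_) i
        · simp [hw]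
        · have := congrFun (LinearMap.mem_ker.1 hc) i
          simpa [Matrix.mulVec, dotProduct, mul_comm, Finset.mul_sum, Finset.sum_mul,
            mul_left_comm, mul_assoc] using this
    rw [top_prod_rko, h2, mul_zero]
  · exact top_of_hom (prod_rko_hom _) hk

theorem top_alg {Y : Fin (j + 1) → E m} (hY : LinearIndependent ℂ Y) {P : Frm m}
    (hP : P ∈ alg Y) (T : Mat m) : top (P * lin T ^ j) = 0 := by
  have h1 : P ∈ Submodule.span ℂ (Submonoid.closure
      {P | ∃ w : E m × E m, (∀ r, w.2 ⬝ᵥ Y r = 0) ∧ rko w = P} : Set (Frm m)) := by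
    rw [← Algebra.adjoin_eq_span]
    exact hP
  clear hP
  induction h1 using Submodule.span_induction with
  | mem P hP =>
    have h2 : ∃ (k : ℕ) (w : Fin k → E m × E m), (∀ i r, (w i).2 ⬝ᵥ Y r = 0) ∧
        P = ∏ i, rko (w i) := by
      induction hP using Submonoid.closure_induction with
      | mem P hP =>
        obtain ⟨w, hw, rfl⟩ := hP
        exact ⟨1, fun _ => w, fun _ => hw, by simp⟩
      | one => exact ⟨0, Fin.elim0, fun i => i.elim0, by simp⟩
      | mul P Q _ _ hP hQ =>
        obtain ⟨k, w, hw, rfl⟩ := hP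
        obtain ⟨k', w', hw', rfl⟩ := hQ
        refine ⟨k + k', Fin.append w w', fun i r => ?_, ?_⟩
        · refine Fin.addCases (fun i => ?_) (fun i => ?_) i
          · simp [hw]
          · simp [hw']
        · rw [Fin.prod_univ_add]
          simp only [Fin.append_left, Fin.append_right]
    obtain ⟨k, w, hw, rfl⟩ := h2
    rw [lin_eq_sum_rko, ← Fin.prod_const, Finset.prod_univ_sum, Finset.mul_sum, top_sum]
    exact Finset.sum_eq_zero fun s _ => top_prod hY w hw fun i => (Pi.single (s i) 1, T (s i))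
  | zero => rw [zero_mul, top_zero]
  | add P Q _ _ hP hQ => rw [add_mul, top_add, hP, hQ, add_zero]
  | smul c P _ hP => rw [smul_mul_assoc, top_smul, hP, mul_zero]

theorem av_mul (R : Fin m → Mat m) (g g' : Mat m) (u : E m) :
    av (fun a => g * R a * g') u = g * av R u * g' := by
  simp [av, Finset.mul_sum, Finset.sum_mul]

theorem det_split {A : Type*} [CommRing A] (R P Q : Matrix (Fin m) (Fin m) A) (h1 : P + Q = 1)
    (h2 : Q * P = 0) (h3 : Q * R * P = 0) :
    (1 + R).det = (1 + Q * R * Q).det * (1 + P * R * P).det := by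
  have h4 : (1 + P * (R * Q)).det = 1 := by
    rw [Matrix.det_one_add_mul_comm, Matrix.mul_assoc, h2, Matrix.mul_zero, add_zero,
      Matrix.det_one]
  have h5 : R = (P + Q) * R * (P + Q) := by rw [h1, one_mul, mul_one]
  have h6 : ∀ X : Matrix (Fin m) (Fin m) A, Q * (P * X) = 0 := fun X => by
    rw [← mul_assoc, h2, zero_mul]
  have h7 : 1 + R = (1 + Q * R * Q) * (1 + P * (R * Q)) * (1 + P * R * P) := by
    conv_lhs => rw [h5]
    simp only [add_mul, mul_add, h3, one_mul, mul_one]
    simp only [mul_assoc, h6, mul_zero, zero_mul, add_zero]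
    abel
  rw [h7, Matrix.det_mul, Matrix.det_mul, h4, mul_one]

end VANB

open VANB in
theorem bVANB : St_VANB := by
  intro m j R Y F η hY h1 h2 h3 h4 w
  obtain ⟨P, hP, hP'⟩ := exists_proj F
  have hQ : ∀ v ∈ F, (1 - P) *ᵥ v = 0 := fun v hv => by
    rw [Matrix.sub_mulVec, Matrix.one_mulVec, hP' v hv, sub_self]
  refine top_alg hY (mul_mem ?_ (prod_mem fun i _ => lin_mem (h4 i))) w
  rw [det_split (cu R) (P.map C) ((1 - P).map C), cu_mul, cu_mul]
  · refine mul_mem (det_mem fun r b => ?_) (det_mem fun r b => ?_)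
    · rw [av_mul (fun a => R a b)]
      refine eq_zero_of_mulVec fun v => ?_
      rw [← Matrix.mulVec_mulVec, ← Matrix.mulVec_mulVec]
      exact hQ _ (h2 r b _)
    · rw [av_mul (fun a => R a b)]
      refine eq_zero_of_mulVec fun v => ?_
      rw [← Matrix.mulVec_mulVec, ← Matrix.mulVec_mulVec, h3 r b _ (hP v), Matrix.mulVec_zero]
  · rw [← Matrix.map_add _ (map_add C), add_sub_cancel, Matrix.map_one _ (map_zero C) (map_one C)]
  · rw [← Matrix.map_mul, eq_zero_of_mulVec (A := (1 - P) * P) fun v => by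
      rw [← Matrix.mulVec_mulVec]; exact hQ _ (hP v), Matrix.map_zero _ (map_zero C)]
  · rw [cu_mul, ← cu_zero]
    congr 1
    funext a b
    refine eq_zero_of_mulVec fun v => ?_
    rw [← Matrix.mulVec_mulVec, ← Matrix.mulVec_mulVec]
    exact hQ _ (h1 a b _ (hP v))

end Pool.Agent.Lib.LF
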