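import Pool.Agent.Lib.LF.ABlue

open scoped Classical Matrix
open Set MvPolynomial Module

noncomputable section

namespace Pool.Agent.Lib.LF

open Pool.Agent.Lib.SV (E)
open Pool.Agent.Lib.HS32

namespace VANR

variable {m : ℕ}

theorem cu_left (g : Mat m) (R : Fin m → Fin m → Mat m) :
    cu (fun a b => g * R a b) = g.map C * cu R := by
  refine Matrix.ext fun p q => ?_
  simp only [cu, lin, Matrix.of_apply, Matrix.mul_apply, Matrix.map_apply, map_sum, map_mul,
    Finset.sum_mul, Finset.mul_sum, mul_assoc]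
  rw [eq_comm, Finset.sum_comm]
  exact Finset.sum_congr rfl fun _ _ => Finset.sum_comm

theorem cu_right (g : Mat m) (R : Fin m → Fin m → Mat m) :
    cu (fun a b => R a b * g) = cu R * g.map C := by
  refine Matrix.ext fun p q => ?_
  simp only [cu, lin, Matrix.of_apply, Matrix.mul_apply, Matrix.map_apply, map_sum, map_mul,
    Finset.sum_mul, mul_right_comm _ (C _)]
  rw [eq_comm, Finset.sum_comm]
  exact Finset.sum_congr rfl fun _ _ => Finset.sum_comm

theorem deg_det {σ : Type} {r : ℕ} (N : Matrix (Fin r) (Fin r) (MvPolynomial σ ℂ))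
    (h : ∀ p q, (N p q).totalDegree ≤ 1) : N.det.totalDegree ≤ r := by
  rw [Matrix.det_apply]
  refine totalDegree_finsetSum_le fun s _ => ?_
  rw [Units.smul_def, zsmul_eq_mul, ← map_intCast (C : ℂ →+* MvPolynomial σ ℂ)]
  refine (totalDegree_mul _ _).trans ?_
  rw [totalDegree_C, zero_add]
  refine (totalDegree_finsetProd _ _).trans ?_
  simpa using Finset.sum_le_card_nsmul Finset.univ _ 1 fun i _ => h (s i) i

theorem deg_rank {σ : Type} (f : E m →ₗ[ℂ] E m) (N : Matrix (Fin m) (Fin m) (MvPolynomial σ ℂ))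
    (h : ∀ p q, (N p q).totalDegree ≤ 1) :
    (1 + (LinearMap.toMatrix' f).map C * N).det.totalDegree ≤ finrank ℂ (LinearMap.range f) := by
  set b := finBasis ℂ (LinearMap.range f)
  set B := LinearMap.toMatrix b (Pi.basisFun ℂ (Fin m)) (LinearMap.range f).subtype
  set A := LinearMap.toMatrix (Pi.basisFun ℂ (Fin m)) b f.rangeRestrict
  have h1 : LinearMap.toMatrix' f = B * A := by
    rw [← LinearMap.toMatrix_comp, LinearMap.toMatrix_eq_toMatrix']
    rfl
  rw [h1, Matrix.map_mul, Matrix.mul_assoc, Matrix.det_one_add_mul_comm]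
  refine deg_det _ fun p q => (totalDegree_add _ _).trans (max_le ?_ ?_)
  · rw [Matrix.one_apply]
    split_ifs <;> simp
  · simp only [Matrix.mul_apply, Matrix.map_apply, Finset.sum_mul]
    refine totalDegree_finsetSum_le fun k _ => totalDegree_finsetSum_le fun l _ => ?_
    refine (totalDegree_mul _ _).trans ?_
    rw [totalDegree_C, add_zero]
    refine (totalDegree_mul _ _).trans ?_
    rw [totalDegree_C, zero_add]
    exact h l k

end VANR

theorem bVANR (hT : St_TOP) : St_VANR := by
  intro m j R Z φ η hZ hφ h0 h1 h2 w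
  obtain ⟨-, -, -, -, -, t1, t2, -⟩ := hT m
  set K := LinearMap.ker (Matrix.of φ).mulVecLin
  set S := Submodule.span ℂ (range Z)
  obtain ⟨K', hK⟩ := K.exists_isCompl
  obtain ⟨S', hS⟩ := S.exists_isCompl
  set P := K.projection K' hK
  set Q := S'.projection S hS.symm
  have e1 : ∀ a b, LinearMap.toMatrix' P * R a b = R a b := fun a b => by
    refine Matrix.toLin'.injective (LinearMap.ext fun v => ?_)
    rw [Matrix.toLin'_mul, Matrix.toLin'_toMatrix', LinearMap.comp_apply]
    refine Submodule.projection_apply_of_mem_left hK (funext fun t => ?_)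
    change φ t ⬝ᵥ R a b *ᵥ v = 0
    rw [Matrix.dotProduct_mulVec, h2, zero_dotProduct]
  have e2 : ∀ a b, R a b * LinearMap.toMatrix' Q = R a b := fun a b => by
    refine Matrix.toLin'.injective (LinearMap.ext fun v => ?_)
    rw [Matrix.toLin'_mul, Matrix.toLin'_toMatrix', LinearMap.comp_apply, eq_comm, ← sub_eq_zero,
      ← map_sub]
    have h3 : S ≤ LinearMap.ker (Matrix.toLin' (R a b)) :=
      Submodule.span_le.2 (by rintro _ ⟨s, rfl⟩; exact h1 a b s)
    refine h3 ((Submodule.projection_apply_eq_zero_iff hS.symm).1 ?_)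
    rw [map_sub, Submodule.projection_apply_of_mem_left hS.symm
      (Submodule.projection_apply_mem hS.symm v), sub_self]
  have e3 : (1 + cu R).det = (1 + (LinearMap.toMatrix' (Q ∘ₗ P)).map C * cu R).det := by
    have h4 : cu R = (LinearMap.toMatrix' P).map C * cu R * (LinearMap.toMatrix' Q).map C := by
      rw [← VANR.cu_left, ← VANR.cu_right]
      simp only [e1, e2]
    rw [LinearMap.toMatrix'_comp, Matrix.map_mul, Matrix.mul_assoc, Matrix.det_one_add_mul_comm,
      ← h4]
  have d1 : finrank ℂ K + j = m := by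
    have h5 := LinearMap.finrank_range_add_finrank_ker (Matrix.of φ).mulVecLin
    have h6 : (Matrix.of φ).rank = j := by
      simpa using LinearIndependent.rank_matrix (M := Matrix.of φ) hφ
    rw [finrank_fin_fun] at h5
    exact (add_comm _ _).trans ((congrArg (· + finrank ℂ K) h6.symm).trans h5)
  have hSK : S ≤ K := Submodule.span_le.2 (by rintro _ ⟨s, rfl⟩; exact funext fun t => h0 t s)
  have d2 : finrank ℂ (LinearMap.range (Q ∘ₗ P)) + (j + 1) ≤ finrank ℂ K := by
    have h5 := LinearMap.finrank_range_add_finrank_ker (Q.domRestrict K)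
    have h6 : LinearMap.range (Q ∘ₗ P) = LinearMap.range (Q.domRestrict K) := by
      rw [LinearMap.range_comp, Submodule.range_projection, LinearMap.range_domRestrict]
    have h7 : S.comap K.subtype ≤ LinearMap.ker (Q.domRestrict K) := fun x hx =>
      (Submodule.projection_apply_eq_zero_iff hS.symm).2 hx
    have h8 := Submodule.finrank_mono h7
    rw [(Submodule.comapSubtypeEquivOfLe hSK).finrank_eq, finrank_span_eq_card hZ,
      Fintype.card_fin] at h8
    rw [h6]
    exact (Nat.add_le_add_left h8 _).trans h5.le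
  have d3 := VANR.deg_rank (Q ∘ₗ P) (cu R) fun p q => t2 _
  rw [← e3] at d3
  have d4 : (∏ i, lin (η i)).totalDegree ≤ j := (totalDegree_finsetProd _ _).trans (by
    simpa using Finset.sum_le_card_nsmul Finset.univ _ 1 fun i _ => t2 (η i))
  have d5 : (lin w ^ j).totalDegree ≤ j :=
    (totalDegree_pow _ _).trans (mul_le_of_le_one_right' (t2 w))
  refine t1 _ ?_
  have d6 := totalDegree_mul ((1 + cu R).det * ∏ i, lin (η i)) (lin w ^ j)
  have d7 := totalDegree_mul (1 + cu R).det (∏ i, lin (η i))
  omega

end Pool.Agent.Lib.LF
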