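import Pool.Agent.Lib.LF.ABlue

/-! Project lf, block ZON: a locally constant choice, and one more skew matrix. -/

open scoped Classical Topology Matrix
open Set Filter

noncomputable section

namespace Pool.Agent.Lib.LF

open Pool.Agent.Lib.SV (E)
open Pool.Agent.Lib.HS32

namespace ZON

theorem radius {X Y : Type} [TopologicalSpace X] [CompactSpace X] [MetricSpace Y] {κ : X → Y}
    {D O : Set X} (hκ : Continuous κ) (hc : (κ '' D).Countable) (hO : IsOpen O) (y : Y)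
    (h : ∀ x', κ x' = y → x' ∈ O) :
    ∃ ρ : ℝ, 0 < ρ ∧ (∀ x', dist (κ x') y < ρ → x' ∈ O) ∧ ∀ d ∈ D, dist (κ d) y ≠ ρ := by
  have hK : IsClosed (κ '' Oᶜ) := (hO.isClosed_compl.isCompact.image hκ).isClosed
  have hy : y ∈ (κ '' Oᶜ)ᶜ := by
    rintro ⟨x', hx', e⟩
    exact hx' (h x' e)
  obtain ⟨ε, hε, hb⟩ := Metric.isOpen_iff.1 hK.isOpen_compl y hy
  have hS : ((fun z => dist z y) '' (κ '' D)).Countable := hc.image _
  obtain ⟨ρ, hρ, h0, h1⟩ := (hS.dense_compl ℝ).exists_between hε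
  refine ⟨ρ, h0, fun x' hx' => ?_, fun d hd e => hρ ⟨κ d, ⟨d, hd, rfl⟩, e⟩⟩
  by_contra hn
  exact hb (Metric.mem_ball.2 (hx'.trans h1)) ⟨x', hn, rfl⟩

theorem zone (X Y τ : Type) [TopologicalSpace X] [CompactSpace X] [T2Space X]
    [MetricSpace Y] [Nonempty τ] (κ : X → Y) (D : Set X) (O : τ → Set X) (hκ : Continuous κ)
    (hD : IsClosed D) (hc : (κ '' D).Countable) (hO : ∀ t, IsOpen (O t))
    (h : ∀ x ∈ D, ∃ t, ∀ x', κ x' = κ x → x' ∈ O t) :
    ∃ (t : X → τ) (r : X → ℝ), Continuous r ∧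
      (∀ x ∈ D, r x = 0) ∧ ∀ x, r x < 1 → x ∈ O (t x) ∧ ∀ᶠ x' in 𝓝 x, t x' = t x := by
  have h1 : ∀ x : D, ∃ (t : τ) (ρ : ℝ), 0 < ρ ∧ (∀ x', dist (κ x') (κ x) < ρ → x' ∈ O t) ∧
      ∀ d ∈ D, dist (κ d) (κ x) ≠ ρ := fun x => by
    obtain ⟨t, ht⟩ := h x x.2
    obtain ⟨ρ, hρ⟩ := radius hκ hc (hO t) (κ x) ht
    exact ⟨t, ρ, hρ⟩
  choose tt ρ h0 hin hne using h1
  have hd : ∀ x : D, Continuous fun x' => dist (κ x') (κ x) := fun x =>
    hκ.dist continuous_const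
  obtain ⟨s, hs⟩ := hD.isCompact.elim_finite_subcover
    (fun x : D => {x' | dist (κ x') (κ x) < ρ x})
    (fun x => isOpen_lt (hd x) continuous_const)
    (fun x hx => mem_iUnion.2 ⟨⟨x, hx⟩, by simpa using h0 ⟨x, hx⟩⟩)
  obtain ⟨n, ⟨e⟩⟩ := Finite.exists_equiv_fin s
  set c : Fin n → D := fun i => (e.symm i).1 with hcdef
  set V : Fin n → Set X := fun i => {x' | dist (κ x') (κ (c i)) < ρ (c i)} ∩
    ⋂ j ∈ {j | j < i}, {x' | ρ (c j) < dist (κ x') (κ (c j))} with hV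
  have hVo : ∀ i, IsOpen (V i) := fun i =>
    (isOpen_lt (hd _) continuous_const).inter
      ((toFinite _).isOpen_biInter fun j _ => isOpen_lt continuous_const (hd _))
  have hVm : ∀ i x', x' ∈ V i ↔ dist (κ x') (κ (c i)) < ρ (c i) ∧
      ∀ j, j < i → ρ (c j) < dist (κ x') (κ (c j)) := fun i x' => by
    simp only [hV, mem_inter_iff, mem_iInter, mem_ofPred_eq]
  have huniq : ∀ i j x', x' ∈ V i → x' ∈ V j → i = j := fun i j x' hi hj => by
    rw [hVm] at hi hj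
    rcases lt_trichotomy i j with l | l | l
    · exact absurd (hj.2 i l) (not_lt.2 hi.1.le)
    · exact l
    · exact absurd (hi.2 j l) (not_lt.2 hj.1.le)
  have hcov : ∀ d ∈ D, ∃ i, d ∈ V i := fun d hdD => by
    obtain ⟨x, hx, hdx⟩ := mem_iUnion₂.1 (hs hdD)
    have hex : ({i | dist (κ d) (κ (c i)) < ρ (c i)} : Set (Fin n)).Nonempty :=
      ⟨e ⟨x, hx⟩, by simpa [hcdef] using hdx⟩
    obtain ⟨i, hi, hmin⟩ := (wellFounded_lt (α := Fin n)).has_min _ hex
    refine ⟨i, (hVm i d).2 ⟨hi, fun j hj => ?_⟩⟩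
    have h2 : ¬dist (κ d) (κ (c j)) < ρ (c j) := fun hh => hmin j hh hj
    exact lt_of_le_of_ne (not_lt.1 h2) (hne _ d hdD).symm
  have hU : IsOpen (⋃ i, V i) := isOpen_iUnion hVo
  obtain ⟨r, hr0, hr1, -⟩ := exists_continuous_zero_one_of_isClosed hD hU.isClosed_compl
    (disjoint_compl_right_iff_subset.2 fun d hdD => mem_iUnion.2 (hcov d hdD))
  set t : X → τ := fun x => if hx : ∃ i, x ∈ V i then tt (c hx.choose) else
    Classical.arbitrary τ with ht
  have htV : ∀ i x, x ∈ V i → t x = tt (c i) := fun i x hx => by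
    have hx' : ∃ i, x ∈ V i := ⟨i, hx⟩
    simp only [ht, dif_pos hx']
    rw [huniq _ _ x hx'.choose_spec hx]
  refine ⟨t, r, r.continuous, fun x hx => hr0 hx, fun x hx => ?_⟩
  have hxU : x ∈ ⋃ i, V i := by
    by_contra hn
    have := hr1 hn
    simp only [Pi.one_apply] at this
    exact absurd hx (by rw [this]; exact lt_irrefl _)
  obtain ⟨i, hi⟩ := mem_iUnion.1 hxU
  refine ⟨?_, ?_⟩
  · rw [htV i x hi]
    exact hin _ x ((hVm i x).1 hi).1
  · filter_upwards [(hVo i).mem_nhds hi] with x' hx'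
    rw [htV i x' hx', htV i x hi]

theorem more (j k : ℕ) (N : Fin j → Mat (j + k + 1)) (b : E (j + k + 1))
    (K : Set (E (j + k + 1))) (hb : b ≠ 0)
    (hK : ∀ ξ : Fin k → E (j + k + 1), (∀ r, ξ r ∈ K) → ¬LinearIndependent ℂ ξ) :
    ∃ N' : Mat (j + k + 1), N'ᵀ = -N' ∧ ∀ (a : Fin j → ℂ) (a' : ℂ),
      (∑ r, a r • N r + a' • N') *ᵥ b ∈ K → a' = 0 := by
  have h1 : Module.finrank ℂ (Submodule.span ℂ K) < k := by
    by_contra hn
    obtain ⟨f, hf, -, hi⟩ := Submodule.exists_fun_fin_finrank_span_eq ℂ K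
    exact hK (f ∘ Fin.castLE (not_lt.1 hn)) (fun r => hf _)
      (hi.comp _ (Fin.castLE_injective _))
  set W₁ : Submodule ℂ (E (j + k + 1)) := Submodule.span ℂ (range fun r => N r *ᵥ b) with hW₁
  have h2 : Module.finrank ℂ W₁ ≤ j :=
    (finrank_range_le_card (R := ℂ) fun r => N r *ᵥ b).trans (Fintype.card_fin j).le
  have h3 := Submodule.finrank_add_le_finrank_add_finrank W₁ (Submodule.span ℂ K)
  let L : E (j + k + 1) →ₗ[ℂ] ℂ :=
    { toFun := fun ξ => ξ ⬝ᵥ b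
      map_add' := fun u v => add_dotProduct u v b
      map_smul' := fun a u => smul_dotProduct a u b }
  have h4 := L.finrank_range_add_finrank_ker
  have h5 : Module.finrank ℂ (LinearMap.range L) ≤ 1 := by
    simpa using Submodule.finrank_le (LinearMap.range L)
  have h6 : Module.finrank ℂ (E (j + k + 1)) = j + k + 1 := by simp
  have h7 : ¬LinearMap.ker L ≤ W₁ ⊔ Submodule.span ℂ K := fun hle => by
    have := Submodule.finrank_mono hle
    omega
  obtain ⟨ξ, hξ, hn⟩ := SetLike.not_le_iff_exists.1 h7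
  have hξb : ξ ⬝ᵥ b = 0 := hξ
  obtain ⟨c, hc⟩ := Function.ne_iff.1 hb
  have hc' : b c ≠ 0 := hc
  have hN : ((b c)⁻¹ • (Matrix.vecMulVec ξ (Pi.single c 1) -
      Matrix.vecMulVec (Pi.single c 1) ξ) : Mat (j + k + 1)) *ᵥ b = ξ := by
    rw [Matrix.smul_mulVec, Matrix.sub_mulVec, Matrix.vecMulVec_mulVec, Matrix.vecMulVec_mulVec,
      hξb, single_dotProduct, one_mul]
    ext l
    simp [hc']
  refine ⟨(b c)⁻¹ • (Matrix.vecMulVec ξ (Pi.single c 1) - Matrix.vecMulVec (Pi.single c 1) ξ),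
    ?_, fun a a' hm => ?_⟩
  · rw [Matrix.transpose_smul, Matrix.transpose_sub, Matrix.transpose_vecMulVec,
      Matrix.transpose_vecMulVec, ← smul_neg, neg_sub]
  · by_contra ha
    rw [Matrix.add_mulVec, Matrix.smul_mulVec, hN, Matrix.sum_mulVec] at hm
    have m1 : ∑ r, (a r • N r) *ᵥ b ∈ W₁ := Submodule.sum_mem _ fun r _ => by
      rw [Matrix.smul_mulVec]
      exact Submodule.smul_mem _ _ (Submodule.subset_span ⟨r, rfl⟩)
    have m2 : a' • ξ ∈ W₁ ⊔ Submodule.span ℂ K := by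
      have := Submodule.sub_mem (W₁ ⊔ Submodule.span ℂ K)
        (Submodule.mem_sup_right (Submodule.subset_span hm)) (Submodule.mem_sup_left m1)
      rwa [add_sub_cancel_left] at this
    exact hn ((Submodule.smul_mem_iff _ ha).1 m2)

end ZON

theorem bZON : St_ZON :=
  ⟨fun X Y τ _ _ _ _ _ κ D O => ZON.zone X Y τ κ D O, ZON.more⟩

end Pool.Agent.Lib.LF
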