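import Pool.Agent.Lib.LF.B_FIXF
import Pool.Agent.Lib.LF.B_FLOW

/-! Project lf: the coefficients of the flow are exponential polynomials. -/

open scoped Classical Polynomial PowerSeries
open Set MvPolynomial

noncomputable section

namespace Pool.Agent.Lib.LF

open Pool.Agent.Lib.MP_7fcda1_ag FIXF

namespace J99

variable {ι : Type}

theorem fin_quot [Finite ι] (η : ι → ℂ) (s : ℕ) (J : Ideal (Po ι))
    (h : RingHom.ker (eval η) ^ s ≤ J) : FiniteDimensional ℂ (Po ι ⧸ J) := by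
  have : Algebra.IsIntegral ℂ (Po ι ⧸ J) := ⟨fun x => by
    obtain ⟨g, rfl⟩ := Ideal.Quotient.mkₐ_surjective ℂ J x
    induction g using MvPolynomial.induction_on with
    | C c => exact ((Ideal.Quotient.mkₐ ℂ J).commutes c).symm ▸ isIntegral_algebraMap
    | add p q hp hq => exact map_add (Ideal.Quotient.mkₐ ℂ J) p q ▸ hp.add hq
    | mul_X p l hp =>
      rw [map_mul]
      refine hp.mul ⟨(Polynomial.X - Polynomial.C (η l)) ^ s,
        (Polynomial.monic_X_sub_C _).pow _, ?_⟩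
      rw [← Polynomial.aeval_def, map_pow, map_sub, Polynomial.aeval_X, Polynomial.aeval_C,
        ← (Ideal.Quotient.mkₐ ℂ J).commutes, ← map_sub, ← map_pow]
      exact Ideal.Quotient.eq_zero_iff_mem.2 (h (Ideal.pow_mem_pow (by
        simp [RingHom.mem_ker]) s))⟩
  exact Algebra.IsIntegral.finite

theorem krull [Finite ι] {I m : Ideal (Po ι)} [I.IsPrime] (hm : m ≠ ⊤) (hI : I ≤ m) {g : Po ι}
    (h : ∀ s, g ∈ I ⊔ m ^ s) : g ∈ I := by
  have h1 : m.map (Ideal.Quotient.mk I) ≠ ⊤ := fun h' => hm (by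
    have := Ideal.comap_map_of_surjective (Ideal.Quotient.mk I) Ideal.Quotient.mk_surjective m
    rw [h', Ideal.comap_top, ← RingHom.ker_eq_comap_bot, Ideal.mk_ker, sup_eq_left.2 hI] at this
    exact this.symm)
  rw [← Ideal.Quotient.eq_zero_iff_mem, ← Ideal.mem_bot, ← Ideal.iInf_pow_eq_bot_of_isDomain _ h1,
    Ideal.mem_iInf]
  intro s
  obtain ⟨a, ha, b, hb, rfl⟩ := Submodule.mem_sup.1 (h s)
  rw [map_add, Ideal.Quotient.eq_zero_iff_mem.2 ha, zero_add, ← Ideal.map_pow]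
  exact Ideal.mem_map_of_mem _ hb

theorem der_pow {R : Type} [CommRing R] [Algebra ℂ R] (D : Derivation ℂ R R) {m : Ideal R}
    (h : ∀ a, D a ∈ m) (s : ℕ) : ∀ a ∈ m ^ s, D a ∈ m ^ s := by
  induction s with
  | zero => simp
  | succ s ih =>
    intro a ha
    rw [pow_succ] at ha ⊢
    refine Submodule.mul_induction_on ha (fun x hx y hy => ?_) fun x y hx hy => ?_
    · rw [D.leibniz, smul_eq_mul, smul_eq_mul, mul_comm y]
      exact add_mem (Ideal.mul_mem_mul hx (h y)) (Ideal.mul_mem_mul (ih x hx) hy)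
    · rw [map_add]
      exact add_mem hx hy

/-- A linear form applied to all coefficients. -/
def lf {R : Type} [CommRing R] [Algebra ℂ R] (f : R →ₗ[ℂ] ℂ) (G : R⟦X⟧) : ℂ⟦X⟧ :=
  PowerSeries.mk fun n => f (PowerSeries.coeff n G)

section
variable {R : Type} [CommRing R] [Algebra ℂ R] (f : R →ₗ[ℂ] ℂ)

theorem lf_mul (c : ℂ⟦X⟧) (G : R⟦X⟧) :
    lf f (PowerSeries.map (algebraMap ℂ R) c * G) = c * lf f G := by
  ext n
  simp [lf, PowerSeries.coeff_mul, ← Algebra.smul_def]

theorem lf_sum {α : Type} [Fintype α] (G : α → R⟦X⟧) : lf f (∑ a, G a) = ∑ a, lf f (G a) := by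
  ext n
  simp [lf]

theorem lf_sub (G G' : R⟦X⟧) : lf f (G - G') = lf f G - lf f G' := by
  ext n
  simp [lf]

theorem lf_et (hL : St_LAM) (D : Derivation ℂ R R) {J : Ideal R} [FiniteDimensional ℂ (R ⧸ J)]
    (hJ : ∀ a ∈ J, D a ∈ J) (hf : ∀ a ∈ J, f a = 0) (a b : R) :
    lf f (et D a * PowerSeries.C b) ∈ Lam := by
  let T := J.restrictScalars ℂ
  have : FiniteDimensional ℂ (R ⧸ T) := ‹FiniteDimensional ℂ (R ⧸ J)›
  let D' : (R ⧸ T) →ₗ[ℂ] R ⧸ T := T.mapQ T D.toLinearMap hJ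
  let f' : (R ⧸ T) →ₗ[ℂ] ℂ := T.liftQ (f.comp (LinearMap.mulRight ℂ b)) fun x hx =>
    hf _ (J.mul_mem_right b hx)
  have h : ∀ n, (D' ^ n) (T.mkQ a) = T.mkQ ((⇑D)^[n] a) := fun n => by
    induction n with
    | zero => rfl
    | succ n ih => rw [pow_succ', Module.End.mul_apply, ih, Function.iterate_succ_apply']; rfl
  convert hL.1 _ D' f' (T.mkQ a) using 1
  ext n
  rw [PowerSeries.coeff_mk, h]
  simp only [lf, et, PowerSeries.coeff_mk, PowerSeries.coeff_mul_C, smul_mul_assoc, map_smul]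
  rfl

theorem cmb_zero {α : Type} [Fintype α] (e : α → Po ι) (c : α → ℂ⟦X⟧) (v : ι → R) :
    PowerSeries.constantCoeff (cmb e c v) =
      aeval v (∑ a, C (PowerSeries.constantCoeff (c a)) * e a) := by
  simp only [cmb, map_sum, map_mul, aeval_C, ← PowerSeries.coeff_zero_eq_constantCoeff_apply,
    PowerSeries.coeff_map, PowerSeries.coeff_zero_C]

end

end J99

open J99

theorem J99.jet (hF : St_FLOW) (hL : St_LAM) (hE : St_ET) : St_JET := by
  rintro ι F E _ _ _ _ _ Y D P i₀ η hD ⟨i₁, η₁, h1, hs1, hz1⟩ h0 hη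
  obtain ⟨d, Q, q1, q2, q3⟩ := hF ι F Y D P i₀ hD h0
  have hR : Submodule.span ℂ (range Y) ^ d =
      (homogeneousSubmodule ι ℂ d).map (aeval Y : Po ι →ₐ[ℂ] F).toLinearMap := by
    rw [← homogeneousSubmodule_one_pow, Submodule.map_pow, homogeneousSubmodule_one_eq_span_X,
      Submodule.map_span, ← range_comp]
    simp [Function.comp_def]
  have hfg : FiniteDimensional ℂ (Submodule.span ℂ (range Y) ^ d : Submodule ℂ F) :=
    Module.Finite.iff_fg.2 ((Submodule.fg_span (finite_range Y)).pow d)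
  let b := Module.finBasis ℂ (Submodule.span ℂ (range Y) ^ d : Submodule ℂ F)
  choose e he he' using fun a => Submodule.mem_map.1 (hR.le (b a).2)
  replace he' : ∀ a, aeval Y (e a) = b a := he'
  let c₀ : ι → _ → ℂ⟦X⟧ := fun l a => PowerSeries.mk fun n => b.repr ⟨_, q1 l n⟩ a
  have hc₀ : ∀ l, cmb e (c₀ l) Y = Q l := fun l => by
    ext n
    have := congrArg (Submodule.subtype _) (b.sum_repr ⟨_, q1 l n⟩)
    rw [map_sum] at this
    simp only [cmb, c₀, he', map_sum, PowerSeries.coeff_mul_C, PowerSeries.coeff_map,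
      PowerSeries.coeff_mk, ← Algebra.smul_def]
    exact this
  have sc : ∀ i c, Y i ≠ 0 → cmb e c Y = PowerSeries.C (Y i ^ d) * cmb e c (nrm Y i) :=
    fun i c h => by
      rw [← cmb_scale he]
      exact congrArg _ (funext fun l => (mul_div_cancel₀ _ h).symm)
  let u := nrm Y i₁
  let D' := mkDerivation ℂ (P i₁)
  let I := RingHom.ker (aeval u : Po ι →ₐ[ℂ] F)
  let m := RingHom.ker (eval η₁)
  let G : (ι → _ → ℂ⟦X⟧) → ι → (Po ι)⟦X⟧ := fun c l =>
    cmb e (c l) X - et D' (X l) * cmb e (c i₁) X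
  have hG : ∀ c l, (∀ n, PowerSeries.coeff n (G c l) ∈ I) ↔
      cmb e (c l) Y = et D (u l) * cmb e (c i₁) Y := fun c l => by
    have h2 : (PowerSeries.C (Y i₁ ^ d) : F⟦X⟧) ≠ 0 := fun h =>
      pow_ne_zero d h1 (by simpa using congrArg PowerSeries.constantCoeff h)
    have h3 : PowerSeries.mapAlgHom (aeval u : Po ι →ₐ[ℂ] F) (G c l) =
        cmb e (c l) u - et D (u l) * cmb e (c i₁) u := by
      rw [map_sub, map_mul, cmb_map, cmb_map, et_comm (hD i₁ h1), aeval_X]
    rw [sc i₁ _ h1, sc i₁ _ h1, mul_left_comm, mul_right_inj' h2, ← sub_eq_zero, ← h3,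
      PowerSeries.ext_iff]
    simp [I, RingHom.mem_ker, PowerSeries.mapAlgHom_apply]
  have hIm : I ≤ m := fun g hg => by simpa [m, RingHom.mem_ker] using hs1 g hg
  have hDm : ∀ a, D' a ∈ m := fun a => by simp [m, D', RingHom.mem_ker, der_apply, hz1]
  have hDJ : ∀ s, ∀ a ∈ I ⊔ m ^ s, D' a ∈ I ⊔ m ^ s := fun s a ha => by
    obtain ⟨x, hx, y, hy, rfl⟩ := Submodule.mem_sup.1 ha
    rw [map_add]
    refine Submodule.add_mem_sup ?_ (der_pow D' hDm s y hy)
    rw [RingHom.mem_ker] at hx ⊢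
    rw [der_comm (hD i₁ h1), hx, map_zero]
  let A : Subalgebra ℂ ℂ⟦X⟧ := Lam.toSubalgebra hL.2.1.1 fun x y hx hy => hL.2.1.2 x hx y hy
  let co : (Po ι →ₗ[ℂ] ℂ) → ι → ι × _ → ℂ⟦X⟧ := fun f l j =>
    (if j.1 = l then lf f (et D' 1 * PowerSeries.C (e j.2)) else 0) -
      if j.1 = i₁ then lf f (et D' (X l) * PowerSeries.C (e j.2)) else 0
  have e1 : et D' 1 = 1 := by
    obtain ⟨φ, hφ⟩ := (hE.1 _ D').1
    rw [← hφ, map_one]
  have hco : ∀ f l (c : ι × _ → ℂ⟦X⟧), ∑ j, co f l j * c j = lf f (G (Function.curry c) l) :=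
    fun f l c => by
      simp only [co, G, cmb, sub_mul, Finset.sum_sub_distrib, Fintype.sum_prod_type, ite_mul,
        zero_mul, lf_sub, Finset.mul_sum, lf_sum, mul_left_comm (et D' _), lf_mul, e1, one_mul,
        aeval_X_left_apply, Function.curry_apply]
      simp [mul_comm]
  have hLc : ∀ c : ι × _ → ℂ⟦X⟧, ∑ j, (if j.1 = i₀ then PowerSeries.C (aeval η (e j.2)) else 0) *
      PowerSeries.map (algebraMap ℂ E) (c j) = cmb e (Function.curry c i₀) η := fun c => by
    simp only [cmb, Fintype.sum_prod_type, ite_mul, zero_mul, Function.curry_apply]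
    simp [mul_comm]
  obtain ⟨c', hc1, hc2⟩ := hL.2.2 A ℂ⟦X⟧ E⟦X⟧ _ A.val.toRingHom (PowerSeries.map (algebraMap ℂ E))
    {s | ∃ (n : ℕ) (f : Po ι →ₗ[ℂ] ℂ) (l : ι), (∀ a ∈ I ⊔ m ^ n, f a = 0) ∧ ∀ j, (s j).1 = co f l j}
    (Function.uncurry c₀) (fun j => if j.1 = i₀ then PowerSeries.C (aeval η (e j.2)) else 0)
    Subtype.val_injective (PowerSeries.map_injective _ (algebraMap ℂ E).injective)
    (by
      rintro s ⟨n, f, l, hf, hs⟩
      refine (Finset.sum_congr rfl fun j _ => congrArg (· * _) (hs j)).trans ?_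
      rw [hco]
      ext n
      rw [lf, PowerSeries.coeff_mk, map_zero]
      exact hf _ (Submodule.mem_sup_left ((hG c₀ l).2 (by rw [hc₀, hc₀, q2 i₁ l h1]) n)))
    (fun h => by
      have h2 := congrArg PowerSeries.constantCoeff (hc₀ i₀)
      have h3 := congrArg PowerSeries.constantCoeff h
      rw [sc i₀ _ h0, q3, map_mul, PowerSeries.constantCoeff_C, mul_right_eq_self₀] at h2
      have h4 := hη (∑ a, C (PowerSeries.constantCoeff (c₀ i₀ a)) * e a - 1) (by
        rw [map_sub, map_one, ← h2.resolve_right (pow_ne_zero d h0), cmb_zero, sub_self])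
      rw [map_sub, map_one, ← cmb_zero, sub_eq_zero] at h4
      rw [hLc, Function.curry_uncurry, h4, map_zero] at h3
      exact one_ne_zero h3)
  let c : ι × _ → ℂ⟦X⟧ := fun j => (c' j).1
  have hc3 : ∀ l, cmb e (Function.curry c l) Y = et D (u l) * cmb e (Function.curry c i₁) Y :=
    fun l => (hG _ l).1 fun n => by
      have : I.IsPrime := RingHom.ker_isPrime _
      refine krull (m := m) (RingHom.ker_ne_top _) hIm fun s => ?_
      by_contra hn
      have := fin_quot η₁ s (I ⊔ m ^ s) le_sup_right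
      obtain ⟨f, hf, hf'⟩ := Submodule.exists_dual_map_eq_bot_of_notMem
        (p := (I ⊔ m ^ s).restrictScalars ℂ) hn inferInstance
      have hf0 : ∀ a ∈ I ⊔ m ^ s, f a = 0 := fun a ha => by
        have := Submodule.mem_map_of_mem (f := f) (p := (I ⊔ m ^ s).restrictScalars ℂ) ha
        rwa [hf'] at this
      have h5 := congrArg Subtype.val (hc1 (fun j => ⟨co f l j, sub_mem
        (by split_ifs; exacts [lf_et f hL D' (hDJ s) hf0 _ _, zero_mem _])
        (by split_ifs; exacts [lf_et f hL D' (hDJ s) hf0 _ _, zero_mem _])⟩)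
        ⟨s, f, l, hf0, fun _ => rfl⟩)
      have h6 : ∑ j, co f l j * c j = 0 := by simpa using h5
      rw [hco] at h6
      exact hf (by simpa [lf] using congrArg (PowerSeries.coeff n) h6)
  refine ⟨d, _, e, Function.curry c, ⟨he, ?_, fun l a => (c' (l, a)).2, fun i l hi => ?_⟩, ?_⟩
  · simp only [he']
    exact b.linearIndependent.map' (Submodule.subtype _) (Submodule.ker_subtype _)
  · obtain ⟨φ, hφ⟩ := (hE.1 _ D).1
    rw [hc3 l, hc3 i, ← mul_assoc, ← hφ, ← hφ, ← hφ, ← map_mul, ← FLOW.nrm_mul hi]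
  · exact fun h => hc2 ((hLc c).trans h)

end Pool.Agent.Lib.LF
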