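import Pool.Agent.Lib.LF.B_ALG
import Pool.Agent.Lib.LF.B_ANA
import Pool.Agent.Lib.LF.B_ARC
import Pool.Agent.Lib.LF.B_BR1
import Pool.Agent.Lib.LF.B_BR2
import Pool.Agent.Lib.LF.B_BR3
import Pool.Agent.Lib.LF.B_CHN
import Pool.Agent.Lib.LF.B_CHV
import Pool.Agent.Lib.LF.B_CLS
import Pool.Agent.Lib.LF.B_CMP
import Pool.Agent.Lib.LF.B_CND
import Pool.Agent.Lib.LF.B_CON
import Pool.Agent.Lib.LF.B_CPT
import Pool.Agent.Lib.LF.B_CRV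
import Pool.Agent.Lib.LF.B_CTR
import Pool.Agent.Lib.LF.B_DIM
import Pool.Agent.Lib.LF.B_END
import Pool.Agent.Lib.LF.B_ET
import Pool.Agent.Lib.LF.B_ETA
import Pool.Agent.Lib.LF.B_EXP
import Pool.Agent.Lib.LF.B_FIX
import Pool.Agent.Lib.LF.B_FIXF
import Pool.Agent.Lib.LF.B_FLOW
import Pool.Agent.Lib.LF.B_GEN
import Pool.Agent.Lib.LF.B_GLU
import Pool.Agent.Lib.LF.B_HAM
import Pool.Agent.Lib.LF.B_IDP
import Pool.Agent.Lib.LF.B_IND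
import Pool.Agent.Lib.LF.B_INV
import Pool.Agent.Lib.LF.B_ISO
import Pool.Agent.Lib.LF.B_KUR
import Pool.Agent.Lib.LF.B_KX
import Pool.Agent.Lib.LF.B_LAM
import Pool.Agent.Lib.LF.B_LCS
import Pool.Agent.Lib.LF.B_LEAD
import Pool.Agent.Lib.LF.B_LOC
import Pool.Agent.Lib.LF.B_MAIN
import Pool.Agent.Lib.LF.B_MAT
import Pool.Agent.Lib.LF.B_MOV
import Pool.Agent.Lib.LF.B_RCE
import Pool.Agent.Lib.LF.B_SEI
import Pool.Agent.Lib.LF.B_SOL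
import Pool.Agent.Lib.LF.B_SPR
import Pool.Agent.Lib.LF.B_STK
import Pool.Agent.Lib.LF.B_TAN
import Pool.Agent.Lib.LF.B_TGT
import Pool.Agent.Lib.LF.B_TOP
import Pool.Agent.Lib.LF.B_TOPL
import Pool.Agent.Lib.LF.B_TRA
import Pool.Agent.Lib.LF.B_TRF
import Pool.Agent.Lib.LF.B_TRH
import Pool.Agent.Lib.LF.B_TRN
import Pool.Agent.Lib.LF.B_TRS
import Pool.Agent.Lib.LF.B_VANB
import Pool.Agent.Lib.LF.B_VANR
import Pool.Agent.Lib.LF.B_VF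
import Pool.Agent.Lib.LF.B_ZON
import Pool.Agent.Lib.LF.J99

/-! Project lf: all blocks put together. -/

namespace Pool.Agent.Lib.LF

theorem aJET : St_JET := J99.jet (bFLOW bET) bLAM bET

theorem aALG : St_ALG :=
  bALG (bCHN (bCPT bSEI) (bFIX bTRF (bFIXF aJET bEXP bLEAD bET))) bTRF (bARC aJET bEXP bET)
    (bCMP bDIM bIND) bDIM bIND (bTRN bMAT)
    (bEND (bSPR bCHV) (bRCE bCTR) (bMOV bCRV bCTR bLCS))

theorem aINV : St_INV := bINV (bCLS bTOP) bTOP bTRS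

theorem aSTK : St_STK := bSTK (bCLS bTOP) bTOP

theorem aIDP : St_IDP := bIDP bKX (bHAM bKX)

theorem aANA : St_ANA :=
  bANA bGEN bZON aIDP
    (bCON bGLU (bCND bTRS (bHAM bKX) bKX)
      (bSOL bLOC bKUR (bHAM bKX) aIDP (bVANR bTOP) bVANB bKX) aIDP bKX)
    (bETA bKX) (bTRA aSTK aINV (bCLS bTOP) bTOP) (bTRH aSTK aINV) aINV bKX

theorem aMAIN : St_MAIN := bMAIN aANA bISO bTGT bVF (bTAN bSEI) aALG bKX

theorem aBR3 : St_BR3 := bBR3 aSTK aINV bKX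

end Pool.Agent.Lib.LF
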