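import Pool.Agent.Lib.LF.SDefs
import Pool.Agent.Lib.MP_7fcda1_ag.Rk

/-! Project lf, algebraic half: a regular vector field with a zero sweeps out rational curves.
Definitions and statements of the blocks. -/

open scoped Classical Polynomial PowerSeries
open Set MvPolynomial

noncomputable section

namespace Pool.Agent.Lib.LF

open Pool.Agent.Lib.MP_7fcda1_ag

/-- Polynomials in the homogeneous coordinates. -/
abbrev Po (ι : Type) : Type := MvPolynomial ι ℂ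

section pts

variable {X ι Λ : Type} [Fintype ι] (y : X → ι → ℂ)

/-- The points of the projective variety `G = 0`. -/
structure Var (G : Λ → Po ι) : Prop where
  ne : ∀ x, y x ≠ 0
  hom : ∀ l, ∃ d, (G l).IsHomogeneous d
  zero : ∀ x l, eval (y x) (G l) = 0
  onto : ∀ w, w ≠ 0 → (∀ l, eval w (G l) = 0) → ∃ (x : X) (a : ℂ), w = a • y x
  inj : ∀ x x' (a : ℂ), y x = a • y x' → x = x'

/-- The derivative of `g` at `w` in the direction `u`. -/
def dir (g : Po ι) (w u : ι → ℂ) : ℂ := ∑ l, eval w (pderiv l g) * u l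

/-- On `T` the forms `H` represent `h v` modulo the radial direction. -/
structure Rep (T : Set X) (v : X → ι → ℂ) (e : ℕ) (h : Po ι) (H : ι → Po ι) : Prop where
  hh : h.IsHomogeneous e
  hH : ∀ l, (H l).IsHomogeneous (e + 1)
  eq : ∀ x ∈ T, ∃ a : ℂ, (fun l => eval (y x) (H l)) = eval (y x) h • v x + a • y x

/-- The vector field `v` is regular on `T`. -/
def Reg (T : Set X) (v : X → ι → ℂ) : Prop :=
  ∀ x ∈ T, ∃ e h H, Rep y T v e h H ∧ eval (y x) h ≠ 0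

/-- The vector field `v` is tangent to `T`. -/
def Tan (T : Set X) (v : X → ι → ℂ) : Prop :=
  ∀ (g : Po ι) (d : ℕ), g.IsHomogeneous d → Van y T g → ∀ x ∈ T, dir g (y x) (v x) = 0

/-- The vector field `v` vanishes at `x`. -/
def Zer (v : X → ι → ℂ) (x : X) : Prop := ∃ a : ℂ, v x = a • y x

/-- The vector field in the affine chart `i`. -/
def afv (v : X → ι → ℂ) (i : ι) (x : X) (l : ι) : ℂ := (v x l * y x i - y x l * v x i) / y x i ^ 2

/-- The locus of a point with coordinates in an extension field. -/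
def Loc {Ω : Type} [Field Ω] [Algebra ℂ Ω] (z : ι → Ω) : Set X :=
  {x | ∀ (g : Po ι) (d : ℕ), g.IsHomogeneous d → aeval z g = 0 → eval (y x) g = 0}

/-- The conclusion of the theorem. -/
def Concl (d₀ d₁ : ℕ) : Prop :=
  ∃ Y Z : Set X, Closed y Y ∧ Irred y Y ∧ DimLt y Y (d₁ + 1) ∧ ¬DimLt y Y d₁ ∧
    Closed y Z ∧ DimLt y Z (d₀ + 1) ∧
    ∀ z ∈ Y, ∃ c : X →₀ ℤ, (∀ w ∈ c.support, w ∈ Z) ∧ Finsupp.single z 1 - c ∈ RatTriv y

end pts

section fld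

variable {ι Λ F E : Type} [Field F] [Algebra ℂ F]

/-- Affine coordinates. -/
def nrm {K : Type} [Field K] (Y : ι → K) (i : ι) (l : ι) : K := Y l / Y i

/-- `w` is a specialisation of `u`. -/
def Spec [CommRing E] [Algebra ℂ E] (u : ι → F) (w : ι → E) : Prop :=
  ∀ g : Po ι, aeval u g = 0 → aeval w g = 0

/-- The relations between the coordinates of `Y` form a homogeneous ideal. -/
def Hmg (Y : ι → F) : Prop :=
  ∀ (g : Po ι) (d : ℕ), aeval Y g = 0 → aeval Y (homogeneousComponent d g) = 0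

/-- `Y` is a generic point of the cone over `V`. -/
structure Gp {X : Type} (y : X → ι → ℂ) (V : Set X) (Y : ι → F) : Prop where
  ker : ∀ g : Po ι, aeval Y g = 0 ↔ ∀ x ∈ V, ∀ a : ℂ, eval (a • y x) g = 0
  hmg : Hmg Y
  pt : ∀ x ∈ V, ∀ i, y x i ≠ 0 → Y i ≠ 0 ∧ Spec (nrm Y i) (aff y i x)

/-- The derivation `D` is regular on every affine chart, where it is given by `P`. -/
def Dm (Y : ι → F) (D : Derivation ℂ F F) (P : ι → ι → Po ι) : Prop :=
  ∀ i, Y i ≠ 0 → ∀ l, D (nrm Y i l) = aeval (nrm Y i) (P i l)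

/-- The derivation vanishes at some complex point. -/
def Zm (Y : ι → F) (P : ι → ι → Po ι) : Prop :=
  ∃ (i : ι) (η : ι → ℂ), Y i ≠ 0 ∧ Spec (nrm Y i) η ∧ ∀ l, eval η (P i l) = 0

/-- The formal flow. -/
def et {R : Type} [CommRing R] [Algebra ℂ R] (D : Derivation ℂ R R) (a : R) : R⟦X⟧ :=
  PowerSeries.mk fun n => ((n.factorial : ℂ)⁻¹) • (⇑D)^[n] a

/-- The series of `exp (ν t)`. -/
def ex (R : Type) [CommRing R] [Algebra ℂ R] (ν : ℂ) : R⟦X⟧ :=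
  PowerSeries.mk fun n => algebraMap ℂ R (ν ^ n / n.factorial)

/-- Exponential polynomials. -/
def Lam : Submodule ℂ ℂ⟦X⟧ :=
  Submodule.span ℂ {f | ∃ (a : ℕ) (ν : ℂ), f = PowerSeries.X ^ a * ex ℂ ν}

/-- The series `t` and `exp (μ_i t)`. -/
def tu (R : Type) [CommRing R] [Algebra ℂ R] {r : ℕ} (μ : Fin r → ℂ) : Option (Fin r) → R⟦X⟧ :=
  fun o => o.elim PowerSeries.X fun i => ex R (μ i)

/-- The derivative in `t` of a polynomial in `t` and the `exp (μ_i t)`. -/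
def dt {r : ℕ} (μ : Fin r → ℂ) (W : Po (Option (Fin r))) : Po (Option (Fin r)) :=
  pderiv none W + ∑ i, C (μ i) * X (some i) * pderiv (some i) W

/-- A family of forms, with power series as coefficients, evaluated at `η`. -/
def cmb {α : Type} [Fintype α] [CommRing E] [Algebra ℂ E] (e : α → Po ι) (c : α → ℂ⟦X⟧)
    (η : ι → E) : E⟦X⟧ :=
  ∑ a, PowerSeries.map (algebraMap ℂ E) (c a) * PowerSeries.C (aeval η (e a))

/-- The flow of `D` is given by forms of degree `d` whose coefficients are exponential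
polynomials. -/
structure Jet (Y : ι → F) (D : Derivation ℂ F F) (d : ℕ) {α : Type} [Fintype α] (e : α → Po ι)
    (c : ι → α → ℂ⟦X⟧) : Prop where
  hom : ∀ a, (e a).IsHomogeneous d
  ind : LinearIndependent ℂ fun a => aeval Y (e a)
  lam : ∀ l a, c l a ∈ Lam
  eq : ∀ i l, Y i ≠ 0 → cmb e (c l) Y = et D (nrm Y i l) * cmb e (c i) Y

/-- A family of rational curves through the generic point, tangent to `D`. -/
structure Arc (Y : ι → F) (D : Derivation ℂ F F) (i : ι) (d : ℕ) (Φ : ι → (Po ι)[X]) : Prop where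
  hom : ∀ l n, ((Φ l).coeff n).IsHomogeneous d
  on : ∀ g : Po ι, aeval Y g = 0 →
    aeval (fun l => (Φ l).map (aeval Y : Po ι →ₐ[ℂ] F).toRingHom) g = 0
  jet : ∃ a : F, a ≠ 0 ∧ ∀ l, aeval Y ((Φ l).coeff 0) = a * Y l ∧
    aeval Y ((Φ l).coeff 1) * Y i - aeval Y ((Φ i).coeff 1) * Y l = a * Y i ^ 2 * D (nrm Y i l)

/-- A rational curve on `G = 0` that joins `z` to `z'`. -/
def Lnk {K : Type} [Field K] (G : Λ → MvPolynomial ι K) (z z' : ι → K) : Prop :=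
  z' ≠ 0 ∧ ∃ q : ι → K[X], (∀ l, aeval q (G l) = 0) ∧
    ∀ i, (q i).eval 0 = z i ∧ (q i).eval 1 = z' i

/-- A chain of rational curves on `G = 0`. -/
def Chn (K : Type) [Field K] [Algebra ℂ K] (G : Λ → Po ι) : (ι → K) → (ι → K) → Prop :=
  Relation.ReflTransGen (Lnk fun l => map (algebraMap ℂ K) (G l))

/-- The coefficients of `g` lie in `k`. -/
def Cf (k : Subfield ℂ) (g : Po ι) : Prop := ∀ μ, coeff μ g ∈ k

end fld

/-! ### Commutative algebra -/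

/-- The lemma of Seidenberg. -/
def St_SEI : Prop := ∀ (R : Type) [CommRing R] [Algebra ℂ R] (D : Derivation ℂ R R) (I : Ideal R),
  (∀ a ∈ I, D a ∈ I) → (∀ P ∈ I.minimalPrimes, ∀ a ∈ P, D a ∈ P) ∧ ∀ a ∈ I.radical, D a ∈ I.radical

/-- The formal flow is a homomorphism; solutions of a polynomial differential equation. -/
def St_ET : Prop := (∀ (R : Type) [CommRing R] [Algebra ℂ R] (D : Derivation ℂ R R),
    (∃ φ : R →ₐ[ℂ] R⟦X⟧, ∀ a, φ a = et D a) ∧ ∀ a, PowerSeries.constantCoeff (et D a) = a ∧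
      PowerSeries.coeff 1 (et D a) = D a ∧ PowerSeries.derivative R (et D a) = et D (D a)) ∧
  ∀ (ι R : Type) [Fintype ι] [CommRing R] [Algebra ℂ R] (P : ι → Po ι) (g : ι → R⟦X⟧)
    (J : Set (Po ι)), (∀ l, PowerSeries.derivative R (g l) = aeval g (P l)) →
    (∀ a ∈ J, ∑ l, P l * pderiv l a ∈ J) →
    (∀ a ∈ J, aeval (fun l => PowerSeries.constantCoeff (g l)) a = 0) → ∀ a ∈ J, aeval g a = 0

/-- Independent derivations bound the transcendence degree from below; dual derivations. -/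
def St_DIM : Prop := ∀ (k F ι : Type) [Field k] [CharZero k] [Field F] [Algebra k F],
  (∀ (u : ι → F) (n : ℕ) (D : Fin n → Derivation k F F),
    (LinearIndependent F fun r l => D r (u l)) → (n : ℕ∞) ≤ rk k (range u)) ∧
  (∀ (u : ι → F), AlgebraicIndependent k u → ∀ w : ι → F, ∃ D : Derivation k F F,
    ∀ l, D (u l) = w l) ∧
  ∀ (R : Type) [CommRing R] [Algebra k R] (φ : R →ₐ[k] F) (D : R →ₗ[k] F),
    (∀ a b, D (a * b) = φ a * D b + φ b * D a) → (∀ a, φ a = 0 → D a = 0) →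
    ∃ D' : Derivation k F F, ∀ a, D' (φ a) = D a

/-- Linear independence under specialisation; towers of fields. -/
def St_IND : Prop := (∀ (R E F τ ι : Type) [CommRing R] [Field E] [Field F] [Finite τ]
    (φ : R →+* E) (ε : R →+* F) (w : τ → ι → R), (∀ a, φ a = 0 → ε a = 0) →
    (LinearIndependent F fun r l => ε (w r l)) → LinearIndependent E fun r l => φ (w r l)) ∧
  ∀ (k F E : Type) [Field k] [Field F] [Field E] [Algebra k F] [Algebra F E] [Algebra k E]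
    [IsScalarTower k F E] (A : Set F) (A' : Set E),
    rk k A + rk F A' ≤ rk k (algebraMap F E '' A ∪ A')

/-- The lemma on matroids. -/
def St_MAT : Prop := ∀ (α : Type) (M : Matroid α) (A A' : Set α) (d k : ℕ), M.E = univ →
  A.Finite → A'.Finite → ((d + k : ℕ) : ℕ∞) ≤ M.eRk A' → M.eRk A + k ≤ M.eRk (A ∪ A') →
    ∃ C T : Set α, C.Finite ∧ T ⊆ A' ∧ T.encard = (d + k : ℕ) ∧ Disjoint C T ∧ M.Indep (C ∪ T) ∧
      A' ⊆ M.closure (C ∪ T) ∧ M.eRk (A ∪ C) ≤ C.encard + d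

/-- Change of the field of constants. -/
def St_TRN : Prop := ∀ (k : Subfield ℂ) (E ι : Type) [Field E] [Algebra ℂ E] [Finite ι]
  (A A' : ι → E) (d r : ℕ), (k : Set ℂ).Countable → ((d + r : ℕ) : ℕ∞) ≤ rk k (range A') →
  rk k (range A) + r ≤ rk k (range A ∪ range A') →
    ∃ (Ω : Type) (_ : Field Ω) (_ : Algebra ℂ Ω) (τ : E →+* Ω),
      (∀ c ∈ k, τ (algebraMap ℂ E c) = algebraMap ℂ Ω c) ∧
      rk ℂ (range fun l => τ (A l)) ≤ d ∧ rk ℂ (range fun l => τ (A' l)) = (d + r : ℕ)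

/-- The theorem of Chevalley. -/
def St_CHV : Prop := ∀ (σ ι Ω : Type) [Finite σ] [Finite ι] [Field Ω] [Algebra ℂ Ω] (ω : σ → Ω)
  (π : ι → Po σ) (g : Po σ), aeval ω g ≠ 0 → ∃ h : Po ι, aeval (fun l => aeval ω (π l)) h ≠ 0 ∧
    ∀ w : ι → ℂ, Spec (fun l => aeval ω (π l)) w → eval w h ≠ 0 →
      ∃ u : σ → ℂ, Spec ω u ∧ eval u g ≠ 0 ∧ ∀ l, eval u (π l) = w l

/-- Spreading of a chain of rational curves. -/
def St_SPR : Prop := ∀ (ι Λ Ω : Type) [Finite ι] [Field Ω] [Algebra ℂ Ω] (G : Λ → Po ι)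
  (z z' : ι → Ω), z ≠ 0 → Chn Ω G z z' → ∃ h : Po ι, aeval z' h ≠ 0 ∧
    ∀ w' : ι → ℂ, Spec z' w' → eval w' h ≠ 0 → ∃ w : ι → ℂ, Spec z w ∧ w ≠ 0 ∧ Chn ℂ G w w'

/-- A curve through a given point that is not contained in a given hypersurface. -/
def St_CRV : Prop := ∀ (ι Ω : Type) [Finite ι] [Field Ω] [Algebra ℂ Ω] (z : ι → Ω) (w : ι → ℂ)
  (h : Po ι), Spec z w → aeval z h ≠ 0 → eval w h = 0 →
    ∃ (K : Type) (_ : Field K) (_ : Algebra ℂ K) (_ : IsFF ℂ K) (γ : ι → K) (v : Place ℂ K),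
      Spec z γ ∧ aeval γ h ≠ 0 ∧ ∀ l, v.O.valuation (γ l - algebraMap ℂ K (w l)) < 1

/-! ### Exponential polynomials -/

/-- The exponential of an endomorphism; descent of solutions of linear equations. -/
def St_LAM : Prop := (∀ (W : Type) [AddCommGroup W] [Module ℂ W] [FiniteDimensional ℂ W]
    (D : W →ₗ[ℂ] W) (f : W →ₗ[ℂ] ℂ) (w : W),
    (PowerSeries.mk fun n => (n.factorial : ℂ)⁻¹ * f ((D ^ n) w)) ∈ Lam) ∧
  (1 ∈ Lam ∧ ∀ f ∈ Lam, ∀ g ∈ Lam, f * g ∈ Lam) ∧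
  ∀ (A B B' J : Type) [CommRing A] [CommRing B] [CommRing B'] [IsDomain B] [IsDomain B']
    [Fintype J] (i : A →+* B) (i' : B →+* B') (S : Set (J → A)) (c : J → B) (L : J → B'),
    Function.Injective i → Function.Injective i' → (∀ s ∈ S, ∑ j, i (s j) * c j = 0) →
    ∑ j, L j * i' (c j) ≠ 0 →
      ∃ c' : J → A, (∀ s ∈ S, ∑ j, s j * c' j = 0) ∧ ∑ j, L j * i' (i (c' j)) ≠ 0

/-- Exponential polynomials are polynomials in independent series. -/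
def St_EXP : Prop := ∀ (β : Type) [Finite β] (c : β → ℂ⟦X⟧), (∀ b, c b ∈ Lam) →
  ∃ (r : ℕ) (μ : Fin r → ℂ) (ν : ℂ) (W : β → Po (Option (Fin r))),
    (∀ b, aeval (tu ℂ μ) (W b) = ex ℂ ν * c b) ∧
    ∀ (E : Type) [Field E] [Algebra ℂ E], AlgebraicIndependent E (tu E μ)

/-- The flow is given by forms of bounded degree. -/
def St_FLOW : Prop := ∀ (ι F : Type) [Fintype ι] [Field F] [Algebra ℂ F] (Y : ι → F)
  (D : Derivation ℂ F F) (P : ι → ι → Po ι) (i₀ : ι), Dm Y D P → Y i₀ ≠ 0 →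
    ∃ (d : ℕ) (Q : ι → F⟦X⟧),
      (∀ l n, PowerSeries.coeff n (Q l) ∈ Submodule.span ℂ (range Y) ^ d) ∧
      (∀ i l, Y i ≠ 0 → Q l = et D (nrm Y i l) * Q i) ∧
      PowerSeries.constantCoeff (Q i₀) = Y i₀ ^ d

/-- If the field has a zero, the coefficients are exponential polynomials. -/
def St_JET : Prop := ∀ (ι F E : Type) [Fintype ι] [Field F] [Algebra ℂ F] [Field E] [Algebra ℂ E]
  (Y : ι → F) (D : Derivation ℂ F F) (P : ι → ι → Po ι) (i₀ : ι) (η : ι → E), Dm Y D P → Zm Y P →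
  Y i₀ ≠ 0 → Spec (nrm Y i₀) η → ∃ (d r : ℕ) (e : Fin r → Po ι) (c : ι → Fin r → ℂ⟦X⟧),
    Jet Y D d e c ∧ cmb e (c i₀) η ≠ 0

/-- The leading coefficient of a solution is a zero of the field. -/
def St_LEAD : Prop := ∀ (r : ℕ) (μ : Fin r → ℂ),
  (∀ W : Po (Option (Fin r)),
    PowerSeries.derivative ℂ (aeval (tu ℂ μ) W) = aeval (tu ℂ μ) (dt μ W)) ∧
  ∀ (ι : Type) [Fintype ι] (W : ι → Po (Option (Fin r))), W ≠ 0 → ∃ (w : ι → ℂ) (i : ι),
    w i = 1 ∧ (∀ (g : Po ι) (d : ℕ), g.IsHomogeneous d → aeval W g = 0 → eval w g = 0) ∧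
    ∀ (l : ι) (H : Po ι) (e : ℕ), H.IsHomogeneous e →
      (dt μ (W l) * W i - W l * dt μ (W i)) * W i ^ e = aeval W H * W i ^ 2 → eval w H = 0

/-- A fixed point on an invariant closed subset, in terms of fields. -/
def St_FIXF : Prop := ∀ (ι F : Type) [Fintype ι] [Field F] [Algebra ℂ F] (Y : ι → F)
  (D : Derivation ℂ F F) (P : ι → ι → Po ι) (i₀ : ι) (η : ι → ℂ) (J : Set (Po ι)), Dm Y D P →
  Zm Y P → Y i₀ ≠ 0 → Spec (nrm Y i₀) η → (∀ g ∈ J, eval η g = 0) →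
  (∀ g ∈ J, ∑ l, P i₀ l * pderiv l g ∈ J) → ∃ (w : ι → ℂ) (i : ι), w i = 1 ∧
    (∀ (g : Po ι) (d : ℕ), g.IsHomogeneous d → g ∈ J ∨ aeval Y g = 0 → eval w g = 0) ∧
    ∀ l, eval w (P i l) = 0

/-- Rational curves through the generic point. -/
def St_ARC : Prop := ∀ (ι F : Type) [Fintype ι] [Field F] [Algebra ℂ F] (Y : ι → F)
  (D : Derivation ℂ F F) (P : ι → ι → Po ι) (i₀ : ι), Hmg Y → Dm Y D P → Zm Y P → Y i₀ ≠ 0 →
    ∃ d Φ, Arc Y D i₀ d Φ

/-- Composition of the families. -/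
def St_CMP : Prop := ∀ (ι Λ F : Type) [Fintype ι] [Field F] [Algebra ℂ F] (G : Λ → Po ι)
  (Y : ι → F) (i₀ : ι) (k : ℕ) (D : Fin k → Derivation ℂ F F) (d : Fin k → ℕ)
  (Φ : Fin k → ι → (Po ι)[X]), (∀ l, ∃ e, (G l).IsHomogeneous e) → (∀ l, aeval Y (G l) = 0) →
  Y i₀ ≠ 0 → (∀ r, Arc Y (D r) i₀ (d r) (Φ r)) →
  (LinearIndependent F fun r l => D r (nrm Y i₀ l)) →
    ∃ (E : Type) (_ : Field E) (_ : Algebra ℂ E) (_ : Algebra F E) (_ : IsScalarTower ℂ F E)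
      (z : ι → E), z i₀ = 1 ∧ Chn E G (fun l => algebraMap F E (nrm Y i₀ l)) z ∧
      (k : ℕ∞) ≤ rk F (range z) ∧ Spec z (nrm Y i₀)

/-! ### Points -/

/-- Irreducible components and intersections. -/
def St_CPT : Prop := ∀ (X ι Λ : Type) [Fintype ι] (y : X → ι → ℂ) (G : Λ → Po ι), Var y G →
  (∀ T, Closed y T → ∃ (r : ℕ) (V : Fin r → Set X), (∀ a, Closed y (V a) ∧ Irred y (V a)) ∧
    T = ⋃ a, V a ∧ ∀ v, Reg y T v → Tan y T v → ∀ a, Tan y (V a) v) ∧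
  ∀ T T' v, Closed y T → Closed y T' → Reg y (T ∪ T') v → Tan y T v → Tan y T' v →
    Closed y (T ∩ T') ∧ Tan y (T ∩ T') v

/-- The field is tangent to the reduced fibre. -/
def St_TAN : Prop := ∀ (X ι κ Λ σ : Type) [Fintype ι] (y : X → ι → ℂ) (G : Λ → Po ι)
  (p : X → κ → ℂ) (d : σ → ℕ) (Q : σ → κ → Po ι) (b : κ → ℂ) (c : κ), Var y G → b c = 1 →
  (∀ s l, (Q s l).IsHomogeneous (d s)) → (∀ x, ∃ s l, eval (y x) (Q s l) ≠ 0) →
  (∀ s x, ∃ a : ℂ, (fun l => eval (y x) (Q s l)) = a • p x) → (∀ x, p x ≠ 0) →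
    Closed y {x | ∃ a : ℂ, p x = a • b} ∧ ∀ v : X → ι → ℂ,
      (∀ x, p x c ≠ 0 → ∃ e h H, Rep y univ v e h H ∧ eval (y x) h ≠ 0 ∧
        ∀ x', eval (y x') h ≠ 0 → p x' c ≠ 0) →
      (∀ (g : Po ι) (e : ℕ), g.IsHomogeneous e → Van y univ g → ∀ x, p x c ≠ 0 →
        dir g (y x) (v x) = 0) →
      (∀ x s l, p x c ≠ 0 → dir (Q s l) (y x) (v x) * eval (y x) (Q s c) =
        dir (Q s c) (y x) (v x) * eval (y x) (Q s l)) →
      Reg y {x | ∃ a : ℂ, p x = a • b} v ∧ Tan y {x | ∃ a : ℂ, p x = a • b} v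

/-- The generic point and the derivation attached to a vector field. -/
def St_TRF : Prop := ∀ (X ι Λ : Type) [Fintype ι] (y : X → ι → ℂ) (G : Λ → Po ι) (V : Set X),
  Var y G → Closed y V → Irred y V → ∃ (F : Type) (_ : Field F) (_ : Algebra ℂ F) (Y : ι → F),
    Gp y V Y ∧ ∀ v, Reg y V v → Tan y V v → ∃ (D : Derivation ℂ F F) (P : ι → ι → Po ι),
      Dm Y D P ∧ ∀ x ∈ V, ∀ i l, y x i ≠ 0 → eval (aff y i x) (P i l) = afv y v i x l

/-- A fixed point on an invariant closed subset. -/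
def St_FIX : Prop := ∀ (X ι Λ : Type) [Fintype ι] (y : X → ι → ℂ) (G : Λ → Po ι) (V T : Set X)
  (v : X → ι → ℂ), Var y G → Closed y V → Irred y V → Reg y V v → Tan y V v →
  (∃ x ∈ V, Zer y v x) → T ⊆ V → Closed y T → T.Nonempty → Tan y T v → ∃ x ∈ T, Zer y v x

/-- The zero is carried along the chain of the components. -/
def St_CHN : Prop := ∀ (X ι Λ : Type) [TopologicalSpace X] [Fintype ι] (y : X → ι → ℂ)
  (G : Λ → Po ι) (T : Set X) (x₁ : X), Var y G → (∀ W, Closed y W → IsClosed W) → Closed y T →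
  IsPreconnected T → x₁ ∈ T → ∃ V, Closed y V ∧ Irred y V ∧ x₁ ∈ V ∧ V ⊆ T ∧
    ∀ v, Reg y T v → Tan y T v →
      Reg y V v ∧ Tan y V v ∧ ((∃ x ∈ T, Zer y v x) → ∃ x ∈ V, Zer y v x)

/-- The locus of a point. -/
def St_LCS : Prop := ∀ (X ι Λ Ω : Type) [Fintype ι] [Field Ω] [Algebra ℂ Ω] (y : X → ι → ℂ)
  (G : Λ → Po ι) (z : ι → Ω) (i : ι), Var y G → z i = 1 → (∀ l, aeval z (G l) = 0) →
    Closed y (Loc y z) ∧ Irred y (Loc y z) ∧
    (∀ d : ℕ, DimLt y (Loc y z) d ↔ rk ℂ (range z) < d) ∧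
    (∀ x ∈ Loc y z, ∀ c, y x c ≠ 0 → z c ≠ 0 ∧ Spec (nrm z c) (aff y c x)) ∧
    (∀ w : ι → ℂ, w ≠ 0 → Spec z w → ∃ x ∈ Loc y z, ∃ a : ℂ, w = a • y x) ∧
    ∀ g : Po ι, aeval z g ≠ 0 → ∃ (h : Po ι) (e : ℕ), h.IsHomogeneous e ∧ aeval z h ≠ 0 ∧
      ∀ x, eval (y x) h ≠ 0 → y x i ≠ 0 ∧ eval (aff y i x) g ≠ 0

/-- The centres of the places. -/
def St_CTR : Prop := ∀ (X ι Λ K : Type) [Fintype ι] [Field K] [Algebra ℂ K] [IsFF ℂ K]
  (y : X → ι → ℂ) (G : Λ → Po ι) (γ : ι → K), Var y G → γ ≠ 0 → (∀ l, aeval γ (G l) = 0) →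
    ∃ ctr : Place ℂ K → X,
      (∀ v : Place ℂ K, ∃ s : K, ∀ l,
        v.O.valuation (s * γ l - algebraMap ℂ K (y (ctr v) l)) < 1) ∧
      (∀ (v : Place ℂ K) (x : X) (s : K),
        (∀ l, v.O.valuation (s * γ l - algebraMap ℂ K (y x l)) < 1) → ctr v = x) ∧
      ∀ (g : Po ι) (d : ℕ), g.IsHomogeneous d →
        (aeval γ g = 0 → ∀ v, eval (y (ctr v)) g = 0) ∧
        (aeval γ g ≠ 0 → {v | eval (y (ctr v)) g = 0}.Finite)

/-- The two ends of a chain of rational curves are rationally equivalent. -/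
def St_RCE : Prop := ∀ (X ι Λ : Type) [Fintype ι] (y : X → ι → ℂ) (G : Λ → Po ι) (x x' : X)
  (a a' : ℂ), Var y G → a ≠ 0 → Chn ℂ G (a • y x) (a' • y x') →
    Finsupp.single x 1 - Finsupp.single x' 1 ∈ RatTriv y

/-- The moving lemma. -/
def St_MOV : Prop := ∀ (X ι Λ Ω : Type) [Fintype ι] [Field Ω] [Algebra ℂ Ω] (y : X → ι → ℂ)
  (G : Λ → Po ι) (z : ι → Ω) (i : ι) (h : Po ι) (e : ℕ), Var y G → z i = 1 →
  (∀ l, aeval z (G l) = 0) → h.IsHomogeneous e → aeval z h ≠ 0 → ∀ x ∈ Loc y z,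
    ∃ c : X →₀ ℤ, (∀ w ∈ c.support, w ∈ Loc y z ∧ eval (y w) h ≠ 0) ∧
      Finsupp.single x 1 - c ∈ RatTriv y

/-- From a chain between two generic points to the conclusion. -/
def St_END : Prop := ∀ (X ι Λ Ω : Type) [Fintype ι] [Field Ω] [Algebra ℂ Ω] (y : X → ι → ℂ)
  (G : Λ → Po ι) (z z' : ι → Ω) (i : ι) (d₀ d₁ : ℕ), Var y G → z i = 1 → z' i = 1 →
  (∀ l, aeval z (G l) = 0) → Chn Ω G z z' → rk ℂ (range z) ≤ d₀ → rk ℂ (range z') = d₁ →
    Concl y d₀ d₁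

/-- The algebraic half. -/
def St_ALG : Prop := ∀ (X ι κ Λ W : Type) [TopologicalSpace X] [Fintype ι] [AddCommGroup W]
  [Module ℂ W] (y : X → ι → ℂ) (G : Λ → Po ι) (k₀ : Subfield ℂ) (j k d : ℕ) (b : κ → ℂ) (c : κ)
  (Q : κ → Po ι) (T : Set X) (x₁ : X) (v : W →ₗ[ℂ] X → ι → ℂ) (β : Fin (j + k) → W)
  (ξ : Fin k → W), Var y G → (∀ W, Closed y W → IsClosed W) → (k₀ : Set ℂ).Countable →
  (∀ l, Cf k₀ (G l)) → (∀ l, Cf k₀ (Q l) ∧ (Q l).IsHomogeneous d) → (j : ℕ∞) ≤ rk k₀ (range b) →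
  Closed y T → IsPreconnected T → (∀ x ∈ T, ∀ l, eval (y x) (Q l) = b l * eval (y x) (Q c)) →
  x₁ ∈ T → eval (y x₁) (Q c) ≠ 0 → (∀ w, Reg y T (v w) ∧ Tan y T (v w)) →
  (∀ w, Zer y (v w) x₁ → w = 0) → LinearIndependent ℂ β → LinearIndependent ℂ ξ →
  (∀ r, ∃ x ∈ T, Zer y (v (ξ r)) x) → Concl y (j * 2) (j * 2 + k)

end Pool.Agent.Lib.LF
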