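import Pool.Agent.Lib.LF.Kit99
import Pool.Agent.Lib.MP_7fcda1_ag.Plc1

/-! Project lf: assembly of the algebraic half. -/

open scoped Classical Polynomial
open Set MvPolynomial

noncomputable section

namespace Pool.Agent.Lib.LF

open Pool.Agent.Lib.MP_7fcda1_ag K99

namespace ALG

variable {ι Λ E Ω : Type} [Field E] [Algebra ℂ E] [Field Ω] [Algebra ℂ Ω] {k : Subfield ℂ}
  {τ : E →+* Ω}

theorem map_aeval' {A B : Type} [CommRing A] [CommRing B] [Algebra ℂ A] [Algebra ℂ B]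
    (σ : A →+* B) (hσ : ∀ c ∈ k, σ (algebraMap ℂ A c) = algebraMap ℂ B c) {g : Po ι} (hg : Cf k g)
    (q : ι → A) : σ (aeval q g) = aeval (fun l => σ (q l)) g := by
  obtain ⟨g₀, rfl⟩ := cf_lift hg
  induction g₀ using MvPolynomial.induction_on with
  | C a =>
    simp only [map_C, aeval_C]
    exact hσ a a.2
  | add p q hp hq =>
    simp only [map_add]
    rw [hp (fun μ => by rw [coeff_map]; exact Subtype.prop _),
      hq (fun μ => by rw [coeff_map]; exact Subtype.prop _)]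
  | mul_X p i hp =>
    simp only [map_mul, map_X, aeval_X]
    rw [hp (fun μ => by rw [coeff_map]; exact Subtype.prop _)]

theorem chn_map (hτ : ∀ c ∈ k, τ (algebraMap ℂ E c) = algebraMap ℂ Ω c) {G : Λ → Po ι}
    (hG : ∀ l, Cf k (G l)) {z z' : ι → E} (h : Chn E G z z') :
    Chn Ω G (fun l => τ (z l)) fun l => τ (z' l) := by
  refine Relation.ReflTransGen.lift (fun (z : ι → E) l => τ (z l)) ?_ _ _ h
  rintro a b ⟨h0, q, h1, h2⟩
  refine ⟨fun h => h0 (funext fun l => τ.injective ((congrFun h l).trans (map_zero τ).symm)),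
    fun l => (q l).map τ, fun l => ?_, fun i => ?_⟩
  · have h3 := h1 l
    rw [aeval_map_algebraMap] at h3 ⊢
    have := map_aeval' (k := k) (Polynomial.mapRingHom τ) (fun c hc => by
      simp [Polynomial.algebraMap_apply, hτ c hc]) (hG l) q
    rw [h3, map_zero] at this
    exact this.symm
  · exact ⟨(Polynomial.eval_zero_map τ _).trans (congrArg τ (h2 i).1),
      (Polynomial.eval_one_map τ _).trans (congrArg τ (h2 i).2)⟩

theorem aeval_nrm {g : Po ι} {d : ℕ} (hg : g.IsHomogeneous d) (Y : ι → E) (i : ι) :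
    aeval (nrm Y i) g = (Y i)⁻¹ ^ d * aeval Y g := by
  rw [← plc1_aeval_smul hg]
  congr 2
  funext l
  rw [nrm, Pi.smul_apply, smul_eq_mul, div_eq_inv_mul]

end ALG

open ALG

theorem bALG (hCHN : St_CHN) (hTRF : St_TRF) (hARC : St_ARC) (hCMP : St_CMP) (hDIM : St_DIM)
    (hIND : St_IND) (hTRN : St_TRN) (hEND : St_END) : St_ALG := by
  intro X ι κ Λ W _ _ _ _ y G k₀ j k d b c Q T x₁ v β ξ hV hcl hk cG cQ hrk hT hTc hQ hx1 hQ1 hv hz
    hβ hξ hξz
  obtain ⟨V, V1, V2, V3, V4, V5⟩ := hCHN X ι Λ y G T x₁ hV hcl hT hTc hx1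
  obtain ⟨F, _, _, Y, hY, hD⟩ := hTRF X ι Λ y G V hV V1 V2
  choose D P hDm hP using fun w : W =>
    hD (v w) (V5 _ (hv w).1 (hv w).2).1 (V5 _ (hv w).1 (hv w).2).2.1
  obtain ⟨i, hi⟩ := Function.ne_iff.1 (hV.ne x₁)
  obtain ⟨Yi, hsp⟩ := hY.pt x₁ V3 i hi
  let L : W →ₗ[ℂ] ι → ℂ :=
    { toFun := fun w => afv y (v w) i x₁
      map_add' := fun a b => funext fun l => by
        simp only [afv, map_add, Pi.add_apply]
        ring
      map_smul' := fun a b => funext fun l => by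
        simp only [afv, map_smul, Pi.smul_apply, smul_eq_mul, RingHom.id_apply]
        ring }
  have hL : LinearMap.ker L = ⊥ := LinearMap.ker_eq_bot'.2 fun w h =>
    hz w ⟨v w x₁ i / y x₁ i, funext fun l => by
      have h1 : (v w x₁ l * y x₁ i - y x₁ l * v w x₁ i) / y x₁ i ^ 2 = 0 := congrFun h l
      have h2 : y x₁ i ≠ 0 := hi
      rw [div_eq_zero_iff, or_iff_left (pow_ne_zero 2 h2)] at h1
      rw [Pi.smul_apply, smul_eq_mul]
      field_simp
      linear_combination h1⟩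
  have ind : ∀ (n : ℕ) (w : Fin n → W), LinearIndependent ℂ w →
      LinearIndependent F fun r l => D (w r) (nrm Y i l) := fun n w hw => by
    have h1 := hIND.1 (Po ι) F ℂ (Fin n) ι (aeval (nrm Y i) : Po ι →ₐ[ℂ] F).toRingHom
      (eval (aff y i x₁)) (fun r l => P (w r) i l) (fun a h => hsp a h) (by
        have h2 : (fun r l => eval (aff y i x₁) (P (w r) i l)) = L ∘ w :=
          funext fun r => funext fun l => hP (w r) x₁ V3 i l hi
        rw [h2]
        exact hw.map' L hL)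
    have h3 : (fun r l => D (w r) (nrm Y i l)) = fun r l => aeval (nrm Y i) (P (w r) i l) :=
      funext fun r => funext fun l => hDm (w r) i Yi l
    rw [h3]
    exact h1
  have hZ : ∀ r, Zm Y (P (ξ r)) := fun r => by
    obtain ⟨x, hx, a, ha⟩ := (V5 _ (hv _).1 (hv _).2).2.2 (hξz r)
    obtain ⟨i', hi'⟩ := Function.ne_iff.1 (hV.ne x)
    refine ⟨i', _, (hY.pt x hx i' hi').1, (hY.pt x hx i' hi').2, fun l => ?_⟩
    rw [hP _ x hx i' l hi', afv, ha, Pi.smul_apply, Pi.smul_apply, smul_eq_mul, smul_eq_mul]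
    ring
  choose e Φ hΦ using fun r => hARC ι F Y (D (ξ r)) (P (ξ r)) i hY.hmg (hDm _) (hZ r) Yi
  have hG0 : ∀ l, aeval Y (G l) = 0 := fun l => (hY.ker _).2 fun x _ a => by
    obtain ⟨d', hd'⟩ := hV.hom l
    rw [← aeval_eq_eval, plc1_aeval_smul hd', aeval_eq_eval, hV.zero, mul_zero]
  obtain ⟨E, _, _, _, _, z, z1, hch, hkz, hsz⟩ :=
    hCMP ι Λ F G Y i k (fun r => D (ξ r)) e Φ hV.hom hG0 Yi hΦ (ind k ξ hξ)
  have r1 := (hDIM ℂ F ι).1 (nrm Y i) (j + k) (fun r => D (β r)) (ind _ β hβ)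
  have r2 := hIND.2 k₀ ℂ F (range b) (range (nrm Y i))
  have hmem : ∀ l, aeval (nrm Y i) (Q l) ∈ IntermediateField.adjoin k₀ (range (nrm Y i)) :=
    fun l => by
      obtain ⟨g₀, e₀⟩ := cf_lift (cQ l).1
      rw [← e₀, aeval_lift]
      exact IntermediateField.algebra_adjoin_le_adjoin _ _
        (Algebra.adjoin_range_eq_range_aeval k₀ (nrm Y i) ▸ ⟨g₀, rfl⟩)
  have hc0 : aeval (nrm Y i) (Q c) ≠ 0 := fun h => by
    have h1 := hsp _ h
    rw [aff, plc1_aeval_smul (cQ c).2, aeval_eq_eval] at h1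
    exact mul_ne_zero (pow_ne_zero _ (inv_ne_zero hi)) hQ1 h1
  have r3 : rk k₀ (algebraMap ℂ F '' range b ∪ range (nrm Y i)) ≤ rk k₀ (range (nrm Y i)) := by
    refine rk_le_of_mem ?_
    rintro _ (⟨_, ⟨l, rfl⟩, rfl⟩ | h)
    · have h1 : aeval Y (Q l - C (b l) * Q c) = 0 := (hY.ker _).2 fun x hx a => by
        rw [map_sub, map_mul, eval_C, ← aeval_eq_eval, plc1_aeval_smul (cQ l).2,
          plc1_aeval_smul (cQ c).2, aeval_eq_eval, hQ x (V4 hx) l]
        ring
      have h2 : algebraMap ℂ F (b l) = aeval (nrm Y i) (Q l) / aeval (nrm Y i) (Q c) := by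
        rw [eq_div_iff hc0, aeval_nrm (cQ l).2, aeval_nrm (cQ c).2]
        rw [map_sub, map_mul, aeval_C] at h1
        linear_combination -(Y i)⁻¹ ^ d * h1
      rw [h2]
      exact div_mem (hmem l) (hmem c)
    · exact IntermediateField.subset_adjoin _ _ h
  have r4 : rk k₀ (range (nrm Y i)) ≤ rk k₀ (range z) := rk_hom_le fun g h => by
    rw [← aeval_lift] at h ⊢
    exact hsz _ h
  have r5 := hIND.2 k₀ F E (range (nrm Y i)) (range z)
  have r6 : rk k₀ (range fun l => algebraMap F E (nrm Y i l)) = rk k₀ (range (nrm Y i)) := by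
    rw [← rk_image (IsScalarTower.toAlgHom k₀ F E), ← range_comp]
    rfl
  obtain ⟨Ω, _, _, τ, hτ, t1, t2⟩ := hTRN k₀ E ι (fun l => algebraMap F E (nrm Y i l)) z (j * 2) k
    hk (by
      refine le_trans ?_ (r2.trans (r3.trans r4))
      refine le_trans (le_of_eq ?_) (add_le_add hrk r1)
      push_cast
      ring) (by
      rw [r6]
      refine (add_le_add le_rfl hkz).trans (r5.trans (le_of_eq ?_))
      rw [← range_comp]
      rfl)
  refine hEND X ι Λ Ω y G _ _ i _ _ hV ?_ (by rw [z1, map_one]) (fun l => ?_)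
    (chn_map hτ cG hch) t1 t2
  · rw [nrm, div_self Yi, map_one, map_one]
  · obtain ⟨d', hd'⟩ := hV.hom l
    rw [← map_aeval' τ hτ (cG l), ← map_aeval' (k := k₀) (algebraMap F E)
      (fun c _ => (IsScalarTower.algebraMap_apply ℂ F E c).symm) (cG l), aeval_nrm hd', hG0,
      mul_zero, map_zero, map_zero]

end Pool.Agent.Lib.LF
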