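import Pool.Agent.Lib.LF.BBlue

/-! A curve through a given point that is not contained in a given hypersurface. -/

open scoped Classical Polynomial IntermediateField nonZeroDivisors
open Set MvPolynomial

noncomputable section

namespace Pool.Agent.Lib.LF

open Pool.Agent.Lib.MP_7fcda1_ag

namespace CRV

/-- A line through `b` on which `a` does not vanish identically. -/
theorem line {s : ℕ} (b : Fin s → ℂ) (a : Po (Fin s)) (ha : a ≠ 0) (hb : aeval b a = 0) :
    ∃ (ψ : Po (Fin s) →ₐ[ℂ] Polynomial ℂ) (T : Po (Fin s)), ψ T = Polynomial.X ∧ ψ a ≠ 0 ∧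
      ∀ r, ψ r = 0 → aeval b r = 0 := by
  obtain ⟨c, hc⟩ : ∃ c : Fin s → ℂ, aeval c a ≠ 0 := by
    by_contra h
    push Not at h
    exact ha (MvPolynomial.funext fun x => by rw [map_zero]; exact h x)
  obtain ⟨i, hi⟩ : ∃ i, c i ≠ b i := by
    by_contra h
    push Not at h
    exact hc (by rw [funext h]; exact hb)
  let ψ : Po (Fin s) →ₐ[ℂ] Polynomial ℂ :=
    aeval fun j => Polynomial.C (b j) + Polynomial.C (c j - b j) * Polynomial.X
  have key : ∀ (t : ℂ) (r : Po (Fin s)),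
      Polynomial.aeval t (ψ r) = aeval (fun j => b j + (c j - b j) * t) r := fun t r => by
    have := DFunLike.congr_fun (comp_aeval
      (fun j => Polynomial.C (b j) + Polynomial.C (c j - b j) * Polynomial.X)
      (Polynomial.aeval t : Polynomial ℂ →ₐ[ℂ] ℂ)) r
    simpa [ψ] using this
  refine ⟨ψ, C (c i - b i)⁻¹ * (X i - C (b i)), ?_, fun h => hc ?_, fun r hr => ?_⟩
  · have h1 : c i - b i ≠ 0 := sub_ne_zero.2 hi
    simp only [ψ, map_mul, map_sub, aeval_C, aeval_X, Polynomial.algebraMap_eq]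
    rw [add_sub_cancel_left, ← map_sub, ← mul_assoc, ← map_mul, inv_mul_cancel₀ h1, map_one,
      one_mul]
  · have := key 1 a
    rw [h, map_zero] at this
    simpa using this.symm
  · have := key 0 r
    rw [hr, map_zero] at this
    simpa using this.symm

theorem curve (A : Type) [CommRing A] [IsDomain A] [Algebra ℂ A] [Algebra.FiniteType ℂ A]
    (ε : A →ₐ[ℂ] ℂ) (hh : A) (h0 : hh ≠ 0) (hε : ε hh = 0) :
    ∃ (K : Type) (_ : Field K) (_ : Algebra ℂ K) (_ : IsFF ℂ K) (θ : A →ₐ[ℂ] K),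
      θ hh ≠ 0 ∧ ∀ a, θ a = 0 → ε a = 0 := by
  obtain ⟨s, g, hinj, hint⟩ := exists_integral_inj_algHom_of_fg ℂ A
  let : Algebra (Po (Fin s)) A := g.toRingHom.toAlgebra
  have : Algebra.IsIntegral (Po (Fin s)) A := ⟨hint⟩
  have : FaithfulSMul (Po (Fin s)) A := (faithfulSMul_iff_algebraMap_injective _ _).2 hinj
  obtain ⟨a, ha, d, hd⟩ := (Algebra.IsIntegral.isIntegral (R := Po (Fin s)) hh).isAlgebraic
    |>.exists_nonzero_dvd (mem_nonZeroDivisors_of_ne_zero h0)
  have hd' : g a = hh * d := hd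
  have hb : ∀ r, aeval (fun j => ε (g (X j))) r = ε (g r) := fun r =>
    (DFunLike.congr_fun (aeval_unique (ε.comp g)) r).symm
  obtain ⟨ψ, T, hT, hψa, hψ⟩ := line (fun j => ε (g (X j))) a ha
    (by rw [hb, hd', map_mul, hε, zero_mul])
  have hp : (RingHom.ker ψ).IsPrime := RingHom.ker_isPrime _
  have hm : (RingHom.ker ε).IsPrime := RingHom.ker_isPrime _
  obtain ⟨Q, hQm, hQp, hQ⟩ := (RingHom.ker ε).exists_ideal_le_liesOver_of_le
    (p := RingHom.ker ψ) (q := (RingHom.ker ε).under (Po (Fin s))) fun r hr => by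
      change ε (g r) = 0
      rw [← hb]
      exact hψ r hr
  let θ : A →ₐ[ℂ] FractionRing (A ⧸ Q) :=
    (IsScalarTower.toAlgHom ℂ (A ⧸ Q) (FractionRing (A ⧸ Q))).comp (Ideal.Quotient.mkₐ ℂ Q)
  have hθ : ∀ x, θ x = 0 ↔ x ∈ Q := fun x => by
    change algebraMap (A ⧸ Q) (FractionRing (A ⧸ Q)) (Ideal.Quotient.mk Q x) = 0 ↔ _
    rw [IsFractionRing.to_map_eq_zero_iff, Ideal.Quotient.eq_zero_iff_mem]
  have hker : ∀ r, θ (g r) = 0 ↔ ψ r = 0 := fun r => by
    rw [hθ, ← RingHom.mem_ker, hQ.over]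
    rfl
  have hψT : ∀ r : Polynomial ℂ, ψ (Polynomial.aeval T r) = r := fun r => by
    rw [← Polynomial.aeval_algHom_apply, hT, Polynomial.aeval_X_left_apply]
  have hθT : ∀ r : Polynomial ℂ, θ (g (Polynomial.aeval T r)) = Polynomial.aeval (θ (g T)) r :=
    fun r => by rw [Polynomial.aeval_algHom_apply, Polynomial.aeval_algHom_apply]
  have hmem : ∀ r, θ (g r) ∈ ℂ⟮θ (g T)⟯ := fun r => by
    have h1 : θ (g (r - Polynomial.aeval T (ψ r))) = 0 := by
      rw [hker, map_sub, hψT, sub_self]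
    rw [map_sub, map_sub, sub_eq_zero, hθT] at h1
    rw [h1]
    exact IntermediateField.algebra_adjoin_le_adjoin ℂ _
      (Polynomial.aeval_mem_adjoin_singleton ℂ _)
  refine ⟨FractionRing (A ⧸ Q), inferInstance, inferInstance, ⟨θ (g T), ?_, ?_⟩, θ, ?_,
    fun x hx => hQm ((hθ x).1 hx)⟩
  · rw [transcendental_iff]
    intro r hr
    rw [← hθT, hker, hψT] at hr
    exact hr
  · obtain ⟨S, hS⟩ := Algebra.FiniteType.out (R := ℂ) (A := A)
    have h2 : ∀ x ∈ θ '' (S : Set A), IsIntegral ℂ⟮θ (g T)⟯ x := by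
      rintro _ ⟨x, -, rfl⟩
      exact (Algebra.IsIntegral.isIntegral (R := Po (Fin s)) x).map_of_comp_eq
        (((θ.comp g : Po (Fin s) →ₐ[ℂ] FractionRing (A ⧸ Q)) :
          Po (Fin s) →+* FractionRing (A ⧸ Q)).codRestrict ℂ⟮θ (g T)⟯ hmem)
        (θ : A →+* FractionRing (A ⧸ Q)) (RingHom.ext fun _ => rfl)
    have := (S.finite_toSet.image θ).to_subtype
    have h3 := IntermediateField.finiteDimensional_adjoin h2
    have h5 : ∀ x, θ x ∈ IntermediateField.adjoin ℂ⟮θ (g T)⟯ (θ '' (S : Set A)) := fun x => by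
      have hx : x ∈ Algebra.adjoin ℂ (S : Set A) := by rw [hS]; trivial
      induction hx using Algebra.adjoin_induction with
      | mem x hx => exact IntermediateField.subset_adjoin _ _ ⟨x, hx, rfl⟩
      | algebraMap c =>
        rw [AlgHom.commutes, IsScalarTower.algebraMap_apply ℂ ℂ⟮θ (g T)⟯]
        exact IntermediateField.algebraMap_mem _ _
      | add x y _ _ hx hy => rw [map_add]; exact add_mem hx hy
      | mul x y _ _ hx hy => rw [map_mul]; exact mul_mem hx hy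
    have h4 : IntermediateField.adjoin ℂ⟮θ (g T)⟯ (θ '' (S : Set A)) = ⊤ := by
      rw [eq_top_iff]
      rintro x -
      obtain ⟨u, v, -, rfl⟩ := IsFractionRing.div_surjective (A := A ⧸ Q) x
      obtain ⟨u, rfl⟩ := Ideal.Quotient.mk_surjective u
      obtain ⟨v, rfl⟩ := Ideal.Quotient.mk_surjective v
      exact div_mem (h5 u) (h5 v)
    rw [h4] at h3
    exact (IntermediateField.topEquiv (F := ℂ⟮θ (g T)⟯)
      (E := FractionRing (A ⧸ Q))).toLinearEquiv.finiteDimensional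
  · intro h
    apply hψa
    rw [← hker, hd', map_mul, h, zero_mul]

/-- A place with a given centre. -/
theorem place {A K : Type} [CommRing A] [Algebra ℂ A] [Field K] [Algebra ℂ K] (θ : A →ₐ[ℂ] K)
    (ε : A →ₐ[ℂ] ℂ) (hθ : ∀ a, θ a = 0 → ε a = 0) (hh : A) (h0 : θ hh ≠ 0) (hε : ε hh = 0) :
    ∃ v : Place ℂ K, ∀ a, ε a = 0 → v.O.valuation (θ a) < 1 := by
  let ρ : A →+* (θ : A →+* K).range := (θ : A →+* K).rangeRestrict
  have hρ : Function.Surjective ρ := RingHom.rangeRestrict_surjective _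
  have hI : (RingHom.ker ε).map ρ ≠ ⊤ := by
    rw [Ne, Ideal.eq_top_iff_one, Ideal.mem_map_iff_of_surjective ρ hρ]
    rintro ⟨x, hx, h1⟩
    have h2 : θ (x - 1) = 0 := by
      rw [map_sub, map_one, sub_eq_zero]
      exact congrArg Subtype.val h1
    have h3 := hθ _ h2
    rw [map_sub, map_one, (RingHom.mem_ker.1 hx : ε x = 0)] at h3
    simp at h3
  obtain ⟨O, hO, hO'⟩ := Ideal.image_subset_nonunits_valuationSubring _ hI
  have hlt : ∀ a, ε a = 0 → O.valuation (θ a) < 1 := fun a ha =>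
    (O.mem_nonunits_iff).1 (hO' ⟨ρ a, Ideal.mem_map_of_mem ρ ha, rfl⟩)
  refine ⟨⟨O, fun hT => ?_, fun c => hO ⟨algebraMap ℂ A c, θ.commutes c⟩⟩, hlt⟩
  have h1 : O.valuation (θ hh)⁻¹ ≤ 1 := (O.valuation_le_one_iff _).2 (by rw [hT]; trivial)
  have h2 := hlt hh hε
  have h3 : O.valuation (θ hh * (θ hh)⁻¹) < 1 := by
    rw [map_mul]
    exact mul_lt_one_of_lt_of_le h2 h1
  rw [mul_inv_cancel₀ h0, map_one] at h3
  exact lt_irrefl _ h3

end CRV

theorem bCRV : St_CRV := by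
  intro ι Ω _ _ _ z w h hs hz hw
  let P : Ideal (Po ι) := RingHom.ker (aeval z : Po ι →ₐ[ℂ] Ω)
  have : P.IsPrime := RingHom.ker_isPrime _
  let ε : (Po ι ⧸ P) →ₐ[ℂ] ℂ := Ideal.Quotient.liftₐ P (aeval w) hs
  have hε : ∀ a, ε (Ideal.Quotient.mk P a) = eval w a := fun a => rfl
  obtain ⟨K, _, _, _, θ, h1, h2⟩ := CRV.curve (Po ι ⧸ P) ε (Ideal.Quotient.mk P h)
    (fun h0 => hz (Ideal.Quotient.eq_zero_iff_mem.1 h0)) hw
  obtain ⟨v, hv⟩ := CRV.place θ ε h2 _ h1 hw
  have hγ : ∀ a, aeval (fun l => θ (Ideal.Quotient.mk P (X l))) a = θ (Ideal.Quotient.mk P a) :=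
    fun a => (DFunLike.congr_fun (aeval_unique (θ.comp (Ideal.Quotient.mkₐ ℂ P))) a).symm
  refine ⟨K, inferInstance, inferInstance, inferInstance, fun l => θ (Ideal.Quotient.mk P (X l)),
    v, fun a ha => ?_, by rwa [hγ], fun l => ?_⟩
  · rw [hγ, Ideal.Quotient.eq_zero_iff_mem.2 ha, map_zero]
  · have := hv (Ideal.Quotient.mk P (X l - C (w l))) (by rw [hε]; simp)
    rwa [← hγ, map_sub, aeval_X, aeval_C] at this

end Pool.Agent.Lib.LF
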