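import Pool.Agent.Lib.LF.BBlue

/-! Project lf: linear independence under specialisation; towers of fields. -/

open scoped Classical
open Set

noncomputable section

namespace Pool.Agent.Lib.LF

open Pool.Agent.Lib.MP_7fcda1_ag

namespace IND

/-- Independent rows have a minor that is not zero. -/
theorem minor {F τ ι : Type} [Field F] [Fintype τ] {w : τ → ι → F} (h : LinearIndependent F w) :
    ∃ f : τ → ι, (Matrix.of fun r s => w r (f s)).det ≠ 0 := by
  let c : ι → τ → F := fun l r => w r l
  have hc : Submodule.span F (range c) = ⊤ := by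
    by_contra hn
    obtain ⟨φ, hφ, hk⟩ := Submodule.exists_le_ker_of_lt_top _ (lt_top_iff_ne_top.2 hn)
    have h1 : ∀ r, φ (fun j => if r = j then 1 else 0) = 0 := by
      refine Fintype.linearIndependent_iff.1 h _ (funext fun l => ?_)
      have h2 : φ (c l) = 0 := hk (Submodule.subset_span ⟨l, rfl⟩)
      rw [LinearMap.pi_apply_eq_sum_univ] at h2
      simpa [Finset.sum_apply, c, mul_comm] using h2
    refine hφ (LinearMap.ext fun x => ?_)
    rw [LinearMap.pi_apply_eq_sum_univ]
    simp [h1]
  obtain ⟨κ, a, ha, hsp, hli⟩ := exists_linearIndependent' F c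
  have : Finite κ := hli.finite
  cases nonempty_fintype κ
  have hk : Fintype.card κ = Fintype.card τ := by
    rw [← finrank_span_eq_card hli, hsp, hc]
    simp
  let q : τ ≃ κ := (Fintype.equivOfCardEq hk).symm
  have h2 : LinearIndependent F (Matrix.of fun r s => w r (a (q s))).col := hli.comp q q.injective
  exact ⟨fun s => a (q s), ((Matrix.isUnit_iff_isUnit_det _).1
    (Matrix.linearIndependent_cols_iff_isUnit.1 h2)).ne_zero⟩

theorem of_minor {F τ ι : Type} [Field F] [Fintype τ] {w : τ → ι → F} {f : τ → ι}
    (h : (Matrix.of fun r s => w r (f s)).det ≠ 0) : LinearIndependent F w :=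
  LinearIndependent.of_comp (LinearMap.funLeft F F f)
    (Matrix.linearIndependent_rows_of_det_ne_zero (A := Matrix.of fun r s => w r (f s)) h)

end IND

theorem bIND : St_IND := by
  refine ⟨fun R E F τ ι _ _ _ _ φ ε w hk h => ?_, fun k F E _ _ _ _ _ _ _ A A' => ?_⟩
  · cases nonempty_fintype τ
    obtain ⟨f, hf⟩ := IND.minor h
    refine IND.of_minor (f := f) fun h0 => hf ?_
    have e1 := RingHom.map_det φ (Matrix.of fun r s => w r (f s))
    have e2 := RingHom.map_det ε (Matrix.of fun r s => w r (f s))
    exact e2.symm.trans (hk _ (e1.trans h0))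
  · obtain ⟨I, hI⟩ := (AlgebraicIndependent.matroid k F).exists_isBasis A
    obtain ⟨J, hJ⟩ := (AlgebraicIndependent.matroid F E).exists_isBasis A'
    have hx : AlgebraicIndependent k ((↑) : I → F) := hI.indep
    have hy : AlgebraicIndependent F ((↑) : J → E) := hJ.indep
    have hr := Rk_range_card (hx.sumElim_comp hy)
    have h1 : rk k A = ENat.card I := hI.eRk_eq_encard
    have h2 : rk F A' = ENat.card J := hJ.eRk_eq_encard
    rw [ENat.card_sum] at hr
    rw [h1, h2, add_comm, ← hr]
    refine rk_mono ?_
    rintro _ ⟨a | a, rfl⟩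
    · exact Or.inr (hJ.subset a.2)
    · exact Or.inl ⟨a, hI.subset a.2, rfl⟩

end Pool.Agent.Lib.LF
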