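import Pool.Agent.Lib.LF.B_FLOW
import Pool.Agent.Lib.LF.B_CMP

/-! If the field has a zero, the coefficients of its flow are exponential polynomials. -/

open scoped Classical Polynomial PowerSeries
open Set MvPolynomial

noncomputable section

namespace Pool.Agent.Lib.LF

namespace JET

variable {ι F : Type} [Field F] [Algebra ℂ F]

/-- A linear form applied to the coefficients of a series. -/
def lm (f : F →ₗ[ℂ] ℂ) : F⟦X⟧ →+ ℂ⟦X⟧ where
  toFun s := PowerSeries.mk fun n => f (PowerSeries.coeff n s)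
  map_zero' := by ext; simp
  map_add' _ _ := by ext; simp

theorem coeff_lm (f : F →ₗ[ℂ] ℂ) (s : F⟦X⟧) (n : ℕ) :
    PowerSeries.coeff n (lm f s) = f (PowerSeries.coeff n s) :=
  PowerSeries.coeff_mk n fun n => f (PowerSeries.coeff n s)

theorem lm_mul (f : F →ₗ[ℂ] ℂ) (c : ℂ⟦X⟧) (s : F⟦X⟧) :
    lm f (PowerSeries.map (algebraMap ℂ F) c * s) = c * lm f s := by
  ext n
  simp only [coeff_lm, PowerSeries.coeff_mul, map_sum, PowerSeries.coeff_map, ← Algebra.smul_def,
    map_smul, smul_eq_mul]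

theorem cmb_zero {α R : Type} [Fintype α] [CommRing R] [Algebra ℂ R] (e : α → Po ι)
    (c : α → ℂ⟦X⟧) (w : ι → R) : PowerSeries.constantCoeff (cmb e c w) =
      aeval w (∑ a, C (PowerSeries.constantCoeff (c a)) * e a) := by
  simp only [cmb, map_sum, map_mul, PowerSeries.constantCoeff_C, aeval_C]
  rfl

theorem cmb_scale {α R : Type} [Fintype α] [CommRing R] [Algebra ℂ R] {e : α → Po ι} {d : ℕ}
    (he : ∀ a, (e a).IsHomogeneous d) (c : α → ℂ⟦X⟧) (k : R) (w : ι → R) :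
    cmb e c (fun l => k * w l) = PowerSeries.C (k ^ d) * cmb e c w := by
  simp only [cmb, Finset.mul_sum, CMP.hom_scale (he _), map_mul]
  exact Finset.sum_congr rfl fun a _ => by ring

/-- The linear forms with exponential polynomial flows separate the regular functions. -/
theorem sep [Finite ι] (hL : St_LAM) (u : ι → F) (D : Derivation ℂ F F) (P : ι → Po ι)
    (η : ι → ℂ) (hD : ∀ l, D (u l) = aeval u (P l)) (hη : Spec u η) (h0 : ∀ l, eval η (P l) = 0)
    {x : Po ι} (hx : aeval u x ≠ 0) : ∃ f : F →ₗ[ℂ] ℂ, f (aeval u x) ≠ 0 ∧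
      ∀ a b : Po ι, lm f (PowerSeries.C (aeval u b) * et D (aeval u a)) ∈ Lam := by
  set δ := mkDerivation ℂ P
  have h1 : ∀ a, aeval u (δ a) = D (aeval u a) := fun a => by
    induction a using MvPolynomial.induction_on with
    | C c => simp [← algebraMap_eq]
    | add p q hp hq => simp [hp, hq]
    | mul_X p l hp => simp [hp, hD, δ]
  have h2 : ∀ a, aeval η (δ a) = 0 := fun a => by
    induction a using MvPolynomial.induction_on with
    | C c => simp [← algebraMap_eq]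
    | add p q hp hq => rw [map_add, map_add, hp, hq, add_zero]
    | mul_X p l hp =>
      rw [δ.leibniz, map_add, smul_eq_mul, smul_eq_mul, map_mul, map_mul, hp, mkDerivation_X,
        aeval_eq_eval, h0, mul_zero, mul_zero, add_zero]
  set I : Ideal (Po ι) := RingHom.ker (aeval u : Po ι →ₐ[ℂ] F)
  set M : Ideal (Po ι) := RingHom.ker (aeval η : Po ι →ₐ[ℂ] ℂ)
  have : I.IsPrime := RingHom.ker_isPrime _
  obtain ⟨s, hs⟩ : ∃ s : ℕ, x ∉ M ^ s ⊔ I := by
    by_contra h
    have hM : M.map (Ideal.Quotient.mk I) ≠ ⊤ := fun h => by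
      have := Ideal.comap_map_of_surjective (Ideal.Quotient.mk I) Ideal.Quotient.mk_surjective M
      rw [h, Ideal.comap_top, ← RingHom.ker_eq_comap_bot, Ideal.mk_ker,
        sup_of_le_left (show I ≤ M from fun g hg => hη g hg)] at this
      exact RingHom.ker_ne_top _ this.symm
    refine hx (Ideal.Quotient.eq_zero_iff_mem (I := I).1 ?_)
    rw [← Ideal.mem_bot, ← Ideal.iInf_pow_eq_bot_of_isDomain _ hM, Ideal.mem_iInf]
    intro s
    have := Ideal.mem_map_of_mem (Ideal.Quotient.mk I) (not_not.1 fun h' => h ⟨s, h'⟩)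
    rwa [Ideal.map_sup, Ideal.map_quotient_self, sup_bot_eq, Ideal.map_pow] at this
  have h3 : ∀ s : ℕ, ∀ a ∈ M ^ s, δ a ∈ M ^ s := fun s => by
    induction s with
    | zero => simp
    | succ s ih =>
      intro a ha
      rw [pow_succ] at ha ⊢
      refine Submodule.mul_induction_on ha (fun a ha b hb => ?_) fun a b ha hb => ?_
      · rw [δ.leibniz, smul_eq_mul, smul_eq_mul, mul_comm b]
        exact add_mem (Ideal.mul_mem_mul ha (h2 b)) (Ideal.mul_mem_mul (ih a ha) hb)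
      · exact map_add δ a b ▸ add_mem ha hb
  set N := M ^ s ⊔ I
  have h4 : ∀ a ∈ N, δ a ∈ N := fun a ha => by
    obtain ⟨b, hb, c, hc, rfl⟩ := Submodule.mem_sup.1 ha
    rw [map_add]
    refine Submodule.add_mem_sup (h3 s b hb) (RingHom.mem_ker.2 ?_)
    rw [h1, RingHom.mem_ker.1 hc, map_zero]
  have : Algebra.IsIntegral ℂ (Po ι ⧸ N) := ⟨fun w => by
    obtain ⟨a, rfl⟩ := Ideal.Quotient.mkₐ_surjective ℂ N w
    refine ⟨(Polynomial.X - Polynomial.C (aeval η a)) ^ s, (Polynomial.monic_X_sub_C _).pow _, ?_⟩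
    rw [← Polynomial.aeval_def, map_pow, map_sub, Polynomial.aeval_X, Polynomial.aeval_C,
      ← (Ideal.Quotient.mkₐ ℂ N).commutes, ← map_sub, ← map_pow]
    refine Ideal.Quotient.eq_zero_iff_mem.2 (Ideal.mem_sup_left (Ideal.pow_mem_pow ?_ s))
    rw [RingHom.mem_ker, map_sub, AlgHom.commutes]
    exact sub_self _⟩
  have : Module.Finite ℂ (Po ι ⧸ N) := Algebra.IsIntegral.finite
  set π := Ideal.Quotient.mkₐ ℂ N
  obtain ⟨σ, hσ⟩ := π.toLinearMap.exists_rightInverse_of_surjective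
    (LinearMap.range_eq_top.2 (Ideal.Quotient.mkₐ_surjective ℂ N))
  have h5 : ∀ a, (π.toLinearMap ∘ₗ δ.toLinearMap ∘ₗ σ) (π a) = π (δ a) := fun a => by
    refine Ideal.Quotient.eq.2 ?_
    change δ (σ (π a)) - δ a ∈ N
    rw [← map_sub]
    exact h4 _ (Ideal.Quotient.eq.1 (LinearMap.congr_fun hσ (π a)))
  obtain ⟨g, hg⟩ := Module.Projective.exists_dual_ne_zero ℂ
    (x := π x) fun h => hs (Ideal.Quotient.eq_zero_iff_mem.1 h)
  obtain ⟨f, hf⟩ : g ∘ₗ π.toLinearMap ∈
      LinearMap.range (aeval u : Po ι →ₐ[ℂ] F).toLinearMap.dualMap := by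
    rw [LinearMap.range_dualMap_eq_dualAnnihilator_ker, Submodule.mem_dualAnnihilator]
    intro a ha
    change g (π a) = 0
    rw [show π a = 0 from Ideal.Quotient.eq_zero_iff_mem.2 (Ideal.mem_sup_right ha), map_zero]
  have h6 : ∀ a, f (aeval u a) = g (π a) := fun a => LinearMap.congr_fun hf a
  refine ⟨f, h6 x ▸ hg, fun a b => ?_⟩
  have h7 : ∀ n : ℕ, (⇑D)^[n] (aeval u a) = aeval u ((⇑δ)^[n] a) ∧
      ((π.toLinearMap ∘ₗ δ.toLinearMap ∘ₗ σ) ^ n) (π a) = π ((⇑δ)^[n] a) := fun n => by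
    induction n with
    | zero => simp
    | succ n ih =>
      rw [Function.iterate_succ_apply', Function.iterate_succ_apply', ih.1, h1, pow_succ',
        Module.End.mul_apply, ih.2, h5]
      exact ⟨rfl, rfl⟩
  have := hL.1 _ (π.toLinearMap ∘ₗ δ.toLinearMap ∘ₗ σ) (g ∘ₗ LinearMap.mulLeft ℂ (π b)) (π a)
  refine (congrArg (· ∈ Lam) (PowerSeries.ext fun n => ?_)).mp this
  rw [coeff_lm, PowerSeries.coeff_mk, PowerSeries.coeff_C_mul, et, PowerSeries.coeff_mk,
    (h7 n).1, (h7 n).2, mul_smul_comm, map_smul, ← map_mul, h6, map_mul]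
  rfl

/-- The series whose coefficients lie in a subalgebra. -/
def cf (T : Subalgebra ℂ F) : Subring F⟦X⟧ where
  carrier := {s | ∀ n, PowerSeries.coeff n s ∈ T}
  zero_mem' _ := by simp
  one_mem' n := by
    rw [PowerSeries.coeff_one]
    split_ifs <;> simp
  add_mem' ha hb n := by simpa using add_mem (ha n) (hb n)
  neg_mem' ha n := by simpa using ha n
  mul_mem' ha hb n := by
    rw [PowerSeries.coeff_mul]
    exact sum_mem fun _ _ => mul_mem (ha _) (hb _)

theorem cmb_mem {α : Type} [Fintype α] (e : α → Po ι) (c : α → ℂ⟦X⟧) (u : ι → F) :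
    cmb e c u ∈ cf (Algebra.adjoin ℂ (range u)) :=
  sum_mem fun a _ n => by
    rw [PowerSeries.coeff_mul_C, PowerSeries.coeff_map]
    refine mul_mem (algebraMap_mem _ _) ?_
    rw [Algebra.adjoin_range_eq_range_aeval]
    exact ⟨_, rfl⟩

theorem desc (hL : St_LAM) {J E : Type} [Fintype J] [Field E] [Algebra ℂ E] (c : J → ℂ⟦X⟧)
    (L : J → E⟦X⟧) (h : ∑ j, L j * PowerSeries.map (algebraMap ℂ E) (c j) ≠ 0) :
    ∃ c' : J → ℂ⟦X⟧, (∀ j, c' j ∈ Lam) ∧
      (∀ s : J → ℂ⟦X⟧, (∀ j, s j ∈ Lam) → ∑ j, s j * c j = 0 → ∑ j, s j * c' j = 0) ∧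
      ∑ j, L j * PowerSeries.map (algebraMap ℂ E) (c' j) ≠ 0 := by
  obtain ⟨-, ⟨h1, h2⟩, h3⟩ := hL
  obtain ⟨A, hA⟩ : ∃ A : Subring ℂ⟦X⟧, ∀ x, x ∈ A ↔ x ∈ Lam :=
    ⟨(Lam.toSubalgebra h1 fun x y hx hy => h2 x hx y hy).toSubring, fun _ => Iff.rfl⟩
  obtain ⟨c', s1, s2⟩ := h3 A ℂ⟦X⟧ E⟦X⟧ J A.subtype (PowerSeries.map (algebraMap ℂ E))
    {s | ∑ j, A.subtype (s j) * c j = 0} c L A.subtype_injective
    (PowerSeries.map_injective _ (algebraMap ℂ E).injective) (fun _ hs => hs) h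
  refine ⟨fun j => c' j, fun j => (hA _).1 (c' j).2, fun s hs h0 => ?_, s2⟩
  simpa using congrArg A.subtype (s1 (fun j => ⟨s j, (hA _).2 (hs j)⟩) h0)

end JET

open JET FLOW in
theorem bJET (hF : St_FLOW) (hL : St_LAM) (hE : St_ET) : St_JET := by
  intro ι F E _ _ _ _ _ Y D P i₀ η hD ⟨i, ζ, hi, hζ, hz⟩ h0 hη
  obtain ⟨⟨φ, hφ⟩, -⟩ := hE.1 F D
  obtain ⟨d, Q, q1, q2, q3⟩ := hF ι F Y D P i₀ hD h0
  have : Module.Finite ℂ (Submodule.span ℂ (range Y) ^ d : Submodule ℂ F) :=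
    Module.Finite.iff_fg.2 ((Submodule.fg_span (finite_range Y)).pow d)
  let b := Module.finBasis ℂ (Submodule.span ℂ (range Y) ^ d : Submodule ℂ F)
  have le : Submodule.span ℂ (range Y) ^ d ≤
      (homogeneousSubmodule ι ℂ d).map (aeval Y : Po ι →ₐ[ℂ] F).toLinearMap := by
    rw [← homogeneousSubmodule_one_pow, Submodule.map_pow]
    exact pow_le_pow_left' (Submodule.span_le.2 (range_subset_iff.2 fun l =>
      Submodule.mem_map.2 ⟨X l, isHomogeneous_X _ _, aeval_X _ _⟩)) d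
  choose e e1 e2 using fun a => le (b a).2
  replace e2 : ∀ a, aeval Y (e a) = b a := e2
  let c : ι → _ → ℂ⟦X⟧ := fun l a => PowerSeries.mk fun n => b.repr ⟨_, q1 l n⟩ a
  have hc : ∀ l, cmb e (c l) Y = Q l := fun l => PowerSeries.ext fun n => by
    refine Eq.trans ?_ (congrArg Subtype.val (b.sum_repr ⟨_, q1 l n⟩))
    simp only [cmb, c, e2, map_sum, PowerSeries.coeff_mul_C, PowerSeries.coeff_map,
      PowerSeries.coeff_mk, ← Algebra.smul_def, Submodule.coe_sum, Submodule.coe_smul]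
  have sc : ∀ j, Y j ≠ 0 → ∀ c', cmb e c' Y = PowerSeries.C (Y j ^ d) * cmb e c' (nrm Y j) :=
    fun j hj c' => by
      rw [← cmb_scale e1]
      simp only [nrm, mul_div_cancel₀ _ hj]
  have ci : (PowerSeries.C (Y i ^ d) : F⟦X⟧) ≠ 0 :=
    (map_ne_zero_iff _ PowerSeries.C_injective).2 (pow_ne_zero _ hi)
  have iff : ∀ (c' : ι → _ → ℂ⟦X⟧) l, cmb e (c' l) Y = et D (nrm Y i l) * cmb e (c' i) Y ↔
      cmb e (c' l) (nrm Y i) - et D (nrm Y i l) * cmb e (c' i) (nrm Y i) = 0 := fun c' l => by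
    rw [sc i hi, sc i hi, mul_left_comm, mul_right_inj' ci, sub_eq_zero]
  have L : ∀ c' : ι × _ → ℂ⟦X⟧, ∑ j, (if j.1 = i₀ then PowerSeries.C (aeval η (e j.2)) else 0) *
      PowerSeries.map (algebraMap ℂ E) (c' j) = cmb e (fun a => c' (i₀, a)) η := fun c' => by
    rw [Fintype.sum_prod_type_right]
    simp [cmb, mul_comm]
  obtain ⟨c', s0, s1, s2⟩ := desc hL (fun j : ι × _ => c j.1 j.2)
    (fun j => if j.1 = i₀ then PowerSeries.C (aeval η (e j.2)) else 0) (fun h => by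
      replace h := (L fun j => c j.1 j.2).symm.trans h
      have h1 := congrArg PowerSeries.constantCoeff ((sc i₀ h0 _).symm.trans (hc i₀))
      have h2 := congrArg PowerSeries.constantCoeff h
      have h3 := hη (∑ a, C (PowerSeries.constantCoeff (c i₀ a)) * e a - 1) (by
        rw [map_mul, q3, PowerSeries.constantCoeff_C, mul_right_eq_self₀,
          or_iff_left (pow_ne_zero _ h0)] at h1
        rw [map_sub, map_one, ← cmb_zero, h1, sub_self])
      rw [map_sub, map_one, ← cmb_zero, h2, map_zero, zero_sub, neg_eq_zero] at h3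
      exact one_ne_zero h3)
  have key : ∀ l, cmb e (fun a => c' (l, a)) Y =
      et D (nrm Y i l) * cmb e (fun a => c' (i, a)) Y := fun l => by
    refine (iff (fun l a => c' (l, a)) l).2 (PowerSeries.ext fun n => ?_)
    have m := (sub_mem (cmb_mem e (fun a => c' (l, a)) (nrm Y i))
      (mul_mem (show et D (nrm Y i l) ∈ cf _ from et_mem hD hi l)
        (cmb_mem e (fun a => c' (i, a)) (nrm Y i)))) n
    rw [Algebra.adjoin_range_eq_range_aeval] at m
    obtain ⟨x, hx⟩ := m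
    replace hx : aeval (nrm Y i) x = _ := hx
    rw [← hx, map_zero]
    by_contra h
    obtain ⟨f, f1, f2⟩ := sep hL _ D (P i) ζ (hD i hi) hζ hz h
    let s : ι × _ → ℂ⟦X⟧ := fun j =>
      (if j.1 = l then lm f (PowerSeries.C (aeval (nrm Y i) (e j.2))) else 0) - if j.1 = i then
        lm f (PowerSeries.C (aeval (nrm Y i) (e j.2)) * et D (nrm Y i l)) else 0
    have hs : ∀ k : ι × _ → ℂ⟦X⟧, ∑ j, s j * k j =
        lm f (cmb e (fun a => k (l, a)) (nrm Y i) -
          et D (nrm Y i l) * cmb e (fun a => k (i, a)) (nrm Y i)) := fun k => by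
      rw [map_sub, cmb, cmb, Finset.mul_sum, map_sum, map_sum, ← Finset.sum_sub_distrib,
        Fintype.sum_prod_type_right]
      refine Finset.sum_congr rfl fun a _ => ?_
      rw [mul_left_comm, lm_mul, lm_mul]
      simp [s, mul_sub, mul_comm]
    refine f1 ?_
    rw [hx, ← coeff_lm, ← hs c', s1 s (fun j => sub_mem ?_ ?_) ((hs fun j => c j.1 j.2).trans (by
      rw [(iff c l).1 (by rw [hc, hc, q2 i l hi]), map_zero])), map_zero]
    · split_ifs
      · simpa [← hφ] using f2 1 (e j.2)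
      · exact zero_mem _
    · split_ifs
      · simpa using f2 (X l) (e j.2)
      · exact zero_mem _
  refine ⟨d, _, e, fun l a => c' (l, a), ⟨e1, ?_, fun l a => s0 _, fun j l hj => ?_⟩,
    fun h => s2 ((L c').trans h)⟩
  · simp only [e2]
    exact b.linearIndependent.map' (Submodule.subtype _) (Submodule.ker_subtype _)
  · rw [key l, key j, nrm_mul hj i l, ← hφ, map_mul, hφ, hφ, mul_assoc]

end Pool.Agent.Lib.LF
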