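import Pool.Agent.Lib.LF.ABlue

/-! Row SOL: local solutions on the manifold and the vanishing of the integrand. -/

open scoped Classical Topology ContDiff Matrix
open Set Complex Filter

noncomputable section

namespace Pool.Agent.Lib.LF

open Pool.Agent.Lib.SV (E)
open Pool.Agent.Lib.HS32

theorem bSOL (hL : St_LOC) (hK : St_KUR) (hH : St_HAM) (hI : St_IDP) (hR : St_VANR)
    (hB : St_VANB) (hX : St_KX) : St_SOL := by
  intro m n j M S p N c hF hN e he z hz hc hi
  have hev : ∀ᶠ w in 𝓝 z, w ∈ e.target ∧ p (e.symm w) c ≠ 0 :=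
    (e.open_target.eventually_mem hz).and (((hX m M _ p hF.pm).2.2.2.1 e he z hz c hc).1)
  have H := fun N N' => (hH m n M S p N N' c hF).1 e he
  have hZ : ∀ N', HolN (ham S p N' c e) z := fun N' => (H N' N' z hz hc).1
  have hφ : ∀ N', HolN (cov p N' c e) z := fun N' => (H N' N' z hz hc).2.1
  have iZ : LinearIndependent ℂ fun r => ham S p (N r) c e z :=
    ((hI m n M S p _ N hF hN).2 e he z hz c hc).2.1 hi
  have iφ : LinearIndependent ℂ fun t : Fin j => cov p (N t.castSucc) c e z :=
    (((hI m n M S p _ N hF hN).2 e he z hz c hc).1.1 hi).comp _ (Fin.castSucc_injective j)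
  have two : ∀ N' : Fin (j + 1) → Mat (n + 1), Skw N' → Indp p N' (e.symm z) →
      ∃ A : E m → Fin m → Mat m, ∀ᶠ w in 𝓝 z,
        SmC A w ∧ BW S p N' c e w (A w) ∧ RK S p N c e w (A w) := by
    intro N' hN' hi'
    have iY : LinearIndependent ℂ fun r => ham S p (N' r) c e z :=
      ((hI m n M S p _ N' hF hN').2 e he z hz c hc).2.1 hi'
    exact hL m _ _ _ (fun r => ham S p (N' r) c e) (fun s => ham S p (N s) c e)
      (fun t : Fin j => cov p (N t.castSucc) c e) z (fun _ => hZ _) (fun _ => hZ _)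
      (fun _ => hφ _) iY iZ iφ (hev.mono fun w hw =>
        ⟨fun t s => (H (N s) (N t.castSucc) w hw.1 hw.2).2.2.2.1,
          fun r s => (H (N' r) (N s) w hw.1 hw.2).2.2.2.2.1,
          fun r t => (H (N' r) (N t.castSucc) w hw.1 hw.2).2.2.2.2.2.1⟩)
  refine ⟨?_, two, fun A η hA hη h => ?_⟩
  · obtain ⟨A, hA⟩ := two N hN hi
    exact ⟨A, hA.mono fun w hw => ⟨hw.1, hw.2.1⟩⟩
  have hv : ∀ i r, η i *ᵥ ham S p (N r) c e z = 0 := fun i r =>
    hη i c _ hc (hZ _) (hev.mono fun w hw => (H (N r) (N r) w hw.1 hw.2).2.2.1)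
  have K := fun r => hK m A z _ hA (hZ (N r))
  rcases h with h | h | h
  · refine hB m j _ _ ⊤ η iZ (fun _ _ _ _ => trivial) (fun _ _ _ => trivial) ?_ hv
    intro r b v _
    exact (K r).2.2.1 (fun _ => v) (Eventually.of_forall fun _ => differentiableAt_const _)
      (h.mono fun w hw => by rw [hw r, Matrix.zero_mulVec]) b
  · exact hR m j _ _ _ η iZ iφ (fun t s => (H (N s) (N t.castSucc) z hz hc).2.2.2.1)
      (fun a b s => (K s).1 (h.mono fun w hw => hw.1 s) a b)
      (fun a b t => (hK m A z _ hA (hφ (N t.castSucc))).2.1 (h.mono fun w hw => hw.2 t) a b)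
  · have h' := (h.and hev).mono fun w hw => hw.1 c hw.2.2
    have K' := fun r => (K r).2.2.2 _ (fun s => ham S p (N s) c e) (fun _ => hZ _) iZ
    refine hB m j _ _ (Submodule.span ℂ (range fun s => ham S p (N s) c e z)) η iZ ?_
      (fun r b v => (K' r).2 (h'.mono fun w hw => (hw r).2.1) b v) ?_ hv
    · intro a b v hv'
      induction hv' using Submodule.span_induction with
      | mem x hx =>
        obtain ⟨r, rfl⟩ := hx
        exact (K' r).1 (h'.mono fun w hw => (hw r).1) a b
      | zero => rw [Matrix.mulVec_zero]; exact Submodule.zero_mem _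
      | add x y _ _ hx hy => rw [Matrix.mulVec_add]; exact Submodule.add_mem _ hx hy
      | smul t x _ hx => rw [Matrix.mulVec_smul]; exact Submodule.smul_mem _ _ hx
    · intro r b v hv'
      induction hv' using Submodule.span_induction with
      | mem x hx =>
        obtain ⟨s, rfl⟩ := hx
        exact (K r).2.2.1 _ (hZ (N s)) (h'.mono fun w hw => (hw r).2.2 s) b
      | zero => rw [Matrix.mulVec_zero]
      | add x y _ _ hx hy => rw [Matrix.mulVec_add, hx, hy, add_zero]
      | smul t x _ hx => rw [Matrix.mulVec_smul, hx, smul_zero]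

end Pool.Agent.Lib.LF
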