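import Pool.Agent.Lib.LF.BBlue

/-! Project lf: forms, cones and derivations of the polynomial ring. -/

open scoped Classical
open Set MvPolynomial

noncomputable section

namespace Pool.Agent.Lib.LF.K23

variable {X ι Λ : Type}

theorem aeval_smul {K : Type} [CommRing K] [Algebra ℂ K] {g : Po ι} {d : ℕ}
    (hg : g.IsHomogeneous d) (a : K) (w : ι → K) : aeval (a • w) g = a ^ d * aeval w g := by
  conv_lhs => rw [g.as_sum]
  conv_rhs => rw [g.as_sum]
  rw [map_sum, map_sum, Finset.mul_sum]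
  refine Finset.sum_congr rfl fun m hm => ?_
  have h := hg (mem_support_iff.1 hm)
  simp only [Finsupp.weight_apply, Pi.one_apply, smul_eq_mul, mul_one] at h
  simp only [aeval_monomial, Pi.smul_apply, smul_eq_mul, mul_pow, Finsupp.prod,
    Finset.prod_mul_distrib, Finset.prod_pow_eq_pow_sum]
  rw [← h, Finsupp.sum]
  ring

theorem eval_smul {g : Po ι} {d : ℕ} (hg : g.IsHomogeneous d) (a : ℂ) (w : ι → ℂ) :
    eval (a • w) g = a ^ d * eval w g := aeval_smul hg a w

/-- The ideal generated by the forms that vanish on `T`. -/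
def idl (y : X → ι → ℂ) (T : Set X) : Ideal (Po ι) :=
  Ideal.span {g | (∃ d, g.IsHomogeneous d) ∧ Van y T g}

/-- The points at which all forms of `I` vanish. -/
def pts (y : X → ι → ℂ) (I : Ideal (Po ι)) : Set X :=
  {x | ∀ g ∈ {g | g ∈ I ∧ ∃ d, g.IsHomogeneous d}, eval (y x) g = 0}

variable {y : X → ι → ℂ} {G : Λ → Po ι}

theorem mem_idl {T : Set X} {g : Po ι} {d : ℕ} (hg : g.IsHomogeneous d) (h : Van y T g) :
    g ∈ idl y T := Ideal.subset_span ⟨⟨d, hg⟩, h⟩

theorem idl_le {T : Set X} {x : X} (hx : x ∈ T) : idl y T ≤ RingHom.ker (eval (y x)) :=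
  Ideal.span_le.2 fun _ hg => hg.2 x hx

theorem closed_pts (I : Ideal (Po ι)) : Closed y (pts y I) := ⟨_, fun _ h => h.2, rfl⟩

theorem pts_sub {T : Set X} (hT : Closed y T) {I : Ideal (Po ι)} (h : idl y T ≤ I) :
    pts y I ⊆ T := by
  obtain ⟨S, hS, rfl⟩ := hT
  intro x hx g hg
  obtain ⟨d, hd⟩ := hS g hg
  exact hx g ⟨h (mem_idl hd fun x' hx' => hx' g hg), d, hd⟩

theorem mem_pts {I : Ideal (Po ι)} {x : X} (h : I ≤ RingHom.ker (eval (y x))) : x ∈ pts y I :=
  fun _ hg => h hg.1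

theorem G_mem (hV : Var y G) (T : Set X) (l : Λ) : G l ∈ idl y T :=
  (hV.hom l).elim fun _ hd => mem_idl hd fun x _ => hV.zero x l

theorem closed_inter {T T' : Set X} (h : Closed y T) (h' : Closed y T') : Closed y (T ∩ T') := by
  obtain ⟨S, hS, rfl⟩ := h
  obtain ⟨S', hS', rfl⟩ := h'
  refine ⟨S ∪ S', fun g hg => hg.elim (hS g) (hS' g), ?_⟩
  ext x
  exact ⟨fun hx g hg => hg.elim (hx.1 g) (hx.2 g),
    fun hx => ⟨fun g hg => hx g (.inl hg), fun g hg => hx g (.inr hg)⟩⟩

variable [Fintype ι]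

/-- The Nullstellensatz for forms. -/
theorem nss (hV : Var y G) {I : Ideal (Po ι)} (hG : ∀ l, G l ∈ I) (hne : (pts y I).Nonempty)
    {g : Po ι} {d : ℕ} (hg : g.IsHomogeneous d) (h : Van y (pts y I) g) : g ∈ I.radical := by
  rw [← vanishingIdeal_zeroLocus_eq_radical (K := ℂ), mem_vanishingIdeal_iff]
  intro w hw
  rw [mem_zeroLocus_iff] at hw
  change eval w g = 0
  by_cases h0 : w = 0
  · obtain ⟨x, hx⟩ := hne
    have : w = (0 : ℂ) • y x := by rw [h0, zero_smul]
    rw [this, eval_smul hg, h x hx, mul_zero]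
  · obtain ⟨x, a, rfl⟩ := hV.onto w h0 fun l => hw _ (hG l)
    have ha : a ≠ 0 := fun h => h0 (by rw [h, zero_smul])
    rw [eval_smul hg, h x, mul_zero]
    rintro f ⟨hf, e, he⟩
    have : eval (a • y x) f = 0 := hw f hf
    rw [eval_smul he] at this
    exact (mul_eq_zero.1 this).resolve_left (pow_ne_zero _ ha)

/-- The derivation with coefficients `H`. -/
def der (H : ι → Po ι) : Derivation ℂ (Po ι) (Po ι) := mkDerivation ℂ H

theorem der_apply (H : ι → Po ι) (g : Po ι) : der H g = ∑ l, H l * pderiv l g := by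
  induction g using MvPolynomial.induction_on with
  | C a => simp [← algebraMap_eq]
  | add p q hp hq => simp only [map_add, hp, hq, mul_add, Finset.sum_add_distrib]
  | mul_X p i hp =>
    rw [Derivation.leibniz, hp, der, mkDerivation_X]
    simp only [Derivation.leibniz, smul_eq_mul, mul_add, Finset.sum_add_distrib, Finset.mul_sum,
      pderiv_X, Pi.single_apply, mul_ite, mul_one, mul_zero, Finset.sum_ite_eq, Finset.mem_univ,
      if_true, mul_left_comm, mul_comm]

theorem eval_der (H : ι → Po ι) (g : Po ι) (w : ι → ℂ) :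
    eval w (der H g) = dir g w fun l => eval w (H l) := by
  simp only [der_apply, dir, map_sum, map_mul, mul_comm]

theorem der_hom {H : ι → Po ι} {e d : ℕ} {g : Po ι} (hH : ∀ l, (H l).IsHomogeneous e)
    (hg : g.IsHomogeneous d) : (der H g).IsHomogeneous (e + (d - 1)) := by
  rw [der_apply]
  exact IsHomogeneous.sum _ _ _ fun l _ => (hH l).mul hg.pderiv

theorem dir_add (g : Po ι) (w u u' : ι → ℂ) : dir g w (u + u') = dir g w u + dir g w u' := by
  simp only [dir, Pi.add_apply, mul_add, Finset.sum_add_distrib]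

theorem dir_smul (g : Po ι) (w u : ι → ℂ) (a : ℂ) : dir g w (a • u) = a * dir g w u := by
  simp only [dir, Pi.smul_apply, smul_eq_mul, Finset.mul_sum, mul_left_comm]

/-- The identity of Euler. -/
theorem dir_self {g : Po ι} {d : ℕ} (hg : g.IsHomogeneous d) (w : ι → ℂ) :
    dir g w w = d * eval w g := by
  have := congrArg (eval w) hg.sum_X_mul_pderiv
  simpa only [dir, map_sum, map_mul, eval_X, mul_comm, nsmul_eq_mul, map_natCast] using this

theorem eval_der_rep {T : Set X} {v : X → ι → ℂ} {e d : ℕ} {h g : Po ι} {H : ι → Po ι}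
    (hR : Rep y T v e h H) (hg : g.IsHomogeneous d) {x : X} (hx : x ∈ T)
    (h0 : eval (y x) g = 0) : eval (y x) (der H g) = eval (y x) h * dir g (y x) (v x) := by
  obtain ⟨a, ha⟩ := hR.eq x hx
  rw [eval_der, ha, dir_add, dir_smul, dir_smul, dir_self hg, h0]
  ring

omit [Fintype ι] in
theorem rep_mono {T T' : Set X} {v : X → ι → ℂ} {e : ℕ} {h : Po ι} {H : ι → Po ι}
    (hR : Rep y T v e h H) (hs : T' ⊆ T) : Rep y T' v e h H :=
  ⟨hR.hh, hR.hH, fun x hx => hR.eq x (hs hx)⟩

omit [Fintype ι] in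
theorem reg_mono {T T' : Set X} {v : X → ι → ℂ} (hR : Reg y T v) (hs : T' ⊆ T) : Reg y T' v :=
  fun x hx => (hR x (hs hx)).imp fun _ => Exists.imp fun _ => Exists.imp fun _ h =>
    ⟨rep_mono h.1 hs, h.2⟩

omit [Fintype ι] in
theorem der_span (D : Derivation ℂ (Po ι) (Po ι)) {S : Set (Po ι)} {I : Ideal (Po ι)}
    (hS : S ⊆ I) (h : ∀ g ∈ S, D g ∈ I) : ∀ a ∈ Ideal.span S, D a ∈ I := by
  intro a ha
  have hle : Ideal.span S ≤ I := Ideal.span_le.2 hS
  induction ha using Submodule.span_induction with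
  | mem g hg => exact h g hg
  | zero => simp
  | add a b _ _ h1 h2 => rw [map_add]; exact I.add_mem h1 h2
  | smul a b hb h1 =>
    rw [smul_eq_mul, D.leibniz]
    exact I.add_mem (I.mul_mem_left _ h1) (I.mul_mem_right _ (hle hb))

/-- The derivation preserves the ideal of an invariant set. -/
theorem der_idl {T : Set X} {v : X → ι → ℂ} {e : ℕ} {h : Po ι} {H : ι → Po ι}
    (hR : Rep y T v e h H) (hT : Tan y T v) : ∀ a ∈ idl y T, der H a ∈ idl y T := by
  refine der_span _ Ideal.subset_span ?_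
  rintro g ⟨⟨d, hd⟩, hg⟩
  refine mem_idl (der_hom hR.hH hd) fun x hx => ?_
  rw [eval_der_rep hR hd hx (hg x hx), hT g d hd hg x hx, mul_zero]

end Pool.Agent.Lib.LF.K23
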