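import Pool.Agent.Lib.LF.B_KX
import Pool.Agent.Lib.LF.K23

/-! Project lf, block VF: the Hamiltonian fields in homogeneous coordinates. -/

open scoped Classical Topology ContDiff ComplexOrder Matrix Manifold
open Set Complex Filter MvPolynomial MeasureTheory

noncomputable section

namespace Pool.Agent.Lib.LF

open Pool.Agent.Lib.SV (E nsq Cells)
open Pool.Agent.Lib.HS32 Pool.Agent.Lib.MP_7fcda1_ag
open Pool.Agent.Lib.PN (Prj PMap fs Pol)
open K23

namespace VF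

variable {ι κ σ : Type} [Fintype ι] [Fintype κ]

omit [Fintype ι] in
/-- Homogenisation. -/
theorem homog (g : Po ι) (i : ι) (N : ℕ) (hN : g.totalDegree ≤ N) : ∃ g' : Po ι,
    g'.IsHomogeneous N ∧ ∀ (u : ι → ℂ) (a : ℂ), u i = 1 → eval (a • u) g' = a ^ N * eval u g := by
  have hh : (∑ d ∈ Finset.range (g.totalDegree + 1),
      X i ^ (N - d) * homogeneousComponent d g).IsHomogeneous N := by
    refine IsHomogeneous.sum _ _ _ fun d hd => ?_
    have := ((isHomogeneous_X ℂ i).pow (N - d)).mul (homogeneousComponent_isHomogeneous d g)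
    rwa [one_mul, Nat.sub_add_cancel (by have := Finset.mem_range.1 hd; omega)] at this
  refine ⟨_, hh, fun u a hu => ?_⟩
  rw [eval_smul hh]
  congr 1
  conv_rhs => rw [← sum_homogeneousComponent g]
  simp only [map_sum, map_mul, map_pow, eval_X, hu, one_pow, one_mul]

theorem dir_left {g : Po ι} {d : ℕ} (hg : g.IsHomogeneous d) (a : ℂ) (u w : ι → ℂ) :
    dir g (a • u) w = a ^ (d - 1) * dir g u w := by
  simp only [dir, eval_smul hg.pderiv, Finset.mul_sum, mul_assoc]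

omit [Fintype ι] in
theorem smul_aff {X : Type} {y : X → ι → ℂ} {x : X} {i : ι} (h : y x i ≠ 0) :
    y x = y x i • aff y i x := by
  rw [aff, smul_smul, mul_inv_cancel₀ h, one_smul]

omit [Fintype ι] in
theorem aff_self {X : Type} {y : X → ι → ℂ} {x : X} {i : ι} (h : y x i ≠ 0) : aff y i x i = 1 :=
  inv_mul_cancel₀ h

variable {m : ℕ} {M : Mf m} {f : M.X → ι → ℂ} {p : M.X → κ → ℂ} {d : σ → ℕ} {Q : σ → κ → Po ι}
  {e : M.Ch} {z : E m} {i : ι} {c : κ}

omit [Fintype ι] [Fintype κ] in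
theorem q_rel (hQ : Mq f p d Q) {x : M.X} (hc : p x c ≠ 0) (s : σ) (l : κ) :
    eval (f x) (Q s l) = aff p c x l * eval (f x) (Q s c) := by
  obtain ⟨a, ha⟩ := hQ.par s x
  rw [congrFun ha l, congrFun ha c]
  simp only [aff, Pi.smul_apply, smul_eq_mul]
  field_simp

omit [Fintype ι] [Fintype κ] in
theorem q_aff (hQ : Mq f p d Q) {x : M.X} (hc : p x c ≠ 0) (s : σ) (l : κ) :
    eval (aff f i x) (Q s l) = aff p c x l * eval (aff f i x) (Q s c) := by
  rw [aff, eval_smul (hQ.hom s l), eval_smul (hQ.hom s c), q_rel hQ hc s l]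
  ring

theorem fd_eval (hf : PMap M f) (he : e ∈ M.C) (hz : z ∈ e.target) (hi : f (e.symm z) i ≠ 0)
    (g : Po ι) (η : E m) : DifferentiableAt ℂ (fun w => eval (aff f i (e.symm w)) g) z ∧
      fderiv ℂ (fun w => eval (aff f i (e.symm w)) g) z η =
        dir g (aff f i (e.symm z)) (jb f i e z *ᵥ η) := by
  have h := PN.fderiv_eval (KX.loc hf he hz hi).2.hol.self_of_nhds g η
  rw [KX.fd] at h
  exact h

/-- The derivative of the relation between the two systems of coordinates. -/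
theorem d_rel (hf : PMap M f) (hp : PMap M p) (hQ : Mq f p d Q) (he : e ∈ M.C)
    (hz : z ∈ e.target) (hi : f (e.symm z) i ≠ 0) (hc : p (e.symm z) c ≠ 0) (s : σ) (l : κ)
    (η : E m) : dir (Q s l) (aff f i (e.symm z)) (jb f i e z *ᵥ η) =
      (jb p c e z *ᵥ η) l * eval (aff f i (e.symm z)) (Q s c) +
        aff p c (e.symm z) l * dir (Q s c) (aff f i (e.symm z)) (jb f i e z *ᵥ η) := by
  obtain ⟨h1, h2⟩ := KX.loc hp he hz hc
  have h3 : (fun w => eval (aff f i (e.symm w)) (Q s l)) =ᶠ[𝓝 z]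
      fun w => (aff p c ∘ e.symm) w l * eval (aff f i (e.symm w)) (Q s c) :=
    h1.mono fun w hw => q_aff hQ hw s l
  have h4 := h2.hol.self_of_nhds
  rw [← (fd_eval hf he hz hi _ η).2, h3.fderiv_eq,
    fderiv_fun_mul (differentiableAt_pi.1 h4 l) (fd_eval hf he hz hi _ η).1, add_apply, smul_apply,
    smul_apply, (fd_eval hf he hz hi _ η).2, fderiv_apply h4, ← KX.fd p]
  simp only [smul_eq_mul, Function.comp_apply, ContinuousLinearMap.comp_apply,
    ContinuousLinearMap.proj_apply]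
  ring

/-- The numerators of the covector. -/
def tau (q : κ → Po ι) (c : κ) (ξ : κ → ℂ) (a : ι) : Po ι :=
  ∑ l, C (ξ l) * (pderiv a (q l) * q c - q l * pderiv a (q c))

theorem cov_eq (hf : PMap M f) (hp : PMap M p) (hQ : Mq f p d Q) (he : e ∈ M.C)
    (hz : z ∈ e.target) (hi : f (e.symm z) i ≠ 0) (hc : p (e.symm z) c ≠ 0) (s : σ) (ξ : κ → ℂ) :
    eval (aff f i (e.symm z)) (Q s c) ^ 2 • ξ ᵥ* jb p c e z =
      (fun a => eval (aff f i (e.symm z)) (tau (Q s) c ξ a)) ᵥ* jb f i e z := by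
  funext k
  have h := fun l => d_rel hf hp hQ he hz hi hc s l (Pi.single k 1)
  simp only [Matrix.mulVec_single_one, dir, Matrix.col_apply] at h
  simp only [Pi.smul_apply, smul_eq_mul, Matrix.vecMul, dotProduct, tau, map_sum, map_mul, map_sub,
    eval_C, Finset.sum_mul, Finset.mul_sum]
  rw [Finset.sum_comm]
  refine Finset.sum_congr rfl fun l _ => ?_
  have h2 : ∑ a, ξ l * (eval (aff f i (e.symm z)) (pderiv a (Q s l)) *
      eval (aff f i (e.symm z)) (Q s c) - eval (aff f i (e.symm z)) (Q s l) *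
        eval (aff f i (e.symm z)) (pderiv a (Q s c))) * jb f i e z a k =
      ξ l * ((∑ a, eval (aff f i (e.symm z)) (pderiv a (Q s l)) * jb f i e z a k) *
        eval (aff f i (e.symm z)) (Q s c) - eval (aff f i (e.symm z)) (Q s l) *
          ∑ a, eval (aff f i (e.symm z)) (pderiv a (Q s c)) * jb f i e z a k) := by
    simp only [Finset.sum_mul, Finset.mul_sum, ← Finset.sum_sub_distrib]
    exact Finset.sum_congr rfl fun a _ => by ring
  rw [h2, h l, q_aff hQ hc s l]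
  ring

/-- The Hamiltonian vector at a point. -/
def zt (S : M.Fam (Mat m)) (p : M.X → κ → ℂ) (c : κ) (ξ : κ → ℂ) (x : M.X) : E m :=
  (S (M.ch x) (M.ch x x))⁻¹ *ᵥ (ξ ᵥ* jb p c (M.ch x) (M.ch x x))

/-- The image of the vector in the affine chart `i`. -/
def wv (S : M.Fam (Mat m)) (f : M.X → ι → ℂ) (p : M.X → κ → ℂ) (c : κ) (i : ι) (ξ : κ → ℂ)
    (x : M.X) : ι → ℂ := jb f i (M.ch x) (M.ch x x) *ᵥ zt S p c ξ x

/-- The field. -/
def vf (S : M.Fam (Mat m)) (f : M.X → ι → ℂ) (p : M.X → κ → ℂ) (c : κ) (j : M.X → ι) :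
    (κ → ℂ) →ₗ[ℂ] M.X → ι → ℂ where
  toFun ξ x := f x (j x) • wv S f p c (j x) ξ x
  map_add' ξ ξ' := by
    funext x
    simp only [wv, zt, Matrix.add_vecMul, Matrix.mulVec_add, smul_add, Pi.add_apply]
  map_smul' a ξ := by
    funext x
    simp only [wv, zt, Matrix.smul_vecMul, Matrix.mulVec_smul, Pi.smul_apply, RingHom.id_apply,
      smul_comm a]

variable {S : M.Fam (Mat m)}

theorem wv_chg (hf : PMap M f) {x : M.X} {i' : ι} (hi : f x i ≠ 0) (hi' : f x i' ≠ 0)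
    (ξ : κ → ℂ) : ∃ a : ℂ, f x i' • wv S f p c i' ξ x = f x i • wv S f p c i ξ x + a • f x := by
  have h := KX.chg hf (Mf.ch_mem x) (Mf.ch_tgt x) (c := i) (c' := i')
    (by rwa [Mf.ch_symm]) (by rwa [Mf.ch_symm])
  rw [Mf.ch_symm] at h
  refine ⟨-(f x i' * (aff f i x i')⁻¹ ^ 2 * (jb f i (M.ch x) (M.ch x x) i' ⬝ᵥ zt S p c ξ x) *
    (f x i)⁻¹), ?_⟩
  rw [wv, wv, h, Matrix.sub_mulVec, Matrix.smul_mulVec, Matrix.smul_mulVec,
    Matrix.vecMulVec_mulVec]
  funext l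
  simp only [aff, Pi.smul_apply, Pi.add_apply, Pi.sub_apply, smul_eq_mul, op_smul_eq_mul]
  field_simp
  ring

theorem wv_poly (hf : PMap M f) (hp : PMap M p) (hQ : Mq f p d Q) (hS : Pal S f) (i : ι) (c : κ)
    (s : σ) (ξ : κ → ℂ) : ∃ R : ι → Po ι, ∀ x, f x i ≠ 0 → p x c ≠ 0 → ∀ l,
      eval (aff f i x) (Q s c) ^ 2 * wv S f p c i ξ x l = eval (aff f i x) (R l) := by
  choose P hP using hS i
  refine ⟨fun l => ∑ a, P l a * tau (Q s) c ξ a, fun x hi hc l => ?_⟩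
  have h := cov_eq hf hp hQ (Mf.ch_mem x) (Mf.ch_tgt x) (i := i) (c := c)
    (by rwa [Mf.ch_symm]) (by rwa [Mf.ch_symm]) s ξ
  have h2 := fun a => hP l a _ (Mf.ch_mem x) _ (Mf.ch_tgt x) (by rwa [Mf.ch_symm])
  rw [Mf.ch_symm] at h h2
  have h3 : eval (aff f i x) (Q s c) ^ 2 • wv S f p c i ξ x =
      (jb f i (M.ch x) (M.ch x x) * (S (M.ch x) (M.ch x x))⁻¹ * (jb f i (M.ch x) (M.ch x x))ᵀ) *ᵥ
        fun a => eval (aff f i x) (tau (Q s) c ξ a) := by
    rw [wv, zt, ← Matrix.mulVec_smul, ← Matrix.mulVec_smul, h, ← Matrix.mulVec_transpose,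
      Matrix.mulVec_mulVec, Matrix.mulVec_mulVec]
  have h4 := congrFun h3 l
  simp only [Pi.smul_apply, smul_eq_mul] at h4
  rw [h4]
  simp only [Matrix.mulVec, dotProduct, h2, map_sum, map_mul]

theorem rep (hf : PMap M f) (hp : PMap M p) (hQ : Mq f p d Q) (hS : Pal S f) {j : M.X → ι}
    (hj : ∀ x, f x (j x) ≠ 0) (ξ : κ → ℂ) {x : M.X} (hc : p x c ≠ 0) :
    ∃ e h H, Rep f univ (vf S f p c j ξ) e h H ∧ eval (f x) h ≠ 0 ∧
      ∀ x', eval (f x') h ≠ 0 → p x' c ≠ 0 := by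
  obtain ⟨s, l₀, hs⟩ := hQ.cov x
  have hsc : eval (f x) (Q s c) ≠ 0 := fun h => hs (by rw [q_rel hQ hc, h, mul_zero])
  have hpc : ∀ x', eval (f x') (Q s c) ≠ 0 → p x' c ≠ 0 := fun x' h h0 => by
    obtain ⟨a, ha⟩ := hQ.par s x'
    exact h (by rw [congrFun ha c, Pi.smul_apply, h0, smul_zero])
  obtain ⟨R, hR⟩ := wv_poly hf hp hQ hS (j x) c s ξ
  set N := Finset.univ.sup fun l => (R l).totalDegree
  choose R' h1 h2 using fun l => homog (R l) (j x) N
    (Finset.le_sup (f := fun l => (R l).totalDegree) (Finset.mem_univ l))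
  refine ⟨N + 1 + d s * 3, X (j x) ^ (N + 1) * Q s c ^ 3,
    fun l => X (j x) ^ (2 * d s + 2) * Q s c * R' l, ⟨?_, fun l => ?_, fun x' _ => ?_⟩, ?_,
    fun x' h => hpc x' fun h0 => h (by simp [h0])⟩
  · simpa only [one_mul] using ((isHomogeneous_X ℂ (j x)).pow (N + 1)).mul ((hQ.hom s c).pow 3)
  · have := (((isHomogeneous_X ℂ (j x)).pow (2 * d s + 2)).mul (hQ.hom s c)).mul (h1 l)
    rwa [show 1 * (2 * d s + 2) + d s + N = N + 1 + d s * 3 + 1 by ring] at this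
  · by_cases h0 : f x' (j x) ≠ 0 ∧ eval (f x') (Q s c) ≠ 0
    · obtain ⟨a, ha⟩ := wv_chg (S := S) (p := p) (c := c) hf (hj x') h0.1 ξ
      refine ⟨eval (f x') (X (j x) ^ (N + 1) * Q s c ^ 3) * a, ?_⟩
      change _ = _ • f x' (j x') • wv S f p c (j x') ξ x' + _
      rw [mul_smul, ← smul_add, ← ha]
      funext l
      have h3 := h2 l _ (f x' (j x)) (aff_self h0.1)
      have h4 := eval_smul (hQ.hom s c) (f x' (j x)) (aff f (j x) x')
      rw [← smul_aff h0.1] at h3 h4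
      simp only [map_mul, map_pow, eval_X, Pi.smul_apply, smul_eq_mul]
      rw [h3, ← hR x' h0.1 (hpc x' h0.2) l, h4]
      ring
    · refine ⟨0, funext fun l => ?_⟩
      rcases not_and_or.1 h0 with h | h <;> simp [not_not.1 h]
  · simp only [map_mul, map_pow, eval_X]
    exact mul_ne_zero (pow_ne_zero _ (hj x)) (pow_ne_zero _ hsc)

end VF

open VF in
theorem bVF : St_VF := by
  intro ρ m n e M Λ σ G f S p d Q c hP hQ hF hS
  have hf := hP.map
  have hp := hF.pm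
  choose j hj using fun x => Function.ne_iff.1 (hf.ne x)
  replace hj : ∀ x, f x (j x) ≠ 0 := hj
  have hv : ∀ ξ x, vf S f p c j ξ x = f x (j x) • wv S f p c (j x) ξ x := fun _ _ => rfl
  have hd : ∀ ξ x (g : Pol (ρ + m)) k, g.IsHomogeneous k → dir g (f x) (vf S f p c j ξ x) =
      f x (j x) * (f x (j x) ^ (k - 1) * dir g (aff f (j x) x) (wv S f p c (j x) ξ x)) := by
    intro ξ x g k hg
    rw [hv, dir_smul, ← dir_left hg, ← smul_aff (hj x)]
  refine ⟨vf S f p c j, fun ξ => ⟨fun x hc => rep hf hp hQ hS hj ξ hc, fun g k hg h x _ => ?_,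
    fun x s l hc => ?_, fun x hc h0 => ⟨fun ⟨a, ha⟩ => ?_, fun h => ⟨0, ?_⟩⟩⟩⟩
  · have h1 := (fd_eval hf (Mf.ch_mem x) (Mf.ch_tgt x) (i := j x) (by rw [Mf.ch_symm]; exact hj x)
      g (zt S p c ξ x)).2
    have h2 : (fun w => eval (aff f (j x) ((M.ch x).symm w)) g) = fun _ => 0 := by
      funext w
      rw [aff, eval_smul hg, h _ (mem_univ _), mul_zero]
    rw [h2, Mf.ch_symm] at h1
    rw [hd ξ x g k hg, wv, ← h1]
    simp
  · have h1 := d_rel hf hp hQ (Mf.ch_mem x) (Mf.ch_tgt x) (i := j x) (c := c)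
      (by rw [Mf.ch_symm]; exact hj x) (by rwa [Mf.ch_symm]) s l (zt S p c ξ x)
    have h2 : jb p c (M.ch x) (M.ch x x) *ᵥ zt S p c ξ x = 0 := by
      rw [zt, ← Matrix.mulVec_transpose, Matrix.mulVec_mulVec, Matrix.mulVec_mulVec,
        hF.lg _ (Mf.ch_mem x) _ (Mf.ch_tgt x) c (by rwa [Mf.ch_symm]), Matrix.zero_mulVec]
    rw [h2, Mf.ch_symm] at h1
    rw [hd ξ x _ _ (hQ.hom s l), hd ξ x _ _ (hQ.hom s c), wv, h1, q_rel hQ hc s l]
    simp only [Pi.zero_apply]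
    ring
  · have hL := (KX.loc hf (Mf.ch_mem x) (Mf.ch_tgt x) (c := j x)
      (by rw [Mf.ch_symm]; exact hj x)).2
    have h1 : zt S p c ξ x = 0 := by
      refine hP.imm _ _ _ hL a _ ?_
      rw [KX.fd, Function.comp_apply, Mf.ch_symm]
      refine smul_right_injective _ (hj x) ?_
      simp only
      rw [smul_comm, ← smul_aff (hj x), ← ha]
      rfl
    have h2 : ξ ᵥ* jb p c (M.ch x) (M.ch x x) = 0 := by
      have h3 := congrArg (S (M.ch x) (M.ch x x) *ᵥ ·) h1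
      simp only [zt] at h3
      rwa [Matrix.mulVec_mulVec, Matrix.mul_nonsing_inv _
        (Ne.isUnit (hF.sy.det _ (Mf.ch_mem x) _ (Mf.ch_tgt x))), Matrix.one_mulVec,
        Matrix.mulVec_zero] at h3
    have h4 := ((bKX m M _ p hp).2.2.2.1 _ (Mf.ch_mem x) _ (Mf.ch_tgt x) c
      (by rwa [Mf.ch_symm])).2.2.2.2.2.2.2 ξ (by rwa [Mf.ch_symm]) h2
    rwa [Mf.ch_symm] at h4
  · rw [hv, wv, zt, h.2 _ (Mf.ch_mem x) (Mf.mem_ch x) c hc]
    simp

end Pool.Agent.Lib.LF
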