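import Pool.Agent.Lib.GH.SDefs
import Pool.Agent.Lib.HS32.MDefs
import Pool.Agent.Lib.MP_7fcda1_ag.Iface

/-! Definitions used in the statement: projective manifolds with a symplectic form and a Lagrangian
fibration, a Chern number, closed subsets and their dimension, rational equivalence. -/

open scoped Classical Topology Matrix
open MvPolynomial

noncomputable section

namespace Pool.Agent.Lib.LF

open Pool.Agent.Lib.SV Pool.Agent.Lib.HS Pool.Agent.Lib.MP_7fcda1_ag

/-! ### Subsets of a projective variety, cycles -/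

section sets

variable {X ι : Type} (y : X → ι → ℂ)

/-- The affine coordinates `y / y_c`. -/
def aff (c : ι) (x : X) : ι → ℂ := (y x c)⁻¹ • y x

/-- The polynomial `g` vanishes at the homogeneous coordinates of all points of `W`. -/
def Van (W : Set X) (g : MvPolynomial ι ℂ) : Prop := ∀ x ∈ W, eval (y x) g = 0

/-- `W` is the set of common zeros of a family of forms. -/
def Closed (W : Set X) : Prop :=
  ∃ T : Set (MvPolynomial ι ℂ), (∀ g ∈ T, ∃ d, g.IsHomogeneous d) ∧
    W = {x | ∀ g ∈ T, eval (y x) g = 0}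

/-- `W` is irreducible. -/
def Irred (W : Set X) : Prop :=
  W.Nonempty ∧ ∀ (g h : MvPolynomial ι ℂ) (d e : ℕ), g.IsHomogeneous d → h.IsHomogeneous e →
    Van y W (g * h) → Van y W g ∨ Van y W h

/-- The closure of `W` has dimension less than `d`: any `d` affine coordinates satisfy a
non-trivial polynomial relation on `W`. -/
def DimLt (W : Set X) (d : ℕ) : Prop :=
  ∀ (c : ι) (l : Fin d → ι), ∃ g : MvPolynomial (Fin d) ℂ, g ≠ 0 ∧
    ∀ x ∈ W, y x c ≠ 0 → eval (fun a => aff y c x (l a)) g = 0

/-- The `0`-cycles that are rationally equivalent to zero: the group generated by the images of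
the divisors of functions `φ` on smooth projective curves, with function field `K`, that map to
`X`. The map is given by a point `γ` with coordinates in `K`; it sends the place `v` to the point
`ctr v` to which a multiple of `γ` reduces. -/
def RatTriv : AddSubgroup (X →₀ ℤ) :=
  AddSubgroup.closure {c | ∃ (K : Type) (_ : Field K) (_ : Algebra ℂ K) (_ : IsFF ℂ K) (γ : ι → K)
    (ctr : Place ℂ K → X) (φ : K), φ ≠ 0 ∧
    (∀ v : Place ℂ K, ∃ s : K, ∀ l, v.O.valuation (s * γ l - algebraMap ℂ K (y (ctr v) l)) < 1) ∧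
    c = (div ℂ φ).mapDomain ctr}

end sets

/-! ### Forms of type `(p, p)` at a point -/

/-- The variable `X (b, a)` stands for `d(conj z_b) ∧ dz_a`. -/
abbrev Frm (m : ℕ) : Type := MvPolynomial (Fin m × Fin m) ℂ

variable {m : ℕ}

/-- The `(1,1)` form with matrix `T`. -/
def lin (T : Mat m) : Frm m := ∑ b, ∑ a, C (T b a) * X (b, a)

/-- The coefficient of the component of top degree. -/
def top (P : Frm m) : ℂ :=
  ∑ ρ : Equiv.Perm (Fin m), (Equiv.Perm.sign ρ : ℤ) * coeff (∑ a, Finsupp.single (ρ a, a) 1) P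

/-- The curvature matrix of the connection of Chern of the metric `v ↦ v^* M v`. -/
def curvM (M : E m → Mat m) (z : E m) : Matrix (Fin m) (Fin m) (Frm m) :=
  Matrix.of fun p q => lin (Matrix.of fun b a => HS32.th M a b z p q)

/-! ### The manifold -/

variable {X ι : Type} [TopologicalSpace X] [ChartedSpace (E m) X]

variable (m) in
/-- The differential at `x` of a map, in the preferred chart. -/
def dif {F : Type} [NormedAddCommGroup F] [NormedSpace ℂ F] (u : X → F) (x : X) : E m →L[ℂ] F :=
  fderiv ℂ (u ∘ (chartAt (E m) x).symm) (chartAt (E m) x x)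

variable (m) in
/-- `y` are homogeneous coordinates of an injective holomorphic immersion onto the zero set of
finitely many forms of one degree, whose Jacobian matrix has rank `ρ` on that set. -/
structure Emb (ρ : ℕ) (y : X → E (ρ + m + 1)) : Prop where
  ne : ∀ x, y x ≠ 0
  hol : ∀ x c, y x c ≠ 0 → ∀ᶠ z in 𝓝 (chartAt (E m) x x), y ((chartAt (E m) x).symm z) c ≠ 0 ∧
    DifferentiableAt ℂ (aff y c ∘ (chartAt (E m) x).symm) z
  imm : ∀ x c, y x c ≠ 0 → Function.Injective (dif m (aff y c) x)
  inj : ∀ x x' (a : ℂ), y x = a • y x' → x = x'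
  eqs : ∃ (r e : ℕ) (G : Fin r → MvPolynomial (Fin (ρ + m + 1)) ℂ), 0 < e ∧
    (∀ l, (G l).IsHomogeneous e) ∧ ∀ w, w ≠ 0 →
      ((∃ (x : X) (a : ℂ), w = a • y x) ↔ ∀ l, eval w (G l) = 0) ∧
      ((∀ l, eval w (G l) = 0) → (Matrix.of fun l j => eval w (pderiv j (G l))).rank = ρ)

/-- `p` are homogeneous coordinates of a morphism to a projective space: finitely many tuples of
forms represent it. -/
def Mor {Z ι κ : Type} (y : Z → ι → ℂ) (p : Z → κ → ℂ) : Prop :=
  (∀ x, p x ≠ 0) ∧ ∃ (r : ℕ) (d : Fin r → ℕ) (Q : Fin r → κ → MvPolynomial ι ℂ),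
    (∀ s l, (Q s l).IsHomogeneous (d s)) ∧ (∀ x, ∃ s l, eval (y x) (Q s l) ≠ 0) ∧
    ∀ s x, ∃ a : ℂ, (fun l => eval (y x) (Q s l)) = a • p x

/-- The matrix in the chart at `x` of the `2`-form whose matrix at each point, in the preferred
chart of that point, is given by `S`. -/
def twoForm (S : X → Mat m) (x : X) (z : E m) : Mat m :=
  (jacM x z)ᵀ * S ((chartAt (E m) x).symm z) * jacM x z

/-- The Poisson bracket. -/
def pb (S : X → Mat m) (u v : X → ℂ) (x : X) : ℂ :=
  (fun a => dif m u x (Pi.single a 1)) ⬝ᵥ (S x)⁻¹ *ᵥ fun a => dif m v x (Pi.single a 1)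

/-- `S` is a closed, holomorphic, non-degenerate `2`-form, and it is algebraic: the brackets of
the affine coordinates are polynomials in these coordinates. -/
structure Sympl (y : X → ι → ℂ) (S : X → Mat m) : Prop where
  skew : ∀ x, (S x)ᵀ = -S x
  nondeg : ∀ x, (S x).det ≠ 0
  hol : ∀ x a b, DifferentiableAt ℂ (fun z => twoForm S x z a b) (chartAt (E m) x x)
  closed : ∀ x a b c,
    HS32.dM a (twoForm S x) (chartAt (E m) x x) b c +
      HS32.dM b (twoForm S x) (chartAt (E m) x x) c a +
      HS32.dM c (twoForm S x) (chartAt (E m) x x) a b = 0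
  alg : ∀ c a b, ∃ P : MvPolynomial ι ℂ, ∀ x, y x c ≠ 0 →
    pb S (fun x => aff y c x a) (fun x => aff y c x b) x = eval (aff y c x) P

/-- The fibres of `p` are connected and the functions on the base commute. -/
structure Lagr (S : X → Mat m) (p : X → ι → ℂ) : Prop where
  conn : ∀ x, IsPreconnected {x' | ∃ a : ℂ, p x' = a • p x}
  comm : ∀ x c a b, p x c ≠ 0 → pb S (fun x => aff p c x a) (fun x => aff p c x b) x = 0

variable (m) in
/-- The map to the projective space of dimension `n` is a submersion at `x`. -/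
def Subm {n : ℕ} (p : X → E (n + 1)) (x : X) : Prop :=
  ∃ c, p x c ≠ 0 ∧ Module.finrank ℂ (dif m (aff p c) x).range = n

variable (m) in
/-- The pull-back of the form of Fubini and Study, at `x`, in the preferred chart. -/
def fsm {n : ℕ} (p : X → E (n + 1)) (x : X) : Mat m :=
  HS32.hess (fun z => Real.log (∑ l, Complex.normSq
    (aff p (Classical.epsilon fun c => p x c ≠ 0) ((chartAt (E m) x).symm z) l)))
    (chartAt (E m) x x)

/-- The integral of `c(R) ∧ f ^ j ∧ g ^ j`, where `c(R) = det (1 + R)` is the total Chern form of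
the metric `g`, computed on the cells `B k` of the charts at the points `x k`. -/
def chern (j : ℕ) (g f : X → Mat m) {r : ℕ} (x : Fin r → X) (B : Fin r → Set (E m)) : ℂ :=
  ∑ k, ∫ z in B k, top ((1 + curvM (inChart g (x k)) z).det * lin (inChart f (x k) z) ^ j *
    lin (inChart g (x k) z) ^ j)

end Pool.Agent.Lib.LF
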